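import Mathlib

/-!
# Convex transform order and quantile ratio: definitions
-/

open MeasureTheory ProbabilityTheory Set

namespace Pool.Agent.Helper98.ConvexTransform

/-- The quantile function `F⁻¹(u) = inf {x : F(x) ≥ u}` of the distribution function
`F = cdf F` of a probability measure on the line. -/
noncomputable def quantile (F : Measure ℝ) (u : ℝ) : ℝ := sInf {x : ℝ | u ≤ cdf F x}

/-- `W` is an absolutely continuous distribution whose support interval is `[a, d)`
(with `d = sup {x | W(x) < 1} ≤ ∞`), on which its distribution function is strictly
increasing. -/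
structure IsReference (W : Measure ℝ) (a : ℝ) : Prop where
  isProbabilityMeasure : IsProbabilityMeasure W
  absolutelyContinuous : W ≪ volume
  cdf_left : cdf W a = 0
  strictMonoOn : StrictMonoOn (cdf W) {x : ℝ | a ≤ x ∧ cdf W x < 1}

/-- `F ≽_c W`: the function `W⁻¹ ∘ F` is concave on the support interval of `F`.
(It is required on all `x` with `0 < F(x) < 1`; an atom of `F` is possible only at the left end
of the support, so an atom at the right end is excluded.) -/
def ConvexTransformGE (F W : Measure ℝ) : Prop :=
  ConcaveOn ℝ {x : ℝ | 0 < cdf F x ∧ cdf F x < 1} (fun x => quantile W (cdf F x)) ∧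
    ∀ b : ℝ, IsGreatest F.support b → F {b} = 0

/-- `F ≼_c W`: the function `W⁻¹ ∘ F` is convex on the support interval of `F`.
(It is required on all `x` with `0 < F(x) < 1`; an atom of `F` is possible only at the right end
of the support, so an atom at the left end is excluded.) -/
def ConvexTransformLE (F W : Measure ℝ) : Prop :=
  ConvexOn ℝ {x : ℝ | 0 < cdf F x ∧ cdf F x < 1} (fun x => quantile W (cdf F x)) ∧
    ∀ b : ℝ, IsLeast F.support b → F {b} = 0

/-- `F` is a distribution whose support has left endpoint `0` and whose second raw moment is
positive and finite. -/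
structure IsNormalised (F : Measure ℝ) : Prop where
  isProbabilityMeasure : IsProbabilityMeasure F
  isLeast_support : IsLeast F.support 0
  integrable_sq : Integrable (fun x : ℝ => x ^ 2) F
  pos_sq : 0 < ∫ x, x ^ 2 ∂F

/-- The class `𝒞⁺_W` of distributions succeeding `W` in the convex transform order. -/
def classPlus (W : Measure ℝ) : Set (Measure ℝ) :=
  {F | IsNormalised F ∧ ConvexTransformGE F W}

/-- The class `𝒞⁻_W` of distributions preceding `W` in the convex transform order. -/
def classMinus (W : Measure ℝ) : Set (Measure ℝ) :=
  {F | IsNormalised F ∧ ConvexTransformLE F W}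

/-- The ratio `F⁻¹(p) / m_F`, where `m_F = (∫ x² dF)^{1/2}`. -/
noncomputable def ratio (p : ℝ) (F : Measure ℝ) : ℝ :=
  quantile F p / Real.sqrt (∫ x, x ^ 2 ∂F)

end Pool.Agent.Helper98.ConvexTransform
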