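import Mathlib
import Pool.Agent.Helper98.ConvexTransformDefs

/-!
# Convex transform order and quantile ratio: basic lemmas
-/

open MeasureTheory ProbabilityTheory Set Filter Topology

namespace Pool.Agent.Helper98.ConvexTransform

/-! ### quantiles -/

section Quantile

variable {F : Measure ℝ}

lemma bddBelow_quantile_set (F : Measure ℝ) {u : ℝ} (hu : 0 < u) :
    BddBelow {x : ℝ | u ≤ cdf F x} := by
  have h := (tendsto_order.1 (tendsto_cdf_atBot F)).2 u hu
  obtain ⟨b, hb⟩ := h.exists
  refine ⟨b, fun x hx => ?_⟩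
  by_contra hlt
  push Not at hlt
  have : cdf F x ≤ cdf F b := monotone_cdf F hlt.le
  have hx' : u ≤ cdf F x := hx
  linarith

lemma nonempty_quantile_set (F : Measure ℝ) {u : ℝ} (hu : u < 1) :
    {x : ℝ | u ≤ cdf F x}.Nonempty := by
  have h := (tendsto_order.1 (tendsto_cdf_atTop F)).1 u hu
  obtain ⟨b, hb⟩ := h.exists
  exact ⟨b, hb.le⟩

lemma cdf_lt_of_lt_quantile (F : Measure ℝ) {u x : ℝ} (hu : 0 < u) (hx : x < quantile F u) :
    cdf F x < u := by
  by_contra h
  push Not at h
  exact absurd (csInf_le (bddBelow_quantile_set F hu) h) (not_le.2 hx)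

lemma quantile_le_of_le_cdf (F : Measure ℝ) {u x : ℝ} (hu : 0 < u) (hx : u ≤ cdf F x) :
    quantile F u ≤ x := csInf_le (bddBelow_quantile_set F hu) hx

lemma le_cdf_quantile (F : Measure ℝ) {u : ℝ} (hu0 : 0 < u) (hu1 : u < 1) :
    u ≤ cdf F (quantile F u) := by
  have hne := nonempty_quantile_set F hu1
  have key : ∀ x, quantile F u < x → u ≤ cdf F x := by
    intro x hx
    obtain ⟨y, hy, hyx⟩ := exists_lt_of_csInf_lt hne hx
    exact le_trans hy (monotone_cdf F hyx.le)
  have hc : ContinuousWithinAt (cdf F) (Ici (quantile F u)) (quantile F u) :=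
    (cdf F).right_continuous _
  have hc' : Tendsto (cdf F) (𝓝[>] (quantile F u)) (𝓝 (cdf F (quantile F u))) :=
    hc.mono_left (nhdsWithin_mono _ Ioi_subset_Ici_self)
  refine ge_of_tendsto hc' ?_
  filter_upwards [self_mem_nhdsWithin] with x hx using key x hx

lemma quantile_le_iff (F : Measure ℝ) {u x : ℝ} (hu0 : 0 < u) (hu1 : u < 1) :
    quantile F u ≤ x ↔ u ≤ cdf F x :=
  ⟨fun h => le_trans (le_cdf_quantile F hu0 hu1) (monotone_cdf F h),
    fun h => quantile_le_of_le_cdf F hu0 h⟩

lemma cdf_quantile_of_continuous (F : Measure ℝ) (hF : Continuous (cdf F)) {u : ℝ}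
    (hu0 : 0 < u) (hu1 : u < 1) : cdf F (quantile F u) = u := by
  refine le_antisymm ?_ (le_cdf_quantile F hu0 hu1)
  have hc' : Tendsto (cdf F) (𝓝[<] (quantile F u)) (𝓝 (cdf F (quantile F u))) :=
    (hF.tendsto _).mono_left nhdsWithin_le_nhds
  refine le_of_tendsto hc' ?_
  filter_upwards [self_mem_nhdsWithin] with x hx using (cdf_lt_of_lt_quantile F hu0 hx).le

lemma quantile_mono (F : Measure ℝ) {u v : ℝ} (hu0 : 0 < u) (hv1 : v < 1) (huv : u ≤ v) :
    quantile F u ≤ quantile F v :=
  quantile_le_of_le_cdf F hu0 (le_trans huv (le_cdf_quantile F (hu0.trans_le huv) hv1))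

/-- continuity of the distribution function of an atomless measure -/
lemma continuous_cdf_of_noAtoms (F : Measure ℝ) [IsProbabilityMeasure F]
    (hF : ∀ x, F {x} = 0) : Continuous (cdf F) := by
  rw [continuous_iff_continuousAt]
  intro x
  have h1 : F {x} = 0 := hF x
  have h2 := (cdf F).measure_singleton x
  rw [measure_cdf, h1] at h2
  have h3 : cdf F x ≤ Function.leftLim (cdf F) x := by
    have := ENNReal.ofReal_eq_zero.1 h2.symm
    linarith
  exact (cdf F).mono.continuousAt_iff_leftLim_eq_rightLim.2 (le_antisymm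
    (((cdf F).mono.leftLim_le le_rfl).trans ((cdf F).mono.le_rightLim le_rfl))
    (by rw [StieltjesFunction.rightLim_eq]; exact h3))

end Quantile

/-! ### the reference distribution -/

section Reference

variable {W : Measure ℝ} {a : ℝ}

lemma IsReference.singleton (hW : IsReference W a) (x : ℝ) : W {x} = 0 :=
  hW.absolutelyContinuous (by simp)

lemma IsReference.continuous (hW : IsReference W a) : Continuous (cdf W) := by
  have := hW.isProbabilityMeasure
  exact continuous_cdf_of_noAtoms W hW.singleton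

lemma IsReference.cdf_eq_zero (hW : IsReference W a) {x : ℝ} (hx : x ≤ a) : cdf W x = 0 :=
  le_antisymm (hW.cdf_left ▸ monotone_cdf W hx) (cdf_nonneg W x)

lemma IsReference.cdf_pos (hW : IsReference W a) {x : ℝ} (hx : a < x) : 0 < cdf W x := by
  by_contra h
  push Not at h
  have h0 : cdf W x = 0 := le_antisymm h (cdf_nonneg W x)
  have := hW.strictMonoOn (a := a) (b := x) ⟨le_rfl, by rw [hW.cdf_left]; norm_num⟩
    ⟨hx.le, by rw [h0]; norm_num⟩ hx
  rw [hW.cdf_left, h0] at this
  exact lt_irrefl _ this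

/-- `W⁻¹(u) > a` for `0 < u` -/
lemma IsReference.lt_quantile (hW : IsReference W a) {u : ℝ} (hu0 : 0 < u) (hu1 : u < 1) :
    a < quantile W u := by
  by_contra h
  push Not at h
  have h1 := le_cdf_quantile W hu0 hu1
  rw [hW.cdf_eq_zero h] at h1
  linarith

lemma IsReference.cdf_quantile (hW : IsReference W a) {u : ℝ} (hu0 : 0 < u) (hu1 : u < 1) :
    cdf W (quantile W u) = u := cdf_quantile_of_continuous W hW.continuous hu0 hu1

/-- `W⁻¹(W(x)) = x` inside the support interval -/
lemma IsReference.quantile_cdf (hW : IsReference W a) {x : ℝ} (hx : a < x)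
    (hx1 : cdf W x < 1) : quantile W (cdf W x) = x := by
  have h0 := hW.cdf_pos hx
  refine le_antisymm (quantile_le_of_le_cdf W h0 le_rfl) ?_
  by_contra h
  push Not at h
  have h1 := hW.lt_quantile h0 hx1
  have h2 := hW.cdf_quantile h0 hx1
  have := hW.strictMonoOn (show quantile W (cdf W x) ∈ {x : ℝ | a ≤ x ∧ cdf W x < 1} from
    ⟨h1.le, by rw [h2]; exact hx1⟩)
    (show x ∈ {x : ℝ | a ≤ x ∧ cdf W x < 1} from ⟨hx.le, hx1⟩) h
  rw [h2] at this
  exact lt_irrefl _ this

lemma IsReference.ae_ge (hW : IsReference W a) : ∀ᵐ x ∂W, a < x := by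
  have := hW.isProbabilityMeasure
  have h : W (Iic a) = 0 := by
    rw [← ofReal_cdf, hW.cdf_left, ENNReal.ofReal_zero]
  rw [ae_iff]
  convert h using 2
  ext x
  simp

end Reference

/-! ### left endpoint and atoms -/

section Support

variable {F : Measure ℝ}

lemma measure_Iio_eq_zero [IsProbabilityMeasure F] (h : IsLeast F.support 0) :
    F (Iio 0) = 0 := by
  have h1 : Iio (0 : ℝ) ⊆ F.supportᶜ := by
    intro x hx hxs
    exact absurd (h.2 hxs) (not_le.2 hx)
  exact measure_mono_null h1 Measure.measure_compl_support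

lemma cdf_eq_zero_of_neg [IsProbabilityMeasure F] (h : IsLeast F.support 0) {x : ℝ}
    (hx : x < 0) : cdf F x = 0 := by
  have h1 : F (Iic x) = 0 :=
    measure_mono_null (fun y hy => lt_of_le_of_lt hy hx) (measure_Iio_eq_zero h)
  rw [cdf_eq_real, measureReal_def, h1, ENNReal.toReal_zero]

lemma cdf_pos_of_pos [IsProbabilityMeasure F] (h : IsLeast F.support 0) {x : ℝ}
    (hx : 0 < x) : 0 < cdf F x := by
  have h1 : 0 < F (Iio x) := by
    have := (Measure.mem_support_iff_forall (μ := F) (0 : ℝ)).1 h.1 (Iio x) (Iio_mem_nhds hx)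
    exact this
  have h2 : 0 < F (Iic x) := h1.trans_le (measure_mono Iio_subset_Iic_self)
  rw [cdf_eq_real, measureReal_def]
  exact ENNReal.toReal_pos h2.ne' (measure_ne_top _ _)

lemma quantile_nonneg [IsProbabilityMeasure F] (h : IsLeast F.support 0) {u : ℝ}
    (hu0 : 0 < u) : 0 ≤ quantile F u := by
  by_cases hne : {x : ℝ | u ≤ cdf F x}.Nonempty
  · refine le_csInf hne ?_
    intro x hx
    by_contra hlt
    push Not at hlt
    have hx' : u ≤ cdf F x := hx
    rw [cdf_eq_zero_of_neg h hlt] at hx'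
    linarith
  · rw [not_nonempty_iff_eq_empty] at hne
    rw [quantile, hne, Real.sInf_empty]

/-- if there is no atom at the right endpoint then `F` takes values arbitrarily close to `1`
which are less than `1` -/
lemma exists_cdf_between [IsProbabilityMeasure F]
    (h : ∀ b : ℝ, IsGreatest F.support b → F {b} = 0) {η : ℝ} (hη : η < 1) :
    ∃ x, η < cdf F x ∧ cdf F x < 1 := by
  by_contra hcon
  push Not at hcon
  set η' : ℝ := max η (1 / 2) with hη'
  have hη'1 : η' < 1 := max_lt hη (by norm_num)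
  have hη'0 : 0 < η' := lt_of_lt_of_le (by norm_num) (le_max_right _ _)
  have hcon' : ∀ x, η' < cdf F x → cdf F x = 1 := fun x hx =>
    le_antisymm (cdf_le_one F x) (hcon x (lt_of_le_of_lt (le_max_left _ _) hx))
  obtain ⟨v, hv1, hv2⟩ := exists_between hη'1
  have hv0 : 0 < v := hη'0.trans hv1
  set b := quantile F v with hb
  have hb1 : cdf F b = 1 := hcon' b (hv1.trans_le (le_cdf_quantile F hv0 hv2))
  have hlt : ∀ x, x < b → cdf F x ≤ η' := by
    intro x hx
    by_contra hlt
    push Not at hlt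
    have := hcon' x hlt
    have h2 := cdf_lt_of_lt_quantile F hv0 hx
    linarith
  have hleft : Function.leftLim (cdf F) b ≤ η' := by
    have ht := (cdf F).mono.tendsto_leftLim b
    refine le_of_tendsto ht ?_
    filter_upwards [self_mem_nhdsWithin] with x hx using hlt x hx
  have hsing := (cdf F).measure_singleton b
  rw [measure_cdf, hb1] at hsing
  have hpos : 0 < F {b} := by
    rw [hsing]
    exact ENNReal.ofReal_pos.2 (by linarith)
  have hgr : IsGreatest F.support b := by
    constructor
    · rw [Measure.mem_support_iff_forall]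
      intro U hU
      exact hpos.trans_le (measure_mono (singleton_subset_iff.2 (mem_of_mem_nhds hU)))
    · intro x hx
      by_contra hxb
      push Not at hxb
      rw [Measure.mem_support_iff_forall] at hx
      have h1 := hx (Ioi b) (Ioi_mem_nhds hxb)
      have h2 : F (Ioi b) = 0 := by
        have h3 : F (Iic b) = 1 := by
          rw [← ofReal_cdf, hb1, ENNReal.ofReal_one]
        have h4 : (Ioi b : Set ℝ) = (Iic b)ᶜ := by simp
        rw [h4, prob_compl_eq_zero_iff measurableSet_Iic, h3]
      rw [h2] at h1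
      exact lt_irrefl _ h1
  exact hpos.ne' (h b hgr)

/-- if there is no atom at the left endpoint `0` then `F(0) = 0` -/
lemma cdf_zero_eq_zero [IsProbabilityMeasure F] (hs : IsLeast F.support 0)
    (h : ∀ b : ℝ, IsLeast F.support b → F {b} = 0) : cdf F 0 = 0 := by
  have h1 := h 0 hs
  have h2 := measure_Iio_eq_zero hs
  have h3 : F (Iic 0) = 0 := by
    rw [← Iio_union_right]
    exact measure_union_null h2 h1
  rw [cdf_eq_real, measureReal_def, h3, ENNReal.toReal_zero]

end Support

/-! ### supporting lines -/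

lemma exists_subgradient {S : Set ℝ} {f : ℝ → ℝ} (hf : ConvexOn ℝ S f) {x : ℝ}
    (hx : x ∈ interior S) : ∃ k : ℝ, ∀ y ∈ S, f x + k * (y - x) ≤ f y := by
  refine ⟨derivWithin f (Ioi x) x, fun y hy => ?_⟩
  rcases lt_trichotomy y x with h | h | h
  · have h1 := hf.slope_le_leftDeriv_of_mem_interior hy hx h
    have h2 := hf.leftDeriv_le_rightDeriv_of_mem_interior hx
    have h3 := h1.trans h2
    rw [slope_def_field, div_le_iff₀ (by linarith)] at h3
    linarith
  · subst h; simp
  · have h1 := hf.rightDeriv_le_slope_of_mem_interior hx hy h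
    rw [slope_def_field, le_div_iff₀ (by linarith)] at h1
    linarith

lemma exists_supergradient {S : Set ℝ} {f : ℝ → ℝ} (hf : ConcaveOn ℝ S f) {x : ℝ}
    (hx : x ∈ interior S) : ∃ k : ℝ, ∀ y ∈ S, f y ≤ f x + k * (y - x) := by
  obtain ⟨k, hk⟩ := exists_subgradient hf.neg hx
  refine ⟨-k, fun y hy => ?_⟩
  have := hk y hy
  simp only [Pi.neg_apply] at this
  linarith

/-! ### second moments and stochastic comparison -/

lemma lintegral_sq_eq (μ : Measure ℝ) {f : ℝ → ℝ} (h0 : 0 ≤ᵐ[μ] f) (hf : AEMeasurable f μ) :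
    ∫⁻ x, ENNReal.ofReal (f x ^ 2) ∂μ
      = ∫⁻ t in Ioi (0 : ℝ), μ {x | t < f x} * ENNReal.ofReal (2 * t) := by
  rw [← lintegral_comp_eq_lintegral_meas_lt_mul μ h0 hf]
  · refine lintegral_congr fun x => ?_
    congr 1
    rw [intervalIntegral.integral_const_mul, integral_id]
    ring
  · intro t _
    exact (continuous_const.mul continuous_id).intervalIntegrable _ _
  · filter_upwards [ae_restrict_mem measurableSet_Ioi] with t ht
    have : (0 : ℝ) < t := ht
    positivity

/-- If `Y` is stochastically smaller than `Y'` then its second moment is smaller. -/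
lemma lintegral_sq_mono (μ ν : Measure ℝ) {f g : ℝ → ℝ} (hf0 : 0 ≤ᵐ[μ] f)
    (hf : AEMeasurable f μ) (hg0 : 0 ≤ᵐ[ν] g) (hg : AEMeasurable g ν)
    (h : ∀ t : ℝ, 0 < t → μ {x | t < f x} ≤ ν {x | t < g x}) :
    ∫⁻ x, ENNReal.ofReal (f x ^ 2) ∂μ ≤ ∫⁻ x, ENNReal.ofReal (g x ^ 2) ∂ν := by
  rw [lintegral_sq_eq μ hf0 hf, lintegral_sq_eq ν hg0 hg]
  refine lintegral_mono_ae ?_
  filter_upwards [ae_restrict_mem measurableSet_Ioi] with t ht
  exact mul_le_mul' (h t ht) le_rfl

lemma integrable_sq_of_lintegral_le {μ ν : Measure ℝ} {f g : ℝ → ℝ}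
    (hf : AEStronglyMeasurable (fun x => f x ^ 2) μ) (hg : Integrable (fun x => g x ^ 2) ν)
    (h : ∫⁻ x, ENNReal.ofReal (f x ^ 2) ∂μ ≤ ∫⁻ x, ENNReal.ofReal (g x ^ 2) ∂ν) :
    Integrable (fun x => f x ^ 2) μ ∧ ∫ x, f x ^ 2 ∂μ ≤ ∫ x, g x ^ 2 ∂ν := by
  have h1 : ∫⁻ x, ENNReal.ofReal (g x ^ 2) ∂ν ≠ ⊤ := by
    have := hg.lintegral_lt_top
    exact this.ne
  have hfi : Integrable (fun x => f x ^ 2) μ := by
    refine ⟨hf, ?_⟩
    rw [hasFiniteIntegral_iff_ofReal (ae_of_all _ fun x => sq_nonneg _)]
    exact lt_of_le_of_lt h (lt_top_iff_ne_top.2 h1)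
  refine ⟨hfi, ?_⟩
  rw [integral_eq_lintegral_of_nonneg_ae (ae_of_all _ fun x => sq_nonneg _) hf,
    integral_eq_lintegral_of_nonneg_ae (ae_of_all _ fun x => sq_nonneg _)
      hg.aestronglyMeasurable]
  exact ENNReal.toReal_mono h1 h

/-! ### members of the classes -/

lemma convex_inner (F : Measure ℝ) : Convex ℝ {x : ℝ | 0 < cdf F x ∧ cdf F x < 1} := by
  have : {x : ℝ | 0 < cdf F x ∧ cdf F x < 1} = cdf F ⁻¹' Ioo 0 1 := by
    ext x; simp
  rw [this]
  exact (ordConnected_Ioo.preimage_mono (monotone_cdf F)).convex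

section Members

variable {W : Measure ℝ} {a : ℝ} {G : ℝ → ℝ}

/-- the law of `G(Z - a)` for `Z ∼ W` -/
noncomputable def lawOf (W : Measure ℝ) (a : ℝ) (G : ℝ → ℝ) : Measure ℝ :=
  W.map (fun x => G (x - a))

lemma meas_aux (hG : Continuous G) : Measurable (fun x : ℝ => G (x - a)) :=
  (hG.comp (continuous_id.sub continuous_const)).measurable

lemma isProb_lawOf (hW : IsReference W a) (hG : Continuous G) :
    IsProbabilityMeasure (lawOf W a G) := by
  have := hW.isProbabilityMeasure
  exact Measure.isProbabilityMeasure_map (meas_aux hG).aemeasurable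

lemma cdf_lawOf (hW : IsReference W a) (hG : Continuous G) (hGm : StrictMono G) (z : ℝ) :
    cdf (lawOf W a G) (G z) = cdf W (a + z) := by
  have := hW.isProbabilityMeasure
  have := isProb_lawOf hW hG
  rw [cdf_eq_real, cdf_eq_real, measureReal_def, measureReal_def, lawOf,
    Measure.map_apply (meas_aux hG) measurableSet_Iic]
  congr 2
  ext x
  simp only [mem_preimage, mem_Iic, hGm.le_iff_le]
  constructor <;> intro h <;> linarith

lemma exists_preimage_lawOf (hW : IsReference W a) (hG : Continuous G) (hGm : StrictMono G)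
    (hG0 : G 0 = 0) {t : ℝ} (ht0 : 0 < cdf (lawOf W a G) t) (ht1 : cdf (lawOf W a G) t < 1) :
    ∃ z, G z = t ∧ 0 < z ∧ cdf W (a + z) < 1 := by
  have := hW.isProbabilityMeasure
  have := isProb_lawOf hW hG
  have htpos : 0 < t := by
    by_contra h
    push Not at h
    have h1 : cdf (lawOf W a G) t ≤ cdf (lawOf W a G) (G 0) :=
      monotone_cdf _ (by rw [hG0]; exact h)
    rw [cdf_lawOf hW hG hGm, add_zero, hW.cdf_left] at h1
    linarith
  have hex : ∃ z, t ≤ G z := by
    by_contra h
    push Not at h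
    have h1 : lawOf W a G (Iic t) = 1 := by
      rw [lawOf, Measure.map_apply (meas_aux hG) measurableSet_Iic]
      have : (fun x => G (x - a)) ⁻¹' Iic t = univ := by
        ext x
        simp only [mem_preimage, mem_Iic, mem_univ, iff_true]
        exact (h _).le
      rw [this, measure_univ]
    rw [cdf_eq_real, measureReal_def, h1] at ht1
    simp at ht1
  obtain ⟨z1, hz1⟩ := hex
  have hz1pos : 0 < z1 := by
    by_contra h
    push Not at h
    have := hGm.monotone h
    rw [hG0] at this
    linarith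
  obtain ⟨z, hz, hzt⟩ := intermediate_value_Icc hz1pos.le hG.continuousOn
    (show t ∈ Icc (G 0) (G z1) from ⟨by rw [hG0]; exact htpos.le, hz1⟩)
  have hzpos : 0 < z := by
    rcases hz.1.lt_or_eq with h | h
    · exact h
    · rw [← h, hG0] at hzt; linarith
  refine ⟨z, hzt, hzpos, ?_⟩
  rw [← cdf_lawOf hW hG hGm, hzt]
  exact ht1

lemma quantile_cdf_lawOf (hW : IsReference W a) (hG : Continuous G) (hGm : StrictMono G)
    {z : ℝ} (hz : 0 < z) (hz1 : cdf W (a + z) < 1) :
    quantile W (cdf (lawOf W a G) (G z)) = a + z := by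
  rw [cdf_lawOf hW hG hGm]
  exact hW.quantile_cdf (by linarith) hz1

lemma quantile_lawOf (hW : IsReference W a) (hG : Continuous G) (hGm : StrictMono G)
    {p : ℝ} (hp0 : 0 < p) (hp1 : p < 1) :
    quantile (lawOf W a G) p = G (quantile W p - a) := by
  set zp := quantile W p - a with hzp
  have h1 : cdf (lawOf W a G) (G zp) = p := by
    rw [cdf_lawOf hW hG hGm, hzp, add_sub_cancel, hW.cdf_quantile hp0 hp1]
  refine le_antisymm (quantile_le_of_le_cdf _ hp0 h1.ge) ?_
  by_contra h
  push Not at h
  set t := quantile (lawOf W a G) p with ht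
  have h2 : ∀ᶠ z in 𝓝[<] zp, t < G z :=
    ((hG.tendsto zp).mono_left nhdsWithin_le_nhds).eventually (lt_mem_nhds h)
  obtain ⟨z, hz1, hz2⟩ := (h2.and self_mem_nhdsWithin).exists
  have hz2' : z < zp := hz2
  have h3 : cdf (lawOf W a G) t ≤ cdf (lawOf W a G) (G z) := monotone_cdf _ hz1.le
  rw [cdf_lawOf hW hG hGm] at h3
  have h4 : cdf W (a + z) < p := cdf_lt_of_lt_quantile W hp0 (by rw [hzp] at hz2'; linarith)
  have h5 := le_cdf_quantile (lawOf W a G) hp0 hp1
  rw [← ht] at h5
  linarith

lemma lawOf_singleton (hW : IsReference W a) (hG : Continuous G) (hGm : StrictMono G) (t : ℝ) :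
    lawOf W a G {t} = 0 := by
  rw [lawOf, Measure.map_apply (meas_aux hG) (measurableSet_singleton t)]
  by_cases h : ∃ x, G (x - a) = t
  · obtain ⟨x, hx⟩ := h
    have : (fun x => G (x - a)) ⁻¹' {t} = {x} := by
      ext y
      simp only [mem_preimage, mem_singleton_iff, ← hx, hGm.injective.eq_iff]
      constructor <;> intro h <;> linarith
    rw [this, hW.singleton]
  · push Not at h
    have : (fun x => G (x - a)) ⁻¹' {t} = ∅ := by
      ext y
      simp [h y]
    rw [this, measure_empty]

lemma isLeast_support_lawOf (hW : IsReference W a) (hG : Continuous G) (hGm : StrictMono G)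
    (hG0 : G 0 = 0) : IsLeast (lawOf W a G).support 0 := by
  have := hW.isProbabilityMeasure
  have := isProb_lawOf hW hG
  constructor
  · rw [Measure.mem_support_iff_forall]
    intro U hU
    obtain ⟨ε, hε, hεU⟩ := Metric.mem_nhds_iff.1 hU
    have h1 : ∀ᶠ z in 𝓝[>] (0 : ℝ), G z < ε := by
      have := (hG.tendsto 0).mono_left (nhdsWithin_le_nhds (s := Ioi 0))
      rw [hG0] at this
      exact this.eventually (gt_mem_nhds hε)
    obtain ⟨z, hz1, hz2⟩ := (h1.and self_mem_nhdsWithin).exists
    have hz0 : 0 < z := hz2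
    have h2 : Ioc a (a + z) ⊆ (fun x => G (x - a)) ⁻¹' (Metric.ball 0 ε) := by
      intro x hx
      simp only [mem_preimage, Metric.mem_ball, Real.dist_eq, sub_zero]
      have hx0 : 0 < G (x - a) := by
        rw [← hG0]; exact hGm (by linarith [hx.1])
      have hx1 : G (x - a) ≤ G z := hGm.monotone (by linarith [hx.2])
      rw [abs_of_pos hx0]
      linarith
    have h3 : 0 < W (Ioc a (a + z)) := by
      rw [← measure_cdf W, StieltjesFunction.measure_Ioc, hW.cdf_left]
      exact ENNReal.ofReal_pos.2 (by have := hW.cdf_pos (x := a + z) (by linarith); linarith)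
    have h4 : lawOf W a G (Metric.ball 0 ε) = W ((fun x => G (x - a)) ⁻¹' (Metric.ball 0 ε)) := by
      rw [lawOf, Measure.map_apply (meas_aux hG) Metric.isOpen_ball.measurableSet]
    calc 0 < W (Ioc a (a + z)) := h3
      _ ≤ W ((fun x => G (x - a)) ⁻¹' (Metric.ball 0 ε)) := measure_mono h2
      _ = lawOf W a G (Metric.ball 0 ε) := h4.symm
      _ ≤ lawOf W a G U := measure_mono hεU
  · intro x hx
    by_contra hx0
    push Not at hx0
    rw [Measure.mem_support_iff_forall] at hx
    have h1 := hx (Iio 0) (Iio_mem_nhds hx0)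
    have h2 : lawOf W a G (Iio 0) = 0 := by
      rw [lawOf, Measure.map_apply (meas_aux hG) measurableSet_Iio]
      refine measure_mono_null (t := Iic a) ?_ ?_
      · intro y hy
        simp only [mem_preimage, mem_Iio] at hy
        rw [← hG0] at hy
        have := hGm.lt_iff_lt.1 hy
        simp only [mem_Iic]
        linarith
      · rw [← ofReal_cdf, hW.cdf_left, ENNReal.ofReal_zero]
    rw [h2] at h1
    exact lt_irrefl _ h1

lemma integral_lawOf (hG : Continuous G) :
    ∫ x, x ^ 2 ∂(lawOf W a G) = ∫ x, G (x - a) ^ 2 ∂W := by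
  rw [lawOf, integral_map (meas_aux hG).aemeasurable]
  exact (continuous_pow 2).aestronglyMeasurable

lemma isNormalised_lawOf (hW : IsReference W a) (hG : Continuous G) (hGm : StrictMono G)
    (hG0 : G 0 = 0) (hint : Integrable (fun x => G (x - a) ^ 2) W) :
    IsNormalised (lawOf W a G) := by
  have := hW.isProbabilityMeasure
  refine ⟨isProb_lawOf hW hG, isLeast_support_lawOf hW hG hGm hG0, ?_, ?_⟩
  · rw [lawOf, integrable_map_measure (continuous_pow 2).aestronglyMeasurable
      (meas_aux hG).aemeasurable]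
    exact hint
  · rw [integral_lawOf hG, integral_pos_iff_support_of_nonneg (fun x => sq_nonneg _) hint]
    rw [pos_iff_ne_zero]
    intro h0
    have h1 : ∀ᵐ x ∂W, x ∉ Function.support (fun x => G (x - a) ^ 2) := by
      rw [ae_iff]
      convert h0 using 2
      ext x
      simp
    obtain ⟨x, hx1, hx2⟩ := (h1.and hW.ae_ge).exists
    apply hx1
    simp only [Function.mem_support]
    have : 0 < G (x - a) := by rw [← hG0]; exact hGm (by linarith)
    positivity

lemma concave_lawOf (hW : IsReference W a) (hG : Continuous G) (hGm : StrictMono G)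
    (hG0 : G 0 = 0) (hconv : ConvexOn ℝ univ G) : ConvexTransformGE (lawOf W a G) W := by
  refine ⟨⟨convex_inner _, ?_⟩, fun b _ => lawOf_singleton hW hG hGm b⟩
  intro x hx y hy s t hs ht hst
  have hxy := convex_inner (lawOf W a G) hx hy hs ht hst
  obtain ⟨u, hu, hu0, hu1⟩ := exists_preimage_lawOf hW hG hGm hG0 hx.1 hx.2
  obtain ⟨v, hv, hv0, hv1⟩ := exists_preimage_lawOf hW hG hGm hG0 hy.1 hy.2
  obtain ⟨w, hw, hw0, hw1⟩ := exists_preimage_lawOf hW hG hGm hG0 hxy.1 hxy.2
  simp only [smul_eq_mul] at hw ⊢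
  rw [← hw, ← hu, ← hv, quantile_cdf_lawOf hW hG hGm hu0 hu1,
    quantile_cdf_lawOf hW hG hGm hv0 hv1, quantile_cdf_lawOf hW hG hGm hw0 hw1]
  have h1 := hconv.2 (mem_univ u) (mem_univ v) hs ht hst
  simp only [smul_eq_mul] at h1
  rw [hu, hv, ← hw] at h1
  have h2 := hGm.le_iff_le.1 h1
  have : s * (a + u) + t * (a + v) = a + (s * u + t * v) := by
    have : a = (s + t) * a := by rw [hst, one_mul]
    linarith
  linarith

lemma convex_lawOf (hW : IsReference W a) (hG : Continuous G) (hGm : StrictMono G)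
    (hG0 : G 0 = 0) (hconc : ConcaveOn ℝ univ G) : ConvexTransformLE (lawOf W a G) W := by
  refine ⟨⟨convex_inner _, ?_⟩, fun b _ => lawOf_singleton hW hG hGm b⟩
  intro x hx y hy s t hs ht hst
  have hxy := convex_inner (lawOf W a G) hx hy hs ht hst
  obtain ⟨u, hu, hu0, hu1⟩ := exists_preimage_lawOf hW hG hGm hG0 hx.1 hx.2
  obtain ⟨v, hv, hv0, hv1⟩ := exists_preimage_lawOf hW hG hGm hG0 hy.1 hy.2
  obtain ⟨w, hw, hw0, hw1⟩ := exists_preimage_lawOf hW hG hGm hG0 hxy.1 hxy.2
  simp only [smul_eq_mul] at hw ⊢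
  rw [← hw, ← hu, ← hv, quantile_cdf_lawOf hW hG hGm hu0 hu1,
    quantile_cdf_lawOf hW hG hGm hv0 hv1, quantile_cdf_lawOf hW hG hGm hw0 hw1]
  have h1 := hconc.2 (mem_univ u) (mem_univ v) hs ht hst
  simp only [smul_eq_mul] at h1
  rw [hu, hv, ← hw] at h1
  have h2 := hGm.le_iff_le.1 h1
  have : s * (a + u) + t * (a + v) = a + (s * u + t * v) := by
    have : a = (s + t) * a := by rw [hst, one_mul]
    linarith
  linarith

lemma ratio_lawOf (hW : IsReference W a) (hG : Continuous G) (hGm : StrictMono G)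
    {p : ℝ} (hp0 : 0 < p) (hp1 : p < 1) :
    ratio p (lawOf W a G) =
      G (quantile W p - a) / Real.sqrt (∫ x, G (x - a) ^ 2 ∂W) := by
  rw [ratio, quantile_lawOf hW hG hGm hp0 hp1, integral_lawOf hG]

end Members

/-! ### the key inequality for the class `𝒞⁺_W` -/

section Plus

variable {W F : Measure ℝ} {a p : ℝ}

/-- For `F` in `𝒞⁺_W` with `F⁻¹(p) > 0`, `F` dominates the law of `s (Z - a - α)_+`,
which has the same `p`-quantile. -/
lemma plus_bound (hW : IsReference W a) (hF : F ∈ classPlus W) (hp0 : 0 < p) (hp1 : p < 1)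
    (hq : 0 < quantile F p) :
    ∃ α s : ℝ, 0 ≤ α ∧ α < quantile W p - a ∧ 0 < s ∧
      quantile F p = s * (quantile W p - a - α) ∧
      Integrable (fun x => (s * max (x - a - α) 0) ^ 2) W ∧
      ∫ x, (s * max (x - a - α) 0) ^ 2 ∂W ≤ ∫ x, x ^ 2 ∂F := by
  have := hW.isProbabilityMeasure
  obtain ⟨hN, hconc, hright⟩ := hF
  have := hN.isProbabilityMeasure
  set I := {x : ℝ | 0 < cdf F x ∧ cdf F x < 1} with hI
  set H : ℝ → ℝ := fun x => quantile W (cdf F x) with hH
  set xp := quantile F p with hxp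
  set wp := quantile W p with hwp
  have hWc := hW.continuous
  -- points to the right of `xp`
  obtain ⟨x1, hx1p, hx11⟩ := exists_cdf_between hright hp1
  have hx1 : xp ≤ x1 := quantile_le_of_le_cdf F hp0 hx1p.le
  obtain ⟨x2, hx2p, hx21⟩ := exists_cdf_between hright hx11
  have hx2 : xp < x2 := lt_of_le_of_lt hx1 (by
    by_contra h
    push Not at h
    exact absurd (monotone_cdf F h) (not_le.2 hx2p))
  have hIsub : Ioo 0 x2 ⊆ I := fun x hx =>
    ⟨cdf_pos_of_pos hN.isLeast_support hx.1, lt_of_le_of_lt (monotone_cdf F hx.2.le) hx21⟩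
  have hxpint : xp ∈ interior I :=
    interior_mono hIsub (by rw [isOpen_Ioo.interior_eq]; exact ⟨hq, hx2⟩)
  -- `F = W ∘ H` on `I`
  have hFH : ∀ x ∈ I, cdf F x = cdf W (H x) := fun x hx => (hW.cdf_quantile hx.1 hx.2).symm
  -- continuity at `xp`
  have hHc : ContinuousAt H xp := hconc.continuousOn_interior.continuousAt
    (isOpen_interior.mem_nhds hxpint)
  have hFc : ContinuousAt (cdf F) xp := by
    have h1 : ContinuousAt (fun x => cdf W (H x)) xp := hWc.continuousAt.comp hHc
    refine h1.congr ?_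
    filter_upwards [isOpen_interior.mem_nhds hxpint] with x hx
    exact (hFH x (interior_subset hx)).symm
  have hFxp : cdf F xp = p := by
    refine le_antisymm ?_ (le_cdf_quantile F hp0 hp1)
    have h1 : Tendsto (cdf F) (𝓝[<] xp) (𝓝 (cdf F xp)) := hFc.mono_left nhdsWithin_le_nhds
    refine le_of_tendsto h1 ?_
    filter_upwards [self_mem_nhdsWithin] with x hx using (cdf_lt_of_lt_quantile F hp0 hx).le
  have hHxp : H xp = wp := by simp only [hH, hFxp, hwp]
  obtain ⟨k, hk⟩ := exists_supergradient hconc hxpint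
  have hk' : ∀ y ∈ I, H y ≤ wp + k * (y - xp) := fun y hy => hHxp ▸ hk y hy
  -- `k > 0`
  have hkpos : 0 < k := by
    have h1 : p < cdf F x2 := hx1p.trans hx2p
    have hx2I : x2 ∈ I := ⟨hp0.trans h1, hx21⟩
    have h2 := hk' x2 hx2I
    have h3 : wp < H x2 := by
      by_contra h
      push Not at h
      have h4 := monotone_cdf W h
      rw [← hFH x2 hx2I, hwp, hW.cdf_quantile hp0 hp1] at h4
      linarith
    have h5 : 0 < k * (x2 - xp) := by linarith
    exact (mul_pos_iff_of_pos_right (by linarith)).1 h5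
  -- `k * xp ≤ wp - a`
  have hkle : k * xp ≤ wp - a := by
    have h1 : ∀ x ∈ Ioo 0 xp, k * xp ≤ wp - a + k * x := by
      intro x hx
      have hxI : x ∈ I := hIsub ⟨hx.1, hx.2.trans hx2⟩
      have h2 := hk' x hxI
      have h3 : a < H x := hW.lt_quantile hxI.1 hxI.2
      nlinarith
    have h2 : Tendsto (fun x => wp - a + k * x) (𝓝[>] 0) (𝓝 (wp - a + k * 0)) :=
      (tendsto_const_nhds.add (tendsto_const_nhds.mul tendsto_id)).mono_left nhdsWithin_le_nhds
    have h3 := ge_of_tendsto (f := fun x => wp - a + k * x) (b := k * xp) h2 (by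
      filter_upwards [Ioo_mem_nhdsGT hq] with x hx using h1 x hx)
    simpa using h3
  -- comparison of distribution functions
  have hcomp : ∀ x, 0 < x → cdf F x ≤ cdf W (wp + k * (x - xp)) := by
    intro x hx
    by_cases hx1 : cdf F x < 1
    · have hxI : x ∈ I := ⟨cdf_pos_of_pos hN.isLeast_support hx, hx1⟩
      rw [hFH x hxI]
      exact monotone_cdf W (hk' x hxI)
    · have hx1' : cdf F x = 1 := le_antisymm (cdf_le_one F x) (not_lt.1 hx1)
      rw [hx1']
      refine le_of_forall_lt fun η hη => ?_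
      obtain ⟨y, hy1, hy2⟩ := exists_cdf_between hright (show max η 0 < 1 from max_lt hη one_pos)
      have hyI : y ∈ I := ⟨lt_of_le_of_lt (le_max_right _ _) hy1, hy2⟩
      have hyx : y ≤ x := by
        by_contra h
        push Not at h
        have := monotone_cdf F h.le
        linarith
      calc η ≤ max η 0 := le_max_left _ _
        _ < cdf F y := hy1
        _ = cdf W (H y) := hFH y hyI
        _ ≤ cdf W (wp + k * (y - xp)) := monotone_cdf W (hk' y hyI)
        _ ≤ cdf W (wp + k * (x - xp)) := monotone_cdf W (by nlinarith)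
  -- the parameters
  have hzp : 0 < wp - a := by have := hW.lt_quantile hp0 hp1; linarith
  refine ⟨wp - a - k * xp, k⁻¹, by linarith, by nlinarith [mul_pos hkpos hq], inv_pos.2 hkpos,
    ?_, ?_⟩
  · field_simp
    ring
  set α := wp - a - k * xp with hα
  have hmeas : Measurable (fun x : ℝ => k⁻¹ * max (x - a - α) 0) := by fun_prop
  have hlin : ∫⁻ x, ENNReal.ofReal ((k⁻¹ * max (x - a - α) 0) ^ 2) ∂W
      ≤ ∫⁻ x, ENNReal.ofReal (x ^ 2) ∂F := by
    refine lintegral_sq_mono W F (f := fun x => k⁻¹ * max (x - a - α) 0) (g := fun x => x)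
      ?_ hmeas.aemeasurable ?_ measurable_id.aemeasurable ?_
    · exact ae_of_all _ fun x => mul_nonneg (inv_nonneg.2 hkpos.le) (le_max_right _ _)
    · have h0 := measure_Iio_eq_zero hN.isLeast_support
      rw [Filter.EventuallyLE, ae_iff]
      convert h0 using 2
      ext x
      simp
    · intro t ht
      have hset : {x : ℝ | t < k⁻¹ * max (x - a - α) 0} = Ioi (wp + k * (t - xp)) := by
        ext x
        simp only [mem_ofPred_eq, mem_Ioi]
        rw [lt_inv_mul_iff₀ hkpos]
        constructor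
        · intro h
          rcases le_or_gt (x - a - α) 0 with h0 | h0
          · rw [max_eq_right h0] at h
            nlinarith
          · rw [max_eq_left h0.le] at h
            rw [hα] at h
            linarith
        · intro h
          refine lt_of_lt_of_le ?_ (le_max_left _ _)
          rw [hα]
          linarith
      have hset2 : {x : ℝ | t < x} = Ioi t := rfl
      rw [hset, hset2]
      have h1 := hcomp t ht
      have e1 : F (Ioi t) = ENNReal.ofReal (1 - cdf F t) := by
        have : Ioi t = (Iic t)ᶜ := by simp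
        rw [this, prob_compl_eq_one_sub measurableSet_Iic, ← ofReal_cdf F,
          ENNReal.ofReal_sub _ (cdf_nonneg F t), ENNReal.ofReal_one]
      have e2 : ∀ u, W (Ioi u) = ENNReal.ofReal (1 - cdf W u) := by
        intro u
        have : Ioi u = (Iic u)ᶜ := by simp
        rw [this, prob_compl_eq_one_sub measurableSet_Iic, ← ofReal_cdf W,
          ENNReal.ofReal_sub _ (cdf_nonneg W u), ENNReal.ofReal_one]
      rw [e1, e2]
      exact ENNReal.ofReal_le_ofReal (by linarith)
  exact integrable_sq_of_lintegral_le (f := fun x => k⁻¹ * max (x - a - α) 0) (g := fun x => x)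
    (hmeas.pow_const 2).aestronglyMeasurable hN.integrable_sq hlin

end Plus

/-! ### the key inequalities for the class `𝒞⁻_W` -/

section Minus

variable {W F : Measure ℝ} {a p : ℝ}

lemma measure_Ioi_eq (μ : Measure ℝ) [IsProbabilityMeasure μ] (u : ℝ) :
    μ (Ioi u) = ENNReal.ofReal (1 - cdf μ u) := by
  have : Ioi u = (Iic u)ᶜ := by simp
  rw [this, prob_compl_eq_one_sub measurableSet_Iic, ← ofReal_cdf μ,
    ENNReal.ofReal_sub _ (cdf_nonneg μ u), ENNReal.ofReal_one]

lemma minus_quantile_pos (hF : F ∈ classMinus W) (hp0 : 0 < p) (hp1 : p < 1) :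
    0 < quantile F p := by
  obtain ⟨hN, hconv, hleft⟩ := hF
  have := hN.isProbabilityMeasure
  have h0 := cdf_zero_eq_zero hN.isLeast_support hleft
  have h1 := le_cdf_quantile F hp0 hp1
  have h2 := quantile_nonneg hN.isLeast_support hp0
  rcases h2.lt_or_eq with h | h
  · exact h
  · rw [← h, h0] at h1
    linarith

/-- near `0` the function `W⁻¹ ∘ F` tends to `a` -/
lemma minus_near_zero (hW : IsReference W a) (hF : F ∈ classMinus W) {δ : ℝ} (hδ : 0 < δ) :
    ∃ η : ℝ, 0 < η ∧ ∀ x, 0 < x → x < η → quantile W (cdf F x) ≤ a + δ := by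
  obtain ⟨hN, hconv, hleft⟩ := hF
  have := hN.isProbabilityMeasure
  have h0 := cdf_zero_eq_zero hN.isLeast_support hleft
  have hpos := hW.cdf_pos (x := a + δ) (by linarith)
  have hc : ContinuousWithinAt (cdf F) (Ici 0) 0 := (cdf F).right_continuous _
  have hc' : Tendsto (cdf F) (𝓝[>] 0) (𝓝 (cdf F 0)) :=
    hc.mono_left (nhdsWithin_mono _ Ioi_subset_Ici_self)
  rw [h0] at hc'
  have h1 := hc'.eventually (gt_mem_nhds hpos)
  rw [eventually_nhdsWithin_iff, Metric.eventually_nhds_iff] at h1
  obtain ⟨ε, hε, h⟩ := h1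
  refine ⟨ε, hε, fun x hx0 hxε => ?_⟩
  have h2 := h (y := x) (by rw [Real.dist_eq, sub_zero, abs_of_pos hx0]; exact hxε) hx0
  exact quantile_le_of_le_cdf W (cdf_pos_of_pos hN.isLeast_support hx0) h2.le

/-- For `F` in `𝒞⁻_W`, `F` dominates the law of `(x_p / z_p) min (Z - a, z_p)`. -/
lemma minus_bound_upper (hW : IsReference W a) (hF : F ∈ classMinus W) (hp0 : 0 < p)
    (hp1 : p < 1) :
    ∫ x, ((quantile F p / (quantile W p - a)) * min (max (x - a) 0) (quantile W p - a)) ^ 2 ∂W
      ≤ ∫ x, x ^ 2 ∂F := by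
  have hq := minus_quantile_pos hF hp0 hp1
  have hnz := fun {δ : ℝ} (hδ : 0 < δ) => minus_near_zero hW hF hδ
  have := hW.isProbabilityMeasure
  obtain ⟨hN, hconv, hleft⟩ := hF
  have := hN.isProbabilityMeasure
  set I := {x : ℝ | 0 < cdf F x ∧ cdf F x < 1} with hI
  set H : ℝ → ℝ := fun x => quantile W (cdf F x) with hH
  set xp := quantile F p with hxp
  set wp := quantile W p with hwp
  have hzp : 0 < wp - a := by have := hW.lt_quantile hp0 hp1; linarith
  have hIsub : Ioo 0 xp ⊆ I := fun x hx =>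
    ⟨cdf_pos_of_pos hN.isLeast_support hx.1, (cdf_lt_of_lt_quantile F hp0 hx.2).trans hp1⟩
  have hFH : ∀ x ∈ I, cdf F x = cdf W (H x) := fun x hx => (hW.cdf_quantile hx.1 hx.2).symm
  have hHle : ∀ x ∈ Ioo 0 xp, H x ≤ wp := fun x hx =>
    quantile_mono W (hIsub hx).1 hp1 (cdf_lt_of_lt_quantile F hp0 hx.2).le
  -- chord estimate
  have hchord : ∀ x ∈ Ioo 0 xp, H x ≤ a + (wp - a) / xp * x := by
    intro x hx
    -- for all `δ > 0`, small `u` and `v` close to `xp`
    have key : ∀ δ > 0, ∀ v ∈ Ioo x xp, v * H x ≤ (v - x) * (a + δ) + x * wp := by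
      intro δ hδ v hv
      obtain ⟨η, hη, hη'⟩ := hnz hδ
      have key2 : ∀ u ∈ Ioo 0 (min η x), (v - u) * H x ≤ (v - x) * (a + δ) + (x - u) * wp := by
        intro u hu
        have hux : u < x := lt_of_lt_of_le hu.2 (min_le_right _ _)
        have huη : u < η := lt_of_lt_of_le hu.2 (min_le_left _ _)
        have huI : u ∈ I := hIsub ⟨hu.1, hux.trans hx.2⟩
        have hvI : v ∈ I := hIsub ⟨hx.1.trans hv.1, hv.2⟩
        have huv : 0 < v - u := by linarith [hv.1]
        have hc1 : 0 ≤ (v - x) / (v - u) := div_nonneg (by linarith [hv.1]) huv.le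
        have hc2 : 0 ≤ (x - u) / (v - u) := div_nonneg (by linarith) huv.le
        have hc3 : (v - x) / (v - u) + (x - u) / (v - u) = 1 := by field_simp; ring
        have h1 := hconv.2 huI hvI hc1 hc2 hc3
        simp only [smul_eq_mul] at h1
        have h2 : (v - x) / (v - u) * u + (x - u) / (v - u) * v = x := by
          field_simp
          ring
        rw [h2] at h1
        have h3 : H x ≤ (v - x) / (v - u) * H u + (x - u) / (v - u) * H v := h1
        have h4 : (v - u) * H x ≤ (v - x) * H u + (x - u) * H v := by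
          have := mul_le_mul_of_nonneg_left h3 huv.le
          have e : (v - u) * ((v - x) / (v - u) * H u + (x - u) / (v - u) * H v)
              = (v - x) * H u + (x - u) * H v := by
            field_simp
          linarith
        have h5 : H u ≤ a + δ := hη' u hu.1 huη
        have h6 : H v ≤ wp := hHle v ⟨hx.1.trans hv.1, hv.2⟩
        have h7 : (v - x) * H u ≤ (v - x) * (a + δ) :=
          mul_le_mul_of_nonneg_left h5 (by linarith [hv.1])
        have h8 : (x - u) * H v ≤ (x - u) * wp := mul_le_mul_of_nonneg_left h6 (by linarith)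
        linarith
      have ht1 : Tendsto (fun u => (v - u) * H x) (𝓝[>] 0) (𝓝 ((v - 0) * H x)) :=
        ((tendsto_const_nhds.sub tendsto_id).mul tendsto_const_nhds).mono_left
          nhdsWithin_le_nhds
      have ht2 : Tendsto (fun u => (v - x) * (a + δ) + (x - u) * wp) (𝓝[>] 0)
          (𝓝 ((v - x) * (a + δ) + (x - 0) * wp)) :=
        (tendsto_const_nhds.add ((tendsto_const_nhds.sub tendsto_id).mul
          tendsto_const_nhds)).mono_left nhdsWithin_le_nhds
      have := le_of_tendsto_of_tendsto ht1 ht2 (by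
        filter_upwards [Ioo_mem_nhdsGT (lt_min hη hx.1)] with u hu using key2 u hu)
      simpa using this
    have key3 : ∀ v ∈ Ioo x xp, v * H x ≤ (v - x) * a + x * wp := by
      intro v hv
      have ht : Tendsto (fun δ => (v - x) * (a + δ) + x * wp) (𝓝[>] 0)
          (𝓝 ((v - x) * (a + 0) + x * wp)) :=
        ((tendsto_const_nhds.mul (tendsto_const_nhds.add tendsto_id)).add
          tendsto_const_nhds).mono_left nhdsWithin_le_nhds
      have := ge_of_tendsto (f := fun δ => (v - x) * (a + δ) + x * wp) (b := v * H x) ht (by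
        filter_upwards [self_mem_nhdsWithin] with δ hδ using key δ hδ v hv)
      simpa using this
    have key4 : xp * H x ≤ (xp - x) * a + x * wp := by
      have ht1 : Tendsto (fun v => v * H x) (𝓝[<] xp) (𝓝 (xp * H x)) :=
        (tendsto_id.mul tendsto_const_nhds).mono_left nhdsWithin_le_nhds
      have ht2 : Tendsto (fun v => (v - x) * a + x * wp) (𝓝[<] xp)
          (𝓝 ((xp - x) * a + x * wp)) :=
        (((tendsto_id.sub tendsto_const_nhds).mul tendsto_const_nhds).add
          tendsto_const_nhds).mono_left nhdsWithin_le_nhds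
      exact le_of_tendsto_of_tendsto ht1 ht2 (by
        filter_upwards [Ioo_mem_nhdsLT hx.2] with v hv using key3 v hv)
    have : H x ≤ ((xp - x) * a + x * wp) / xp := by
      rw [le_div_iff₀ hq]; linarith
    refine this.trans (le_of_eq ?_)
    field_simp
    ring
  have hmeas : Measurable (fun x : ℝ => (xp / (wp - a)) * min (max (x - a) 0) (wp - a)) := by
    fun_prop
  have hlin : ∫⁻ x, ENNReal.ofReal (((xp / (wp - a)) * min (max (x - a) 0) (wp - a)) ^ 2) ∂W
      ≤ ∫⁻ x, ENNReal.ofReal (x ^ 2) ∂F := by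
    refine lintegral_sq_mono W F
      (f := fun x => (xp / (wp - a)) * min (max (x - a) 0) (wp - a)) (g := fun x => x)
      ?_ hmeas.aemeasurable ?_ measurable_id.aemeasurable ?_
    · exact ae_of_all _ fun x => mul_nonneg (div_nonneg hq.le hzp.le)
        (le_min (le_max_right _ _) hzp.le)
    · have h0 := measure_Iio_eq_zero hN.isLeast_support
      rw [Filter.EventuallyLE, ae_iff]
      convert h0 using 2
      ext x
      simp
    · intro t ht
      by_cases htx : t < xp
      · have hset : {x : ℝ | t < (xp / (wp - a)) * min (max (x - a) 0) (wp - a)}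
            ⊆ Ioi (a + (wp - a) / xp * t) := by
          intro x hx
          simp only [mem_ofPred_eq] at hx
          simp only [mem_Ioi]
          have h1 : t < (xp / (wp - a)) * max (x - a) 0 :=
            hx.trans_le (mul_le_mul_of_nonneg_left (min_le_left _ _) (div_nonneg hq.le hzp.le))
          have h2 : (wp - a) / xp * t < max (x - a) 0 := by
            rw [div_mul_eq_mul_div, div_lt_iff₀ hq]
            rw [div_mul_eq_mul_div, lt_div_iff₀ hzp] at h1
            linarith
          have h3 : 0 < (wp - a) / xp * t := by positivity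
          rcases le_or_gt (x - a) 0 with h0 | h0
          · rw [max_eq_right h0] at h2
            linarith
          · rw [max_eq_left h0.le] at h2
            linarith
        refine (measure_mono hset).trans ?_
        have hset2 : {x : ℝ | t < x} = Ioi t := rfl
        rw [hset2, measure_Ioi_eq, measure_Ioi_eq]
        refine ENNReal.ofReal_le_ofReal ?_
        have h1 := hFH t (hIsub ⟨ht, htx⟩)
        have h2 := monotone_cdf W (hchord t ⟨ht, htx⟩)
        linarith
      · push Not at htx
        have hset : {x : ℝ | t < (xp / (wp - a)) * min (max (x - a) 0) (wp - a)} = ∅ := by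
          ext x
          simp only [mem_ofPred_eq, mem_empty_iff_false, iff_false, not_lt]
          calc (xp / (wp - a)) * min (max (x - a) 0) (wp - a)
              ≤ (xp / (wp - a)) * (wp - a) :=
                mul_le_mul_of_nonneg_left (min_le_right _ _) (div_nonneg hq.le hzp.le)
            _ = xp := by field_simp
            _ ≤ t := htx
        rw [hset, measure_empty]
        exact zero_le
  exact (integrable_sq_of_lintegral_le
    (f := fun x => (xp / (wp - a)) * min (max (x - a) 0) (wp - a)) (g := fun x => x)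
    (hmeas.pow_const 2).aestronglyMeasurable hN.integrable_sq hlin).2

/-- For `F` in `𝒞⁻_W` the second moment is at most `x_p² max (1, E(Z-a)²/z_p²)`. -/
lemma minus_bound_lower (hW : IsReference W a) (hF : F ∈ classMinus W) (hp0 : 0 < p)
    (hp1 : p < 1) (hint : Integrable (fun x => (x - a) ^ 2) W) :
    ∫ x, x ^ 2 ∂F ≤
      quantile F p ^ 2 * max 1 ((∫ x, (x - a) ^ 2 ∂W) / (quantile W p - a) ^ 2) := by
  have hq := minus_quantile_pos hF hp0 hp1
  have hnz := fun {δ : ℝ} (hδ : 0 < δ) => minus_near_zero hW hF hδ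
  have := hW.isProbabilityMeasure
  obtain ⟨hN, hconv, hleft⟩ := hF
  have := hN.isProbabilityMeasure
  set I := {x : ℝ | 0 < cdf F x ∧ cdf F x < 1} with hI
  set H : ℝ → ℝ := fun x => quantile W (cdf F x) with hH
  set xp := quantile F p with hxp
  set wp := quantile W p with hwp
  have hzp : 0 < wp - a := by have := hW.lt_quantile hp0 hp1; linarith
  have hWc := hW.continuous
  have hFnonneg : 0 ≤ᵐ[F] fun x : ℝ => x := by
    have h0 := measure_Iio_eq_zero hN.isLeast_support
    rw [Filter.EventuallyLE, ae_iff]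
    convert h0 using 2
    ext x
    simp
  by_cases hcase : ∃ x2, xp < x2 ∧ cdf F x2 < 1
  · obtain ⟨x2, hx2, hx21⟩ := hcase
    have hIsub : Ioo 0 x2 ⊆ I := fun x hx =>
      ⟨cdf_pos_of_pos hN.isLeast_support hx.1, lt_of_le_of_lt (monotone_cdf F hx.2.le) hx21⟩
    have hxpint : xp ∈ interior I :=
      interior_mono hIsub (by rw [isOpen_Ioo.interior_eq]; exact ⟨hq, hx2⟩)
    have hFH : ∀ x ∈ I, cdf F x = cdf W (H x) := fun x hx => (hW.cdf_quantile hx.1 hx.2).symm
    have hHc : ContinuousAt H xp := hconv.continuousOn_interior.continuousAt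
      (isOpen_interior.mem_nhds hxpint)
    have hFc : ContinuousAt (cdf F) xp := by
      have h1 : ContinuousAt (fun x => cdf W (H x)) xp := hWc.continuousAt.comp hHc
      refine h1.congr ?_
      filter_upwards [isOpen_interior.mem_nhds hxpint] with x hx
      exact (hFH x (interior_subset hx)).symm
    have hFxp : cdf F xp = p := by
      refine le_antisymm ?_ (le_cdf_quantile F hp0 hp1)
      have h1 : Tendsto (cdf F) (𝓝[<] xp) (𝓝 (cdf F xp)) := hFc.mono_left nhdsWithin_le_nhds
      refine le_of_tendsto h1 ?_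
      filter_upwards [self_mem_nhdsWithin] with x hx using (cdf_lt_of_lt_quantile F hp0 hx).le
    have hHxp : H xp = wp := by simp only [hH, hFxp, hwp]
    obtain ⟨k, hk⟩ := exists_subgradient hconv hxpint
    have hk' : ∀ y ∈ I, wp + k * (y - xp) ≤ H y := fun y hy => hHxp ▸ hk y hy
    -- `wp - a ≤ k * xp`
    have hkge : wp - a ≤ k * xp := by
      refine le_of_forall_pos_le_add fun δ hδ => ?_
      obtain ⟨η, hη, hη'⟩ := hnz hδ
      have h1 : ∀ x ∈ Ioo 0 (min η xp), wp - a + k * x ≤ k * xp + δ := by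
        intro x hx
        have hxη : x < η := lt_of_lt_of_le hx.2 (min_le_left _ _)
        have hxx : x < xp := lt_of_lt_of_le hx.2 (min_le_right _ _)
        have h2 := hk' x (hIsub ⟨hx.1, hxx.trans hx2⟩)
        have h3 : H x ≤ a + δ := hη' x hx.1 hxη
        nlinarith
      have h2 : Tendsto (fun x => wp - a + k * x) (𝓝[>] 0) (𝓝 (wp - a + k * 0)) :=
        (tendsto_const_nhds.add (tendsto_const_nhds.mul tendsto_id)).mono_left
          nhdsWithin_le_nhds
      have h3 := le_of_tendsto (f := fun x => wp - a + k * x) (b := k * xp + δ) h2 (by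
        filter_upwards [Ioo_mem_nhdsGT (lt_min hη hq)] with x hx using h1 x hx)
      simpa using h3
    have hkpos : 0 < k := by
      by_contra h
      push Not at h
      nlinarith
    -- comparison
    have hcomp : ∀ x, 0 < x → cdf W (wp + k * (x - xp)) ≤ cdf F x := by
      intro x hx
      by_cases hx1 : cdf F x < 1
      · have hxI : x ∈ I := ⟨cdf_pos_of_pos hN.isLeast_support hx, hx1⟩
        rw [hFH x hxI]
        exact monotone_cdf W (hk' x hxI)
      · exact (cdf_le_one W _).trans (not_lt.1 hx1)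
    have hmeas : Measurable (fun x : ℝ => max (xp + k⁻¹ * (x - wp)) 0) := by fun_prop
    have hlin : ∫⁻ x, ENNReal.ofReal (x ^ 2) ∂F
        ≤ ∫⁻ x, ENNReal.ofReal ((max (xp + k⁻¹ * (x - wp)) 0) ^ 2) ∂W := by
      refine lintegral_sq_mono F W (f := fun x => x)
        (g := fun x => max (xp + k⁻¹ * (x - wp)) 0)
        hFnonneg measurable_id.aemeasurable (ae_of_all _ fun x => le_max_right _ _)
        hmeas.aemeasurable ?_
      intro t ht
      have hset : {x : ℝ | t < max (xp + k⁻¹ * (x - wp)) 0} = Ioi (wp + k * (t - xp)) := by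
        ext x
        simp only [mem_ofPred_eq, mem_Ioi, lt_max_iff, ht.not_gt, or_false]
        constructor
        · intro h
          have h1 : t - xp < k⁻¹ * (x - wp) := by linarith
          rw [lt_inv_mul_iff₀ hkpos] at h1
          linarith
        · intro h
          have h1 : k * (t - xp) < x - wp := by linarith
          rw [← lt_inv_mul_iff₀ hkpos] at h1
          linarith
      have hset2 : {x : ℝ | t < x} = Ioi t := rfl
      rw [hset, hset2, measure_Ioi_eq, measure_Ioi_eq]
      exact ENNReal.ofReal_le_ofReal (by linarith [hcomp t ht])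
    -- pointwise bound
    set lam := (wp - a) / (k * xp) with hlam
    have hkxp : 0 < k * xp := mul_pos hkpos hq
    have hlam0 : 0 ≤ lam := div_nonneg hzp.le hkxp.le
    have hlam1 : lam ≤ 1 := (div_le_one hkxp).2 hkge
    have hpt : ∀ᵐ x ∂W, (max (xp + k⁻¹ * (x - wp)) 0) ^ 2
        ≤ xp ^ 2 * ((1 - lam) + lam * ((x - a) ^ 2 / (wp - a) ^ 2)) := by
      filter_upwards [hW.ae_ge] with x hx
      set y := (x - a) / (wp - a) with hy
      have hy0 : 0 ≤ y := div_nonneg (by linarith) hzp.le
      have e1 : xp + k⁻¹ * (x - wp) = xp * ((1 - lam) + lam * y) := by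
        rw [hlam, hy]
        field_simp
        ring
      have e2 : (x - a) ^ 2 / (wp - a) ^ 2 = y ^ 2 := by rw [hy, div_pow]
      rw [e1, e2]
      have h1 : 0 ≤ (1 - lam) + lam * y := by
        have := mul_nonneg hlam0 hy0
        linarith
      rw [max_eq_left (mul_nonneg hq.le h1), mul_pow]
      refine mul_le_mul_of_nonneg_left ?_ (sq_nonneg _)
      nlinarith [mul_nonneg hlam0 (sub_nonneg.2 hlam1), sq_nonneg (1 - y)]
    have hint2 : Integrable (fun x => xp ^ 2 * ((1 - lam) + lam * ((x - a) ^ 2 / (wp - a) ^ 2)))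
        W := ((integrable_const _).add ((hint.div_const _).const_mul _)).const_mul _
    have hint3 : Integrable (fun x => (max (xp + k⁻¹ * (x - wp)) 0) ^ 2) W := by
      refine hint2.mono' (hmeas.pow_const 2).aestronglyMeasurable ?_
      filter_upwards [hpt] with x hx
      rw [Real.norm_eq_abs, abs_of_nonneg (sq_nonneg _)]
      exact hx
    have h1 := (integrable_sq_of_lintegral_le (f := fun x => x)
      (g := fun x => max (xp + k⁻¹ * (x - wp)) 0)
      (measurable_id.pow_const 2).aestronglyMeasurable hint3 hlin).2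
    have h2 : ∫ x, (max (xp + k⁻¹ * (x - wp)) 0) ^ 2 ∂W
        ≤ ∫ x, xp ^ 2 * ((1 - lam) + lam * ((x - a) ^ 2 / (wp - a) ^ 2)) ∂W :=
      integral_mono_ae hint3 hint2 hpt
    have h3 : ∫ x, xp ^ 2 * ((1 - lam) + lam * ((x - a) ^ 2 / (wp - a) ^ 2)) ∂W
        = xp ^ 2 * ((1 - lam) + lam * ((∫ x, (x - a) ^ 2 ∂W) / (wp - a) ^ 2)) := by
      rw [integral_const_mul, integral_add (integrable_const _)
        ((hint.div_const _).const_mul _), integral_const_mul, integral_div]
      simp
    have h4 : (1 - lam) + lam * ((∫ x, (x - a) ^ 2 ∂W) / (wp - a) ^ 2)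
        ≤ max 1 ((∫ x, (x - a) ^ 2 ∂W) / (wp - a) ^ 2) := by
      set M := (∫ x, (x - a) ^ 2 ∂W) / (wp - a) ^ 2
      have hM1 : (1 : ℝ) ≤ max 1 M := le_max_left _ _
      have hM2 : M ≤ max 1 M := le_max_right _ _
      have hl : 0 ≤ 1 - lam := sub_nonneg.2 hlam1
      calc (1 - lam) + lam * M ≤ (1 - lam) * max 1 M + lam * max 1 M := by
            have := mul_le_mul_of_nonneg_left hM1 hl
            have := mul_le_mul_of_nonneg_left hM2 hlam0
            linarith
        _ = max 1 M := by ring
    calc ∫ x, x ^ 2 ∂F ≤ _ := h1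
      _ ≤ _ := h2
      _ = _ := h3
      _ ≤ _ := mul_le_mul_of_nonneg_left h4 (sq_nonneg _)
  · push Not at hcase
    have h1 : cdf F xp = 1 := by
      refine le_antisymm (cdf_le_one F _) ?_
      have hc : ContinuousWithinAt (cdf F) (Ici xp) xp := (cdf F).right_continuous _
      have hc' : Tendsto (cdf F) (𝓝[>] xp) (𝓝 (cdf F xp)) :=
        hc.mono_left (nhdsWithin_mono _ Ioi_subset_Ici_self)
      refine ge_of_tendsto hc' ?_
      filter_upwards [self_mem_nhdsWithin] with x hx using hcase x hx
    have h2 : ∀ᵐ x ∂F, x ≤ xp := by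
      have : F (Ioi xp) = 0 := by rw [measure_Ioi_eq, h1]; simp
      rw [ae_iff]
      convert this using 2
      ext x
      simp
    have h3 : ∫ x, x ^ 2 ∂F ≤ ∫ x, xp ^ 2 ∂F := by
      refine integral_mono_ae hN.integrable_sq (integrable_const _) ?_
      filter_upwards [h2, hFnonneg] with x hx1 hx2
      have hx2' : 0 ≤ x := hx2
      exact pow_le_pow_left₀ hx2' hx1 2
    rw [integral_const] at h3
    simp only [probReal_univ, smul_eq_mul, one_mul] at h3
    refine h3.trans ?_
    nlinarith [le_max_left (1 : ℝ) ((∫ x, (x - a) ^ 2 ∂W) / (wp - a) ^ 2), sq_nonneg xp]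

end Minus

end Pool.Agent.Helper98.ConvexTransform
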