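import Mathlib
import Pool.Agent.Helper98.ConvexTransform

/-!
# Sharp quantile bounds over the class of distributions succeeding `W` in the convex
transform order (Q1)
-/

open MeasureTheory ProbabilityTheory Set Filter Topology
open Pool.Agent.Helper98.ConvexTransform

namespace Pool.Agent.Helper98.ConvexTransformQ1

section Analysis

variable {W : Measure ℝ} {a : ℝ}

/-- the distribution generating function `z ↦ (z - α)_+ + ε z` -/
noncomputable def G (α ε : ℝ) (z : ℝ) : ℝ := max (z - α) 0 + ε * z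

lemma G_continuous (α ε : ℝ) : Continuous (G α ε) := by unfold G; fun_prop

lemma G_strictMono (α : ℝ) {ε : ℝ} (hε : 0 < ε) : StrictMono (G α ε) := by
  intro x y hxy
  unfold G
  have h1 : max (x - α) 0 ≤ max (y - α) 0 := max_le_max (by linarith) le_rfl
  nlinarith

lemma G_zero {α : ℝ} (hα : 0 ≤ α) (ε : ℝ) : G α ε 0 = 0 := by
  unfold G
  rw [max_eq_right (by linarith)]
  ring

lemma G_convex (α ε : ℝ) : ConvexOn ℝ univ (G α ε) := by
  unfold G
  refine ConvexOn.add ?_ ?_
  · refine ConvexOn.sup ?_ (convexOn_const _ convex_univ)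
    exact ((convexOn_id convex_univ).sub (concaveOn_const α convex_univ))
  · refine ⟨convex_univ, fun x _ y _ s t _ _ _ => ?_⟩
    simp only [smul_eq_mul]
    apply le_of_eq
    ring

lemma int_of_sq (hW : IsReference W a) (hint : Integrable (fun x : ℝ => x ^ 2) W) :
    Integrable (fun x : ℝ => x) W := by
  have := hW.isProbabilityMeasure
  refine ((integrable_const (1 : ℝ)).add hint).mono' measurable_id.aestronglyMeasurable ?_
  filter_upwards with x
  rw [Real.norm_eq_abs, Pi.add_apply, abs_le]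
  constructor <;> nlinarith [sq_nonneg (x - 1), sq_nonneg (x + 1)]

lemma int_sub (hW : IsReference W a) (hint : Integrable (fun x : ℝ => x ^ 2) W) :
    Integrable (fun x : ℝ => x - a) W := by
  have := hW.isProbabilityMeasure
  exact (int_of_sq hW hint).sub (integrable_const a)

lemma int_sub_sq (hW : IsReference W a) (hint : Integrable (fun x : ℝ => x ^ 2) W) :
    Integrable (fun x : ℝ => (x - a) ^ 2) W := by
  have := hW.isProbabilityMeasure
  have h : (fun x : ℝ => (x - a) ^ 2) = fun x => x ^ 2 - (2 * a) * x + a ^ 2 := by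
    ext x; ring
  rw [h]
  exact (hint.sub ((int_of_sq hW hint).const_mul _)).add (integrable_const _)

lemma sq_of_int_sub_sq (hW : IsReference W a)
    (hint : Integrable (fun x : ℝ => (x - a) ^ 2) W) :
    Integrable (fun x : ℝ => x ^ 2) W := by
  have := hW.isProbabilityMeasure
  refine ((hint.const_mul 2).add (integrable_const (2 * a ^ 2))).mono'
    (measurable_id.pow_const 2).aestronglyMeasurable ?_
  filter_upwards with x
  rw [Real.norm_eq_abs, Pi.add_apply, abs_of_nonneg (sq_nonneg x)]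
  nlinarith [sq_nonneg (x - 2 * a)]

lemma int_max_mul (hW : IsReference W a) (hint : Integrable (fun x : ℝ => x ^ 2) W)
    {α : ℝ} (hα : 0 ≤ α) : Integrable (fun x : ℝ => max (x - a - α) 0 * (x - a)) W := by
  refine (int_sub_sq hW hint).mono' (by fun_prop) ?_
  filter_upwards [hW.ae_ge] with x hx
  have h1 : 0 ≤ max (x - a - α) 0 := le_max_right _ _
  have h2 : max (x - a - α) 0 ≤ x - a := max_le (by linarith) (by linarith)
  rw [Real.norm_eq_abs, abs_of_nonneg (mul_nonneg h1 (by linarith))]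
  nlinarith

lemma int_max (hW : IsReference W a) (hint : Integrable (fun x : ℝ => x ^ 2) W)
    {α : ℝ} (hα : 0 ≤ α) : Integrable (fun x : ℝ => max (x - a - α) 0) W := by
  refine (int_sub hW hint).mono' (by fun_prop) ?_
  filter_upwards [hW.ae_ge] with x hx
  have h1 : 0 ≤ max (x - a - α) 0 := le_max_right _ _
  have h2 : max (x - a - α) 0 ≤ x - a := max_le (by linarith) (by linarith)
  rw [Real.norm_eq_abs, abs_of_nonneg h1]
  exact h2

lemma int_max_sq (hW : IsReference W a) (hint : Integrable (fun x : ℝ => x ^ 2) W)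
    {α : ℝ} (hα : 0 ≤ α) : Integrable (fun x : ℝ => max (x - a - α) 0 ^ 2) W := by
  refine (int_sub_sq hW hint).mono' (by fun_prop) ?_
  filter_upwards [hW.ae_ge] with x hx
  have h1 : 0 ≤ max (x - a - α) 0 := le_max_right _ _
  have h2 : max (x - a - α) 0 ≤ x - a := max_le (by linarith) (by linarith)
  rw [Real.norm_eq_abs, abs_of_nonneg (sq_nonneg _)]
  nlinarith

lemma int_max_max (hW : IsReference W a) (hint : Integrable (fun x : ℝ => x ^ 2) W)
    {α β : ℝ} (hα : 0 ≤ α) (hβ : 0 ≤ β) :
    Integrable (fun x : ℝ => max (x - a - α) 0 * max (x - a - β) 0) W := by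
  refine (int_sub_sq hW hint).mono' (by fun_prop) ?_
  filter_upwards [hW.ae_ge] with x hx
  have h1 : 0 ≤ max (x - a - α) 0 := le_max_right _ _
  have h2 : max (x - a - α) 0 ≤ x - a := max_le (by linarith) (by linarith)
  have h3 : 0 ≤ max (x - a - β) 0 := le_max_right _ _
  have h4 : max (x - a - β) 0 ≤ x - a := max_le (by linarith) (by linarith)
  rw [Real.norm_eq_abs, abs_of_nonneg (mul_nonneg h1 h3)]
  nlinarith

/-- the function whose zero determines the extremal distribution -/
noncomputable def hfun (W : Measure ℝ) (a w : ℝ) (β : ℝ) : ℝ :=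
  ∫ x, (w - x) * max (x - a - β) 0 ∂W

lemma int_hfun (hW : IsReference W a) (hint : Integrable (fun x : ℝ => x ^ 2) W) (w : ℝ)
    {β : ℝ} (hβ : 0 ≤ β) : Integrable (fun x : ℝ => (w - x) * max (x - a - β) 0) W := by
  have h : (fun x : ℝ => (w - x) * max (x - a - β) 0)
      = fun x => (w - a) * max (x - a - β) 0 - max (x - a - β) 0 * (x - a) := by
    ext x; ring
  rw [h]
  exact ((int_max hW hint hβ).const_mul _).sub (int_max_mul hW hint hβ)

/-- mass to the right of a point with `W < 1` makes the truncated moment positive -/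
lemma max_sq_pos (hW : IsReference W a) (hint : Integrable (fun x : ℝ => x ^ 2) W)
    {α : ℝ} (hα : 0 ≤ α) (hα1 : cdf W (a + α) < 1) :
    0 < ∫ x, max (x - a - α) 0 ^ 2 ∂W := by
  have := hW.isProbabilityMeasure
  rw [integral_pos_iff_support_of_nonneg (fun x => sq_nonneg _) (int_max_sq hW hint hα)]
  have h1 : Ioi (a + α) ⊆ Function.support (fun x : ℝ => max (x - a - α) 0 ^ 2) := by
    intro x hx
    have hx' : a + α < x := hx
    simp only [Function.mem_support]
    have : 0 < max (x - a - α) 0 := lt_max_of_lt_left (by linarith)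
    positivity
  refine lt_of_lt_of_le ?_ (measure_mono h1)
  rw [measure_Ioi_eq]
  exact ENNReal.ofReal_pos.2 (by linarith)

/-- optimality of a parameter satisfying the complementarity conditions -/
lemma optimal (hW : IsReference W a) (hint : Integrable (fun x : ℝ => x ^ 2) W)
    {w α β : ℝ} (hα0 : 0 ≤ α) (hα : α < w - a) (hβ0 : 0 ≤ β) (hβ : β < w - a)
    (h1 : hfun W a w α ≤ 0) (h2 : α = 0 ∨ hfun W a w α = 0) :
    (w - a - β) ^ 2 * ∫ x, max (x - a - α) 0 ^ 2 ∂W ≤
      (w - a - α) ^ 2 * ∫ x, max (x - a - β) 0 ^ 2 ∂W := by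
  set z := w - a with hz
  set A := ∫ x, max (x - a - α) 0 ^ 2 ∂W with hA
  set B := ∫ x, max (x - a - β) 0 ^ 2 ∂W with hB
  set C := ∫ x, max (x - a - α) 0 * max (x - a - β) 0 ∂W with hC
  have hzα : 0 < z - α := by linarith
  have hzβ : 0 < z - β := by linarith
  -- expansion of a square
  have hsq : 0 ≤ (z - β) ^ 2 * A - 2 * ((z - α) * (z - β)) * C + (z - α) ^ 2 * B := by
    have e : ∫ x, ((z - β) * max (x - a - α) 0 - (z - α) * max (x - a - β) 0) ^ 2 ∂W
        = (z - β) ^ 2 * A - 2 * ((z - α) * (z - β)) * C + (z - α) ^ 2 * B := by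
      have e1 : (fun x : ℝ => ((z - β) * max (x - a - α) 0 - (z - α) * max (x - a - β) 0) ^ 2)
          = fun x => (z - β) ^ 2 * max (x - a - α) 0 ^ 2
            - 2 * ((z - α) * (z - β)) * (max (x - a - α) 0 * max (x - a - β) 0)
            + (z - α) ^ 2 * max (x - a - β) 0 ^ 2 := by
        ext x; ring
      have i1 := (int_max_sq hW hint hα0).const_mul ((z - β) ^ 2)
      have i2 := (int_max_max hW hint hα0 hβ0).const_mul (2 * ((z - α) * (z - β)))
      have i3 := (int_max_sq hW hint hβ0).const_mul ((z - α) ^ 2)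
      rw [e1, integral_add (f := fun x => (z - β) ^ 2 * max (x - a - α) 0 ^ 2
            - 2 * ((z - α) * (z - β)) * (max (x - a - α) 0 * max (x - a - β) 0)) (i1.sub i2) i3,
        integral_sub i1 i2, integral_const_mul, integral_const_mul, integral_const_mul]
    rw [← e]
    exact integral_nonneg fun x => sq_nonneg _
  -- `(z - α) C ≥ (z - β) A`
  have hCA : (z - β) * A ≤ (z - α) * C := by
    have e1 : ∫ x, max (x - a - α) 0 * ((z - α) * (x - a - β) - (z - β) * (x - a - α)) ∂W
        = (α - β) * hfun W a w α := by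
      rw [hfun, ← integral_const_mul]
      congr 1
      ext x
      rw [hz]
      ring
    have e2 : ∫ x, max (x - a - α) 0 * ((z - α) * (x - a - β) - (z - β) * (x - a - α)) ∂W
        ≤ (z - α) * C - (z - β) * A := by
      rw [hC, hA, ← integral_const_mul, ← integral_const_mul,
        ← integral_sub ((int_max_max hW hint hα0 hβ0).const_mul _)
        ((int_max_sq hW hint hα0).const_mul _)]
      refine integral_mono_ae ?_ (((int_max_max hW hint hα0 hβ0).const_mul _).sub
        ((int_max_sq hW hint hα0).const_mul _)) ?_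
      · have e3 : (fun x : ℝ => max (x - a - α) 0 *
            ((z - α) * (x - a - β) - (z - β) * (x - a - α)))
            = fun x => (α - β) * ((w - x) * max (x - a - α) 0) := by
          ext x
          rw [hz]
          ring
        rw [e3]
        exact (int_hfun hW hint w hα0).const_mul _
      · filter_upwards with x
        rcases le_or_gt (x - a - α) 0 with h | h
        · rw [max_eq_right h]
          simp
        · rw [max_eq_left h.le]
          have h3 : x - a - β ≤ max (x - a - β) 0 := le_max_left _ _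
          have h4 : (x - a - α) * (z - α) * (x - a - β)
              ≤ (x - a - α) * (z - α) * max (x - a - β) 0 :=
            mul_le_mul_of_nonneg_left h3 (by positivity)
          nlinarith
    have e4 : 0 ≤ (α - β) * hfun W a w α := by
      rcases h2 with h2 | h2
      · rw [h2] at h1 ⊢
        nlinarith [mul_nonneg hβ0 (neg_nonneg.2 h1)]
      · rw [h2, mul_zero]
    linarith
  nlinarith [mul_le_mul_of_nonneg_left hCA hzβ.le]


lemma hfun_lipschitz (hW : IsReference W a) (hint : Integrable (fun x : ℝ => x ^ 2) W) (w : ℝ)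
    {β γ : ℝ} (hβ : 0 ≤ β) (hγ : 0 ≤ γ) :
    |hfun W a w β - hfun W a w γ| ≤ (∫ x, |w - x| ∂W) * |β - γ| := by
  have := hW.isProbabilityMeasure
  have hi : Integrable (fun x : ℝ => |w - x|) W :=
    ((integrable_const w).sub (int_of_sq hW hint)).abs
  rw [hfun, hfun, ← integral_sub (int_hfun hW hint w hβ) (int_hfun hW hint w hγ),
    ← integral_mul_const]
  refine (abs_integral_le_integral_abs).trans (integral_mono_ae ?_ (hi.mul_const _) ?_)
  · exact ((int_hfun hW hint w hβ).sub (int_hfun hW hint w hγ)).abs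
  · filter_upwards with x
    rw [← mul_sub, abs_mul]
    refine mul_le_mul_of_nonneg_left ?_ (abs_nonneg _)
    refine (abs_max_sub_max_le_abs _ _ _).trans (le_of_eq ?_)
    rw [show x - a - β - (x - a - γ) = -(β - γ) by ring, abs_neg]

lemma hfun_continuousOn (hW : IsReference W a) (hint : Integrable (fun x : ℝ => x ^ 2) W)
    (w : ℝ) : ContinuousOn (hfun W a w) (Ici 0) := by
  rw [Metric.continuousOn_iff]
  intro b hb ε hε
  have hb' : (0 : ℝ) ≤ b := hb
  set K := ∫ x, |w - x| ∂W with hK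
  have hK0 : 0 ≤ K := integral_nonneg fun x => abs_nonneg _
  refine ⟨ε / (K + 1), by positivity, fun c hc hcb => ?_⟩
  rw [Real.dist_eq] at hcb ⊢
  have h1 := hfun_lipschitz hW hint w (show (0 : ℝ) ≤ c from hc) hb'
  rw [lt_div_iff₀ (by positivity)] at hcb
  have h2 : 0 ≤ |c - b| := abs_nonneg _
  rw [← hK] at h1
  nlinarith

lemma hfun_at_zero (hW : IsReference W a) (hint : Integrable (fun x : ℝ => x ^ 2) W) (w : ℝ) :
    hfun W a w 0 = (w - a) * ∫ x, (x - a) ∂W - ∫ x, (x - a) ^ 2 ∂W := by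
  rw [hfun, ← integral_const_mul, ← integral_sub ((int_sub hW hint).const_mul _)
    (int_sub_sq hW hint)]
  refine integral_congr_ae ?_
  filter_upwards [hW.ae_ge] with x hx
  rw [max_eq_left (by linarith)]
  ring

lemma hfun_at_end (W : Measure ℝ) (a w : ℝ) :
    hfun W a w (w - a) = - ∫ x, max (x - a - (w - a)) 0 ^ 2 ∂W := by
  rw [hfun, ← integral_neg]
  congr 1
  ext x
  rcases le_or_gt (x - a - (w - a)) 0 with h | h
  · rw [max_eq_right h]; ring
  · rw [max_eq_left h.le]; ring

/-- convexity of `hfun` in the form needed for uniqueness of its zero -/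
lemma hfun_convex (hW : IsReference W a) (hint : Integrable (fun x : ℝ => x ^ 2) W) {w : ℝ}
    {β γ s t : ℝ} (hβ : 0 ≤ β) (hγ : 0 ≤ γ) (hβw : β ≤ w - a) (hγw : γ ≤ w - a)
    (hs : 0 ≤ s) (ht : 0 ≤ t) (hst : s + t = 1) :
    hfun W a w (s * β + t * γ) ≤ s * hfun W a w β + t * hfun W a w γ := by
  have h0 : 0 ≤ s * β + t * γ := by positivity
  rw [hfun, hfun, hfun, ← integral_const_mul, ← integral_const_mul,
    ← integral_add ((int_hfun hW hint w hβ).const_mul _) ((int_hfun hW hint w hγ).const_mul _)]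
  refine integral_mono (int_hfun hW hint w h0) (((int_hfun hW hint w hβ).const_mul _).add
    ((int_hfun hW hint w hγ).const_mul _)) ?_
  intro x
  simp only
  rcases le_or_gt x w with h | h
  · have h1 : max (x - a - (s * β + t * γ)) 0 ≤ s * max (x - a - β) 0 + t * max (x - a - γ) 0 := by
      refine max_le ?_ (by positivity)
      have h2 : x - a - β ≤ max (x - a - β) 0 := le_max_left _ _
      have h3 : x - a - γ ≤ max (x - a - γ) 0 := le_max_left _ _
      have h4 := mul_le_mul_of_nonneg_left h2 hs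
      have h5 := mul_le_mul_of_nonneg_left h3 ht
      have h6 : x - a = (s + t) * (x - a) := by rw [hst, one_mul]
      nlinarith
    have h7 := mul_le_mul_of_nonneg_left h1 (sub_nonneg.2 h)
    linarith
  · have e1 : s * β + t * γ ≤ w - a := by nlinarith
    rw [max_eq_left (by linarith), max_eq_left (by linarith), max_eq_left (by linarith)]
    apply le_of_eq
    have h6 : x - a = (s + t) * (x - a) := by rw [hst, one_mul]
    calc (w - x) * (x - a - (s * β + t * γ))
        = (w - x) * ((s + t) * (x - a) - (s * β + t * γ)) := by rw [← h6]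
      _ = _ := by ring

/-- existence and uniqueness of the zero -/
lemma exists_root (hW : IsReference W a) (hint : Integrable (fun x : ℝ => x ^ 2) W) {p : ℝ}
    (hp0 : 0 < p) (hp1 : p < 1)
    (h : ∫ x, (x - a) ^ 2 ∂W < (quantile W p - a) * ∫ x, (x - a) ∂W) :
    ∃ α ∈ Ioo 0 (quantile W p - a), ∀ β ∈ Ioo 0 (quantile W p - a),
      hfun W a (quantile W p) β = 0 ↔ β = α := by
  set w := quantile W p with hw
  have hz : 0 < w - a := by have := hW.lt_quantile hp0 hp1; linarith
  have h0 : 0 < hfun W a w 0 := by rw [hfun_at_zero hW hint]; linarith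
  have hend : hfun W a w (w - a) < 0 := by
    rw [hfun_at_end, neg_lt_zero]
    refine max_sq_pos hW hint hz.le ?_
    rw [add_sub_cancel, hw, hW.cdf_quantile hp0 hp1]
    exact hp1
  have hcont : ContinuousOn (hfun W a w) (Icc 0 (w - a)) :=
    (hfun_continuousOn hW hint w).mono Icc_subset_Ici_self
  obtain ⟨α, hα, hα0⟩ := intermediate_value_Icc' hz.le hcont
    (show (0 : ℝ) ∈ Icc (hfun W a w (w - a)) (hfun W a w 0) from ⟨hend.le, h0.le⟩)
  have hα1 : 0 < α := by
    rcases hα.1.lt_or_eq with h | h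
    · exact h
    · rw [← h] at hα0; linarith
  have hα2 : α < w - a := by
    rcases hα.2.lt_or_eq with h | h
    · exact h
    · rw [h] at hα0; linarith
  refine ⟨α, ⟨hα1, hα2⟩, fun β hβ => ⟨fun hβ0 => ?_, fun h => h ▸ hα0⟩⟩
  -- uniqueness
  have key : ∀ u v : ℝ, 0 < u → u < v → v < w - a → hfun W a w u = 0 → hfun W a w v < 0 := by
    intro u v hu huv hv hu0
    have hd : 0 < w - a - u := by linarith
    have hs : 0 ≤ (w - a - v) / (w - a - u) := div_nonneg (by linarith) hd.le
    have ht : 0 < (v - u) / (w - a - u) := div_pos (by linarith) hd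
    have hst : (w - a - v) / (w - a - u) + (v - u) / (w - a - u) = 1 := by
      field_simp
      ring
    have h1 := hfun_convex hW hint (w := w) hu.le hz.le (by linarith) le_rfl hs ht.le hst
    have h2 : (w - a - v) / (w - a - u) * u + (v - u) / (w - a - u) * (w - a) = v := by
      field_simp
      ring
    rw [h2, hu0, mul_zero, zero_add] at h1
    have h3 := mul_neg_of_pos_of_neg ht hend
    linarith
  rcases lt_trichotomy β α with h | h | h
  · have := key β α hβ.1 h hα2 hβ0
    linarith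
  · exact h
  · have := key α β hα1 h hβ.2 hα0
    linarith

/-- the second moment of a member -/
lemma G_moment (hW : IsReference W a) (hint : Integrable (fun x : ℝ => x ^ 2) W) {α : ℝ}
    (hα : 0 ≤ α) (ε : ℝ) :
    Integrable (fun x => G α ε (x - a) ^ 2) W ∧
    ∫ x, G α ε (x - a) ^ 2 ∂W = ∫ x, max (x - a - α) 0 ^ 2 ∂W
      + ε * (2 * ∫ x, max (x - a - α) 0 * (x - a) ∂W) + ε ^ 2 * ∫ x, (x - a) ^ 2 ∂W := by
  have i1 := int_max_sq hW hint hα
  have i2 := ((int_max_mul hW hint hα).const_mul 2).const_mul ε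
  have i3 := (int_sub_sq hW hint).const_mul (ε ^ 2)
  have e : (fun x => G α ε (x - a) ^ 2) = fun x => max (x - a - α) 0 ^ 2
      + ε * (2 * (max (x - a - α) 0 * (x - a))) + ε ^ 2 * (x - a) ^ 2 := by
    ext x
    unfold G
    ring
  constructor
  · rw [e]
    exact (i1.add i2).add i3
  · rw [e, integral_add (f := fun x => max (x - a - α) 0 ^ 2
      + ε * (2 * (max (x - a - α) 0 * (x - a)))) (i1.add i2) i3, integral_add i1 i2,
      integral_const_mul, integral_const_mul, integral_const_mul]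

/-- the members of the class used to approach the bounds -/
lemma G_mem (hW : IsReference W a) (hint : Integrable (fun x : ℝ => x ^ 2) W) {α : ℝ}
    (hα : 0 ≤ α) {ε : ℝ} (hε : 0 < ε) :
    lawOf W a (G α ε) ∈ classPlus W ∧ ∀ x, lawOf W a (G α ε) {x} = 0 :=
  ⟨⟨isNormalised_lawOf hW (G_continuous α ε) (G_strictMono α hε) (G_zero hα ε)
      (G_moment hW hint hα ε).1,
    concave_lawOf hW (G_continuous α ε) (G_strictMono α hε) (G_zero hα ε) (G_convex α ε)⟩,
    fun x => lawOf_singleton hW (G_continuous α ε) (G_strictMono α hε) x⟩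

/-- the ratios of the members converge -/
lemma G_tendsto (hW : IsReference W a) (hint : Integrable (fun x : ℝ => x ^ 2) W) {α p : ℝ}
    (hp0 : 0 < p) (hp1 : p < 1) (hα : 0 ≤ α) (hm : 0 < ∫ x, max (x - a - α) 0 ^ 2 ∂W) :
    Tendsto (fun ε => ratio p (lawOf W a (G α ε))) (𝓝[>] 0)
      (𝓝 (max (quantile W p - a - α) 0 / Real.sqrt (∫ x, max (x - a - α) 0 ^ 2 ∂W))) := by
  set A := ∫ x, max (x - a - α) 0 ^ 2 ∂W with hA
  set B := 2 * ∫ x, max (x - a - α) 0 * (x - a) ∂W with hB
  set C := ∫ x, (x - a) ^ 2 ∂W with hC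
  have h1 : Tendsto (fun ε : ℝ => G α ε (quantile W p - a) / Real.sqrt (A + ε * B + ε ^ 2 * C))
      (𝓝[>] 0) (𝓝 (G α 0 (quantile W p - a) / Real.sqrt (A + 0 * B + 0 ^ 2 * C))) := by
    refine Tendsto.mono_left ?_ nhdsWithin_le_nhds
    refine Tendsto.div ?_ ?_ ?_
    · unfold G
      exact (continuous_const.add (continuous_id.mul continuous_const)).tendsto 0
    · have : Continuous fun ε : ℝ => Real.sqrt (A + ε * B + ε ^ 2 * C) := by fun_prop
      exact this.tendsto 0
    · have : A + 0 * B + 0 ^ 2 * C = A := by ring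
      rw [this]
      exact (Real.sqrt_pos.2 hm).ne'
  have h2 : G α 0 (quantile W p - a) / Real.sqrt (A + 0 * B + 0 ^ 2 * C)
      = max (quantile W p - a - α) 0 / Real.sqrt A := by
    unfold G
    congr 2 <;> ring
  rw [h2] at h1
  refine h1.congr' ?_
  filter_upwards [self_mem_nhdsWithin] with ε hε
  rw [ratio_lawOf hW (G_continuous α ε) (G_strictMono α hε) hp0 hp1,
    (G_moment hW hint hα ε).2]

/-- the supremum, for a parameter satisfying the complementarity conditions -/
lemma isLUB_of_optimal (hW : IsReference W a) (hint : Integrable (fun x : ℝ => x ^ 2) W)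
    {p : ℝ} (hp0 : 0 < p) (hp1 : p < 1) {𝒞 : Set (Measure ℝ)} (h𝒞 : 𝒞 ⊆ classPlus W)
    (h𝒞' : ∀ F ∈ classPlus W, (∀ x, F {x} = 0) → F ∈ 𝒞) {α : ℝ} (hα0 : 0 ≤ α)
    (hα : α < quantile W p - a) (h1 : hfun W a (quantile W p) α ≤ 0)
    (h2 : α = 0 ∨ hfun W a (quantile W p) α = 0) :
    IsLUB (ratio p '' 𝒞)
      ((quantile W p - a - α) / Real.sqrt (∫ x, max (x - a - α) 0 ^ 2 ∂W)) := by
  set w := quantile W p with hw
  have hm : ∀ β, 0 ≤ β → β < w - a → 0 < ∫ x, max (x - a - β) 0 ^ 2 ∂W := by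
    intro β hβ0 hβ
    refine max_sq_pos hW hint hβ0 (lt_of_le_of_lt (monotone_cdf W (show a + β ≤ w by linarith)) ?_)
    rw [hw, hW.cdf_quantile hp0 hp1]
    exact hp1
  have hmα := hm α hα0 hα
  constructor
  · rintro _ ⟨F, hF, rfl⟩
    have hF' := h𝒞 hF
    have hV : 0 ≤ (w - a - α) / Real.sqrt (∫ x, max (x - a - α) 0 ^ 2 ∂W) :=
      div_nonneg (by linarith) (Real.sqrt_nonneg _)
    have := hF'.1.isProbabilityMeasure
    have hq := quantile_nonneg hF'.1.isLeast_support hp0
    rcases hq.lt_or_eq with hq | hq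
    · obtain ⟨β, s, hβ0, hβ, hs, hqe, hi, hle⟩ := plus_bound hW hF' hp0 hp1 hq
      rw [← hw] at hβ hqe
      have hmβ := hm β hβ0 hβ
      have e : ∫ x, (s * max (x - a - β) 0) ^ 2 ∂W = s ^ 2 * ∫ x, max (x - a - β) 0 ^ 2 ∂W := by
        rw [← integral_const_mul]
        congr 1
        ext x
        ring
      rw [e] at hle
      have hopt := optimal hW hint hα0 hα hβ0 hβ h1 h2
      have hS : 0 < ∫ x, x ^ 2 ∂F := hF'.1.pos_sq
      rw [ratio, hqe, div_le_div_iff₀ (Real.sqrt_pos.2 hS) (Real.sqrt_pos.2 hmα)]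
      rw [← Real.sqrt_sq (show 0 ≤ s * (w - a - β) by
          have : 0 < w - a - β := by linarith
          positivity),
        ← Real.sqrt_sq (show 0 ≤ w - a - α by linarith), ← Real.sqrt_mul (sq_nonneg _),
        ← Real.sqrt_mul (sq_nonneg _)]
      refine Real.sqrt_le_sqrt ?_
      calc (s * (w - a - β)) ^ 2 * ∫ x, max (x - a - α) 0 ^ 2 ∂W
          = s ^ 2 * ((w - a - β) ^ 2 * ∫ x, max (x - a - α) 0 ^ 2 ∂W) := by ring
        _ ≤ s ^ 2 * ((w - a - α) ^ 2 * ∫ x, max (x - a - β) 0 ^ 2 ∂W) :=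
            mul_le_mul_of_nonneg_left hopt (sq_nonneg _)
        _ = (w - a - α) ^ 2 * (s ^ 2 * ∫ x, max (x - a - β) 0 ^ 2 ∂W) := by ring
        _ ≤ (w - a - α) ^ 2 * ∫ x, x ^ 2 ∂F := mul_le_mul_of_nonneg_left hle (sq_nonneg _)
    · rw [ratio, ← hq, zero_div]
      exact hV
  · intro u hu
    have ht := G_tendsto hW hint hp0 hp1 hα0 hmα
    rw [← hw, max_eq_left (show (0 : ℝ) ≤ w - a - α by linarith)] at ht
    refine le_of_tendsto ht ?_
    filter_upwards [self_mem_nhdsWithin] with ε hε
    obtain ⟨hm1, hm2⟩ := G_mem hW hint hα0 (show (0 : ℝ) < ε from hε)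
    exact hu ⟨_, h𝒞' _ hm1 hm2, rfl⟩

/-- the infimum is `0` -/
lemma isGLB_zero (hW : IsReference W a) (hint : Integrable (fun x : ℝ => x ^ 2) W)
    {p : ℝ} (hp0 : 0 < p) (hp1 : p < 1) {𝒞 : Set (Measure ℝ)} (h𝒞 : 𝒞 ⊆ classPlus W)
    (h𝒞' : ∀ F ∈ classPlus W, (∀ x, F {x} = 0) → F ∈ 𝒞) :
    IsGLB (ratio p '' 𝒞) 0 := by
  have hz : 0 < quantile W p - a := by have := hW.lt_quantile hp0 hp1; linarith
  constructor
  · rintro _ ⟨F, hF, rfl⟩
    have hF' := h𝒞 hF
    have := hF'.1.isProbabilityMeasure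
    exact div_nonneg (quantile_nonneg hF'.1.isLeast_support hp0) (Real.sqrt_nonneg _)
  · intro l hl
    have hm : 0 < ∫ x, max (x - a - (quantile W p - a)) 0 ^ 2 ∂W := by
      refine max_sq_pos hW hint hz.le ?_
      rw [add_sub_cancel, hW.cdf_quantile hp0 hp1]
      exact hp1
    have ht := G_tendsto hW hint hp0 hp1 hz.le hm
    rw [sub_self, max_self, zero_div] at ht
    refine ge_of_tendsto ht ?_
    filter_upwards [self_mem_nhdsWithin] with ε hε
    obtain ⟨hm1, hm2⟩ := G_mem hW hint hz.le (show (0 : ℝ) < ε from hε)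
    exact hl ⟨_, h𝒞' _ hm1 hm2, rfl⟩

/-- if `W` has infinite second moment then the class is empty -/
lemma classPlus_eq_empty (hW : IsReference W a) (hint : ¬ Integrable (fun x : ℝ => x ^ 2) W) :
    classPlus W = ∅ := by
  by_contra hne
  obtain ⟨F, hF⟩ := nonempty_iff_ne_empty.2 hne
  apply hint
  have hP := hF.1.isProbabilityMeasure
  have hPW := hW.isProbabilityMeasure
  -- `F(0) < 1`
  have h0 : cdf F 0 < 1 := by
    by_contra h
    push Not at h
    have h1 : cdf F 0 = 1 := le_antisymm (cdf_le_one F 0) h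
    have h2 : ∀ᵐ x ∂F, x ^ 2 = 0 := by
      have h3 : F (Ioi 0) = 0 := by rw [measure_Ioi_eq, h1]; simp
      have h4 := measure_Iio_eq_zero hF.1.isLeast_support
      rw [ae_iff]
      refine measure_mono_null (t := Iio 0 ∪ Ioi 0) ?_ (measure_union_null h4 h3)
      intro x hx
      simp only [mem_ofPred_eq] at hx
      rcases lt_trichotomy x 0 with h | h | h
      · exact Or.inl h
      · exact absurd (by rw [h]; ring) hx
      · exact Or.inr h
    have h5 := hF.1.pos_sq
    rw [integral_congr_ae h2] at h5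
    simp at h5
  obtain ⟨q, hq1, hq2⟩ := exists_between (max_lt h0 one_pos)
  have hq0 : 0 < q := lt_of_le_of_lt (le_max_right _ _) hq1
  have hpos : 0 < quantile F q := by
    rcases (quantile_nonneg hF.1.isLeast_support hq0).lt_or_eq with h | h
    · exact h
    · have h6 := le_cdf_quantile F hq0 hq2
      rw [← h] at h6
      have := lt_of_le_of_lt (le_max_left _ _) hq1
      linarith
  obtain ⟨β, s, hβ0, hβ, hs, hqe, hi, hle⟩ := plus_bound hW hF hq0 hq2 hpos
  apply sq_of_int_sub_sq hW
  refine ((hi.const_mul (2 / s ^ 2)).add (integrable_const (2 * β ^ 2))).mono' (by fun_prop) ?_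
  filter_upwards [hW.ae_ge] with x hx
  rw [Real.norm_eq_abs, Pi.add_apply, abs_of_nonneg (sq_nonneg _)]
  have e : 2 / s ^ 2 * (s * max (x - a - β) 0) ^ 2 = 2 * max (x - a - β) 0 ^ 2 := by
    field_simp
  rw [e]
  have h1 : x - a ≤ max (x - a - β) 0 + β := by
    have : x - a - β ≤ max (x - a - β) 0 := le_max_left _ _
    linarith
  have h2 : 0 ≤ x - a := by linarith
  have h3 : (x - a) ^ 2 ≤ (max (x - a - β) 0 + β) ^ 2 := pow_le_pow_left₀ h2 h1 2
  nlinarith [sq_nonneg (max (x - a - β) 0 - β)]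

end Analysis

/-- **Answer to Q1.** Let `W` be an absolutely continuous distribution with support interval
`[a, d)` on which its distribution function is strictly increasing, `0 < p < 1`,
`z = W⁻¹(p) - a`, and let `𝒞` be the class `𝒞⁺_W` (or any subclass of it that contains all its
atomless members).

* If `W` has infinite second moment the class is empty.
* Otherwise `inf F⁻¹(p)/m_F = 0`.
* If `z E(Z) ≤ E(Z²)` for `Z ∼ W - a` then `sup F⁻¹(p)/m_F = z / (E Z²)^{1/2}`.
* If `z E(Z) > E(Z²)` then there is exactly one `α ∈ (0, z)` with `E (z - Z)(Z - α)_+ = 0`, and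
  `sup F⁻¹(p)/m_F = (z - α) / (E (Z - α)_+²)^{1/2}`. -/
theorem main (W : Measure ℝ) (a p : ℝ) (hW : IsReference W a) (hp0 : 0 < p) (hp1 : p < 1)
    (𝒞 : Set (Measure ℝ)) (h𝒞 : 𝒞 ⊆ classPlus W)
    (h𝒞' : ∀ F ∈ classPlus W, (∀ x, F {x} = 0) → F ∈ 𝒞) :
    (¬ Integrable (fun x => x ^ 2) W → classPlus W = ∅) ∧
    (Integrable (fun x => x ^ 2) W →
      IsGLB (ratio p '' 𝒞) 0 ∧
      ((quantile W p - a) * ∫ x, (x - a) ∂W ≤ ∫ x, (x - a) ^ 2 ∂W →
        IsLUB (ratio p '' 𝒞)
          ((quantile W p - a) / Real.sqrt (∫ x, (x - a) ^ 2 ∂W))) ∧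
      (∫ x, (x - a) ^ 2 ∂W < (quantile W p - a) * ∫ x, (x - a) ∂W →
        ∃ α ∈ Ioo 0 (quantile W p - a),
          (∀ β ∈ Ioo 0 (quantile W p - a),
            ∫ x, (quantile W p - x) * max (x - a - β) 0 ∂W = 0 ↔ β = α) ∧
          IsLUB (ratio p '' 𝒞)
            ((quantile W p - a - α) / Real.sqrt (∫ x, max (x - a - α) 0 ^ 2 ∂W)))) := by
  refine ⟨classPlus_eq_empty hW, fun hint => ⟨isGLB_zero hW hint hp0 hp1 h𝒞 h𝒞', ?_, ?_⟩⟩
  · intro h
    have hz : 0 < quantile W p - a := by have := hW.lt_quantile hp0 hp1; linarith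
    have h1 : hfun W a (quantile W p) 0 ≤ 0 := by rw [hfun_at_zero hW hint]; linarith
    have := isLUB_of_optimal hW hint hp0 hp1 h𝒞 h𝒞' le_rfl hz h1 (Or.inl rfl)
    have e : ∫ x, max (x - a - 0) 0 ^ 2 ∂W = ∫ x, (x - a) ^ 2 ∂W := by
      refine integral_congr_ae ?_
      filter_upwards [hW.ae_ge] with x hx
      rw [max_eq_left (by linarith), sub_zero]
    rw [e, sub_zero] at this
    exact this
  · intro h
    obtain ⟨α, hα, hαu⟩ := exists_root hW hint hp0 hp1 h
    have hα0 := (hαu α hα).2 rfl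
    exact ⟨α, hα, hαu, isLUB_of_optimal hW hint hp0 hp1 h𝒞 h𝒞' hα.1.le hα.2 hα0.le (Or.inr hα0)⟩

end Pool.Agent.Helper98.ConvexTransformQ1
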