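import Mathlib
import Pool.Agent.Helper98.ConvexTransform

/-!
# Sharp quantile bounds over the class of distributions preceding `W` in the convex
transform order (Q2)
-/

open MeasureTheory ProbabilityTheory Set Filter Topology
open Pool.Agent.Helper98.ConvexTransform

namespace Pool.Agent.Helper98.ConvexTransformQ2

section Analysis

variable {W : Measure ℝ} {a : ℝ}

/-- the distribution generating function `z ↦ c min z K + ε (1 - e^{-z})` -/
noncomputable def G (c K ε : ℝ) (z : ℝ) : ℝ := c * min z K + ε * (1 - Real.exp (-z))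

lemma G_continuous (c K ε : ℝ) : Continuous (G c K ε) := by unfold G; fun_prop

lemma G_strictMono {c : ℝ} (hc : 0 ≤ c) (K : ℝ) {ε : ℝ} (hε : 0 < ε) :
    StrictMono (G c K ε) := by
  intro x y hxy
  unfold G
  have h1 : min x K ≤ min y K := min_le_min hxy.le le_rfl
  have h2 : Real.exp (-y) < Real.exp (-x) := Real.exp_lt_exp.2 (by linarith)
  have h3 := mul_le_mul_of_nonneg_left h1 hc
  have h4 : ε * (1 - Real.exp (-x)) < ε * (1 - Real.exp (-y)) :=
    mul_lt_mul_of_pos_left (by linarith) hε
  linarith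

lemma G_zero (c : ℝ) {K : ℝ} (hK : 0 ≤ K) (ε : ℝ) : G c K ε 0 = 0 := by
  unfold G
  rw [min_eq_left hK]
  simp

lemma G_concave {c : ℝ} (hc : 0 ≤ c) (K : ℝ) {ε : ℝ} (hε : 0 ≤ ε) :
    ConcaveOn ℝ univ (G c K ε) := by
  unfold G
  refine ConcaveOn.add ?_ ?_
  · have h1 : ConcaveOn ℝ univ (fun z : ℝ => min z K) :=
      (concaveOn_id convex_univ).inf (concaveOn_const K convex_univ)
    exact h1.smul hc
  · have h2 : ConvexOn ℝ univ (fun z : ℝ => Real.exp (-z)) := by
      have := convexOn_exp.comp_linearMap (LinearMap.lsmul ℝ ℝ (-1 : ℝ))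
      simp only [preimage_univ] at this
      have e : (fun z : ℝ => Real.exp (-z)) = Real.exp ∘ (LinearMap.lsmul ℝ ℝ (-1 : ℝ)) := by
        ext x
        simp
      rw [e]
      exact this
    have h3 : ConcaveOn ℝ univ (fun z : ℝ => 1 - Real.exp (-z)) :=
      (concaveOn_const 1 convex_univ).sub h2
    exact h3.smul hε

lemma G_bounds {c K ε z : ℝ} (hc : 0 ≤ c) (hK : 0 ≤ K) (hε : 0 ≤ ε) (hz : 0 ≤ z) :
    c * min z K ≤ G c K ε z ∧ G c K ε z ≤ c * K + ε ∧ 0 ≤ c * min z K := by
  unfold G
  have h1 : 0 ≤ min z K := le_min hz hK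
  have h2 : Real.exp (-z) ≤ 1 := Real.exp_le_one_iff.2 (by linarith)
  have h3 : 0 < Real.exp (-z) := Real.exp_pos _
  have h4 : min z K ≤ K := min_le_right _ _
  have h5 : 0 ≤ ε * (1 - Real.exp (-z)) := mul_nonneg hε (by linarith)
  have h6 : ε * (1 - Real.exp (-z)) ≤ ε * 1 := mul_le_mul_of_nonneg_left (by linarith) hε
  have h7 := mul_le_mul_of_nonneg_left h4 hc
  refine ⟨by linarith, by linarith, mul_nonneg hc h1⟩

lemma G_integrable (hW : IsReference W a) {c K ε : ℝ} (hc : 0 ≤ c) (hK : 0 ≤ K) (hε : 0 ≤ ε) :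
    Integrable (fun x => G c K ε (x - a) ^ 2) W := by
  have := hW.isProbabilityMeasure
  refine (integrable_const ((c * K + ε) ^ 2)).mono' ?_ ?_
  · exact ((G_continuous c K ε).measurable.comp (measurable_id.sub_const a)).pow_const 2
      |>.aestronglyMeasurable
  · filter_upwards [hW.ae_ge] with x hx
    obtain ⟨h1, h2, h3⟩ := G_bounds hc hK hε (show 0 ≤ x - a by linarith)
    rw [Real.norm_eq_abs, abs_of_nonneg (sq_nonneg _)]
    exact pow_le_pow_left₀ (h3.trans h1) h2 2

/-- the members of the class used to approach the bounds -/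
lemma G_mem (hW : IsReference W a) {c K ε : ℝ} (hc : 0 ≤ c) (hK : 0 ≤ K) (hε : 0 < ε) :
    lawOf W a (G c K ε) ∈ classMinus W ∧ ∀ x, lawOf W a (G c K ε) {x} = 0 :=
  ⟨⟨isNormalised_lawOf hW (G_continuous c K ε) (G_strictMono hc K hε) (G_zero c hK ε)
      (G_integrable hW hc hK hε.le),
    convex_lawOf hW (G_continuous c K ε) (G_strictMono hc K hε) (G_zero c hK ε)
      (G_concave hc K hε.le)⟩,
    fun x => lawOf_singleton hW (G_continuous c K ε) (G_strictMono hc K hε) x⟩

lemma int_min_sq (hW : IsReference W a) {K : ℝ} (hK : 0 ≤ K) :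
    Integrable (fun x => min (x - a) K ^ 2) W := by
  have := hW.isProbabilityMeasure
  refine (integrable_const (K ^ 2)).mono' (by fun_prop) ?_
  filter_upwards [hW.ae_ge] with x hx
  rw [Real.norm_eq_abs, abs_of_nonneg (sq_nonneg _)]
  exact pow_le_pow_left₀ (le_min (by linarith) hK) (min_le_right _ _) 2

lemma min_sq_pos (hW : IsReference W a) {K : ℝ} (hK : 0 < K) :
    0 < ∫ x, min (x - a) K ^ 2 ∂W := by
  have := hW.isProbabilityMeasure
  rw [integral_pos_iff_support_of_nonneg (fun x => sq_nonneg _) (int_min_sq hW hK.le)]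
  rw [pos_iff_ne_zero]
  intro h0
  have h1 : ∀ᵐ x ∂W, x ∉ Function.support (fun x => min (x - a) K ^ 2) := by
    rw [ae_iff]
    convert h0 using 2
    ext x
    simp
  obtain ⟨x, hx1, hx2⟩ := (h1.and hW.ae_ge).exists
  apply hx1
  simp only [Function.mem_support]
  have : 0 < min (x - a) K := lt_min (by linarith) hK
  positivity

/-- sup over the class -/
lemma isLUB_minus (hW : IsReference W a) {p : ℝ} (hp0 : 0 < p) (hp1 : p < 1)
    {𝒞 : Set (Measure ℝ)} (h𝒞 : 𝒞 ⊆ classMinus W)
    (h𝒞' : ∀ F ∈ classMinus W, (∀ x, F {x} = 0) → F ∈ 𝒞) :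
    IsLUB (ratio p '' 𝒞)
      ((quantile W p - a) / Real.sqrt (∫ x, min (x - a) (quantile W p - a) ^ 2 ∂W)) := by
  have := hW.isProbabilityMeasure
  set z := quantile W p - a with hz
  have hz0 : 0 < z := by have := hW.lt_quantile hp0 hp1; linarith
  have hA := min_sq_pos hW hz0
  set A := ∫ x, min (x - a) z ^ 2 ∂W with hAdef
  constructor
  · rintro _ ⟨F, hF, rfl⟩
    have hF' := h𝒞 hF
    have h1 := minus_bound_upper hW hF' hp0 hp1
    rw [← hz] at h1
    have hq := minus_quantile_pos hF' hp0 hp1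
    have e : ∫ x, (quantile F p / z * min (max (x - a) 0) z) ^ 2 ∂W
        = (quantile F p / z) ^ 2 * A := by
      rw [hAdef, ← integral_const_mul]
      refine integral_congr_ae ?_
      filter_upwards [hW.ae_ge] with x hx
      rw [max_eq_left (by linarith)]
      ring
    rw [e] at h1
    have hS := hF'.1.pos_sq
    rw [ratio, div_le_div_iff₀ (Real.sqrt_pos.2 hS) (Real.sqrt_pos.2 hA),
      ← Real.sqrt_sq hq.le, ← Real.sqrt_sq hz0.le, ← Real.sqrt_mul (sq_nonneg _),
      ← Real.sqrt_mul (sq_nonneg _)]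
    refine Real.sqrt_le_sqrt ?_
    have h2 := mul_le_mul_of_nonneg_left h1 (sq_nonneg z)
    have e2 : z ^ 2 * ((quantile F p / z) ^ 2 * A) = quantile F p ^ 2 * A := by
      field_simp
    rw [e2] at h2
    exact h2
  · intro u hu
    -- expansion of the second moment
    set B := 2 * ∫ x, min (x - a) z * (1 - Real.exp (-(x - a))) ∂W with hB
    set C := ∫ x, (1 - Real.exp (-(x - a))) ^ 2 ∂W with hC
    have i1 := int_min_sq hW hz0.le
    have i2 : Integrable (fun x => min (x - a) z * (1 - Real.exp (-(x - a)))) W := by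
      refine (integrable_const z).mono' (by fun_prop) ?_
      filter_upwards [hW.ae_ge] with x hx
      have h1 : 0 ≤ min (x - a) z := le_min (by linarith) hz0.le
      have h2 : min (x - a) z ≤ z := min_le_right _ _
      have h3 : Real.exp (-(x - a)) ≤ 1 := Real.exp_le_one_iff.2 (by linarith)
      have h4 : 0 < Real.exp (-(x - a)) := Real.exp_pos _
      rw [Real.norm_eq_abs, abs_of_nonneg (mul_nonneg h1 (by linarith))]
      nlinarith
    have i3 : Integrable (fun x => (1 - Real.exp (-(x - a))) ^ 2) W := by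
      refine (integrable_const 1).mono' (by fun_prop) ?_
      filter_upwards [hW.ae_ge] with x hx
      have h3 : Real.exp (-(x - a)) ≤ 1 := Real.exp_le_one_iff.2 (by linarith)
      have h4 : 0 < Real.exp (-(x - a)) := Real.exp_pos _
      rw [Real.norm_eq_abs, abs_of_nonneg (sq_nonneg _)]
      nlinarith
    have hmom : ∀ ε : ℝ, ∫ x, G 1 z ε (x - a) ^ 2 ∂W = A + ε * B + ε ^ 2 * C := by
      intro ε
      have e : (fun x => G 1 z ε (x - a) ^ 2) = fun x => min (x - a) z ^ 2
          + ε * (2 * (min (x - a) z * (1 - Real.exp (-(x - a)))))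
          + ε ^ 2 * (1 - Real.exp (-(x - a))) ^ 2 := by
        ext x
        unfold G
        ring
      have j2 := (i2.const_mul 2).const_mul ε
      rw [e, integral_add (f := fun x => min (x - a) z ^ 2
          + ε * (2 * (min (x - a) z * (1 - Real.exp (-(x - a)))))) (i1.add j2)
          (i3.const_mul _), integral_add i1 j2, integral_const_mul, integral_const_mul,
          integral_const_mul]
    have h1 : Tendsto (fun ε : ℝ => G 1 z ε z / Real.sqrt (A + ε * B + ε ^ 2 * C))
        (𝓝[>] 0) (𝓝 (G 1 z 0 z / Real.sqrt (A + 0 * B + 0 ^ 2 * C))) := by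
      refine Tendsto.mono_left ?_ nhdsWithin_le_nhds
      refine Tendsto.div ?_ ?_ ?_
      · unfold G
        exact (continuous_const.add (continuous_id.mul continuous_const)).tendsto 0
      · have : Continuous fun ε : ℝ => Real.sqrt (A + ε * B + ε ^ 2 * C) := by fun_prop
        exact this.tendsto 0
      · have : A + 0 * B + 0 ^ 2 * C = A := by ring
        rw [this]
        exact (Real.sqrt_pos.2 hA).ne'
    have h2 : G 1 z 0 z / Real.sqrt (A + 0 * B + 0 ^ 2 * C) = z / Real.sqrt A := by
      have e0 : A + 0 * B + 0 ^ 2 * C = A := by ring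
      have e1 : G 1 z 0 z = z := by
        unfold G
        rw [min_self]
        ring
      rw [e0, e1]
    rw [h2] at h1
    refine le_of_tendsto h1 ?_
    filter_upwards [self_mem_nhdsWithin] with ε hε
    have hε' : (0 : ℝ) < ε := hε
    obtain ⟨hm1, hm2⟩ := G_mem hW zero_le_one hz0.le hε'
    have h3 : ratio p (lawOf W a (G 1 z ε)) ≤ u := hu ⟨_, h𝒞' _ hm1 hm2, rfl⟩
    rwa [ratio_lawOf hW (G_continuous 1 z ε) (G_strictMono zero_le_one z hε') hp0 hp1,
      ← hz, hmom] at h3

lemma int_of_sq (hW : IsReference W a) (hint : Integrable (fun x : ℝ => x ^ 2) W) :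
    Integrable (fun x : ℝ => x) W := by
  have := hW.isProbabilityMeasure
  refine ((integrable_const (1 : ℝ)).add hint).mono' measurable_id.aestronglyMeasurable ?_
  filter_upwards with x
  rw [Real.norm_eq_abs, Pi.add_apply, abs_le]
  constructor <;> nlinarith [sq_nonneg (x - 1), sq_nonneg (x + 1)]

lemma int_sub_sq (hW : IsReference W a) (hint : Integrable (fun x : ℝ => x ^ 2) W) :
    Integrable (fun x : ℝ => (x - a) ^ 2) W := by
  have := hW.isProbabilityMeasure
  have h : (fun x : ℝ => (x - a) ^ 2) = fun x => x ^ 2 - (2 * a) * x + a ^ 2 := by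
    ext x; ring
  rw [h]
  exact (hint.sub ((int_of_sq hW hint).const_mul _)).add (integrable_const _)

lemma sq_of_int_sub_sq (hW : IsReference W a)
    (hint : Integrable (fun x : ℝ => (x - a) ^ 2) W) :
    Integrable (fun x : ℝ => x ^ 2) W := by
  have := hW.isProbabilityMeasure
  refine ((hint.const_mul 2).add (integrable_const (2 * a ^ 2))).mono'
    (measurable_id.pow_const 2).aestronglyMeasurable ?_
  filter_upwards with x
  rw [Real.norm_eq_abs, Pi.add_apply, abs_of_nonneg (sq_nonneg x)]
  nlinarith [sq_nonneg (x - 2 * a)]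

lemma sub_sq_pos (hW : IsReference W a) (hint : Integrable (fun x : ℝ => (x - a) ^ 2) W) :
    0 < ∫ x, (x - a) ^ 2 ∂W := by
  have := hW.isProbabilityMeasure
  refine lt_of_lt_of_le (min_sq_pos hW one_pos) (integral_mono_ae (int_min_sq hW zero_le_one)
    hint ?_)
  filter_upwards [hW.ae_ge] with x hx
  exact pow_le_pow_left₀ (le_min (by linarith) zero_le_one) (min_le_left _ _) 2

/-- inf over the class when the second moment of `W` is finite -/
lemma isGLB_minus (hW : IsReference W a) (hint : Integrable (fun x : ℝ => x ^ 2) W)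
    {p : ℝ} (hp0 : 0 < p) (hp1 : p < 1)
    {𝒞 : Set (Measure ℝ)} (h𝒞 : 𝒞 ⊆ classMinus W)
    (h𝒞' : ∀ F ∈ classMinus W, (∀ x, F {x} = 0) → F ∈ 𝒞) :
    IsGLB (ratio p '' 𝒞)
      (min 1 ((quantile W p - a) / Real.sqrt (∫ x, (x - a) ^ 2 ∂W))) := by
  have := hW.isProbabilityMeasure
  have hint' := int_sub_sq hW hint
  set z := quantile W p - a with hz
  have hz0 : 0 < z := by have := hW.lt_quantile hp0 hp1; linarith
  have hM := sub_sq_pos hW hint'
  set M := ∫ x, (x - a) ^ 2 ∂W with hMdef
  constructor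
  · rintro _ ⟨F, hF, rfl⟩
    have hF' := h𝒞 hF
    have h1 := minus_bound_lower hW hF' hp0 hp1 hint'
    rw [← hz, ← hMdef] at h1
    have hq := minus_quantile_pos hF' hp0 hp1
    have hS := hF'.1.pos_sq
    rw [ratio, le_div_iff₀ (Real.sqrt_pos.2 hS)]
    have h2 : Real.sqrt (∫ x, x ^ 2 ∂F) ≤ quantile F p * Real.sqrt (max 1 (M / z ^ 2)) := by
      have := Real.sqrt_le_sqrt h1
      rwa [Real.sqrt_mul (sq_nonneg _), Real.sqrt_sq hq.le] at this
    have h0 : 0 ≤ min 1 (z / Real.sqrt M) := le_min zero_le_one (div_nonneg hz0.le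
      (Real.sqrt_nonneg _))
    have h3 : min 1 (z / Real.sqrt M) * Real.sqrt (max 1 (M / z ^ 2)) ≤ 1 := by
      rcases le_total 1 (M / z ^ 2) with h | h
      · rw [max_eq_right h, Real.sqrt_div hM.le, Real.sqrt_sq hz0.le]
        have hs := Real.sqrt_pos.2 hM
        calc min 1 (z / Real.sqrt M) * (Real.sqrt M / z)
            ≤ (z / Real.sqrt M) * (Real.sqrt M / z) :=
              mul_le_mul_of_nonneg_right (min_le_right _ _) (div_nonneg hs.le hz0.le)
          _ = 1 := by field_simp
      · rw [max_eq_left h, Real.sqrt_one, mul_one]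
        exact min_le_left _ _
    calc min 1 (z / Real.sqrt M) * Real.sqrt (∫ x, x ^ 2 ∂F)
        ≤ min 1 (z / Real.sqrt M) * (quantile F p * Real.sqrt (max 1 (M / z ^ 2))) :=
          mul_le_mul_of_nonneg_left h2 h0
      _ = quantile F p * (min 1 (z / Real.sqrt M) * Real.sqrt (max 1 (M / z ^ 2))) := by ring
      _ ≤ quantile F p * 1 := mul_le_mul_of_nonneg_left h3 hq.le
      _ = quantile F p := mul_one _
  · intro l hl
    refine le_min ?_ ?_
    · -- members close to a point mass
      have hcont := hW.continuous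
      have h1 : Tendsto (fun K : ℝ => (1 + K) / Real.sqrt (1 - cdf W (a + K)))
          (𝓝[>] 0) (𝓝 ((1 + 0) / Real.sqrt (1 - cdf W (a + 0)))) := by
        refine Tendsto.mono_left ?_ nhdsWithin_le_nhds
        refine Tendsto.div ((continuous_const.add continuous_id).tendsto 0) ?_ ?_
        · have : Continuous fun K : ℝ => Real.sqrt (1 - cdf W (a + K)) := by fun_prop
          exact this.tendsto 0
        · rw [add_zero, hW.cdf_left]; simp
      rw [add_zero, add_zero, hW.cdf_left, sub_zero, Real.sqrt_one, div_one] at h1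
      refine ge_of_tendsto h1 ?_
      have hsmall : ∀ᶠ K in 𝓝[>] (0 : ℝ), cdf W (a + K) < 1 := by
        have : Tendsto (fun K : ℝ => cdf W (a + K)) (𝓝[>] 0) (𝓝 (cdf W (a + 0))) :=
          ((hcont.comp (continuous_const.add continuous_id)).tendsto 0).mono_left
            nhdsWithin_le_nhds
        rw [add_zero, hW.cdf_left] at this
        exact this.eventually (gt_mem_nhds one_pos)
      filter_upwards [self_mem_nhdsWithin, hsmall, Ioo_mem_nhdsGT hz0] with K hK hK1 hKz
      have hK0 : (0 : ℝ) < K := hK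
      obtain ⟨hm1, hm2⟩ := G_mem hW (inv_nonneg.2 hK0.le) hK0.le hK0
      have h3 : l ≤ ratio p (lawOf W a (G K⁻¹ K K)) := hl ⟨_, h𝒞' _ hm1 hm2, rfl⟩
      rw [ratio_lawOf hW (G_continuous _ _ _) (G_strictMono (inv_nonneg.2 hK0.le) K hK0) hp0 hp1,
        ← hz] at h3
      refine h3.trans ?_
      have hnum : G K⁻¹ K K z ≤ 1 + K := by
        have := (G_bounds (inv_nonneg.2 hK0.le) hK0.le hK0.le hz0.le).2.1
        rwa [inv_mul_cancel₀ hK0.ne'] at this
      have hden : 1 - cdf W (a + K) ≤ ∫ x, G K⁻¹ K K (x - a) ^ 2 ∂W := by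
        have e : 1 - cdf W (a + K) = ∫ x, (Ioi (a + K)).indicator (fun _ => (1 : ℝ)) x ∂W := by
          rw [integral_indicator measurableSet_Ioi]
          simp only [integral_const, MeasurableSet.univ, measureReal_restrict_apply, univ_inter,
            smul_eq_mul, mul_one]
          rw [measureReal_def, measure_Ioi_eq, ENNReal.toReal_ofReal (by linarith)]
        rw [e]
        refine integral_mono_ae ((integrable_const 1).indicator measurableSet_Ioi)
          (G_integrable hW (inv_nonneg.2 hK0.le) hK0.le hK0.le) ?_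
        filter_upwards [hW.ae_ge] with x hx
        by_cases hxK : x ∈ Ioi (a + K)
        · rw [indicator_of_mem hxK]
          have hxK' : a + K < x := hxK
          have h4 := (G_bounds (inv_nonneg.2 hK0.le) hK0.le hK0.le
            (show 0 ≤ x - a by linarith)).1
          rw [min_eq_right (by linarith), inv_mul_cancel₀ hK0.ne'] at h4
          nlinarith
        · rw [indicator_of_notMem hxK]
          exact sq_nonneg _
      have hpos : 0 < 1 - cdf W (a + K) := by linarith
      exact div_le_div₀ (by linarith) hnum (Real.sqrt_pos.2 hpos) (Real.sqrt_le_sqrt hden)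
    · -- the distribution `W` itself, shifted
      have hmem : lawOf W a id ∈ classMinus W :=
        ⟨isNormalised_lawOf hW continuous_id strictMono_id rfl hint',
          convex_lawOf hW continuous_id strictMono_id rfl (concaveOn_id convex_univ)⟩
      have h3 : l ≤ ratio p (lawOf W a id) :=
        hl ⟨_, h𝒞' _ hmem (fun x => lawOf_singleton hW continuous_id strictMono_id x), rfl⟩
      rwa [ratio_lawOf hW continuous_id strictMono_id hp0 hp1] at h3

/-- inf over the class when the second moment of `W` is infinite -/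
lemma isGLB_minus_infinite (hW : IsReference W a)
    (hint : ¬ Integrable (fun x : ℝ => x ^ 2) W)
    {p : ℝ} (hp0 : 0 < p) (hp1 : p < 1)
    {𝒞 : Set (Measure ℝ)} (h𝒞 : 𝒞 ⊆ classMinus W)
    (h𝒞' : ∀ F ∈ classMinus W, (∀ x, F {x} = 0) → F ∈ 𝒞) :
    IsGLB (ratio p '' 𝒞) 0 := by
  have := hW.isProbabilityMeasure
  set z := quantile W p - a with hz
  have hz0 : 0 < z := by have := hW.lt_quantile hp0 hp1; linarith
  constructor
  · rintro _ ⟨F, hF, rfl⟩
    have hq := minus_quantile_pos (h𝒞 hF) hp0 hp1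
    exact div_nonneg hq.le (Real.sqrt_nonneg _)
  · intro l hl
    by_contra hl0
    push Not at hl0
    -- all truncated second moments are bounded
    have hbd : ∀ n : ℕ, ∫ x, min (x - a) (n + z) ^ 2 ∂W ≤ ((z + 1) / l) ^ 2 := by
      intro n
      have hK : 0 ≤ (n : ℝ) + z := by positivity
      obtain ⟨hm1, hm2⟩ := G_mem hW zero_le_one hK one_pos
      have h3 : l ≤ ratio p (lawOf W a (G 1 (n + z) 1)) := hl ⟨_, h𝒞' _ hm1 hm2, rfl⟩
      rw [ratio_lawOf hW (G_continuous _ _ _) (G_strictMono zero_le_one _ one_pos) hp0 hp1,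
        ← hz] at h3
      have hnum : G 1 (n + z) 1 z ≤ z + 1 := by
        unfold G
        have h5 : min z (n + z) ≤ z := min_le_left _ _
        have h6 := Real.exp_pos (-z)
        linarith
      have hden : ∫ x, min (x - a) (n + z) ^ 2 ∂W ≤ ∫ x, G 1 (n + z) 1 (x - a) ^ 2 ∂W := by
        refine integral_mono_ae (int_min_sq hW hK) (G_integrable hW zero_le_one hK zero_le_one) ?_
        filter_upwards [hW.ae_ge] with x hx
        obtain ⟨h7, -, h8⟩ := G_bounds (c := 1) zero_le_one hK zero_le_one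
          (show 0 ≤ x - a by linarith)
        rw [one_mul] at h7 h8
        exact pow_le_pow_left₀ h8 h7 2
      have hpos : 0 < ∫ x, G 1 (n + z) 1 (x - a) ^ 2 ∂W :=
        lt_of_lt_of_le (min_sq_pos hW (by positivity)) hden
      rw [le_div_iff₀ (Real.sqrt_pos.2 hpos)] at h3
      have h9 : Real.sqrt (∫ x, G 1 (n + z) 1 (x - a) ^ 2 ∂W) ≤ (z + 1) / l := by
        rw [le_div_iff₀ hl0]
        linarith
      have h10 := Real.sqrt_le_left (show 0 ≤ (z + 1) / l by positivity) |>.1 h9
      exact hden.trans h10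
    apply hint
    apply sq_of_int_sub_sq hW
    refine ⟨by fun_prop, ?_⟩
    rw [hasFiniteIntegral_iff_ofReal (ae_of_all _ fun x => sq_nonneg _)]
    have hmono : ∫⁻ x, ENNReal.ofReal ((x - a) ^ 2) ∂W
        = ⨆ n : ℕ, ∫⁻ x, ENNReal.ofReal (min (max (x - a) 0) (n + z) ^ 2) ∂W := by
      rw [← lintegral_iSup]
      · refine lintegral_congr_ae ?_
        filter_upwards [hW.ae_ge] with x hx
        refine le_antisymm ?_ ?_
        · obtain ⟨n, hn⟩ := exists_nat_gt (x - a)
          refine le_iSup_of_le n ?_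
          rw [max_eq_left (by linarith), min_eq_left (by linarith)]
        · refine iSup_le fun n => ENNReal.ofReal_le_ofReal ?_
          rw [max_eq_left (by linarith)]
          exact pow_le_pow_left₀ (le_min (by linarith) (by positivity)) (min_le_left _ _) 2
      · intro n
        fun_prop
      · intro m n hmn x
        refine ENNReal.ofReal_le_ofReal ?_
        have : (m : ℝ) ≤ n := by exact_mod_cast hmn
        exact pow_le_pow_left₀ (le_min (le_max_right _ _) (by positivity))
          (min_le_min le_rfl (by linarith)) 2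
    rw [hmono]
    refine lt_of_le_of_lt (iSup_le fun n => ?_)
      (ENNReal.ofReal_lt_top (r := ((z + 1) / l) ^ 2))
    have e : ∫⁻ x, ENNReal.ofReal (min (max (x - a) 0) (n + z) ^ 2) ∂W
        = ∫⁻ x, ENNReal.ofReal (min (x - a) (n + z) ^ 2) ∂W := by
      refine lintegral_congr_ae ?_
      filter_upwards [hW.ae_ge] with x hx
      rw [max_eq_left (by linarith)]
    rw [e, ← ofReal_integral_eq_lintegral_ofReal (int_min_sq hW (by positivity))
      (ae_of_all _ fun x => sq_nonneg _)]
    exact ENNReal.ofReal_le_ofReal (hbd n)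

end Analysis

/-- **Answer to Q2.** Let `W` be an absolutely continuous distribution with support interval
`[a, d)` on which its distribution function is strictly increasing, `0 < p < 1`,
`z = W⁻¹(p) - a`, and let `𝒞` be the class `𝒞⁻_W` (or any subclass of it that contains all its
atomless members). For `Z ∼ W - a`:

* `sup F⁻¹(p)/m_F = z / (E min(Z, z)²)^{1/2}`;
* if `W` has finite second moment then `inf F⁻¹(p)/m_F = min (1, z / (E Z²)^{1/2})`;
* if `W` has infinite second moment then `inf F⁻¹(p)/m_F = 0`. -/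
theorem main (W : Measure ℝ) (a p : ℝ) (hW : IsReference W a) (hp0 : 0 < p) (hp1 : p < 1)
    (𝒞 : Set (Measure ℝ)) (h𝒞 : 𝒞 ⊆ classMinus W)
    (h𝒞' : ∀ F ∈ classMinus W, (∀ x, F {x} = 0) → F ∈ 𝒞) :
    IsLUB (ratio p '' 𝒞)
      ((quantile W p - a) / Real.sqrt (∫ x, min (x - a) (quantile W p - a) ^ 2 ∂W)) ∧
    (Integrable (fun x => x ^ 2) W →
      IsGLB (ratio p '' 𝒞)
        (min 1 ((quantile W p - a) / Real.sqrt (∫ x, (x - a) ^ 2 ∂W)))) ∧
    (¬ Integrable (fun x => x ^ 2) W → IsGLB (ratio p '' 𝒞) 0) :=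
  ⟨isLUB_minus hW hp0 hp1 h𝒞 h𝒞', fun hint => isGLB_minus hW hint hp0 hp1 h𝒞 h𝒞',
    fun hint => isGLB_minus_infinite hW hint hp0 hp1 h𝒞 h𝒞'⟩

end Pool.Agent.Helper98.ConvexTransformQ2
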