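import Mathlib

/-!
# Orderings of the vertices and the number of adjacent consecutive pairs
-/

set_option linter.unusedSectionVars false
set_option linter.unusedSimpArgs false

open Finset

namespace Pool.Agent.Helper98.Ham

open Classical in
/-- indicator of an edge between two optional vertices -/
noncomputable def jn {V : Type*} (G : SimpleGraph V) (x y : Option V) : ℕ :=
  if ∃ a b, x = some a ∧ y = some b ∧ G.Adj a b then 1 else 0

/-- number of adjacent consecutive pairs of a list -/
noncomputable def lc {V : Type*} (G : SimpleGraph V) : List V → ℕ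
  | [] => 0
  | a :: l => jn G (some a) l.head? + lc G l

section

variable {V : Type*} {G G' : SimpleGraph V}

lemma jn_le_one (x y : Option V) : jn G x y ≤ 1 := by
  unfold jn; split_ifs <;> omega

lemma jn_none_left (y : Option V) : jn G none y = 0 := by
  unfold jn; rw [if_neg]; rintro ⟨a, b, h, -⟩; cases h

lemma jn_none_right (x : Option V) : jn G x none = 0 := by
  unfold jn; rw [if_neg]; rintro ⟨a, b, -, h, -⟩; cases h

lemma jn_some {a b : V} (h : G.Adj a b) : jn G (some a) (some b) = 1 := by
  unfold jn; rw [if_pos]; exact ⟨a, b, rfl, rfl, h⟩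

lemma jn_some_not {a b : V} (h : ¬ G.Adj a b) : jn G (some a) (some b) = 0 := by
  unfold jn; rw [if_neg]; rintro ⟨a', b', h1, h2, h3⟩
  cases h1; cases h2; exact h h3

lemma adj_of_jn {a b : V} (h : jn G (some a) (some b) = 1) : G.Adj a b := by
  by_contra hc
  rw [jn_some_not hc] at h
  omega

lemma exists_of_jn {x y : Option V} (h : jn G x y = 1) :
    ∃ a b, x = some a ∧ y = some b ∧ G.Adj a b := by
  by_contra hc
  unfold jn at h
  rw [if_neg hc] at h
  omega

lemma jn_comm (x y : Option V) : jn G x y = jn G y x := by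
  unfold jn
  congr 1
  refine propext ⟨?_, ?_⟩
  · rintro ⟨a, b, h1, h2, h3⟩; exact ⟨b, a, h2, h1, h3.symm⟩
  · rintro ⟨a, b, h1, h2, h3⟩; exact ⟨b, a, h2, h1, h3.symm⟩

lemma jn_mono (h : G ≤ G') (x y : Option V) : jn G x y ≤ jn G' x y := by
  unfold jn
  split_ifs with h1 h2
  · exact le_rfl
  · obtain ⟨a, b, e1, e2, e3⟩ := h1
    exact absurd ⟨a, b, e1, e2, h e3⟩ h2
  · omega
  · exact le_rfl

@[simp] lemma lc_nil : lc G [] = 0 := rfl

@[simp] lemma lc_singleton (a : V) : lc G [a] = 0 := by
  simp [lc, jn_none_right]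

lemma lc_cons (a : V) (l : List V) : lc G (a :: l) = jn G (some a) l.head? + lc G l := rfl

lemma lc_append (A B : List V) : lc G (A ++ B) = lc G A + jn G A.getLast? B.head? + lc G B := by
  induction A with
  | nil => simp [jn_none_left]
  | cons a A ih =>
    rw [List.cons_append, lc_cons, lc_cons, ih]
    rcases A with _ | ⟨b, A⟩
    · simp [jn_none_left, jn_none_right]
    · rw [List.getLast?_cons_cons]
      simp only [List.cons_append, List.head?_cons]
      ring

lemma lc_reverse (l : List V) : lc G l.reverse = lc G l := by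
  induction l with
  | nil => rfl
  | cons a l ih =>
    rw [List.reverse_cons, lc_append, ih, List.getLast?_reverse, lc_singleton,
      List.head?_cons, jn_comm, lc_cons]
    ring

lemma lc_le_length (l : List V) : lc G l ≤ l.length - 1 := by
  induction l with
  | nil => simp
  | cons a l ih =>
    rw [lc_cons]
    rcases l with _ | ⟨b, l⟩
    · simp [jn_none_right]
    · have := jn_le_one (G := G) (some a) (b :: l).head?
      simp only [List.length_cons] at *
      omega

lemma lc_mono (h : G ≤ G') (l : List V) : lc G l ≤ lc G' l := by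
  induction l with
  | nil => exact le_rfl
  | cons a l ih =>
    rw [lc_cons, lc_cons]
    exact add_le_add (jn_mono h _ _) ih

/-- an edge that does not meet the list does not change the number -/
lemma lc_sup_edge_of_notMem {x y : V} (l : List V) (hx : x ∉ l) :
    lc (G ⊔ SimpleGraph.edge x y) l = lc G l := by
  induction l with
  | nil => rfl
  | cons a l ih =>
    rw [List.mem_cons, not_or] at hx
    rw [lc_cons, lc_cons, ih hx.2]
    congr 1
    refine le_antisymm ?_ (jn_mono le_sup_left _ _)
    by_contra hcon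
    push Not at hcon
    have h1 : jn (G ⊔ SimpleGraph.edge x y) (some a) l.head? = 1 := by
      have := jn_le_one (G := G ⊔ SimpleGraph.edge x y) (some a) l.head?
      omega
    obtain ⟨a', b, e1, e2, e3⟩ := exists_of_jn h1
    cases e1
    have hb : b ∈ l := List.mem_of_mem_head? (by rw [e2]; rfl)
    rw [SimpleGraph.sup_adj, SimpleGraph.edge_adj] at e3
    rcases e3 with e3 | ⟨e3 | e3, -⟩
    · rw [e2, jn_some e3] at hcon
      have := jn_le_one (G := G ⊔ SimpleGraph.edge x y) (some a) (some b)
      omega
    · exact hx.1 e3.1.symm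
    · exact hx.2 (e3.2 ▸ hb)

lemma lc_sup_edge_le {x y : V} (l : List V) (hl : l.Nodup) :
    lc (G ⊔ SimpleGraph.edge x y) l ≤ lc G l + 1 := by
  induction l with
  | nil => simp
  | cons a l ih =>
    rw [List.nodup_cons] at hl
    rw [lc_cons, lc_cons]
    by_cases h : jn (G ⊔ SimpleGraph.edge x y) (some a) l.head? = jn G (some a) l.head?
    · rw [h]
      have := ih hl.2
      omega
    · have h0 := jn_mono (G := G) (G' := G ⊔ SimpleGraph.edge x y) le_sup_left (some a) l.head?
      have h1 := jn_le_one (G := G ⊔ SimpleGraph.edge x y) (some a) l.head?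
      have h2 : jn (G ⊔ SimpleGraph.edge x y) (some a) l.head? = 1 := by omega
      have h3 : jn G (some a) l.head? = 0 := by omega
      obtain ⟨a', b, e1, e2, e3⟩ := exists_of_jn h2
      cases e1
      rw [SimpleGraph.sup_adj] at e3
      rcases e3 with e3 | e3
      · rw [e2, jn_some e3] at h3
        omega
      · rw [SimpleGraph.edge_adj] at e3
        have key : lc (G ⊔ SimpleGraph.edge x y) l = lc G l := by
          rcases e3.1 with e4 | e4
          · exact lc_sup_edge_of_notMem l (by rw [← e4.1]; exact hl.1)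
          · rw [SimpleGraph.edge_comm]
            exact lc_sup_edge_of_notMem l (by rw [← e4.1]; exact hl.1)
        omega

end

section

variable {V : Type*} [Fintype V] [DecidableEq V] {G G' : SimpleGraph V}

/-- an ordering of all vertices -/
def IsOrd (l : List V) : Prop := l.Nodup ∧ ∀ v, v ∈ l

lemma IsOrd.length {l : List V} (h : IsOrd l) : l.length = Fintype.card V := by
  rw [← List.toFinset_card_of_nodup h.1]
  have : l.toFinset = univ := by ext v; simp [h.2 v]
  rw [this, card_univ]

lemma exists_isOrd (V : Type*) [Fintype V] [DecidableEq V] : ∃ l : List V, IsOrd l :=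
  ⟨univ.toList, nodup_toList _, fun v => mem_toList.2 (mem_univ v)⟩

lemma IsOrd.reverse {l : List V} (h : IsOrd l) : IsOrd l.reverse :=
  ⟨List.nodup_reverse.2 h.1, fun v => List.mem_reverse.2 (h.2 v)⟩

lemma IsOrd.perm {l l' : List V} (h : IsOrd l) (hp : l.Perm l') : IsOrd l' :=
  ⟨hp.nodup_iff.1 h.1, fun v => hp.mem_iff.1 (h.2 v)⟩

/-- maximal number of adjacent consecutive pairs, i.e. the maximal size of a linear forest -/
noncomputable def L (G : SimpleGraph V) : ℕ := sSup {k | ∃ l : List V, IsOrd l ∧ lc G l = k}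

lemma bddAbove_L (G : SimpleGraph V) : BddAbove {k | ∃ l : List V, IsOrd l ∧ lc G l = k} := by
  refine ⟨Fintype.card V, ?_⟩
  rintro k ⟨l, hl, rfl⟩
  have := lc_le_length (G := G) l
  rw [hl.length] at this
  omega

lemma exists_opt (G : SimpleGraph V) : ∃ l : List V, IsOrd l ∧ lc G l = L G := by
  have hne : {k | ∃ l : List V, IsOrd l ∧ lc G l = k}.Nonempty := by
    obtain ⟨l, hl⟩ := exists_isOrd V
    exact ⟨_, l, hl, rfl⟩
  exact Nat.sSup_mem hne (bddAbove_L G)

lemma lc_le_L {l : List V} (hl : IsOrd l) : lc G l ≤ L G := le_csSup (bddAbove_L G) ⟨l, hl, rfl⟩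

lemma L_mono (h : G ≤ G') : L G ≤ L G' := by
  obtain ⟨l, hl, e⟩ := exists_opt G
  rw [← e]
  exact (lc_mono h l).trans (lc_le_L hl)

lemma L_le (G : SimpleGraph V) : L G ≤ Fintype.card V - 1 := by
  obtain ⟨l, hl, e⟩ := exists_opt G
  rw [← e, ← hl.length]
  exact lc_le_length l

lemma L_sup_edge_le (G : SimpleGraph V) (x y : V) : L (G ⊔ SimpleGraph.edge x y) ≤ L G + 1 := by
  obtain ⟨l, hl, e⟩ := exists_opt (G ⊔ SimpleGraph.edge x y)
  rw [← e]
  exact (lc_sup_edge_le l hl.1).trans (Nat.add_le_add_right (lc_le_L hl) 1)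

/-! ### boosters for small `L` -/

/-- the last elements of the maximal runs -/
noncomputable def ends (G : SimpleGraph V) : List V → List V
  | [] => []
  | a :: l => if jn G (some a) l.head? = 1 then ends G l else a :: ends G l

lemma length_ends (l : List V) : (ends G l).length + lc G l = l.length := by
  induction l with
  | nil => rfl
  | cons a l ih =>
    unfold ends
    rw [lc_cons]
    split_ifs with h
    · rw [h, List.length_cons]; omega
    · have := jn_le_one (G := G) (some a) l.head?
      simp only [List.length_cons]; omega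

lemma ends_sublist (l : List V) : (ends G l).Sublist l := by
  induction l with
  | nil => exact List.Sublist.slnil
  | cons a l ih =>
    unfold ends
    split_ifs with h
    · exact ih.cons a
    · exact ih.cons_cons a

lemma exists_of_mem_ends {l : List V} {x : V} (hx : x ∈ ends G l) :
    ∃ A B, l = A ++ x :: B ∧ jn G (some x) B.head? = 0 := by
  induction l with
  | nil => simp [ends] at hx
  | cons a l ih =>
    unfold ends at hx
    split_ifs at hx with h
    · obtain ⟨A, B, e, h2⟩ := ih hx
      exact ⟨a :: A, B, by rw [e]; rfl, h2⟩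
    · rw [List.mem_cons] at hx
      rcases hx with hx | hx
      · subst hx
        refine ⟨[], l, rfl, ?_⟩
        have := jn_le_one (G := G) (some x) l.head?
        omega
      · obtain ⟨A, B, e, h2⟩ := ih hx
        exact ⟨a :: A, B, by rw [e]; rfl, h2⟩

lemma booster_aux {A D B : List V} {x y : V} (hl : IsOrd (A ++ x :: (D ++ y :: B)))
    (hxy : x ≠ y)
    (h1 : jn G (some x) (D ++ y :: B).head? = 0) (h2 : jn G (some y) B.head? = 0) :
    lc G (A ++ x :: (D ++ y :: B)) + 1 ≤ L (G ⊔ SimpleGraph.edge x y) := by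
  set G' := G ⊔ SimpleGraph.edge x y with hG'
  have hle : G ≤ G' := le_sup_left
  have hadj : G'.Adj x y := by
    rw [hG', SimpleGraph.sup_adj, SimpleGraph.edge_adj]
    exact Or.inr ⟨Or.inl ⟨rfl, rfl⟩, hxy⟩
  have hperm : (A ++ x :: (D ++ y :: B)).Perm ((A ++ [x]) ++ ((D ++ [y]).reverse ++ B)) := by
    have e : A ++ x :: (D ++ y :: B) = (A ++ [x]) ++ ((D ++ [y]) ++ B) := by simp
    rw [e]
    exact ((List.reverse_perm _).symm.append_right B).append_left (A ++ [x])
  have hord := hl.perm hperm
  refine le_trans ?_ (lc_le_L hord)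
  have e : A ++ x :: (D ++ y :: B) = (A ++ [x]) ++ ((D ++ [y]) ++ B) := by simp
  have e1 : (D ++ y :: B).head? = ((D ++ [y]) ++ B).head? := by simp
  rw [e, lc_append, lc_append (A ++ [x]), lc_append (D ++ [y]), lc_append (D ++ [y]).reverse,
    lc_reverse]
  have g1 : jn G (A ++ [x]).getLast? ((D ++ [y]) ++ B).head? = 0 := by
    rw [← e1]; simpa using h1
  have g2 : jn G (D ++ [y]).getLast? B.head? = 0 := by simpa using h2
  have g3 : jn G' (A ++ [x]).getLast? ((D ++ [y]).reverse ++ B).head? = 1 := by
    have : ((D ++ [y]).reverse ++ B).head? = some y := by simp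
    rw [this, List.getLast?_concat]
    exact jn_some hadj
  rw [g1, g2, g3]
  have k1 := lc_mono hle (A ++ [x])
  have k2 := lc_mono hle (D ++ [y])
  have k3 := lc_mono hle B
  omega

lemma booster_of_ends {l : List V} (hl : IsOrd l) (hopt : lc G l = L G) {x y : V}
    (hx : x ∈ ends G l) (hy : y ∈ ends G l) (hxy : x ≠ y) :
    L G + 1 ≤ L (G ⊔ SimpleGraph.edge x y) := by
  obtain ⟨A, B, e1, h1⟩ := exists_of_mem_ends hx
  obtain ⟨A', B', e2, h2⟩ := exists_of_mem_ends hy
  have e3 : A ++ x :: B = A' ++ y :: B' := by rw [← e1, ← e2]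
  rw [List.append_eq_append_iff] at e3
  rcases e3 with ⟨a', h3, h4⟩ | ⟨c', h3, h4⟩
  · rcases a' with _ | ⟨z, D⟩
    · simp only [List.nil_append, List.cons.injEq] at h4
      exact absurd h4.1 hxy
    · simp only [List.cons_append, List.cons.injEq] at h4
      obtain ⟨rfl, h5⟩ := h4
      rw [h5] at e1 h1
      rw [← hopt, e1]
      rw [e1] at hl
      exact booster_aux hl hxy h1 h2
  · rcases c' with _ | ⟨z, D⟩
    · simp only [List.nil_append, List.cons.injEq] at h4
      exact absurd h4.1.symm hxy
    · simp only [List.cons_append, List.cons.injEq] at h4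
      obtain ⟨rfl, h5⟩ := h4
      rw [h5] at e2 h2
      rw [← hopt, e2, SimpleGraph.edge_comm]
      rw [e2] at hl
      exact booster_aux hl hxy.symm h2 h1

/-- If `L G` is small there are many edges whose addition increases `L`. -/
lemma exists_ends_finset (G : SimpleGraph V) :
    ∃ X : Finset V, X.card + L G = Fintype.card V ∧
      ∀ x ∈ X, ∀ y ∈ X, x ≠ y → L G + 1 ≤ L (G ⊔ SimpleGraph.edge x y) := by
  obtain ⟨l, hl, hopt⟩ := exists_opt G
  refine ⟨(ends G l).toFinset, ?_, ?_⟩
  · rw [List.toFinset_card_of_nodup ((ends_sublist l).nodup hl.1), ← hopt, length_ends, hl.length]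
  · intro x hx y hy hxy
    exact booster_of_ends hl hopt (List.mem_toFinset.1 hx) (List.mem_toFinset.1 hy) hxy

end

end Pool.Agent.Helper98.Ham
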