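import Mathlib
import Pool.Agent.Helper98.HamList

/-!
# Rotations: many edges improve a graph of large minimum degree
-/

set_option linter.unusedSectionVars false
set_option linter.unusedSimpArgs false

open Finset

namespace Pool.Agent.Helper98.Ham

variable {V : Type*} [Fintype V] [DecidableEq V] {G G' : SimpleGraph V}

/-- Hamiltonicity in terms of orderings (for at least three vertices) -/
def HamL (G : SimpleGraph V) : Prop :=
  ∃ l : List V, IsOrd l ∧ lc G l = Fintype.card V - 1 ∧ jn G l.getLast? l.head? = 1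

lemma HamL.mono (h : G ≤ G') (hG : HamL G) : HamL G' := by
  obtain ⟨l, h1, h2, h3⟩ := hG
  refine ⟨l, h1, ?_, ?_⟩
  · have h4 := lc_mono h l
    have h5 := lc_le_length (G := G') l
    rw [h1.length] at h5
    omega
  · have h4 := jn_mono h l.getLast? l.head?
    have h5 := jn_le_one (G := G') l.getLast? l.head?
    omega

lemma exists_gap {l : List V} (h : lc G l + 1 < l.length) :
    ∃ A B, l = A ++ B ∧ A ≠ [] ∧ B ≠ [] ∧ jn G A.getLast? B.head? = 0 := by
  induction l with
  | nil => simp at h
  | cons a l ih =>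
    rcases l with _ | ⟨b, l⟩
    · simp at h
    · rw [lc_cons] at h
      by_cases h0 : jn G (some a) (b :: l).head? = 0
      · exact ⟨[a], b :: l, rfl, by simp, by simp, by simpa using h0⟩
      · have h1 := jn_le_one (G := G) (some a) (b :: l).head?
        obtain ⟨A, B, e1, e2, e3, e4⟩ := ih (by simp only [List.length_cons] at *; omega)
        refine ⟨a :: A, B, by rw [e1]; rfl, by simp, e3, ?_⟩
        rwa [List.getLast?_cons_of_ne_nil e2]

lemma booster_close {l : List V} (hl : IsOrd l) (hopt : lc G l = L G) {b y : V}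
    (hb : l.head? = some b) (hy : l.getLast? = some y) (hby : b ≠ y) :
    HamL (G ⊔ SimpleGraph.edge b y) ∨ L G + 1 ≤ L (G ⊔ SimpleGraph.edge b y) := by
  set G' := G ⊔ SimpleGraph.edge b y with hG'
  have hle : G ≤ G' := le_sup_left
  have hadj : G'.Adj y b := by
    rw [hG', SimpleGraph.sup_adj, SimpleGraph.edge_adj]
    exact Or.inr ⟨Or.inr ⟨rfl, rfl⟩, hby.symm⟩
  have hlen := hl.length
  have hle1 := lc_le_length (G := G) l
  by_cases h : lc G l + 1 < l.length
  · right
    obtain ⟨A, B, e1, e2, e3, e4⟩ := exists_gap h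
    subst e1
    have hord : IsOrd (B ++ A) := hl.perm List.perm_append_comm
    refine le_trans ?_ (lc_le_L hord)
    rw [← hopt, lc_append, e4, lc_append]
    have h1 : A.head? = some b := by
      rw [List.head?_append_of_ne_nil _ e2] at hb
      exact hb
    have h2 : B.getLast? = some y := by
      rw [List.getLast?_append_of_ne_nil _ e3] at hy
      exact hy
    rw [h1, h2, jn_some hadj]
    have k1 := lc_mono hle A
    have k2 := lc_mono hle B
    omega
  · left
    have h5 := lc_le_length (G := G') l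
    have h6 := lc_mono hle l
    refine ⟨l, hl, by omega, ?_⟩
    rw [hb, hy]
    exact jn_some hadj

lemma rot_opt {P Q : List V} (hl : IsOrd (P ++ Q)) (hopt : lc G (P ++ Q) = L G) {w u : V}
    (hw : P.getLast? = some w) (hu : Q.getLast? = some u) (hadj : G.Adj w u) :
    IsOrd (P ++ Q.reverse) ∧ lc G (P ++ Q.reverse) = L G := by
  have hord : IsOrd (P ++ Q.reverse) := hl.perm ((List.reverse_perm Q).symm.append_left P)
  refine ⟨hord, le_antisymm (lc_le_L hord) ?_⟩
  rw [← hopt, lc_append, lc_append, lc_reverse, hw, List.head?_reverse, hu, jn_some hadj]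
  have := jn_le_one (G := G) (some w) Q.head?
  omega

/-- the successors of a set of vertices that does not contain the last vertex -/
lemma exists_succ {l : List V} (hl : IsOrd l) {u : V} (hu : l.getLast? = some u) {S : Finset V}
    (hS : u ∉ S) :
    ∃ T : Finset V, T.card = S.card ∧ ∀ b ∈ T, ∃ w ∈ S, ∃ P Q : List V, l = P ++ Q ∧
      P.getLast? = some w ∧ Q.head? = some b ∧ Q.getLast? = some u := by
  have key : ∀ w ∈ S, ∃ b : V, ∃ A B : List V, l = A ++ w :: b :: B := by
    intro w hw
    obtain ⟨A, B, e⟩ := List.append_of_mem (hl.2 w)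
    rcases B with _ | ⟨b, B⟩
    · exfalso
      rw [e, List.getLast?_concat] at hu
      cases hu
      exact hS hw
    · exact ⟨b, A, B, e⟩
  choose! f hf using key
  refine ⟨S.image f, ?_, ?_⟩
  · refine card_image_of_injOn ?_
    intro w hw w' hw' hww
    obtain ⟨A, B, e⟩ := hf w hw
    obtain ⟨A', B', e'⟩ := hf w' hw'
    have h1 : A.length + 1 < l.length := by rw [e]; simp
    have h2 : A'.length + 1 < l.length := by rw [e']; simp
    have h3 : l[A.length + 1] = f w := by
      simp [e]
    have h4 : l[A'.length + 1] = f w' := by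
      simp [e']
    have h5 : l[A.length + 1] = l[A'.length + 1] := by rw [h3, h4, hww]
    have h6 := (hl.1.getElem_inj_iff).1 h5
    have h7 : A.length = A'.length := by omega
    have h8 : A ++ w :: f w :: B = A' ++ w' :: f w' :: B' := by rw [← e, ← e']
    have h9 := (List.append_inj h8 h7).2
    simp only [List.cons.injEq] at h9
    exact h9.1
  · intro b hb
    rw [mem_image] at hb
    obtain ⟨w, hw, rfl⟩ := hb
    obtain ⟨A, B, e⟩ := hf w hw
    refine ⟨w, hw, A ++ [w], f w :: B, by rw [e]; simp, by simp, rfl, ?_⟩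
    have : l = (A ++ [w]) ++ f w :: B := by rw [e]; simp
    rw [this, List.getLast?_append_of_ne_nil _ (by simp)] at hu
    exact hu

/-- one rotation: many possible new last vertices, the first vertex being kept -/
lemma rotate_once {l : List V} (hl : IsOrd l) (hopt : lc G l = L G) {a u : V}
    (ha : l.head? = some a) (hu : l.getLast? = some u) {S : Finset V} (hS : ∀ w ∈ S, G.Adj u w) :
    ∃ T : Finset V, T.card = S.card ∧ ∀ b ∈ T, ∃ l' : List V, IsOrd l' ∧ lc G l' = L G ∧
      l'.head? = some a ∧ l'.getLast? = some b := by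
  have huS : u ∉ S := fun h => G.irrefl (hS u h)
  obtain ⟨T, hT, h⟩ := exists_succ hl hu huS
  refine ⟨T, hT, fun b hb => ?_⟩
  obtain ⟨w, hw, P, Q, e, h1, h2, h3⟩ := h b hb
  subst e
  obtain ⟨h4, h5⟩ := rot_opt hl hopt h1 h3 (hS w hw).symm
  have hP : P ≠ [] := by rintro rfl; simp at h1
  have hQ : Q.reverse ≠ [] := by
    rw [Ne, List.reverse_eq_nil_iff]; rintro rfl; simp at h2
  refine ⟨P ++ Q.reverse, h4, h5, ?_, ?_⟩
  · rw [List.head?_append_of_ne_nil _ hP] at ha ⊢
    exact ha
  · rw [List.getLast?_append_of_ne_nil _ hQ, List.getLast?_reverse]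
    exact h2

/-- In a graph of minimum degree at least `d` at least `d ^ 2` ordered pairs of vertices are such
that adding the edge makes the graph Hamiltonian or increases `L`. -/
lemma exists_boosters (hn : 2 ≤ Fintype.card V) {d : ℕ} {N : V → Finset V}
    (hN : ∀ v, ∀ w ∈ N v, G.Adj v w) (hd : ∀ v, d ≤ (N v).card) :
    ∃ Z : Finset (V × V), d ^ 2 ≤ Z.card ∧ ∀ z ∈ Z, z.1 ≠ z.2 ∧
      (HamL (G ⊔ SimpleGraph.edge z.1 z.2) ∨ L G + 1 ≤ L (G ⊔ SimpleGraph.edge z.1 z.2)) := by
  obtain ⟨l, hl, hopt⟩ := exists_opt G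
  have hlen := hl.length
  have hne : l ≠ [] := by rintro rfl; simp at hlen; omega
  obtain ⟨a, ha⟩ : ∃ a, l.head? = some a := ⟨_, List.head?_eq_some_head hne⟩
  obtain ⟨u, hu⟩ : ∃ u, l.getLast? = some u := ⟨_, List.getLast?_eq_some_getLast hne⟩
  obtain ⟨T, hT, h⟩ := rotate_once hl hopt ha hu (hN u)
  have key : ∀ b ∈ T, ∃ T' : Finset V, d ≤ T'.card ∧ ∀ y ∈ T', b ≠ y ∧
      (HamL (G ⊔ SimpleGraph.edge b y) ∨ L G + 1 ≤ L (G ⊔ SimpleGraph.edge b y)) := by
    intro b hb
    obtain ⟨l', h1, h2, h3, h4⟩ := h b hb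
    have h5 : lc G l'.reverse = L G := by rw [lc_reverse, h2]
    obtain ⟨T', hT', h'⟩ := rotate_once h1.reverse h5 (a := b) (u := a)
      (by rw [List.head?_reverse, h4]) (by rw [List.getLast?_reverse, h3]) (hN a)
    refine ⟨T', (hd a).trans hT'.ge, fun y hy => ?_⟩
    obtain ⟨m, m1, m2, m3, m4⟩ := h' y hy
    have hby : b ≠ y := by
      rintro rfl
      have hml := m1.length
      rcases m with _ | ⟨c, m⟩
      · simp at m3
      · simp only [List.head?_cons, Option.some.injEq] at m3
        subst m3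
        have hm0 : m ≠ [] := by
          rintro rfl
          simp at hml
          omega
        rw [List.getLast?_cons_of_ne_nil hm0] at m4
        have h6 := List.mem_of_mem_getLast? m4
        have h7 := m1.1
        rw [List.nodup_cons] at h7
        exact h7.1 h6
    exact ⟨hby, booster_close m1 m2 m3 m4 hby⟩
  choose! F hF1 hF2 using key
  refine ⟨T.sigma F |>.map ⟨fun p => (p.1, p.2), ?_⟩, ?_, ?_⟩
  · rintro ⟨x, y⟩ ⟨x', y'⟩ hxy
    simp only [Prod.mk.injEq] at hxy
    obtain ⟨rfl, rfl⟩ := hxy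
    rfl
  · rw [card_map, card_sigma]
    calc d ^ 2 = d * d := sq d
      _ ≤ T.card * d := Nat.mul_le_mul_right d ((hd u).trans hT.ge)
      _ = ∑ b ∈ T, d := by rw [sum_const, smul_eq_mul]
      _ ≤ ∑ b ∈ T, (F b).card := sum_le_sum fun b hb => hF1 b hb
  · intro z hz
    rw [mem_map] at hz
    obtain ⟨⟨b, y⟩, hby, rfl⟩ := hz
    rw [mem_sigma] at hby
    exact hF2 b hby.1 y hby.2

end Pool.Agent.Helper98.Ham
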