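import Mathlib

/-!
# Sharp thresholds, linear forests: definitions
-/

open Filter Topology

namespace Pool.Agent.Helper98.Ham

/-- A linear forest: an acyclic graph in which every vertex has at most two neighbours, that is, a
graph whose components are paths. -/
def IsLinearForest {V : Type*} (F : SimpleGraph V) : Prop :=
  F.IsAcyclic ∧ ∀ v, (F.neighborSet v).ncard ≤ 2

/-- `G` contains a linear forest with `m` edges. -/
def HasLinearForest {V : Type*} (G : SimpleGraph V) (m : ℕ) : Prop :=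
  ∃ F ≤ G, IsLinearForest F ∧ F.edgeSet.ncard = m

/-- `q` is a sharp threshold for the property `Q n` of `G(N n, p)`. -/
def IsSharpThreshold (N : ℕ → ℕ) (Q : ∀ n, Set (SimpleGraph (Fin (N n)))) (q : ℕ → ℝ) : Prop :=
  ∀ ε > 0,
    (∀ p : ℕ → unitInterval, (∀ᶠ n in atTop, (p n : ℝ) ≤ (1 - ε) * q n) →
      Tendsto (fun n => (SimpleGraph.binomialRandom (Fin (N n)) (p n)).real (Q n)) atTop (𝓝 0)) ∧
    (∀ p : ℕ → unitInterval, (∀ᶠ n in atTop, (1 + ε) * q n ≤ (p n : ℝ)) →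
      Tendsto (fun n => (SimpleGraph.binomialRandom (Fin (N n)) (p n)).real (Q n)) atTop (𝓝 1))

/-- The probability that `H ∪ G(n,p)` has the property `P`. -/
noncomputable def perturbedProb {n : ℕ} (H : SimpleGraph (Fin n)) (p : unitInterval)
    (P : Set (SimpleGraph (Fin n))) : ℝ :=
  (SimpleGraph.binomialRandom (Fin n) p).real {G | H ⊔ G ∈ P}

/-- `δ(H_n) ≥ d(n)` for all large `n`. -/
def MinDegreeAtLeast (d : ℕ → ℕ) (H : ∀ n, SimpleGraph (Fin n)) : Prop :=
  ∀ᶠ n in atTop, ∀ v, d n ≤ ((H n).neighborSet v).ncard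

/-- `q` is a sharp `d`-threshold for the property `P`. -/
def IsSharpDThreshold (d : ℕ → ℕ) (P : ∀ n, Set (SimpleGraph (Fin n))) (q : ℕ → ℝ) : Prop :=
  ∀ ε > 0,
    (∃ H : ∀ n, SimpleGraph (Fin n), MinDegreeAtLeast d H ∧
      ∀ p : ℕ → unitInterval, (∀ᶠ n in atTop, (p n : ℝ) ≤ (1 - ε) * q n) →
        Tendsto (fun n => perturbedProb (H n) (p n) (P n)) atTop (𝓝 0)) ∧
    (∀ H : ∀ n, SimpleGraph (Fin n), MinDegreeAtLeast d H →
      ∀ p : ℕ → unitInterval, (∀ᶠ n in atTop, (1 + ε) * q n ≤ (p n : ℝ)) →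
        Tendsto (fun n => perturbedProb (H n) (p n) (P n)) atTop (𝓝 1))

end Pool.Agent.Helper98.Ham
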