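import Mathlib
import Pool.Agent.Helper98.HamDefs
import Pool.Agent.Helper98.HamBoost

/-!
# Linear forests, graphs of maximum degree two without short cycles, and orderings
-/

set_option linter.unusedSectionVars false
set_option linter.unusedSimpArgs false

open Finset

namespace Pool.Agent.Helper98.Ham

section chain

variable {V : Type*} {G : SimpleGraph V}

lemma isChain_iff_lc {l : List V} (hl : l ≠ []) : l.IsChain G.Adj ↔ lc G l + 1 = l.length := by
  induction l with
  | nil => exact absurd rfl hl
  | cons a l ih =>
    rcases l with _ | ⟨b, l⟩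
    · simp
    · rw [List.isChain_cons_cons, ih (by simp), lc_cons a (b :: l), List.head?_cons]
      have h1 := lc_le_length (G := G) (b :: l)
      simp only [List.length_cons] at *
      constructor
      · rintro ⟨h2, h3⟩
        rw [jn_some h2]
        omega
      · intro h2
        by_cases h3 : G.Adj a b
        · rw [jn_some h3] at h2
          exact ⟨h3, by omega⟩
        · rw [jn_some_not h3] at h2
          omega

/-- a cycle, as a list -/
def CycL (G : SimpleGraph V) (c : List V) : Prop :=
  c.Nodup ∧ 3 ≤ c.length ∧ c.IsChain G.Adj ∧ jn G c.getLast? c.head? = 1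

lemma CycL.exists_walk {c : List V} (h : CycL G c) :
    ∃ (a : V) (p : G.Walk a a), p.IsCycle ∧ p.length = c.length := by
  obtain ⟨h1, h2, h3, h4⟩ := h
  have hne : c ≠ [] := by rintro rfl; simp at h2
  have h5 : G.Adj (c.getLast hne) (c.head hne) := by
    rw [List.getLast?_eq_some_getLast hne, List.head?_eq_some_head hne] at h4
    exact adj_of_jn h4
  refine ⟨_, SimpleGraph.Walk.cons h5 (SimpleGraph.Walk.ofSupport c hne h3), ?_, ?_⟩
  · rw [SimpleGraph.Walk.cons_isCycle_iff]
    have hp : (SimpleGraph.Walk.ofSupport c hne h3).IsPath := by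
      rw [SimpleGraph.Walk.isPath_def, SimpleGraph.Walk.support_ofSupport]
      exact h1
    refine ⟨hp, fun hmem => ?_⟩
    rw [Sym2.eq_swap] at hmem
    have := hp.length_eq_one_of_mem_edges hmem
    rw [SimpleGraph.Walk.length_ofSupport] at this
    omega
  · rw [SimpleGraph.Walk.length_cons, SimpleGraph.Walk.length_ofSupport]
    omega

end chain

section

variable {V : Type*} [Fintype V] [DecidableEq V] {G F : SimpleGraph V}

lemma HamL.isHamiltonian (hn : 3 ≤ Fintype.card V) (h : HamL G) : G.IsHamiltonian := by
  obtain ⟨l, h1, h2, h3⟩ := h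
  have hlen := h1.length
  have hne : l ≠ [] := by rintro rfl; simp at hlen; omega
  have hc : CycL G l := ⟨h1.1, by omega, (isChain_iff_lc hne).2 (by omega), h3⟩
  intro _
  obtain ⟨a, p, hp, hpl⟩ := hc.exists_walk
  refine ⟨a, p, ?_⟩
  rw [SimpleGraph.Walk.isHamiltonianCycle_iff_isCycle_and_length_eq]
  exact ⟨hp, by rw [hpl, hlen]⟩

lemma hamL_of_isHamiltonian (hn : 3 ≤ Fintype.card V) (h : G.IsHamiltonian) : HamL G := by
  obtain ⟨a, p, hp⟩ := h (by omega)
  rcases p with _ | ⟨hadj, q⟩
  · exact absurd rfl hp.isCycle.ne_nil
  · have hlen := hp.length_eq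
    have h1 := (SimpleGraph.Walk.cons_isCycle_iff _ _).1 hp.isCycle
    have hs : q.support.length = Fintype.card V := by
      rw [SimpleGraph.Walk.length_support]
      rw [SimpleGraph.Walk.length_cons] at hlen
      omega
    have hnd : q.support.Nodup := h1.1.support_nodup
    have hord : IsOrd q.support := by
      refine ⟨hnd, fun v => ?_⟩
      have h2 : q.support.toFinset = univ := by
        rw [← card_eq_iff_eq_univ, List.toFinset_card_of_nodup hnd, hs]
      rw [← List.mem_toFinset, h2]
      exact mem_univ v
    refine ⟨q.support, hord, ?_, ?_⟩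
    · have := (isChain_iff_lc (G := G) q.support_ne_nil).1 q.isChain_adj_support
      omega
    · rw [List.getLast?_eq_some_getLast q.support_ne_nil,
        List.head?_eq_some_head q.support_ne_nil, SimpleGraph.Walk.getLast_support,
        SimpleGraph.Walk.head_support]
      exact jn_some hadj

/-- neighbours -/
noncomputable def nb (F : SimpleGraph V) (v : V) : Finset V := by
  classical exact univ.filter (F.Adj v)

lemma mem_nb {v w : V} : w ∈ nb F v ↔ F.Adj v w := by simp [nb]

lemma ncard_neighborSet (F : SimpleGraph V) (v : V) : (F.neighborSet v).ncard = (nb F v).card := by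
  rw [← Set.ncard_coe_finset]
  congr 1
  ext w
  simp [mem_nb]

/-- no cycles of length at most `g` -/
def NoCyc (F : SimpleGraph V) (g : ℕ) : Prop := ∀ c : List V, CycL F c → g < c.length

/-- the neighbours of the head of a chain inside the chain -/
lemma card_nb_head_le {g : ℕ} (hg : NoCyc F g) {x : V} {p : List V} (hp : (x :: p).Nodup)
    (hc : (x :: p).IsChain F.Adj) (hlen : (x :: p).length ≤ g) :
    nb F x ∩ (x :: p).toFinset ⊆ p.head?.toFinset := by
  intro z hz
  rw [mem_inter, mem_nb, List.mem_toFinset, List.mem_cons] at hz
  obtain ⟨hz1, hz2⟩ := hz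
  rcases hz2 with rfl | hz2
  · exact absurd hz1 F.irrefl
  · obtain ⟨A, B, e⟩ := List.append_of_mem hz2
    rcases A with _ | ⟨y, A⟩
    · rw [e]; simp
    · exfalso
      have e2 : x :: p = (x :: y :: A ++ [z]) ++ B := by rw [e]; simp
      have hcyc : CycL F (x :: y :: A ++ [z]) := by
        refine ⟨?_, by simp, ?_, ?_⟩
        · rw [e2] at hp
          exact hp.of_append_left
        · rw [e2] at hc
          exact hc.left_of_append
        · rw [List.getLast?_concat]
          simp only [List.cons_append, List.head?_cons]
          exact jn_some hz1.symm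
      have := hg _ hcyc
      rw [e2, List.length_append] at hlen
      omega

lemma card_nb_last_le {g : ℕ} (hg : NoCyc F g) {x : V} {p : List V} (hp : (p ++ [x]).Nodup)
    (hc : (p ++ [x]).IsChain F.Adj) (hlen : (p ++ [x]).length ≤ g) :
    nb F x ∩ (p ++ [x]).toFinset ⊆ p.getLast?.toFinset := by
  have h := card_nb_head_le hg (x := x) (p := p.reverse) (by
    have := List.nodup_reverse.2 hp; simpa using this) (by
    have h1 : (p ++ [x]).reverse.IsChain F.Adj := by
      rw [List.isChain_reverse]
      exact hc.imp fun a b h => h.symm
    simpa using h1) (by simpa using hlen)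
  simpa [List.head?_reverse] using h

/-- number of ordered adjacent pairs inside `S` -/
noncomputable def e2 (F : SimpleGraph V) (S : Finset V) : ℕ := ∑ a ∈ S, (nb F a ∩ S).card

/-- A graph of maximum degree at most two without cycles of length at most `g` is, up to `n / g`
edges, a linear forest. -/
lemma exists_list (hdeg : ∀ v, (nb F v).card ≤ 2) {g : ℕ} (hg : NoCyc F g) (S : Finset V) :
    ∃ l : List V, l.Nodup ∧ l.toFinset = S ∧
      (g + 1) * e2 F S ≤ 2 * (g + 1) * lc F l + 2 * S.card := by
  induction S using Finset.strongInduction with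
  | H S ih =>
    rcases S.eq_empty_or_nonempty with rfl | hS
    · exact ⟨[], List.nodup_nil, rfl, by simp [e2]⟩
    -- a longest chain
    have hex : ∃ k, ∃ p : List V, p.Nodup ∧ p.IsChain F.Adj ∧ (∀ v ∈ p, v ∈ S) ∧ p.length = k ∧
        p ≠ [] := by
      obtain ⟨v, hv⟩ := hS
      exact ⟨1, [v], by simp, by simp, by simpa using hv, rfl, by simp⟩
    have hbdd : ∀ k, (∃ p : List V, p.Nodup ∧ p.IsChain F.Adj ∧ (∀ v ∈ p, v ∈ S) ∧ p.length = k ∧
        p ≠ []) → k ≤ Fintype.card V := by
      rintro k ⟨p, h1, -, -, rfl, -⟩
      rw [← List.toFinset_card_of_nodup h1]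
      exact card_le_univ _
    classical
    obtain ⟨k, ⟨p, hp1, hp2, hp3, hp4, hp5⟩, hmax⟩ : ∃ k, (∃ p : List V, p.Nodup ∧
        p.IsChain F.Adj ∧ (∀ v ∈ p, v ∈ S) ∧ p.length = k ∧ p ≠ []) ∧ ∀ p : List V, p.Nodup →
        p.IsChain F.Adj → (∀ v ∈ p, v ∈ S) → p.length ≤ k := by
      obtain ⟨k, hk⟩ := hex
      have hspec := Nat.findGreatest_spec (P := fun k => ∃ p : List V, p.Nodup ∧
        p.IsChain F.Adj ∧ (∀ v ∈ p, v ∈ S) ∧ p.length = k ∧ p ≠ []) (hbdd k hk) hk
      refine ⟨_, hspec, ?_⟩
      intro p h1 h2 h3
      rcases eq_or_ne p [] with rfl | h4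
      · simp
      · exact Nat.le_findGreatest (hbdd _ ⟨p, h1, h2, h3, rfl, h4⟩) ⟨p, h1, h2, h3, rfl, h4⟩
    set P := p.toFinset with hP
    have hPS : P ⊆ S := fun v hv => hp3 v (List.mem_toFinset.1 hv)
    have hPcard : P.card = p.length := List.toFinset_card_of_nodup hp1
    have hPne : P.Nonempty := by
      obtain ⟨v, hv⟩ := List.exists_mem_of_ne_nil p hp5
      exact ⟨v, List.mem_toFinset.2 hv⟩
    -- no edges leave `P`
    have hclosed : ∀ a ∈ P, nb F a ∩ S ⊆ P := by
      intro a ha z hz
      rw [mem_inter, mem_nb] at hz
      obtain ⟨hz1, hz2⟩ := hz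
      by_contra hzP
      have hzp : z ∉ p := fun h => hzP (List.mem_toFinset.2 h)
      obtain ⟨A, B, e⟩ := List.append_of_mem (List.mem_toFinset.1 ha)
      have hzS : ∀ v ∈ z :: p, v ∈ S := by
        intro v hv
        rw [List.mem_cons] at hv
        rcases hv with rfl | hv
        · exact hz2
        · exact hp3 v hv
      rcases List.eq_nil_or_concat A with hA | ⟨A', c, hA⟩
      · -- `a` is the first vertex
        have h1 := hmax (z :: p) (List.nodup_cons.2 ⟨hzp, hp1⟩) (by
          rw [e, hA, List.nil_append] at hp2 ⊢
          exact List.IsChain.cons_cons hz1.symm hp2) hzS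
        rw [List.length_cons] at h1
        omega
      · rcases B with _ | ⟨b, B⟩
        · -- `a` is the last vertex
          have h1 := hmax (p ++ [z]) (by
            rw [List.nodup_append]
            exact ⟨hp1, by simp, by
              intro x hx y hy hxy
              rw [List.mem_singleton] at hy
              rw [hxy, hy] at hx
              exact hzp hx⟩) (by
            rw [List.isChain_append]
            refine ⟨hp2, by simp, ?_⟩
            intro x hx y hy
            rw [e, List.getLast?_concat] at hx
            simp only [List.head?_cons, Option.mem_def, Option.some.injEq] at hx hy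
            rw [← hx, ← hy]
            exact hz1) (by
            intro v hv
            rw [List.mem_append, List.mem_singleton] at hv
            rcases hv with hv | rfl
            · exact hp3 v hv
            · exact hz2)
          rw [List.length_append, List.length_singleton] at h1
          omega
        · -- interior vertex
          rw [List.concat_eq_append] at hA
          rw [hA] at e
          have hnd := hp1
          have hch := hp2
          rw [e] at hnd hch
          have e' : (A' ++ [c]) ++ a :: b :: B = A' ++ ([c, a, b] ++ B) := by simp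
          rw [e'] at hnd hch
          have hnd2 := (List.nodup_append.1 (List.nodup_append.1 hnd).2.1).1
          have hch2 := (List.isChain_append.1 (List.isChain_append.1 hch).2.1).1
          simp only [List.isChain_cons_cons, List.isChain_singleton, and_true] at hch2
          have h3 : ({c, b, z} : Finset V) ⊆ nb F a := by
            intro w hw
            simp only [mem_insert, mem_singleton] at hw
            rw [mem_nb]
            rcases hw with rfl | rfl | rfl
            · exact hch2.1.symm
            · exact hch2.2
            · exact hz1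
          have hcp : c ∈ p := by rw [e]; simp
          have hbp : b ∈ p := by rw [e]; simp
          have hcb : c ≠ b := by
            rintro rfl
            simp at hnd2
          have h4 : ({c, b, z} : Finset V).card = 3 := by
            rw [card_eq_three]
            exact ⟨c, b, z, hcb, fun h => hzp (h ▸ hcp), fun h => hzp (h ▸ hbp), rfl⟩
          have h5 := (card_le_card h3).trans (hdeg a)
          omega
    -- the rest
    obtain ⟨l', hl1, hl2, hl3⟩ := ih (S \ P) (sdiff_ssubset hPS hPne)
    have hsplit : e2 F S = e2 F P + e2 F (S \ P) := by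
      have h1 : e2 F S = ∑ a ∈ P, (nb F a ∩ S).card + ∑ a ∈ S \ P, (nb F a ∩ S).card := by
        unfold e2
        rw [add_comm, sum_sdiff hPS]
      rw [h1]
      congr 1
      · refine sum_congr rfl fun a ha => ?_
        congr 1
        ext z
        rw [mem_inter, mem_inter]
        exact ⟨fun h => ⟨h.1, hclosed a ha (mem_inter.2 h)⟩, fun h => ⟨h.1, hPS h.2⟩⟩
      · refine sum_congr rfl fun a ha => ?_
        congr 1
        ext z
        rw [mem_inter, mem_inter]
        refine ⟨fun h => ⟨h.1, mem_sdiff.2 ⟨h.2, fun hz => ?_⟩⟩, fun h => ⟨h.1, (mem_sdiff.1 h.2).1⟩⟩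
        rw [mem_sdiff] at ha
        have : a ∈ nb F z ∩ S := mem_inter.2 ⟨mem_nb.2 (mem_nb.1 h.1).symm, ha.1⟩
        exact ha.2 (hclosed z hz this)
    have hPbound : e2 F P ≤ 2 * P.card := by
      unfold e2
      calc ∑ a ∈ P, (nb F a ∩ P).card ≤ ∑ a ∈ P, 2 :=
            sum_le_sum fun a _ => (card_le_card inter_subset_left).trans (hdeg a)
        _ = 2 * P.card := by rw [sum_const, smul_eq_mul, mul_comm]
    have hPbound2 : P.card ≤ g → e2 F P + 2 ≤ 2 * P.card := by
      intro hPg
      rw [hPcard] at hPg
      rcases p with _ | ⟨x, p⟩
      · exact absurd rfl hp5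
      · rcases List.eq_nil_or_concat p with hp0 | ⟨p', y, hp0⟩
        · subst hp0
          have : e2 F P = 0 := by
            unfold e2
            rw [hP]
            simp [mem_nb, Finset.eq_empty_iff_forall_notMem]
          rw [this, hPcard]
          simp
        · rw [List.concat_eq_append] at hp0
          have k1 := card_le_card (card_nb_head_le hg hp1 hp2 hPg)
          have k2 := card_le_card (card_nb_last_le hg (p := x :: p') (x := y)
            (by rw [List.cons_append, ← hp0]; exact hp1)
            (by rw [List.cons_append, ← hp0]; exact hp2)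
            (by rw [List.cons_append, ← hp0]; exact hPg))
          rw [List.cons_append, ← hp0] at k2
          have k3 : ∀ o : Option V, o.toFinset.card ≤ 1 := by
            intro o; cases o <;> simp
          have k1' := k1.trans (k3 _)
          have k2' := k2.trans (k3 _)
          rw [← hP] at k1' k2'
          have hxy : x ≠ y := by
            rintro rfl
            rw [hp0] at hp1
            simp at hp1
          have hxP : x ∈ P := by rw [hP]; simp
          have hyP : y ∈ P.erase x := by
            rw [mem_erase]
            exact ⟨hxy.symm, by rw [hP, hp0]; simp⟩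
          have h6 : e2 F P = (nb F x ∩ P).card + ((nb F y ∩ P).card +
              ∑ a ∈ (P.erase x).erase y, (nb F a ∩ P).card) := by
            unfold e2
            rw [← add_sum_erase P _ hxP, ← add_sum_erase (P.erase x) _ hyP]
          have h7 : ∑ a ∈ (P.erase x).erase y, (nb F a ∩ P).card ≤
              2 * ((P.erase x).erase y).card := by
            calc ∑ a ∈ (P.erase x).erase y, (nb F a ∩ P).card
                ≤ ∑ a ∈ (P.erase x).erase y, 2 :=
                  sum_le_sum fun a _ => (card_le_card inter_subset_left).trans (hdeg a)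
              _ = 2 * ((P.erase x).erase y).card := by rw [sum_const, smul_eq_mul, mul_comm]
          have h8 : ((P.erase x).erase y).card + 2 = P.card := by
            have a1 := card_erase_add_one hxP
            have a2 := card_erase_add_one hyP
            omega
          omega
    refine ⟨p ++ l', ?_, ?_, ?_⟩
    · rw [List.nodup_append]
      refine ⟨hp1, hl1, ?_⟩
      rintro a ha b hb rfl
      have : a ∈ S \ P := by rw [← hl2]; exact List.mem_toFinset.2 hb
      exact (mem_sdiff.1 this).2 (List.mem_toFinset.2 ha)
    · rw [List.toFinset_append, hl2, ← hP, union_sdiff_of_subset hPS]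
    · rw [lc_append]
      have h1 := (isChain_iff_lc hp5).1 hp2
      have h2 : S.card = P.card + (S \ P).card := by
        have := card_sdiff_add_card_eq_card hPS
        omega
      rw [hsplit, h2]
      have h3 : lc F p + 1 = P.card := by rw [hPcard]; exact h1
      by_cases hPg : P.card ≤ g
      · have h4 := hPbound2 hPg
        have h5 : e2 F P ≤ 2 * lc F p := by omega
        have h6 := Nat.mul_le_mul_left (g + 1) h5
        nlinarith
      · push Not at hPg
        have h6 : (g + 1) * e2 F P ≤ 2 * (g + 1) * lc F p + 2 * P.card := by
          have h7 := Nat.mul_le_mul_left (g + 1) hPbound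
          have h8 : (g + 1) * (2 * P.card) = 2 * (g + 1) * lc F p + 2 * (g + 1) := by
            rw [← h3]; ring
          omega
        nlinarith

end

end Pool.Agent.Helper98.Ham
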