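import Mathlib
import Pool.Agent.Helper98.HamForest

/-!
# Linear forests and orderings
-/

set_option linter.unusedSectionVars false
set_option linter.unusedSimpArgs false

open Finset

namespace Pool.Agent.Helper98.Ham

variable {V : Type*} [Fintype V] [DecidableEq V] {G F : SimpleGraph V}

lemma e2_univ (F : SimpleGraph V) : e2 F univ = 2 * F.edgeSet.ncard := by
  classical
  have h1 := F.sum_degrees_eq_twice_card_edges
  have h2 : F.edgeSet.ncard = #F.edgeFinset := by
    rw [← Set.ncard_coe_finset]
    simp
  rw [h2, ← h1]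
  unfold e2
  refine sum_congr rfl fun v _ => ?_
  rw [inter_univ, ← SimpleGraph.card_neighborFinset_eq_degree]
  congr 1
  ext w
  simp [mem_nb]

/-- A graph of maximum degree at most two without short cycles is almost a linear forest. -/
lemma edges_le_L (hdeg : ∀ v, (nb F v).card ≤ 2) {g : ℕ} (hg : NoCyc F g) :
    (g + 1) * F.edgeSet.ncard ≤ (g + 1) * L F + Fintype.card V := by
  obtain ⟨l, h1, h2, h3⟩ := exists_list hdeg hg univ
  have hord : IsOrd l := ⟨h1, fun v => by rw [← List.mem_toFinset, h2]; exact mem_univ v⟩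
  have h4 := lc_le_L (G := F) hord
  rw [e2_univ, card_univ] at h3
  have h5 := Nat.mul_le_mul_left (g + 1) h4
  nlinarith

lemma noCyc_of_isAcyclic (hF : F.IsAcyclic) (g : ℕ) : NoCyc F g := by
  intro c hc
  obtain ⟨a, p, hp, -⟩ := hc.exists_walk
  exact absurd hp (hF p)

lemma le_L_of_hasLinearForest {m : ℕ} (h : HasLinearForest G m) : m ≤ L G := by
  obtain ⟨F, hFG, ⟨h1, h2⟩, h3⟩ := h
  have h4 := edges_le_L (F := F) (fun v => by rw [← ncard_neighborSet]; exact h2 v)
    (noCyc_of_isAcyclic h1 (Fintype.card V))
  rw [h3] at h4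
  refine le_trans ?_ (L_mono hFG)
  by_contra hcon
  push Not at hcon
  have h5 : (Fintype.card V + 1) * (L F + 1) ≤ (Fintype.card V + 1) * m :=
    Nat.mul_le_mul_left _ hcon
  nlinarith

lemma exists_forest_of_list (G : SimpleGraph V) (l : List V) (hl : l.Nodup) :
    ∃ F ≤ G, F.IsAcyclic ∧ (∀ v, (nb F v).card ≤ 2) ∧ F.edgeSet.ncard = lc G l ∧
      (∀ a b, F.Adj a b → a ∈ l) ∧ ∀ a, l.head? = some a → (nb F a).card ≤ 1 := by
  induction l with
  | nil =>
    refine ⟨⊥, bot_le, SimpleGraph.isAcyclic_bot, fun v => by simp [nb], by simp, ?_, by simp⟩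
    intro a b h
    exact absurd h (by simp)
  | cons a l ih =>
    rw [List.nodup_cons] at hl
    obtain ⟨F, h1, h2, h3, h4, h5, h6⟩ := ih hl.2
    have hiso : ∀ b, ¬ F.Adj a b := fun b h => hl.1 (h5 a b h)
    have hnba : nb F a = ∅ := by
      rw [Finset.eq_empty_iff_forall_notMem]
      intro b hb
      exact hiso b (mem_nb.1 hb)
    rw [lc_cons]
    by_cases hj : jn G (some a) l.head? = 1
    · obtain ⟨a', b, e1, e2, e3⟩ := exists_of_jn hj
      cases e1
      have hab : a ≠ b := e3.ne
      refine ⟨F ⊔ SimpleGraph.edge a b, ?_, ?_, ?_, ?_, ?_, ?_⟩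
      · refine sup_le h1 ?_
        rw [SimpleGraph.edge_le_iff]
        exact Or.inr e3
      · refine SimpleGraph.IsAcyclic.sup_edge_of_not_reachable ?_ h2
        rintro ⟨p⟩
        rcases p with _ | ⟨hadj, q⟩
        · exact hab rfl
        · exact hiso _ hadj
      · intro v
        have hsub : nb (F ⊔ SimpleGraph.edge a b) v ⊆
            if v = a then {b} else if v = b then insert a (nb F b) else nb F v := by
          intro w hw
          rw [mem_nb, SimpleGraph.sup_adj, SimpleGraph.edge_adj] at hw
          split_ifs with c1 c2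
          · subst c1
            rcases hw with hw | ⟨⟨-, hw⟩ | ⟨hw, hw'⟩, -⟩
            · exact absurd hw (hiso w)
            · simp [hw]
            · exact absurd hw hab
          · subst c2
            rcases hw with hw | ⟨⟨hw, -⟩ | ⟨-, hw⟩, -⟩
            · exact mem_insert_of_mem (mem_nb.2 hw)
            · exact absurd hw c1
            · simp [hw]
          · rcases hw with hw | ⟨⟨hw, -⟩ | ⟨hw, -⟩, -⟩
            · exact mem_nb.2 hw
            · exact absurd hw c1
            · exact absurd hw c2
        refine (card_le_card hsub).trans ?_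
        split_ifs with c1 c2
        · simp
        · exact (card_insert_le _ _).trans (Nat.succ_le_succ (h6 b e2))
        · exact h3 v
      · rw [hj, SimpleGraph.edgeSet_sup, SimpleGraph.edgeSet_edge]
        have hne : s(a, b) ∉ F.edgeSet := by
          rw [SimpleGraph.mem_edgeSet]; exact hiso b
        have hsd : ({s(a, b)} \ Sym2.diagSet : Set (Sym2 V)) = {s(a, b)} := by
          rw [sdiff_eq_left, Set.disjoint_singleton_left]
          simpa using hab
        rw [hsd, Set.union_singleton, Set.ncard_insert_of_notMem hne (Set.toFinite _), h4]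
        ring
      · intro x y hxy
        rw [SimpleGraph.sup_adj, SimpleGraph.edge_adj] at hxy
        rcases hxy with hxy | ⟨⟨hxy, -⟩ | ⟨hxy, -⟩, -⟩
        · exact List.mem_cons_of_mem _ (h5 x y hxy)
        · rw [hxy]; simp
        · rw [hxy]
          exact List.mem_cons_of_mem _ (List.mem_of_mem_head? e2)
      · intro x hx
        simp only [List.head?_cons, Option.some.injEq] at hx
        subst hx
        have hsub : nb (F ⊔ SimpleGraph.edge a b) a ⊆ {b} := by
          intro w hw
          rw [mem_nb, SimpleGraph.sup_adj, SimpleGraph.edge_adj] at hw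
          rcases hw with hw | ⟨⟨-, hw⟩ | ⟨hw, hw'⟩, -⟩
          · exact absurd hw (hiso w)
          · simp [hw]
          · exact absurd hw hab
        exact (card_le_card hsub).trans (by simp)
    · have hj0 : jn G (some a) l.head? = 0 := by
        have := jn_le_one (G := G) (some a) l.head?
        omega
      refine ⟨F, h1, h2, h3, by rw [hj0, h4, zero_add],
        fun x y h => List.mem_cons_of_mem _ (h5 x y h), ?_⟩
      intro x hx
      simp only [List.head?_cons, Option.some.injEq] at hx
      subst hx
      rw [hnba]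
      simp

lemma hasLinearForest_of_le_L {m : ℕ} (h : m ≤ L G) : HasLinearForest G m := by
  obtain ⟨l, hl, hopt⟩ := exists_opt G
  obtain ⟨F, h1, h2, h3, h4, -, -⟩ := exists_forest_of_list G l hl.1
  have h5 : m ≤ F.edgeSet.ncard := by rw [h4, hopt]; exact h
  obtain ⟨E, hE, hcard⟩ := Set.exists_subset_card_eq h5
  have hle : SimpleGraph.fromEdgeSet E ≤ F := by
    intro a b hab
    rw [SimpleGraph.fromEdgeSet_adj] at hab
    exact (SimpleGraph.mem_edgeSet F).1 (hE hab.1)
  refine ⟨SimpleGraph.fromEdgeSet E, hle.trans h1, ⟨h2.anti hle, fun v => ?_⟩, ?_⟩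
  · rw [ncard_neighborSet]
    refine le_trans (card_le_card fun w hw => ?_) (h3 v)
    rw [mem_nb] at hw ⊢
    exact hle hw
  · rw [SimpleGraph.edgeSet_fromEdgeSet]
    have : E \ Sym2.diagSet = E := by
      rw [sdiff_eq_left, Set.disjoint_left]
      intro e he hd
      exact F.not_isDiag_of_mem_edgeSet (hE he) hd
    rw [this, hcard]

lemma hasLinearForest_iff {m : ℕ} : HasLinearForest G m ↔ m ≤ L G :=
  ⟨le_L_of_hasLinearForest, hasLinearForest_of_le_L⟩

end Pool.Agent.Helper98.Ham
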