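import Mathlib
import Pool.Agent.Helper98.HamForest2

/-!
# Maximum 2-matchings in graphs without short cycles
-/

set_option linter.unusedSectionVars false
set_option linter.unusedSimpArgs false

open Finset

namespace Pool.Agent.Helper98.Ham

variable {V : Type*} [Fintype V] [DecidableEq V] {Γ : SimpleGraph V}

/-- degree in a set of edges -/
def mdeg (M : Finset (Sym2 V)) (v : V) : ℕ := (M.filter fun e => v ∈ e).card

/-- a set of edges of `Γ` that forms a graph of maximum degree at most two -/
def IsTwo (Γ : SimpleGraph V) (M : Finset (Sym2 V)) : Prop :=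
  (∀ e ∈ M, e ∈ Γ.edgeSet) ∧ ∀ v, mdeg M v ≤ 2

lemma mdeg_insert {M : Finset (Sym2 V)} {e : Sym2 V} (he : e ∉ M) (v : V) :
    mdeg (insert e M) v = mdeg M v + if v ∈ e then 1 else 0 := by
  unfold mdeg
  rw [filter_insert]
  split_ifs with h
  · rw [card_insert_of_notMem]
    rw [mem_filter]
    exact fun h' => he h'.1
  · rfl

lemma mdeg_erase {M : Finset (Sym2 V)} {e : Sym2 V} (he : e ∈ M) (v : V) :
    mdeg (M.erase e) v + (if v ∈ e then 1 else 0) = mdeg M v := by
  conv_rhs => rw [← insert_erase he]
  rw [mdeg_insert (notMem_erase e M)]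

/-- alternating sequences -/
def Alt (Γ : SimpleGraph V) (M : Finset (Sym2 V)) (m : ℕ) (v : ℕ → V) : Prop :=
  ∀ i < m, (i % 2 = 0 → Γ.Adj (v i) (v (i + 1)) ∧ s(v i, v (i + 1)) ∉ M) ∧
    (i % 2 = 1 → s(v i, v (i + 1)) ∈ M)

lemma Alt.adj {M : Finset (Sym2 V)} (hM : IsTwo Γ M) {m : ℕ} {v : ℕ → V} (h : Alt Γ M m v) {i : ℕ}
    (hi : i < m) : Γ.Adj (v i) (v (i + 1)) := by
  rcases Nat.mod_two_eq_zero_or_one i with h0 | h1
  · exact ((h i hi).1 h0).1
  · have := hM.1 _ ((h i hi).2 h1)
    rwa [SimpleGraph.mem_edgeSet] at this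

lemma Alt.ne {M : Finset (Sym2 V)} {m : ℕ} {v : ℕ → V} (h : Alt Γ M m v) {i : ℕ}
    (hi : i + 1 < m) : v i ≠ v (i + 2) := by
  intro heq
  have e : s(v i, v (i + 1)) = s(v (i + 1), v (i + 1 + 1)) := by
    rw [Sym2.eq_swap]
    have : v (i + 1 + 1) = v (i + 2) := rfl
    rw [this, ← heq]
  rcases Nat.mod_two_eq_zero_or_one i with h0 | h1
  · have k1 := ((h i (by omega)).1 h0).2
    have k2 := (h (i + 1) hi).2 (by omega)
    rw [← e] at k2
    exact k1 k2
  · have k1 := (h i (by omega)).2 h1
    have k2 := ((h (i + 1) hi).1 (by omega)).2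
    rw [← e] at k2
    exact k2 k1

lemma Alt.inj {M : Finset (Sym2 V)} (hM : IsTwo Γ M) {m : ℕ} {v : ℕ → V} (h : Alt Γ M m v)
    (hg : NoCyc Γ m) : ∀ i j, i < j → j ≤ m → v i ≠ v j := by
  -- by strong induction on the distance
  have key : ∀ t i, 0 < t → i + t ≤ m → v i ≠ v (i + t) := by
    intro t
    induction t using Nat.strong_induction_on with
    | _ t ih =>
      intro i ht him heq
      have ht3 : 3 ≤ t := by
        by_contra hcon
        have : t = 1 ∨ t = 2 := by omega
        rcases this with rfl | rfl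
        · have := h.adj hM (i := i) (by omega)
          rw [← heq] at this
          exact Γ.irrefl this
        · exact h.ne (i := i) (by omega) heq
      set c : List V := (List.range t).map fun k => v (i + k) with hc
      have hcyc : CycL Γ c := by
        refine ⟨?_, by simp [hc, ht3], ?_, ?_⟩
        · rw [hc, List.nodup_map_iff_inj_on List.nodup_range]
          intro a ha b hb hab
          rw [List.mem_range] at ha hb
          by_contra hne
          rcases Nat.lt_or_gt_of_ne hne with hlt | hlt
          · refine ih (b - a) (by omega) (i + a) (by omega) (by omega) ?_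
            rw [hab]
            congr 1
            omega
          · refine ih (a - b) (by omega) (i + b) (by omega) (by omega) ?_
            rw [← hab]
            congr 1
            omega
        · rw [hc, List.isChain_map, List.isChain_iff_getElem]
          intro k hk
          simp only [List.getElem_range]
          exact h.adj hM (i := i + k) (by simp at hk; omega)
        · have h1 : c.getLast? = some (v (i + (t - 1))) := by
            obtain ⟨s, rfl⟩ := Nat.exists_eq_succ_of_ne_zero (by omega : t ≠ 0)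
            rw [hc, Nat.succ_eq_add_one, List.range_succ, List.map_append]
            simp
          have h2 : c.head? = some (v i) := by
            obtain ⟨s, rfl⟩ := Nat.exists_eq_succ_of_ne_zero (by omega : t ≠ 0)
            rw [hc, Nat.succ_eq_add_one, List.range_succ_eq_map]
            simp
          rw [h1, h2]
          apply jn_some
          have h3 := h.adj hM (i := i + (t - 1)) (by omega)
          have h4 : i + (t - 1) + 1 = i + t := by omega
          rw [h4, ← heq] at h3
          exact h3
      have := hg c hcyc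
      rw [hc, List.length_map, List.length_range] at this
      omega
  intro i j hij hj
  have := key (j - i) i (by omega) (by omega)
  have e : i + (j - i) = j := by omega
  rwa [e] at this

/-- augmentation along an alternating path -/
lemma augment (k : ℕ) : ∀ (M : Finset (Sym2 V)) (v : ℕ → V), IsTwo Γ M → Alt Γ M (2 * k + 1) v →
    (∀ i j, i < j → j ≤ 2 * k + 1 → v i ≠ v j) → mdeg M (v 0) ≤ 1 → mdeg M (v (2 * k + 1)) ≤ 1 →
    ∃ M', IsTwo Γ M' ∧ M'.card = M.card + 1 := by
  induction k with
  | zero =>
    intro M v hM halt hinj h0 h1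
    have ha := (halt 0 (by omega)).1 rfl
    refine ⟨insert s(v 0, v 1) M, ⟨?_, ?_⟩, card_insert_of_notMem ha.2⟩
    · intro e he
      rw [mem_insert] at he
      rcases he with rfl | he
      · exact ha.1
      · exact hM.1 e he
    · intro w
      rw [mdeg_insert ha.2]
      split_ifs with hw
      · rw [Sym2.mem_iff] at hw
        rcases hw with rfl | rfl
        · omega
        · have : mdeg M (v (0 + 1)) ≤ 1 := h1
          omega
      · have := hM.2 w
        omega
  | succ k ih =>
    intro M v hM halt hinj h0 h1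
    have ha := (halt 0 (by omega)).1 rfl
    have hb := (halt 1 (by omega)).2 rfl
    simp only [zero_add] at ha
    have hb' : s(v 1, v 2) ∈ M := hb
    have n01 : v 0 ≠ v 1 := hinj 0 1 (by omega) (by omega)
    have n02 : v 0 ≠ v 2 := hinj 0 2 (by omega) (by omega)
    have n12 : v 1 ≠ v 2 := hinj 1 2 (by omega) (by omega)
    set M₁ := insert s(v 0, v 1) (M.erase s(v 1, v 2)) with hM₁
    have hnot : s(v 0, v 1) ∉ M.erase s(v 1, v 2) := fun h => ha.2 (mem_of_mem_erase h)
    have hdeg : ∀ w, mdeg M₁ w + (if w ∈ s(v 1, v 2) then 1 else 0) =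
        mdeg M w + if w ∈ s(v 0, v 1) then 1 else 0 := by
      intro w
      have k1 := mdeg_insert hnot w
      have k2 := mdeg_erase hb' w
      rw [hM₁]
      omega
    have hcard : M₁.card = M.card := by
      rw [hM₁, card_insert_of_notMem hnot, card_erase_of_mem hb']
      have := card_pos.2 ⟨_, hb'⟩
      omega
    have hIs : IsTwo Γ M₁ := by
      refine ⟨?_, ?_⟩
      · intro e he
        rw [hM₁, mem_insert] at he
        rcases he with rfl | he
        · exact ha.1
        · exact hM.1 e (mem_of_mem_erase he)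
      · intro w
        have k1 := hdeg w
        have k2 := hM.2 w
        by_cases w0 : w = v 0
        · rw [w0] at k1 ⊢
          have c1 : v 0 ∉ s(v 1, v 2) := by
            rw [Sym2.mem_iff]; rintro (h | h); exact n01 h; exact n02 h
          have c2 : v 0 ∈ s(v 0, v 1) := Sym2.mem_mk_left _ _
          rw [if_neg c1, if_pos c2] at k1
          omega
        · by_cases w1 : w = v 1
          · rw [w1] at k1 k2 ⊢
            have c1 : v 1 ∈ s(v 1, v 2) := Sym2.mem_mk_left _ _
            have c2 : v 1 ∈ s(v 0, v 1) := Sym2.mem_mk_right _ _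
            rw [if_pos c1, if_pos c2] at k1
            omega
          · have c2 : w ∉ s(v 0, v 1) := by
              rw [Sym2.mem_iff]; rintro (h | h); exact w0 h; exact w1 h
            rw [if_neg c2] at k1
            omega
    have key := ih M₁ (fun i => v (i + 2)) hIs ?_ ?_ ?_ ?_
    · rw [hcard] at key
      exact key
    · intro i hi
      have hi' := halt (i + 2) (by omega)
      constructor
      · intro h2
        have h3 := hi'.1 (by omega)
        refine ⟨h3.1, ?_⟩
        rw [hM₁, mem_insert, not_or]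
        refine ⟨?_, fun h => h3.2 (mem_of_mem_erase h)⟩
        intro h
        have h4 : v (i + 2) ∈ s(v 0, v 1) := by rw [← h]; exact Sym2.mem_mk_left _ _
        rw [Sym2.mem_iff] at h4
        rcases h4 with h4 | h4
        · exact hinj 0 (i + 2) (by omega) (by omega) h4.symm
        · exact hinj 1 (i + 2) (by omega) (by omega) h4.symm
      · intro h2
        have h3 := hi'.2 (by omega)
        rw [hM₁, mem_insert]
        right
        rw [mem_erase]
        refine ⟨?_, h3⟩
        intro h
        have h4 : v (i + 2 + 1) ∈ s(v 1, v 2) := by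
          rw [← h]; exact Sym2.mem_mk_right _ _
        rw [Sym2.mem_iff] at h4
        rcases h4 with h4 | h4
        · exact hinj 1 (i + 2 + 1) (by omega) (by omega) h4.symm
        · exact hinj 2 (i + 2 + 1) (by omega) (by omega) h4.symm
    · intro i j hij hj
      exact hinj (i + 2) (j + 2) (by omega) (by omega)
    · have k1 := hdeg (v 2)
      have k2 := hM.2 (v 2)
      have c1 : v 2 ∈ s(v 1, v 2) := Sym2.mem_mk_right _ _
      have c2 : v 2 ∉ s(v 0, v 1) := by
        rw [Sym2.mem_iff]; rintro (h | h); exact n02 h.symm; exact n12 h.symm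
      rw [if_pos c1, if_neg c2] at k1
      simp only [zero_add]
      omega
    · have e : 2 * k + 1 + 2 = 2 * (k + 1) + 1 := by ring
      simp only [e]
      have k1 := hdeg (v (2 * (k + 1) + 1))
      have c2 : v (2 * (k + 1) + 1) ∉ s(v 0, v 1) := by
        rw [Sym2.mem_iff]
        rintro (h | h)
        · exact hinj 0 (2 * (k + 1) + 1) (by omega) (by omega) h.symm
        · exact hinj 1 (2 * (k + 1) + 1) (by omega) (by omega) h.symm
      rw [if_neg c2] at k1
      omega

/-- vertices reached by alternating sequences of length `m ≤ k` with `m ≡ r` modulo two -/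
noncomputable def reach (Γ : SimpleGraph V) (M : Finset (Sym2 V)) (k r : ℕ) : Finset V := by
  classical
  exact univ.filter fun x => ∃ m ≤ k, m % 2 = r ∧ ∃ v, Alt Γ M m v ∧ mdeg M (v 0) ≤ 1 ∧ v m = x

lemma mem_reach {M : Finset (Sym2 V)} {k r : ℕ} {x : V} : x ∈ reach Γ M k r ↔
    ∃ m ≤ k, m % 2 = r ∧ ∃ v, Alt Γ M m v ∧ mdeg M (v 0) ≤ 1 ∧ v m = x := by
  simp [reach]

lemma Alt.extend {M : Finset (Sym2 V)} {m : ℕ} {v : ℕ → V} (h : Alt Γ M m v) {y : V}
    (h0 : m % 2 = 0 → Γ.Adj (v m) y ∧ s(v m, y) ∉ M) (h1 : m % 2 = 1 → s(v m, y) ∈ M) :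
    Alt Γ M (m + 1) (fun i => if i ≤ m then v i else y) := by
  intro i hi
  rcases Nat.lt_or_ge i m with h2 | h2
  · simp only [if_pos h2.le, if_pos (Nat.succ_le_of_lt h2)]
    exact h i h2
  · have : i = m := by omega
    subst this
    have h3 : ¬ i + 1 ≤ i := by omega
    simp only [le_refl, if_true, if_neg h3]
    exact ⟨h0, h1⟩

lemma reach_even_step {M : Finset (Sym2 V)} {j : ℕ} {x y : V} (hx : x ∈ reach Γ M (2 * j) 0)
    (hxy : Γ.Adj x y) (hM : s(x, y) ∉ M) : y ∈ reach Γ M (2 * j + 1) 1 := by
  rw [mem_reach] at hx ⊢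
  obtain ⟨m, h1, h2, v, h3, h4, h5⟩ := hx
  refine ⟨m + 1, by omega, by omega, _, h3.extend (y := y) (fun _ => by rw [h5]; exact ⟨hxy, hM⟩)
    (fun h => by omega), by simpa using h4, ?_⟩
  have : ¬ m + 1 ≤ m := by omega
  simp only [if_neg this]

lemma reach_odd_step {M : Finset (Sym2 V)} {j : ℕ} {x y : V} (hx : x ∈ reach Γ M (2 * j + 1) 1)
    (hM : s(x, y) ∈ M) : y ∈ reach Γ M (2 * (j + 1)) 0 := by
  rw [mem_reach] at hx ⊢
  obtain ⟨m, h1, h2, v, h3, h4, h5⟩ := hx
  refine ⟨m + 1, by omega, by omega, _, h3.extend (y := y) (fun h => by omega)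
    (fun _ => by rw [h5]; exact hM), by simpa using h4, ?_⟩
  have : ¬ m + 1 ≤ m := by omega
  simp only [if_neg this]

lemma reach_mono {M : Finset (Sym2 V)} {k k' r : ℕ} (h : k ≤ k') :
    reach Γ M k r ⊆ reach Γ M k' r := by
  intro x hx
  rw [mem_reach] at hx ⊢
  obtain ⟨m, h1, h2⟩ := hx
  exact ⟨m, h1.trans h, h2⟩

lemma mem_reach_of_mdeg {M : Finset (Sym2 V)} {x : V} (h : mdeg M x ≤ 1) (k : ℕ) :
    x ∈ reach Γ M k 0 := by
  rw [mem_reach]
  exact ⟨0, by omega, rfl, fun _ => x, fun i hi => by omega, h, rfl⟩

/-- the two kinds of reachable vertices are disjoint -/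
lemma reach_disjoint {M : Finset (Sym2 V)} (hM : IsTwo Γ M)
    (hmax : ∀ M', IsTwo Γ M' → M'.card ≤ M.card) {j : ℕ} (hg : NoCyc Γ (4 * j + 1)) :
    Disjoint (reach Γ M (2 * j) 0) (reach Γ M (2 * j + 1) 1) := by
  rw [disjoint_left]
  intro x hx hx'
  rw [mem_reach] at hx hx'
  obtain ⟨a, a1, a2, P, a3, a4, a5⟩ := hx
  obtain ⟨b, b1, b2, Q, b3, b4, b5⟩ := hx'
  -- combine the two sequences
  set r : ℕ → V := fun i => if i ≤ a then P i else Q (a + b - i) with hr
  have halt : Alt Γ M (a + b) r := by
    intro i hi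
    rcases Nat.lt_or_ge i a with h2 | h2
    · simp only [hr, if_pos h2.le, if_pos (Nat.succ_le_of_lt h2)]
      exact a3 i h2
    · have e1 : r i = Q (a + b - i) := by
        simp only [hr]
        split_ifs with h3
        · have : i = a := by omega
          subst this
          rw [a5, ← b5]
          congr 1
          omega
        · rfl
      have e2 : r (i + 1) = Q (a + b - i - 1) := by
        simp only [hr]
        rw [if_neg (by omega)]
        congr 1
      have h4 := b3 (a + b - i - 1) (by omega)
      have e3 : a + b - i - 1 + 1 = a + b - i := by omega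
      rw [e3] at h4
      rw [e1, e2]
      constructor
      · intro h5
        have h6 := h4.1 (by omega)
        refine ⟨h6.1.symm, ?_⟩
        rw [Sym2.eq_swap]
        exact h6.2
      · intro h5
        rw [Sym2.eq_swap]
        exact h4.2 (by omega)
  have hinj := halt.inj hM (fun c hc => by have := hg c hc; omega)
  obtain ⟨k, hk⟩ : ∃ k, a + b = 2 * k + 1 := ⟨(a + b) / 2, by omega⟩
  rw [hk] at halt hinj
  have r0 : r 0 = P 0 := by simp [hr]
  have r1 : r (2 * k + 1) = Q 0 := by
    simp only [hr]
    rw [if_neg (by omega), hk, Nat.sub_self]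
  obtain ⟨M', h1, h2⟩ := augment k M r hM halt hinj (by rw [r0]; exact a4) (by rw [r1]; exact b4)
  have := hmax M' h1
  omega

end Pool.Agent.Helper98.Ham
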