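import Mathlib
import Pool.Agent.Helper98.HamAlt

/-!
# A duality theorem for 2-matchings in graphs without short cycles
-/

set_option linter.unusedSectionVars false
set_option linter.unusedSimpArgs false

open Finset

namespace Pool.Agent.Helper98.Ham

variable {V : Type*} [Fintype V] [DecidableEq V] {Γ : SimpleGraph V}

lemma mem_nb_fromEdgeSet {M : Finset (Sym2 V)} (hM : IsTwo Γ M) {v w : V} :
    w ∈ nb (SimpleGraph.fromEdgeSet (M : Set (Sym2 V))) v ↔ s(v, w) ∈ M := by
  rw [mem_nb, SimpleGraph.fromEdgeSet_adj]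
  constructor
  · rintro ⟨h, -⟩
    exact_mod_cast h
  · intro h
    refine ⟨by exact_mod_cast h, ?_⟩
    have := hM.1 _ h
    rw [SimpleGraph.mem_edgeSet] at this
    exact this.ne

lemma card_nb_fromEdgeSet {M : Finset (Sym2 V)} (hM : IsTwo Γ M) (v : V) :
    (nb (SimpleGraph.fromEdgeSet (M : Set (Sym2 V))) v).card = mdeg M v := by
  unfold mdeg
  have : M.filter (fun e => v ∈ e) =
      (nb (SimpleGraph.fromEdgeSet (M : Set (Sym2 V))) v).image fun w => s(v, w) := by
    ext e
    rw [mem_filter, mem_image]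
    constructor
    · rintro ⟨h1, h2⟩
      obtain ⟨w, rfl⟩ := h2
      exact ⟨w, (mem_nb_fromEdgeSet hM).2 h1, rfl⟩
    · rintro ⟨w, h1, rfl⟩
      exact ⟨(mem_nb_fromEdgeSet hM).1 h1, Sym2.mem_mk_left _ _⟩
  rw [this, card_image_of_injective]
  intro w w' h
  exact Sym2.congr_right.1 h

lemma sum_nb_comm (F : SimpleGraph V) (W U : Finset V) :
    ∑ v ∈ W, (nb F v ∩ U).card = ∑ u ∈ U, (nb F u ∩ W).card := by
  classical
  have h1 : ∀ v, (nb F v ∩ U).card = ∑ u ∈ U, if F.Adj v u then 1 else 0 := by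
    intro v
    rw [← card_filter]
    congr 1
    ext u
    rw [mem_inter, mem_nb, mem_filter, and_comm]
  have h2 : ∀ u, (nb F u ∩ W).card = ∑ v ∈ W, if F.Adj v u then 1 else 0 := by
    intro u
    rw [← card_filter]
    congr 1
    ext v
    rw [mem_inter, mem_nb, mem_filter, and_comm, F.adj_comm]
  simp_rw [h1, h2]
  exact sum_comm

lemma card_nb_split (F : SimpleGraph V) (v : V) (U : Finset V) :
    (nb F v).card = (nb F v ∩ U).card + (nb F v \ U).card :=
  (card_inter_add_card_sdiff _ _).symm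

lemma sum_mdeg {M : Finset (Sym2 V)} (hM : IsTwo Γ M) : ∑ v, mdeg M v = 2 * M.card := by
  have h1 := e2_univ (SimpleGraph.fromEdgeSet (M : Set (Sym2 V)))
  unfold e2 at h1
  simp_rw [inter_univ, card_nb_fromEdgeSet hM] at h1
  rw [h1, SimpleGraph.edgeSet_fromEdgeSet]
  have : (M : Set (Sym2 V)) \ Sym2.diagSet = M := by
    rw [sdiff_eq_left, Set.disjoint_left]
    intro e he hd
    exact Γ.not_isDiag_of_mem_edgeSet (hM.1 e (by exact_mod_cast he)) hd
  rw [this, Set.ncard_coe_finset]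

lemma dual_step {M : Finset (Sym2 V)} (hM : IsTwo Γ M)
    (hmax : ∀ M', IsTwo Γ M' → M'.card ≤ M.card) {j : ℕ} (hg : NoCyc Γ (4 * j + 1)) :
    ∑ v ∈ reach Γ M (2 * j) 0, (nb Γ v \ reach Γ M (2 * j + 1) 1).card +
      2 * (reach Γ M (2 * j + 1) 1).card + 2 * (univ \ reach Γ M (2 * j) 0).card ≤
    2 * M.card + 2 * (reach Γ M (2 * (j + 1)) 0 \ reach Γ M (2 * j) 0).card := by
  set W := reach Γ M (2 * j) 0 with hW
  set U := reach Γ M (2 * j + 1) 1 with hU
  set W' := reach Γ M (2 * (j + 1)) 0 with hW'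
  set F := SimpleGraph.fromEdgeSet (M : Set (Sym2 V)) with hF
  have hdisj : Disjoint W U := reach_disjoint hM hmax hg
  have hdeg : ∀ v, (nb F v).card = mdeg M v := card_nb_fromEdgeSet hM
  have hdeg2 : ∀ v, (nb F v).card ≤ 2 := fun v => by rw [hdeg]; exact hM.2 v
  have hout : ∀ v, v ∉ W → (nb F v).card = 2 := by
    intro v hv
    have h1 := hdeg2 v
    by_contra hne
    apply hv
    rw [hW]
    refine mem_reach_of_mdeg ?_ _
    rw [← hdeg]
    omega
  have hsum : 2 * M.card = ∑ v ∈ W, (nb F v).card + ∑ v ∈ univ \ W, (nb F v).card := by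
    rw [← sum_mdeg hM, add_comm, sum_sdiff (subset_univ W)]
    exact sum_congr rfl fun v _ => (hdeg v).symm
  have h1 : ∑ v ∈ univ \ W, (nb F v).card = 2 * (univ \ W).card := by
    rw [sum_congr rfl fun v hv => hout v (mem_sdiff.1 hv).2, sum_const, smul_eq_mul, mul_comm]
  have h2 : ∑ v ∈ W, (nb F v).card = ∑ v ∈ W, (nb F v ∩ U).card + ∑ v ∈ W, (nb F v \ U).card := by
    rw [← sum_add_distrib]
    exact sum_congr rfl fun v _ => card_nb_split F v U
  have h3 : ∑ v ∈ W, (nb Γ v \ U).card ≤ ∑ v ∈ W, (nb F v \ U).card := by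
    refine sum_le_sum fun v hv => card_le_card fun x hx => ?_
    rw [mem_sdiff, mem_nb] at hx
    rw [mem_sdiff]
    refine ⟨?_, hx.2⟩
    rw [hF, mem_nb_fromEdgeSet hM]
    by_contra hcon
    exact hx.2 (reach_even_step hv hx.1 hcon)
  have h4 : 2 * U.card ≤ ∑ v ∈ W, (nb F v ∩ U).card + 2 * (W' \ W).card := by
    have h5 : ∑ u ∈ U, (nb F u ∩ (W' \ W)).card ≤ 2 * (W' \ W).card := by
      rw [sum_nb_comm]
      calc ∑ u ∈ W' \ W, (nb F u ∩ U).card ≤ ∑ u ∈ W' \ W, 2 :=
            sum_le_sum fun u _ => (card_le_card inter_subset_left).trans (hdeg2 u)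
        _ = 2 * (W' \ W).card := by rw [sum_const, smul_eq_mul, mul_comm]
    have h6 : 2 * U.card ≤ ∑ u ∈ U, ((nb F u ∩ W).card + (nb F u ∩ (W' \ W)).card) := by
      have h7 : 2 * U.card = ∑ u ∈ U, 2 := by rw [sum_const, smul_eq_mul, mul_comm]
      rw [h7]
      refine sum_le_sum fun u hu => ?_
      have h8 : u ∉ W := fun h => disjoint_left.1 hdisj h hu
      rw [← hout u h8]
      refine le_trans (card_le_card (t := nb F u ∩ W ∪ nb F u ∩ (W' \ W)) ?_) (card_union_le _ _)
      intro x hx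
      have h9 : x ∈ W' := by
        rw [hF, mem_nb_fromEdgeSet hM] at hx
        exact reach_odd_step hu hx
      rw [mem_union, mem_inter, mem_inter, mem_sdiff]
      by_cases hxW : x ∈ W
      · exact Or.inl ⟨hx, hxW⟩
      · exact Or.inr ⟨hx, h9, hxW⟩
    rw [sum_add_distrib] at h6
    rw [sum_nb_comm F W U]
    omega
  omega

lemma exists_max_two (Γ : SimpleGraph V) :
    ∃ M : Finset (Sym2 V), IsTwo Γ M ∧ ∀ M', IsTwo Γ M' → M'.card ≤ M.card := by
  have : Nonempty {M : Finset (Sym2 V) // IsTwo Γ M} := ⟨⟨∅, by simp [IsTwo, mdeg]⟩⟩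
  obtain ⟨⟨M, hM⟩, h⟩ := Finite.exists_max fun M : {M : Finset (Sym2 V) // IsTwo Γ M} => M.1.card
  exact ⟨M, hM, fun M' hM' => h ⟨M', hM'⟩⟩

/-- Approximate duality. -/
lemma dual (Γ : SimpleGraph V) {J : ℕ} (hJ : 0 < J) (hg : NoCyc Γ (4 * J + 1)) :
    ∃ U W : Finset V, Disjoint W U ∧
      (∑ v ∈ W, (nb Γ v \ U).card : ℝ) + 2 * U.card + 2 * (Fintype.card V - W.card) ≤
        2 * L Γ + 3 * Fintype.card V / J ∧
      (Fintype.card V : ℝ) ≤ W.card + L Γ + Fintype.card V / J := by
  obtain ⟨M, hM, hmax⟩ := exists_max_two Γ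
  set n := Fintype.card V with hn
  have hJ' : (0 : ℝ) < J := by exact_mod_cast hJ
  -- pigeonhole
  obtain ⟨j, hj, hjn⟩ : ∃ j < J,
      J * (reach Γ M (2 * (j + 1)) 0 \ reach Γ M (2 * j) 0).card ≤ n := by
    by_contra hcon
    push Not at hcon
    have h1 : ∑ j ∈ range J, (reach Γ M (2 * (j + 1)) 0 \ reach Γ M (2 * j) 0).card ≤ n := by
      have h2 : ∀ j ∈ range J, (reach Γ M (2 * (j + 1)) 0 \ reach Γ M (2 * j) 0).card =
          (reach Γ M (2 * (j + 1)) 0).card - (reach Γ M (2 * j) 0).card := by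
        intro j _
        rw [card_sdiff_of_subset (reach_mono (by omega))]
      rw [sum_congr rfl h2]
      have h3 := Finset.sum_range_tsub (f := fun j => (reach Γ M (2 * j) 0).card)
        (fun a b hab => card_le_card (reach_mono (by omega))) J
      rw [h3]
      exact (Nat.sub_le _ _).trans (card_le_univ _)
    have h4 : J * n < J * ∑ j ∈ range J, (reach Γ M (2 * (j + 1)) 0 \ reach Γ M (2 * j) 0).card := by
      rw [mul_sum]
      calc J * n = ∑ j ∈ range J, n := by rw [sum_const, card_range, smul_eq_mul]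
        _ < ∑ j ∈ range J, J * (reach Γ M (2 * (j + 1)) 0 \ reach Γ M (2 * j) 0).card := by
          refine sum_lt_sum_of_nonempty ⟨0, mem_range.2 hJ⟩ fun j hj => hcon j (mem_range.1 hj)
    have h5 := Nat.mul_le_mul_left J h1
    omega
  set W := reach Γ M (2 * j) 0 with hW
  set U := reach Γ M (2 * j + 1) 1 with hU
  have hgj : NoCyc Γ (4 * j + 1) := fun c hc => by have := hg c hc; omega
  have hstep := dual_step hM hmax hgj
  rw [← hW, ← hU] at hstep
  set D := (reach Γ M (2 * (j + 1)) 0 \ W).card with hD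
  -- the number of edges of `M`
  have hMF : (4 * J + 1 + 1) * M.card ≤ (4 * J + 1 + 1) * L Γ + n := by
    have hle : SimpleGraph.fromEdgeSet (M : Set (Sym2 V)) ≤ Γ := by
      intro a b hab
      rw [SimpleGraph.fromEdgeSet_adj] at hab
      exact (SimpleGraph.mem_edgeSet Γ).1 (hM.1 _ (by exact_mod_cast hab.1))
    have h1 := edges_le_L (F := SimpleGraph.fromEdgeSet (M : Set (Sym2 V))) (g := 4 * J + 1)
      (fun v => by rw [card_nb_fromEdgeSet hM]; exact hM.2 v) (fun c hc => hg c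
        ⟨hc.1, hc.2.1, hc.2.2.1.imp fun a b h => hle h, by
          have h2 := jn_mono hle c.getLast? c.head?
          have h3 := jn_le_one (G := Γ) c.getLast? c.head?
          have h4 := hc.2.2.2
          omega⟩)
    have h2 : (SimpleGraph.fromEdgeSet (M : Set (Sym2 V))).edgeSet.ncard = M.card := by
      have h3 := e2_univ (SimpleGraph.fromEdgeSet (M : Set (Sym2 V)))
      unfold e2 at h3
      simp_rw [inter_univ, card_nb_fromEdgeSet hM] at h3
      rw [sum_mdeg hM] at h3
      omega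
    rw [h2] at h1
    have h3 := Nat.mul_le_mul_left (4 * J + 1 + 1) (L_mono hle)
    omega
  have hMreal : (M.card : ℝ) ≤ L Γ + n / (2 * J) := by
    have h1 : ((4 * J + 1 + 1 : ℕ) : ℝ) * M.card ≤ ((4 * J + 1 + 1 : ℕ) : ℝ) * L Γ + n := by
      exact_mod_cast hMF
    push_cast at h1
    have h2 : (M.card : ℝ) ≤ L Γ + n / (4 * J + 2) := by
      rw [← sub_le_iff_le_add', le_div_iff₀ (by positivity)]
      linarith
    refine h2.trans ?_
    have h3 : (n : ℝ) / (4 * J + 2) ≤ n / (2 * J) :=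
      div_le_div_of_nonneg_left (by positivity) (by positivity) (by linarith)
    linarith
  have hhalf : (n : ℝ) / (2 * J) = n / J / 2 := by
    field_simp
  have hDreal : (D : ℝ) ≤ n / J := by
    rw [le_div_iff₀ hJ', mul_comm]
    exact_mod_cast hjn
  have hWc : ((univ \ W).card : ℝ) = n - W.card := by
    rw [card_sdiff_of_subset (subset_univ W), card_univ, Nat.cast_sub (card_le_univ W)]
  refine ⟨U, W, reach_disjoint hM hmax hgj, ?_, ?_⟩
  · have h1 : (∑ v ∈ W, ((nb Γ v \ U).card : ℝ)) + 2 * U.card + 2 * (univ \ W).card ≤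
        2 * M.card + 2 * D := by exact_mod_cast hstep
    rw [hWc] at h1
    have e : 3 * (n : ℝ) / J = 3 * (n / J) := by ring
    rw [e]
    rw [hhalf] at hMreal
    linarith
  · -- vertices outside `W` have degree two
    have h1 : 2 * (univ \ W).card ≤ 2 * M.card := by
      rw [← sum_mdeg hM]
      calc 2 * (univ \ W).card = ∑ v ∈ univ \ W, 2 := by rw [sum_const, smul_eq_mul, mul_comm]
        _ ≤ ∑ v ∈ univ \ W, mdeg M v := by
          refine sum_le_sum fun v hv => ?_
          by_contra hcon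
          exact (mem_sdiff.1 hv).2 (mem_reach_of_mdeg (by omega) _)
        _ ≤ ∑ v, mdeg M v := sum_le_sum_of_subset (subset_univ _)
    have h2 : ((univ \ W).card : ℝ) ≤ M.card := by exact_mod_cast (by omega : (univ \ W).card ≤ M.card)
    rw [hWc] at h2
    have h3 : (n : ℝ) / (2 * J) ≤ n / J :=
      div_le_div_of_nonneg_left (by positivity) hJ' (by linarith)
    linarith

end Pool.Agent.Helper98.Ham
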