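import Mathlib
import Pool.Agent.Helper98.HamDual

/-!
# The deterministic core: an almost spanning linear forest in `H ∪ G₁`
-/

set_option linter.unusedSectionVars false
set_option linter.unusedSimpArgs false

open Finset

namespace Pool.Agent.Helper98.Ham

variable {V : Type*} [Fintype V] [DecidableEq V]

lemma nb_mono {F G : SimpleGraph V} (h : F ≤ G) (v : V) : nb F v ⊆ nb G v := by
  intro w hw
  rw [mem_nb] at hw ⊢
  exact h hw

lemma card_pairs_le (R : Finset (Sym2 V)) :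
    ∑ v, (univ.filter fun w => s(v, w) ∈ R).card ≤ 2 * R.card := by
  have h1 : ∑ v, (univ.filter fun w => s(v, w) ∈ R).card =
      ((univ : Finset (V × V)).filter fun z => s(z.1, z.2) ∈ R).card := by
    rw [← univ_product_univ, card_filter, sum_product]
    refine sum_congr rfl fun v _ => ?_
    rw [card_filter]
  rw [h1]
  have h2 : ((univ : Finset (V × V)).filter fun z => s(z.1, z.2) ∈ R).card ≤
      2 * (((univ : Finset (V × V)).filter fun z => s(z.1, z.2) ∈ R).image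
        fun z => s(z.1, z.2)).card := by
    refine card_le_mul_card_image _ 2 fun e _ => ?_
    induction e with
    | _ x y =>
      refine (card_le_card (t := {(x, y), (y, x)}) ?_).trans card_le_two
      rintro ⟨a, b⟩ hz
      rw [mem_filter] at hz
      have := hz.2
      rw [Sym2.eq_iff] at this
      rw [mem_insert, mem_singleton, Prod.mk.injEq, Prod.mk.injEq]
      exact this
  refine h2.trans (Nat.mul_le_mul_left 2 (card_le_card ?_))
  intro e he
  rw [mem_image] at he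
  obtain ⟨z, hz, rfl⟩ := he
  exact (mem_filter.1 hz).2

/-- removing few edges changes the count by little -/
lemma sum_nb_deleteEdges (G : SimpleGraph V) (R : Finset (Sym2 V)) (W U : Finset V) :
    ∑ v ∈ W, (nb G v \ U).card ≤
      ∑ v ∈ W, (nb (G.deleteEdges (R : Set (Sym2 V))) v \ U).card + 2 * R.card := by
  have h1 : ∀ v, (nb G v \ U).card ≤ (nb (G.deleteEdges (R : Set (Sym2 V))) v \ U).card +
      (univ.filter fun w => s(v, w) ∈ R).card := by
    intro v
    refine le_trans (card_le_card ?_) (card_union_le _ _)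
    intro w hw
    rw [mem_sdiff, mem_nb] at hw
    rw [mem_union, mem_sdiff, mem_nb, SimpleGraph.deleteEdges_adj, mem_filter]
    by_cases h : s(v, w) ∈ R
    · exact Or.inr ⟨mem_univ _, h⟩
    · exact Or.inl ⟨⟨hw.1, by exact_mod_cast h⟩, hw.2⟩
  calc ∑ v ∈ W, (nb G v \ U).card
      ≤ ∑ v ∈ W, ((nb (G.deleteEdges (R : Set (Sym2 V))) v \ U).card +
        (univ.filter fun w => s(v, w) ∈ R).card) := sum_le_sum fun v _ => h1 v
    _ = ∑ v ∈ W, (nb (G.deleteEdges (R : Set (Sym2 V))) v \ U).card +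
        ∑ v ∈ W, (univ.filter fun w => s(v, w) ∈ R).card := sum_add_distrib
    _ ≤ ∑ v ∈ W, (nb (G.deleteEdges (R : Set (Sym2 V))) v \ U).card + 2 * R.card := by
        refine Nat.add_le_add_left ((sum_le_sum_of_subset (subset_univ W)).trans
          (card_pairs_le R)) _

/-- weak duality -/
lemma weak_dual {F G : SimpleGraph V} (hFG : F ≤ G) (hdeg : ∀ u, (nb F u).card ≤ 2)
    {A W U : Finset V} (hA : ∀ u ∈ A, nb F u = ∅) (hd : Disjoint W U) :
    2 * F.edgeSet.ncard + 4 * (A ∩ U).card ≤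
      ∑ v ∈ W, (nb G v \ U).card + 2 * U.card + 2 * (univ \ W).card := by
  have h1 : 2 * F.edgeSet.ncard = ∑ v ∈ W, (nb F v).card + ∑ v ∈ univ \ W, (nb F v).card := by
    rw [← e2_univ, add_comm, sum_sdiff (subset_univ W)]
    unfold e2
    exact sum_congr rfl fun v _ => by rw [inter_univ]
  have h2 : ∑ v ∈ W, (nb F v).card = ∑ v ∈ W, (nb F v ∩ U).card + ∑ v ∈ W, (nb F v \ U).card := by
    rw [← sum_add_distrib]
    exact sum_congr rfl fun v _ => card_nb_split F v U
  have h3 : ∑ v ∈ W, (nb F v \ U).card ≤ ∑ v ∈ W, (nb G v \ U).card :=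
    sum_le_sum fun v _ => card_le_card (sdiff_subset_sdiff (nb_mono hFG v) Subset.rfl)
  have h4 : ∑ v ∈ W, (nb F v ∩ U).card ≤ 2 * (U \ A).card := by
    rw [sum_nb_comm]
    have h5 : ∑ u ∈ U, (nb F u ∩ W).card = ∑ u ∈ U \ A, (nb F u ∩ W).card := by
      symm
      refine sum_subset sdiff_subset fun u hu hu' => ?_
      have : u ∈ A := by
        by_contra h
        exact hu' (mem_sdiff.2 ⟨hu, h⟩)
      rw [hA u this]
      simp
    rw [h5]
    calc ∑ u ∈ U \ A, (nb F u ∩ W).card ≤ ∑ u ∈ U \ A, 2 :=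
          sum_le_sum fun u _ => (card_le_card inter_subset_left).trans (hdeg u)
      _ = 2 * (U \ A).card := by rw [sum_const, smul_eq_mul, mul_comm]
  have h5 : ∑ v ∈ univ \ W, (nb F v).card ≤ 2 * ((univ \ W) \ A).card := by
    have h6 : ∑ u ∈ univ \ W, (nb F u).card = ∑ u ∈ (univ \ W) \ A, (nb F u).card := by
      symm
      refine sum_subset sdiff_subset fun u hu hu' => ?_
      have : u ∈ A := by
        by_contra h
        exact hu' (mem_sdiff.2 ⟨hu, h⟩)
      rw [hA u this]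
      simp
    rw [h6]
    calc ∑ u ∈ (univ \ W) \ A, (nb F u).card ≤ ∑ u ∈ (univ \ W) \ A, 2 :=
          sum_le_sum fun u _ => hdeg u
      _ = 2 * ((univ \ W) \ A).card := by rw [sum_const, smul_eq_mul, mul_comm]
  have h6 : (U \ A).card + (A ∩ U).card = U.card := by
    rw [inter_comm, add_comm]
    exact card_inter_add_card_sdiff _ _
  have h7 : ((univ \ W) \ A).card + (A ∩ U).card ≤ (univ \ W).card := by
    rw [← card_union_of_disjoint]
    · refine card_le_card fun x hx => ?_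
      rw [mem_union] at hx
      rcases hx with hx | hx
      · exact (mem_sdiff.1 hx).1
      · rw [mem_inter] at hx
        rw [mem_sdiff]
        exact ⟨mem_univ _, fun h => disjoint_left.1 hd h hx.2⟩
    · rw [disjoint_left]
      intro x hx hx'
      exact (mem_sdiff.1 hx).2 (mem_inter.1 hx').1
  omega

/-- `v` is good: there is a linear forest of size `m` in `G` outside `A` -/
def GoodV (G : SimpleGraph V) (A : Finset V) (m : ℕ) : Prop :=
  ∃ F ≤ G, (∀ u, (nb F u).card ≤ 2) ∧ (∀ u ∈ A, nb F u = ∅) ∧ F.edgeSet.ncard = m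

/-- the deterministic core -/
lemma core (H G₁ G₂ : SimpleGraph V) {d : ℕ} {A : V → Finset V} (hA : ∀ v, A v ⊆ nb H v)
    (hAd : ∀ v, (A v).card = d) (hd : 2 * d ≤ Fintype.card V) (hn : 0 < Fintype.card V)
    {δ : ℝ} (hδ0 : 0 < δ) (hδ1 : δ ≤ 1) {J : ℕ} (hJ : 16 / δ ≤ J)
    (R : Finset (Sym2 V)) (hR : (R.card : ℝ) ≤ δ * Fintype.card V / 8)
    (hcyc : NoCyc (((H ⊓ G₂) ⊔ G₁).deleteEdges (R : Set (Sym2 V))) (4 * J + 1))
    (hE2 : ∀ W U : Finset V,
      δ ^ 2 / 32 * (Fintype.card V : ℝ) ^ 2 ≤ ((∑ v ∈ W, (nb H v \ U).card : ℕ) : ℝ) →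
      6 * Fintype.card V < ∑ v ∈ W, (nb (H ⊓ G₂) v \ U).card)
    {B : Finset V} (hB : (B.card : ℝ) ≤ δ * Fintype.card V / 4)
    (hE1 : ∀ v, v ∉ B → GoodV G₁ (A v) (Fintype.card V - 2 * d)) :
    (1 - δ) * Fintype.card V ≤ L (H ⊔ G₁) := by
  set n := Fintype.card V with hndef
  have hn' : (0 : ℝ) < n := by exact_mod_cast hn
  set Γ₀ := (H ⊓ G₂) ⊔ G₁ with hΓ₀
  set Γ₁ := Γ₀.deleteEdges (R : Set (Sym2 V)) with hΓ₁
  have hle : Γ₁ ≤ H ⊔ G₁ := by
    refine (SimpleGraph.deleteEdges_le _).trans ?_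
    rw [hΓ₀]
    exact sup_le_sup_right inf_le_left _
  have hLle := L_mono hle
  have hJ0 : (0 : ℝ) < J := lt_of_lt_of_le (by positivity) hJ
  have hJpos : 0 < J := by exact_mod_cast hJ0
  have hJ16 : (n : ℝ) / J ≤ δ * n / 16 := by
    rw [div_le_div_iff₀ hJ0 (by norm_num)]
    have : 16 ≤ δ * J := by
      rw [div_le_iff₀ hδ0] at hJ
      linarith
    nlinarith
  obtain ⟨U, W, hWU, hd1, hd2⟩ := dual Γ₁ hJpos hcyc
  rw [← hndef] at hd1 hd2
  by_contra hcon
  push Not at hcon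
  have hL1 : (L Γ₁ : ℝ) < (1 - δ) * n := by
    have : (L Γ₁ : ℝ) ≤ L (H ⊔ G₁) := by exact_mod_cast hLle
    linarith
  -- the set `W` is large
  have hWbig : 15 / 16 * δ * n ≤ W.card := by nlinarith
  have hWle : (W.card : ℝ) ≤ n := by exact_mod_cast card_le_univ W
  -- few edges of `Γ₁` go from `W` to the complement of `U`
  have e3 : 3 * (n : ℝ) / J = 3 * (n / J) := by ring
  rw [e3] at hd1
  have hU0 : (0 : ℝ) ≤ U.card := by positivity
  have hfew : ((∑ v ∈ W, (nb Γ₁ v \ U).card : ℕ) : ℝ) ≤ 3 * n := by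
    push_cast
    nlinarith
  have hfew' : ∑ v ∈ W, (nb Γ₁ v \ U).card ≤ 3 * n := by exact_mod_cast hfew
  have hRn : R.card ≤ n := by
    have : (R.card : ℝ) ≤ n := by nlinarith
    exact_mod_cast this
  have hΓ₀few : ∑ v ∈ W, (nb Γ₀ v \ U).card ≤ 3 * n + 2 * R.card :=
    (sum_nb_deleteEdges Γ₀ R W U).trans (Nat.add_le_add_right hfew' _)
  have hHG : ∑ v ∈ W, (nb (H ⊓ G₂) v \ U).card ≤ 5 * n := by
    have h0 : ∑ v ∈ W, (nb (H ⊓ G₂) v \ U).card ≤ ∑ v ∈ W, (nb Γ₀ v \ U).card :=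
      sum_le_sum fun v _ =>
        card_le_card (sdiff_subset_sdiff (nb_mono (le_sup_left : H ⊓ G₂ ≤ Γ₀) v) Subset.rfl)
    omega
  -- so few edges of `H`
  have hH : ((∑ v ∈ W, (nb H v \ U).card : ℕ) : ℝ) < δ ^ 2 / 32 * (n : ℝ) ^ 2 := by
    by_contra hc
    push Not at hc
    have := hE2 W U hc
    omega
  -- a good vertex
  obtain ⟨v, hvW, hvB, hvU⟩ : ∃ v ∈ W, v ∉ B ∧ ((nb H v \ U).card : ℝ) ≤ δ / 8 * n := by
    by_contra hc
    push Not at hc
    have h1 : ((W \ B).card : ℝ) * (δ / 8 * n) ≤ ∑ v ∈ W \ B, ((nb H v \ U).card : ℝ) := by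
      rw [← nsmul_eq_mul]
      refine card_nsmul_le_sum _ _ _ fun v hv => ?_
      rw [mem_sdiff] at hv
      exact (hc v hv.1 hv.2).le
    have h2 : ∑ v ∈ W \ B, ((nb H v \ U).card : ℝ) ≤ ((∑ v ∈ W, (nb H v \ U).card : ℕ) : ℝ) := by
      push_cast
      exact sum_le_sum_of_subset_of_nonneg sdiff_subset fun _ _ _ => by positivity
    have h3 : (W.card : ℝ) ≤ (W \ B).card + B.card := by
      have : W.card ≤ (W \ B).card + B.card := by
        have := card_le_card_sdiff_add_card (s := W) (t := B)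
        exact this
      exact_mod_cast this
    have h4 : δ / 2 * n ≤ (W \ B).card := by nlinarith
    have h5 : δ / 2 * n * (δ / 8 * n) ≤ ((W \ B).card : ℝ) * (δ / 8 * n) :=
      mul_le_mul_of_nonneg_right h4 (by positivity)
    have h6 : δ / 2 * n * (δ / 8 * n) = δ ^ 2 / 16 * (n : ℝ) ^ 2 := by ring
    have h7 : 0 < δ ^ 2 * (n : ℝ) ^ 2 := by positivity
    nlinarith
  obtain ⟨F, hF1, hF2, hF3, hF4⟩ := hE1 v hvB
  have hweak := weak_dual hF1 hF2 hF3 hWU
  rw [hF4] at hweak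
  have hAU : (d : ℝ) - δ / 8 * n ≤ ((A v ∩ U).card : ℝ) := by
    have h1 : d ≤ (A v ∩ U).card + (nb H v \ U).card := by
      have h2 : (A v).card = (A v ∩ U).card + (A v \ U).card :=
        (card_inter_add_card_sdiff _ _).symm
      have h3 : (A v \ U).card ≤ (nb H v \ U).card :=
        card_le_card (sdiff_subset_sdiff (hA v) Subset.rfl)
      rw [hAd] at h2
      omega
    have h2 : (d : ℝ) ≤ (A v ∩ U).card + (nb H v \ U).card := by exact_mod_cast h1
    linarith
  have hG1few : ∑ v ∈ W, (nb G₁ v \ U).card ≤ ∑ v ∈ W, (nb Γ₁ v \ U).card + 2 * R.card :=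
    (sum_le_sum fun v _ => card_le_card (sdiff_subset_sdiff
      (nb_mono (le_sup_right : G₁ ≤ Γ₀) v) Subset.rfl)).trans (sum_nb_deleteEdges Γ₀ R W U)
  have hWc : ((univ \ W).card : ℝ) = n - W.card := by
    rw [card_sdiff_of_subset (subset_univ W), card_univ, Nat.cast_sub (card_le_univ W)]
  have hweak' : 2 * ((n : ℝ) - 2 * d) + 4 * (A v ∩ U).card ≤
      (∑ v ∈ W, ((nb Γ₁ v \ U).card : ℝ)) + 2 * R.card + 2 * U.card + 2 * (n - W.card) := by
    have h1 : 2 * (n - 2 * d) + 4 * (A v ∩ U).card ≤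
        (∑ v ∈ W, (nb Γ₁ v \ U).card + 2 * R.card) + 2 * U.card + 2 * (univ \ W).card := by
      omega
    have h2 : ((2 * (n - 2 * d) + 4 * (A v ∩ U).card : ℕ) : ℝ) ≤
        (((∑ v ∈ W, (nb Γ₁ v \ U).card + 2 * R.card) + 2 * U.card + 2 * (univ \ W).card : ℕ) : ℝ) := by
      exact_mod_cast h1
    push_cast [Nat.cast_sub hd] at h2
    rw [hWc] at h2
    linarith
  nlinarith

end Pool.Agent.Helper98.Ham
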