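import Mathlib

/-!
# Random subsets of a finite set

`Ex A p f` is the expectation of `f S`, where `S` is the random subset of `A` that contains each
element of `A` with probability `p`, independently.
-/

open Finset

set_option linter.unusedSectionVars false
set_option linter.unusedSimpArgs false

namespace Pool.Agent.Helper98.Ham

variable {ι : Type*} [DecidableEq ι]

/-- expectation over the binomial random subset of `A` -/
noncomputable def Ex (A : Finset ι) (p : ℝ) (f : Finset ι → ℝ) : ℝ :=
  ∑ S ∈ A.powerset, p ^ S.card * (1 - p) ^ (A.card - S.card) * f S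

lemma Ex_empty (p : ℝ) (f : Finset ι → ℝ) : Ex ∅ p f = f ∅ := by
  simp [Ex]

lemma Ex_insert {a : ι} {A : Finset ι} (ha : a ∉ A) (p : ℝ) (f : Finset ι → ℝ) :
    Ex (insert a A) p f = (1 - p) * Ex A p f + p * Ex A p (fun S => f (insert a S)) := by
  unfold Ex
  rw [sum_powerset_insert ha, mul_sum, mul_sum]
  congr 1
  · refine sum_congr rfl fun S hS => ?_
    rw [mem_powerset] at hS
    rw [card_insert_of_notMem ha]
    have : A.card + 1 - S.card = (A.card - S.card) + 1 := by
      have := card_le_card hS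
      omega
    rw [this, pow_succ]
    ring
  · refine sum_congr rfl fun S hS => ?_
    rw [mem_powerset] at hS
    rw [card_insert_of_notMem ha, card_insert_of_notMem (fun h => ha (hS h))]
    have : A.card + 1 - (S.card + 1) = A.card - S.card := by omega
    rw [this, pow_succ]
    ring

lemma Ex_congr {A : Finset ι} {p : ℝ} {f g : Finset ι → ℝ} (h : ∀ S ⊆ A, f S = g S) :
    Ex A p f = Ex A p g :=
  sum_congr rfl fun S hS => by rw [h S (mem_powerset.1 hS)]

lemma Ex_mono {A : Finset ι} {p : ℝ} (h0 : 0 ≤ p) (h1 : p ≤ 1) {f g : Finset ι → ℝ}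
    (h : ∀ S ⊆ A, f S ≤ g S) : Ex A p f ≤ Ex A p g :=
  sum_le_sum fun S hS => mul_le_mul_of_nonneg_left (h S (mem_powerset.1 hS))
    (mul_nonneg (pow_nonneg h0 _) (pow_nonneg (sub_nonneg.2 h1) _))

lemma Ex_add (A : Finset ι) (p : ℝ) (f g : Finset ι → ℝ) :
    Ex A p (fun S => f S + g S) = Ex A p f + Ex A p g := by
  unfold Ex
  rw [← sum_add_distrib]
  exact sum_congr rfl fun S _ => by ring

lemma Ex_sub (A : Finset ι) (p : ℝ) (f g : Finset ι → ℝ) :
    Ex A p (fun S => f S - g S) = Ex A p f - Ex A p g := by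
  unfold Ex
  rw [← sum_sub_distrib]
  exact sum_congr rfl fun S _ => by ring

lemma Ex_mul (A : Finset ι) (p c : ℝ) (f : Finset ι → ℝ) :
    Ex A p (fun S => c * f S) = c * Ex A p f := by
  unfold Ex
  rw [mul_sum]
  exact sum_congr rfl fun S _ => by ring

lemma Ex_sum {κ : Type*} (A : Finset ι) (p : ℝ) (K : Finset κ) (f : κ → Finset ι → ℝ) :
    Ex A p (fun S => ∑ k ∈ K, f k S) = ∑ k ∈ K, Ex A p (f k) := by
  unfold Ex
  rw [sum_comm]
  exact sum_congr rfl fun S _ => by rw [mul_sum]

lemma Ex_const (A : Finset ι) (p c : ℝ) : Ex A p (fun _ => c) = c := by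
  induction A using Finset.induction_on with
  | empty => rw [Ex_empty]
  | insert a A ha ih => rw [Ex_insert ha, ih]; ring

lemma Ex_nonneg {A : Finset ι} {p : ℝ} (h0 : 0 ≤ p) (h1 : p ≤ 1) {f : Finset ι → ℝ}
    (h : ∀ S ⊆ A, 0 ≤ f S) : 0 ≤ Ex A p f := by
  have := Ex_mono h0 h1 h
  rwa [Ex_const] at this

lemma Ex_le_of_le {A : Finset ι} {p c : ℝ} (h0 : 0 ≤ p) (h1 : p ≤ 1) {f : Finset ι → ℝ}
    (h : ∀ S ⊆ A, f S ≤ c) : Ex A p f ≤ c := by
  have := Ex_mono h0 h1 h
  rwa [Ex_const] at this

/-- union of two independent random subsets -/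
lemma Ex_union (A : Finset ι) (p q : ℝ) (f : Finset ι → ℝ) :
    Ex A p (fun S => Ex A q (fun T => f (S ∪ T))) = Ex A (p + q - p * q) f := by
  induction A using Finset.induction_on generalizing f with
  | empty => simp [Ex_empty]
  | insert a A ha ih =>
    rw [Ex_insert ha, Ex_insert ha, ← ih, ← ih]
    have e1 : Ex A p (fun S => Ex (insert a A) q (fun T => f (S ∪ T))) =
        (1 - q) * Ex A p (fun S => Ex A q (fun T => f (S ∪ T))) +
        q * Ex A p (fun S => Ex A q (fun T => f (insert a (S ∪ T)))) := by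
      rw [← Ex_mul, ← Ex_mul, ← Ex_add]
      refine Ex_congr fun S _ => ?_
      rw [Ex_insert ha]
      congr 2
      refine Ex_congr fun T _ => ?_
      rw [union_insert]
    have e2 : Ex A p (fun S => Ex (insert a A) q (fun T => f (insert a S ∪ T))) =
        Ex A p (fun S => Ex A q (fun T => f (insert a (S ∪ T)))) := by
      refine Ex_congr fun S _ => ?_
      rw [Ex_insert ha]
      have e3 : Ex A q (fun T => f (insert a S ∪ T)) = Ex A q (fun T => f (insert a (S ∪ T))) :=
        Ex_congr fun T _ => by rw [insert_union]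
      have e4 : Ex A q (fun T => f (insert a S ∪ insert a T)) =
          Ex A q (fun T => f (insert a (S ∪ T))) :=
        Ex_congr fun T _ => by rw [← insert_union_distrib]
      rw [e3, e4]
      ring
    rw [e1, e2]
    ring

/-- monotonicity in `p` -/
lemma Ex_mono_p {A : Finset ι} {p q : ℝ} (h0 : 0 ≤ p) (hpq : p ≤ q) (h1 : q ≤ 1)
    {f : Finset ι → ℝ} (hf : ∀ S T, S ⊆ T → T ⊆ A → f S ≤ f T) : Ex A p f ≤ Ex A q f := by
  induction A using Finset.induction_on generalizing f with
  | empty => rw [Ex_empty, Ex_empty]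
  | insert a A ha ih =>
    rw [Ex_insert ha, Ex_insert ha]
    have i1 := ih (f := f) fun S T hST hT => hf S T hST (hT.trans (subset_insert a A))
    have i2 := ih (f := fun S => f (insert a S)) fun S T hST hT =>
      hf _ _ (insert_subset_insert a hST) (insert_subset_insert a hT)
    have i3 : Ex A q f ≤ Ex A q (fun S => f (insert a S)) :=
      Ex_mono (h0.trans hpq) h1 fun S hS => hf _ _ (subset_insert a S) (insert_subset_insert a hS)
    have j1 := mul_le_mul_of_nonneg_left i1 (show 0 ≤ 1 - p by linarith)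
    have j2 := mul_le_mul_of_nonneg_left i2 h0
    have j3 := mul_le_mul_of_nonneg_left i3 (sub_nonneg.2 hpq)
    linarith

/-- a function that depends on `S ∩ B` only -/
lemma Ex_marginal {A B : Finset ι} (hB : B ⊆ A) (p : ℝ) {f : Finset ι → ℝ}
    (hf : ∀ S ⊆ A, f S = f (S ∩ B)) : Ex A p f = Ex B p f := by
  obtain ⟨C, hC⟩ : ∃ C, C = A \ B := ⟨_, rfl⟩
  have hA : A = B ∪ C := by rw [hC, union_sdiff_of_subset hB]
  have hd : Disjoint B C := by rw [hC]; exact disjoint_sdiff
  clear hC hB
  subst hA
  induction C using Finset.induction_on with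
  | empty => simp
  | insert a C ha ih =>
    rw [disjoint_insert_right] at hd
    have ha' : a ∉ B ∪ C := by
      rw [mem_union]
      rintro (h | h)
      · exact hd.1 h
      · exact ha h
    rw [union_insert] at hf ⊢
    rw [Ex_insert ha']
    have e1 : Ex (B ∪ C) p (fun S => f (insert a S)) = Ex (B ∪ C) p f := by
      refine Ex_congr fun S hS => ?_
      rw [hf (insert a S) (insert_subset_insert a hS), hf S (hS.trans (subset_insert _ _)),
        insert_inter_of_notMem hd.1]
    rw [e1, ih hd.2 (fun S hS => hf S (hS.trans (subset_insert _ _)))]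
    ring

lemma Ex_map {κ : Type*} [DecidableEq κ] (j : ι ↪ κ) (A : Finset ι) (p : ℝ) (f : Finset κ → ℝ) :
    Ex (A.map j) p f = Ex A p (fun S => f (S.map j)) := by
  induction A using Finset.induction_on generalizing f with
  | empty => simp [Ex_empty]
  | insert a A ha ih =>
    have ha' : j a ∉ A.map j := by simpa using ha
    rw [map_insert, Ex_insert ha', Ex_insert ha, ih, ih]
    congr 2
    refine Ex_congr fun S _ => ?_
    rw [map_insert]

/-- Russo's formula -/
lemma hasDerivAt_Ex (A : Finset ι) (f : Finset ι → ℝ) (p : ℝ) :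
    HasDerivAt (fun p => Ex A p f)
      (∑ a ∈ A, Ex A p (fun S => f (insert a S) - f (S.erase a))) p := by
  induction A using Finset.induction_on generalizing f with
  | empty =>
    simp only [Ex_empty, sum_empty]
    exact hasDerivAt_const p _
  | insert a A ha ih =>
    have h1 : (fun p => Ex (insert a A) p f) =
        fun p => (1 - p) * Ex A p f + p * Ex A p (fun S => f (insert a S)) := by
      funext p
      rw [Ex_insert ha]
    rw [h1]
    have h2 : HasDerivAt (fun p : ℝ => 1 - p) (-1) p := by
      simpa using (hasDerivAt_id p).const_sub 1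
    have h3 := (h2.mul (ih f)).add ((hasDerivAt_id p).mul (ih fun S => f (insert a S)))
    refine h3.congr_deriv ?_
    rw [sum_insert ha]
    have e1 : Ex (insert a A) p (fun S => f (insert a S) - f (S.erase a)) =
        Ex A p (fun S => f (insert a S)) - Ex A p f := by
      rw [Ex_insert ha, ← Ex_sub]
      have e2 : Ex A p (fun S => f (insert a S) - f (S.erase a)) =
          Ex A p (fun S => f (insert a S) - f S) :=
        Ex_congr fun S hS => by rw [erase_eq_of_notMem (fun h => ha (hS h))]
      have e3 : Ex A p (fun S => f (insert a (insert a S)) - f ((insert a S).erase a)) =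
          Ex A p (fun S => f (insert a S) - f S) :=
        Ex_congr fun S hS => by
          rw [insert_idem, erase_insert (fun h => ha (hS h))]
      rw [e2, e3]
      ring
    have e4 : ∀ b ∈ A, Ex (insert a A) p (fun S => f (insert b S) - f (S.erase b)) =
        (1 - p) * Ex A p (fun S => f (insert b S) - f (S.erase b)) +
        p * Ex A p (fun S => f (insert a (insert b S)) - f (insert a (S.erase b))) := by
      intro b hb
      rw [Ex_insert ha]
      congr 2
      refine Ex_congr fun S _ => ?_
      have hab : a ≠ b := fun h => ha (h ▸ hb)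
      rw [Finset.insert_comm b a, erase_insert_of_ne hab]
    rw [e1, sum_congr rfl e4, sum_add_distrib, ← mul_sum, ← mul_sum]
    simp only [id, Pi.mul_apply]
    ring

/-- bound for the variance of a Lipschitz function -/
lemma Ex_variance (A : Finset ι) {p : ℝ} (h0 : 0 ≤ p) (h1 : p ≤ 1) {f : Finset ι → ℝ}
    (hf : ∀ a ∈ A, ∀ S ⊆ A, |f (insert a S) - f S| ≤ 1) :
    Ex A p (fun S => f S ^ 2) - (Ex A p f) ^ 2 ≤ A.card * (p * (1 - p)) := by
  induction A using Finset.induction_on generalizing f with
  | empty => simp [Ex_empty]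
  | insert a A ha ih =>
    have hp1 : 0 ≤ 1 - p := by linarith
    set g : Finset ι → ℝ := fun S => (1 - p) * f S + p * f (insert a S) with hg
    have hgL : ∀ b ∈ A, ∀ S ⊆ A, |g (insert b S) - g S| ≤ 1 := by
      intro b hb S hS
      have k1 := hf b (mem_insert_of_mem hb) S (hS.trans (subset_insert a A))
      have k2 := hf b (mem_insert_of_mem hb) (insert a S) (insert_subset_insert a hS)
      have e : g (insert b S) - g S = (1 - p) * (f (insert b S) - f S) +
          p * (f (insert b (insert a S)) - f (insert a S)) := by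
        simp only [hg]
        rw [Finset.insert_comm a b]
        ring
      rw [e]
      calc |(1 - p) * (f (insert b S) - f S) + p * (f (insert b (insert a S)) - f (insert a S))|
          ≤ |(1 - p) * (f (insert b S) - f S)| +
            |p * (f (insert b (insert a S)) - f (insert a S))| := abs_add_le _ _
        _ ≤ (1 - p) * 1 + p * 1 := by
            rw [abs_mul, abs_mul, abs_of_nonneg hp1, abs_of_nonneg h0]
            exact add_le_add (mul_le_mul_of_nonneg_left k1 hp1) (mul_le_mul_of_nonneg_left k2 h0)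
        _ = 1 := by ring
    have i1 := ih hgL
    have e1 : Ex (insert a A) p f = Ex A p g := by
      rw [Ex_insert ha, hg, Ex_add, Ex_mul, Ex_mul]
    have e2 : Ex (insert a A) p (fun S => f S ^ 2) =
        Ex A p (fun S => g S ^ 2) + p * (1 - p) * Ex A p (fun S => (f (insert a S) - f S) ^ 2) := by
      rw [Ex_insert ha, ← Ex_mul, ← Ex_mul, ← Ex_mul, ← Ex_add, ← Ex_add]
      refine Ex_congr fun S _ => ?_
      simp only [hg]
      ring
    have e3 : Ex A p (fun S => (f (insert a S) - f S) ^ 2) ≤ 1 := by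
      refine Ex_le_of_le h0 h1 fun S hS => ?_
      rw [← sq_abs]
      have := hf a (mem_insert_self a A) S (hS.trans (subset_insert a A))
      have h3 := abs_nonneg (f (insert a S) - f S)
      nlinarith
    rw [e1, e2, card_insert_of_notMem ha]
    push_cast
    have h4 := mul_le_mul_of_nonneg_left e3 (mul_nonneg h0 hp1)
    linarith

/-- expected size -/
lemma Ex_card (A : Finset ι) (p : ℝ) : Ex A p (fun S => (S.card : ℝ)) = A.card * p := by
  induction A using Finset.induction_on with
  | empty => simp [Ex_empty]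
  | insert a A ha ih =>
    have e1 : Ex A p (fun S => ((insert a S).card : ℝ)) = Ex A p (fun S => (S.card : ℝ)) + 1 := by
      have h1 : (1 : ℝ) = Ex A p (fun _ => 1) := (Ex_const A p 1).symm
      have h2 := Ex_add A p (fun S => (S.card : ℝ)) (fun _ => 1)
      rw [Ex_const] at h2
      rw [← h2]
      refine Ex_congr fun S hS => ?_
      rw [card_insert_of_notMem (fun h => ha (hS h))]
      push_cast
      ring
    rw [Ex_insert ha, e1, ih, card_insert_of_notMem ha]
    push_cast
    ring

/-- continuity in `p` -/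
lemma continuous_Ex (A : Finset ι) (f : Finset ι → ℝ) : Continuous fun p => Ex A p f :=
  continuous_iff_continuousAt.2 fun p => (hasDerivAt_Ex A f p).continuousAt

/-- lower bound for the increase of the expectation -/
lemma Ex_increase {A : Finset ι} {f : Finset ι → ℝ} {a b c : ℝ} (hab : a ≤ b)
    (h : ∀ p ∈ Set.Icc a b, c ≤ ∑ i ∈ A, Ex A p (fun S => f (insert i S) - f (S.erase i))) :
    c * (b - a) ≤ Ex A b f - Ex A a f := by
  refine Convex.mul_sub_le_image_sub_of_le_deriv (convex_Icc a b)
    (continuous_Ex A f).continuousOn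
    (fun p _ => (hasDerivAt_Ex A f p).differentiableAt.differentiableWithinAt) ?_ a
    (Set.left_mem_Icc.2 hab) b (Set.right_mem_Icc.2 hab) hab
  intro p hp
  rw [(hasDerivAt_Ex A f p).deriv]
  exact h p (interior_subset hp)

section prob

open Classical in
/-- probability of an event -/
noncomputable def Pr (A : Finset ι) (p : ℝ) (P : Finset ι → Prop) : ℝ :=
  Ex A p (fun S => if P S then 1 else 0)

variable {A : Finset ι} {p : ℝ}

lemma Pr_mono (h0 : 0 ≤ p) (h1 : p ≤ 1) {P Q : Finset ι → Prop} (h : ∀ S ⊆ A, P S → Q S) :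
    Pr A p P ≤ Pr A p Q := by
  refine Ex_mono h0 h1 fun S hS => ?_
  by_cases hP : P S
  · rw [if_pos hP, if_pos (h S hS hP)]
  · rw [if_neg hP]
    split_ifs <;> norm_num

lemma Pr_nonneg (h0 : 0 ≤ p) (h1 : p ≤ 1) (P : Finset ι → Prop) : 0 ≤ Pr A p P :=
  Ex_nonneg h0 h1 fun S _ => by split_ifs <;> norm_num

lemma Pr_le_one (h0 : 0 ≤ p) (h1 : p ≤ 1) (P : Finset ι → Prop) : Pr A p P ≤ 1 :=
  Ex_le_of_le h0 h1 fun S _ => by split_ifs <;> norm_num

lemma Pr_not (P : Finset ι → Prop) : Pr A p (fun S => ¬ P S) = 1 - Pr A p P := by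
  classical
  unfold Pr
  have h1 := Ex_sub A p (fun _ => (1 : ℝ)) (fun S => if P S then (1 : ℝ) else 0)
  rw [Ex_const] at h1
  rw [← h1]
  refine Ex_congr fun S _ => ?_
  by_cases h : P S <;> simp [h]

lemma Pr_or_le (h0 : 0 ≤ p) (h1 : p ≤ 1) (P Q : Finset ι → Prop) :
    Pr A p (fun S => P S ∨ Q S) ≤ Pr A p P + Pr A p Q := by
  unfold Pr
  rw [← Ex_add]
  refine Ex_mono h0 h1 fun S _ => ?_
  by_cases h : P S <;> by_cases h' : Q S <;> simp [h, h']

lemma Pr_exists_le {κ : Type*} (h0 : 0 ≤ p) (h1 : p ≤ 1) (K : Finset κ)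
    (P : κ → Finset ι → Prop) :
    Pr A p (fun S => ∃ k ∈ K, P k S) ≤ ∑ k ∈ K, Pr A p (P k) := by
  unfold Pr
  rw [← Ex_sum]
  refine Ex_mono h0 h1 fun S _ => ?_
  split_ifs with h
  · obtain ⟨k, hk, hP⟩ := h
    classical
    have h2 := single_le_sum (f := fun k => if P k S then (1 : ℝ) else 0)
      (fun i _ => by split_ifs <;> norm_num) hk
    simp only [if_pos hP] at h2
    convert h2
  · exact sum_nonneg fun i _ => by split_ifs <;> norm_num

/-- Markov's inequality -/
lemma Pr_markov (h0 : 0 ≤ p) (h1 : p ≤ 1) {f : Finset ι → ℝ} (hf : ∀ S ⊆ A, 0 ≤ f S) {t : ℝ}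
    (ht : 0 < t) : Pr A p (fun S => t ≤ f S) ≤ Ex A p f / t := by
  rw [le_div_iff₀ ht, mul_comm]
  unfold Pr
  rw [← Ex_mul]
  refine Ex_mono h0 h1 fun S hS => ?_
  split_ifs with h
  · linarith
  · linarith [hf S hS]

/-- Chebyshev's inequality for Lipschitz functions -/
lemma Pr_chebyshev (h0 : 0 ≤ p) (h1 : p ≤ 1) {f : Finset ι → ℝ}
    (hf : ∀ a ∈ A, ∀ S ⊆ A, |f (insert a S) - f S| ≤ 1) {t : ℝ} (ht : 0 < t) :
    Pr A p (fun S => t ≤ |f S - Ex A p f|) ≤ A.card * p / t ^ 2 := by
  have h2 : Pr A p (fun S => t ≤ |f S - Ex A p f|) ≤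
      Pr A p (fun S => t ^ 2 ≤ (f S - Ex A p f) ^ 2) := by
    refine Pr_mono h0 h1 fun S _ h => ?_
    rw [← sq_abs (f S - Ex A p f)]
    exact pow_le_pow_left₀ ht.le h 2
  refine h2.trans ((Pr_markov h0 h1 (fun S _ => sq_nonneg _) (by positivity)).trans ?_)
  refine div_le_div_of_nonneg_right ?_ (by positivity)
  have h3 := Ex_variance A h0 h1 hf
  have h4 : Ex A p (fun S => (f S - Ex A p f) ^ 2) = Ex A p (fun S => f S ^ 2) - Ex A p f ^ 2 := by
    have e : Ex A p (fun S => (f S - Ex A p f) ^ 2) =
        Ex A p (fun S => f S ^ 2 - 2 * Ex A p f * f S + Ex A p f ^ 2) :=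
      Ex_congr fun S _ => by ring
    rw [e, Ex_add, Ex_sub, Ex_mul, Ex_const]
    ring
  rw [h4]
  refine h3.trans ?_
  have : p * (1 - p) ≤ p := by nlinarith
  exact mul_le_mul_of_nonneg_left this (by positivity)

end prob

/-- moment generating function of `|S ∩ B|` -/
lemma Ex_pow_card_inter (A B : Finset ι) (p c : ℝ) :
    Ex A p (fun S => c ^ (S ∩ B).card) = (1 - p + p * c) ^ (A ∩ B).card := by
  induction A using Finset.induction_on with
  | empty => simp [Ex_empty]
  | insert a A ha ih =>
    rw [Ex_insert ha]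
    by_cases hB : a ∈ B
    · have e1 : Ex A p (fun S => c ^ (insert a S ∩ B).card) =
          c * Ex A p (fun S => c ^ (S ∩ B).card) := by
        rw [← Ex_mul]
        refine Ex_congr fun S hS => ?_
        rw [insert_inter_of_mem hB, card_insert_of_notMem, pow_succ]
        · ring
        · rw [mem_inter]
          exact fun h => ha (hS h.1)
      rw [e1, ih, insert_inter_of_mem hB, card_insert_of_notMem, pow_succ]
      · ring
      · rw [mem_inter]
        exact fun h => ha h.1
    · have e1 : Ex A p (fun S => c ^ (insert a S ∩ B).card) =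
          Ex A p (fun S => c ^ (S ∩ B).card) :=
        Ex_congr fun S _ => by rw [insert_inter_of_notMem hB]
      rw [e1, ih, insert_inter_of_notMem hB]
      ring

/-- probability that a given set is contained in the random set -/
lemma Pr_subset {A T : Finset ι} (hT : T ⊆ A) (p : ℝ) : Pr A p (fun S => T ⊆ S) = p ^ T.card := by
  classical
  have h1 : Pr A p (fun S => T ⊆ S) = Ex T p (fun S => if T ⊆ S then 1 else 0) := by
    unfold Pr
    have := Ex_marginal hT p (f := fun S => if T ⊆ S then (1 : ℝ) else 0) fun S _ => by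
      have : T ⊆ S ↔ T ⊆ S ∩ T := by rw [subset_inter_iff]; simp
      simp only [this]
    convert this
  rw [h1]
  unfold Ex
  rw [sum_eq_single T]
  · simp
  · intro S hS hne
    rw [mem_powerset] at hS
    simp only
    rw [if_neg, mul_zero]
    exact fun h => hne (Subset.antisymm hS h)
  · intro h
    exact absurd (mem_powerset.2 Subset.rfl) h

end Pool.Agent.Helper98.Ham
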