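import Mathlib
import Pool.Agent.Helper98.HamEx
import Pool.Agent.Helper98.HamForest2

/-!
# The binomial random graph as a random set of edges
-/

set_option linter.unusedSectionVars false
set_option linter.unusedSimpArgs false

open Finset MeasureTheory

namespace Pool.Agent.Helper98.Ham

variable {V : Type*} [Fintype V] [DecidableEq V]

/-- all possible edges -/
noncomputable def EV (V : Type*) [Fintype V] [DecidableEq V] : Finset (Sym2 V) := by
  classical exact (⊤ : SimpleGraph V).edgeFinset

/-- the graph with a given set of edges -/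
def gr (S : Finset (Sym2 V)) : SimpleGraph V := SimpleGraph.fromEdgeSet (S : Set (Sym2 V))

lemma mem_EV {e : Sym2 V} : e ∈ EV V ↔ ¬ e.IsDiag := by
  classical
  unfold EV
  rw [SimpleGraph.mem_edgeFinset, SimpleGraph.edgeSet_top]
  simp

lemma mk_mem_EV {x y : V} : s(x, y) ∈ EV V ↔ x ≠ y := by
  rw [mem_EV, Sym2.mk_isDiag_iff]

lemma card_EV : (EV V).card = (Fintype.card V).choose 2 := by
  classical
  unfold EV
  rw [← SimpleGraph.card_edgeFinset_top_eq_card_choose_two]

lemma gr_adj {S : Finset (Sym2 V)} {x y : V} : (gr S).Adj x y ↔ s(x, y) ∈ S ∧ x ≠ y := by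
  unfold gr
  rw [SimpleGraph.fromEdgeSet_adj]
  simp

lemma gr_union (S T : Finset (Sym2 V)) : gr (S ∪ T) = gr S ⊔ gr T := by
  ext x y
  rw [gr_adj, SimpleGraph.sup_adj, gr_adj, gr_adj, mem_union]
  tauto

lemma gr_mono {S T : Finset (Sym2 V)} (h : S ⊆ T) : gr S ≤ gr T := by
  intro x y hxy
  rw [gr_adj] at hxy ⊢
  exact ⟨h hxy.1, hxy.2⟩

lemma gr_insert (S : Finset (Sym2 V)) (x y : V) : gr (insert s(x, y) S) = gr S ⊔ SimpleGraph.edge x y := by
  ext a b
  rw [gr_adj, SimpleGraph.sup_adj, gr_adj, SimpleGraph.edge_adj, mem_insert, Sym2.eq_iff]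
  tauto

/-- probability of a graph property of the binomial random graph -/
noncomputable def PrG (V : Type*) [Fintype V] [DecidableEq V] (p : ℝ)
    (P : SimpleGraph V → Prop) : ℝ :=
  Pr (EV V) p fun S => P (gr S)

lemma measurableSet_graph (s : Set (SimpleGraph V)) : MeasurableSet s := by
  have : ∀ G : SimpleGraph V, MeasurableSet ({G} : Set (SimpleGraph V)) := by
    intro G
    have e : ({G} : Set (SimpleGraph V)) = SimpleGraph.edgeSet ⁻¹' {G.edgeSet} := by
      ext G'
      simp
    rw [e]
    exact SimpleGraph.measurable_edgeSet (measurableSet_singleton _)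
  have hs : s = ⋃ G ∈ s, {G} := by simp
  rw [hs]
  exact MeasurableSet.biUnion (Set.to_countable s) fun G _ => this G

lemma binomialRandom_real_singleton (p : unitInterval) (G : SimpleGraph V) :
    (SimpleGraph.binomialRandom V p).real {G} = (p : ℝ) ^ G.edgeSet.ncard *
      (1 - (p : ℝ)) ^ ((EV V).card - G.edgeSet.ncard) := by
  rw [measureReal_def, SimpleGraph.binomialRandom_singleton, card_EV, Nat.card_eq_fintype_card,
    ENNReal.toReal_mul, ENNReal.toReal_pow, ENNReal.toReal_pow]
  simp [unitInterval.toNNReal]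
  rfl

lemma binomialRandom_real (p : unitInterval) (s : Set (SimpleGraph V)) :
    (SimpleGraph.binomialRandom V p).real s = PrG V p fun G => G ∈ s := by
  classical
  have h1 : s = ⋃ G ∈ (univ.filter fun G : SimpleGraph V => G ∈ s), {G} := by
    ext G
    simp
  conv_lhs => rw [h1]
  rw [measureReal_biUnion_finset (by
      intro a _ b _ hab
      simpa using hab) (fun G _ => measurableSet_graph _)]
  simp_rw [binomialRandom_real_singleton]
  unfold PrG Pr Ex
  have h2 : ∑ S ∈ (EV V).powerset, (p : ℝ) ^ S.card * (1 - (p : ℝ)) ^ ((EV V).card - S.card) *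
      (if gr S ∈ s then 1 else 0) = ∑ S ∈ (EV V).powerset.filter (fun S => gr S ∈ s),
      (p : ℝ) ^ S.card * (1 - (p : ℝ)) ^ ((EV V).card - S.card) := by
    rw [sum_filter]
    refine sum_congr rfl fun S _ => ?_
    split_ifs <;> simp
  have h3 : ∀ S ∈ (EV V).powerset, (gr S).edgeSet.ncard = S.card := by
    intro S hS
    rw [mem_powerset] at hS
    unfold gr
    rw [SimpleGraph.edgeSet_fromEdgeSet]
    have : (S : Set (Sym2 V)) \ Sym2.diagSet = S := by
      rw [sdiff_eq_left, Set.disjoint_left]
      intro e he hd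
      exact mem_EV.1 (hS (by exact_mod_cast he)) hd
    rw [this, Set.ncard_coe_finset]
  have h4 : ∑ G ∈ univ.filter (fun G : SimpleGraph V => G ∈ s), (p : ℝ) ^ G.edgeSet.ncard *
      (1 - (p : ℝ)) ^ ((EV V).card - G.edgeSet.ncard) =
      ∑ S ∈ (EV V).powerset.filter (fun S => gr S ∈ s),
      (p : ℝ) ^ S.card * (1 - (p : ℝ)) ^ ((EV V).card - S.card) := by
    symm
    refine sum_bij' (fun S _ => gr S) (fun G _ => G.edgeFinset) ?_ ?_ ?_ ?_ ?_
    · intro S hS
      rw [mem_filter] at hS ⊢
      exact ⟨mem_univ _, hS.2⟩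
    · intro G hG
      rw [mem_filter, mem_powerset] at *
      refine ⟨fun e he => ?_, ?_⟩
      · rw [SimpleGraph.mem_edgeFinset] at he
        exact mem_EV.2 (G.not_isDiag_of_mem_edgeSet he)
      · have : gr G.edgeFinset = G := by
          unfold gr
          simp
        rw [this]
        exact hG.2
    · intro S hS
      rw [mem_filter, mem_powerset] at hS
      ext e
      rw [SimpleGraph.mem_edgeFinset]
      induction e with
      | _ x y =>
        rw [SimpleGraph.mem_edgeSet, gr_adj]
        constructor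
        · exact fun h => h.1
        · exact fun h => ⟨h, mk_mem_EV.1 (hS.1 h)⟩
    · intro G hG
      unfold gr
      simp
    · intro S hS
      rw [mem_filter] at hS
      rw [h3 S hS.1]
  rw [h4, ← h2]

end Pool.Agent.Helper98.Ham
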