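import Mathlib
import Pool.Agent.Helper98.HamProb
import Pool.Agent.Helper98.HamCore

/-!
# Induced subgraphs of the binomial random graph
-/

set_option linter.unusedSectionVars false
set_option linter.unusedSimpArgs false

open Finset

namespace Pool.Agent.Helper98.Ham

variable {V V' : Type*} [Fintype V] [DecidableEq V] [Fintype V'] [DecidableEq V']

lemma map_EV_subset (φ : V' ↪ V) : (EV V').map φ.sym2Map ⊆ EV V := by
  intro e he
  rw [mem_map] at he
  obtain ⟨e', he', rfl⟩ := he
  induction e' with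
  | _ x y =>
    rw [mk_mem_EV] at he'
    change s(φ x, φ y) ∈ EV V
    rw [mk_mem_EV]
    exact fun h => he' (φ.injective h)

lemma mem_map_EV {φ : V' ↪ V} {x y : V'} : s(φ x, φ y) ∈ (EV V').map φ.sym2Map ↔ x ≠ y := by
  rw [mem_map]
  constructor
  · rintro ⟨e, he, h⟩
    have h' : φ.sym2Map e = φ.sym2Map s(x, y) := h
    have h2 := φ.sym2Map.injective h'
    rw [h2, mk_mem_EV] at he
    exact he
  · intro h
    exact ⟨s(x, y), mk_mem_EV.2 h, rfl⟩

lemma comap_gr_map (φ : V' ↪ V) (S : Finset (Sym2 V')) :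
    (gr (S.map φ.sym2Map)).comap φ = gr S := by
  ext x y
  rw [SimpleGraph.comap_adj, gr_adj, gr_adj, mem_map]
  constructor
  · rintro ⟨⟨e, he, h⟩, hne⟩
    have h' : φ.sym2Map e = φ.sym2Map s(x, y) := h
    have h2 := φ.sym2Map.injective h'
    rw [h2] at he
    exact ⟨he, fun h => hne (by rw [h])⟩
  · rintro ⟨h1, h2⟩
    exact ⟨⟨s(x, y), h1, rfl⟩, fun h => h2 (φ.injective h)⟩

/-- The graph induced on the range of an embedding is again a binomial random graph. -/
lemma Pr_comap (φ : V' ↪ V) (p : ℝ) (P : SimpleGraph V' → Prop) :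
    Pr (EV V) p (fun S => P ((gr S).comap φ)) = Pr (EV V') p (fun S => P (gr S)) := by
  classical
  unfold Pr
  rw [Ex_marginal (map_EV_subset φ) p, Ex_map]
  · refine Ex_congr fun S _ => ?_
    simp only [comap_gr_map]
  · intro S _
    have : (gr S).comap φ = (gr (S ∩ (EV V').map φ.sym2Map)).comap φ := by
      ext x y
      rw [SimpleGraph.comap_adj, SimpleGraph.comap_adj, gr_adj, gr_adj, mem_inter, mem_map_EV]
      constructor
      · rintro ⟨h1, h2⟩
        exact ⟨⟨h1, fun h => h2 (by rw [h])⟩, h2⟩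
      · rintro ⟨⟨h1, -⟩, h2⟩
        exact ⟨h1, h2⟩
    simp only [this]

/-- a linear forest in the induced graph makes the vertex good -/
lemma goodV_of_comap {G : SimpleGraph V} {A : Finset V} (φ : V' ↪ V) (hφ : ∀ x, φ x ∉ A) {m : ℕ}
    (h : m ≤ L (G.comap φ)) : GoodV G A m := by
  obtain ⟨F, h1, ⟨-, h2⟩, h3⟩ := hasLinearForest_of_le_L h
  refine ⟨F.map φ, ?_, ?_, ?_, ?_⟩
  · rw [SimpleGraph.map_le_iff_le_comap]
    exact h1
  · intro u
    by_cases hu : ∃ x, φ x = u
    · obtain ⟨x, rfl⟩ := hu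
      have : nb (F.map φ) (φ x) = (nb F x).map φ := by
        ext w
        rw [mem_nb, SimpleGraph.map_adj, mem_map]
        constructor
        · rintro ⟨a, b, hab, h4, h5⟩
          have := φ.injective h4
          subst this
          exact ⟨b, mem_nb.2 hab, h5⟩
        · rintro ⟨b, hb, h5⟩
          exact ⟨x, b, mem_nb.1 hb, rfl, h5⟩
      rw [this, card_map, ← ncard_neighborSet]
      exact h2 x
    · have : nb (F.map φ) u = ∅ := by
        rw [Finset.eq_empty_iff_forall_notMem]
        intro w hw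
        rw [mem_nb, SimpleGraph.map_adj] at hw
        obtain ⟨a, b, -, h4, -⟩ := hw
        exact hu ⟨a, h4⟩
      rw [this]
      simp
  · intro u hu
    rw [Finset.eq_empty_iff_forall_notMem]
    intro w hw
    rw [mem_nb, SimpleGraph.map_adj] at hw
    obtain ⟨a, b, -, h4, -⟩ := hw
    exact hφ a (h4 ▸ hu)
  · rw [SimpleGraph.edgeSet_map, Set.ncard_image_of_injective _ φ.sym2Map.injective, h3]

lemma exists_embedding (A : Finset V) {N : ℕ} (hN : N + A.card = Fintype.card V) :
    ∃ φ : Fin N ↪ V, ∀ x, φ x ∉ A := by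
  have hcard : (univ \ A).card = N := by
    rw [card_sdiff_of_subset (subset_univ A), card_univ]
    omega
  refine ⟨(Finset.equivFinOfCardEq hcard).symm.toEmbedding.trans
    (Function.Embedding.subtype _), fun x => ?_⟩
  have := ((Finset.equivFinOfCardEq hcard).symm x).2
  rw [mem_sdiff] at this
  exact this.2

/-- Few vertices are bad. -/
lemma few_bad {d N m : ℕ} (hN : N + d = Fintype.card V) {A : V → Finset V}
    (hA : ∀ v, (A v).card = d) {p : ℝ} (h0 : 0 ≤ p) (h1 : p ≤ 1) {t : ℝ} (ht : 0 < t) :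
    Pr (EV V) p (fun S => ¬ ∃ B : Finset V, (B.card : ℝ) ≤ t ∧
      ∀ v, v ∉ B → GoodV (gr S) (A v) m) ≤
    Fintype.card V * Pr (EV (Fin N)) p (fun S => ¬ m ≤ L (gr S)) / t := by
  classical
  set f : Finset (Sym2 V) → ℝ := fun S => ∑ v, if GoodV (gr S) (A v) m then (0 : ℝ) else 1 with hf
  have h2 : Pr (EV V) p (fun S => ¬ ∃ B : Finset V, (B.card : ℝ) ≤ t ∧
      ∀ v, v ∉ B → GoodV (gr S) (A v) m) ≤ Pr (EV V) p (fun S => t ≤ f S) := by
    refine Pr_mono h0 h1 fun S _ h => ?_
    by_contra hcon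
    push Not at hcon
    apply h
    refine ⟨univ.filter fun v => ¬ GoodV (gr S) (A v) m, ?_, ?_⟩
    · refine le_trans (le_of_eq ?_) hcon.le
      simp only [hf]
      rw [card_filter]
      push_cast
      refine sum_congr rfl fun v _ => ?_
      split_ifs <;> simp_all
    · intro v hv
      by_contra h3
      exact hv (mem_filter.2 ⟨mem_univ _, h3⟩)
  refine h2.trans ((Pr_markov h0 h1 (fun S _ => ?_) ht).trans ?_)
  · exact sum_nonneg fun v _ => by split_ifs <;> norm_num
  · refine div_le_div_of_nonneg_right ?_ ht.le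
    simp only [hf]
    rw [Ex_sum]
    have h3 : ∀ v : V, Ex (EV V) p (fun S => if GoodV (gr S) (A v) m then (0 : ℝ) else 1) ≤
        Pr (EV (Fin N)) p (fun S => ¬ m ≤ L (gr S)) := by
      intro v
      obtain ⟨φ, hφ⟩ := exists_embedding (A v) (N := N) (by rw [hA v]; exact hN)
      rw [← Pr_comap φ p (fun G => ¬ m ≤ L G)]
      unfold Pr
      refine Ex_mono h0 h1 fun S _ => ?_
      by_cases h4 : GoodV (gr S) (A v) m
      · rw [if_pos h4]; split_ifs <;> norm_num
      · rw [if_neg h4, if_pos]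
        exact fun h5 => h4 (goodV_of_comap φ hφ h5)
    calc ∑ v : V, Ex (EV V) p (fun S => if GoodV (gr S) (A v) m then (0 : ℝ) else 1)
        ≤ ∑ v : V, Pr (EV (Fin N)) p (fun S => ¬ m ≤ L (gr S)) := sum_le_sum fun v _ => h3 v
      _ = Fintype.card V * Pr (EV (Fin N)) p (fun S => ¬ m ≤ L (gr S)) := by
        rw [sum_const, nsmul_eq_mul, card_univ]

end Pool.Agent.Helper98.Ham
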