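import Mathlib
import Pool.Agent.Helper98.HamMarginal

/-!
# The complete bipartite graph and linear forests
-/

set_option linter.unusedSectionVars false
set_option linter.unusedSimpArgs false

open Finset

namespace Pool.Agent.Helper98.Ham

section lists

variable {V V' : Type*} {G G' : SimpleGraph V}

lemma lc_filter (P : V → Bool) (l : List V) :
    (∀ a, l.head? = some a → P a = false →
      lc G l + 1 ≤ lc G (l.filter P) + 2 * (l.filter fun a => !P a).length) ∧
    lc G l ≤ lc G (l.filter P) + 2 * (l.filter fun a => !P a).length := by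
  induction l with
  | nil => simp
  | cons a l ih =>
    obtain ⟨ih1, ih2⟩ := ih
    have hj := jn_le_one (G := G) (some a) l.head?
    cases hP : P a with
    | true =>
      have e1 : (a :: l).filter P = a :: l.filter P := by simp [hP]
      have e2 : (a :: l).filter (fun a => !P a) = l.filter fun a => !P a := by simp [hP]
      rw [e1, e2, lc_cons, lc_cons]
      constructor
      · intro b hb hPb
        simp only [List.head?_cons, Option.some.injEq] at hb
        subst hb
        rw [hP] at hPb
        cases hPb
      · rcases l with _ | ⟨b, l⟩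
        · simp
        · cases hPb : P b with
          | true =>
            have e3 : (b :: l).filter P = b :: l.filter P := by simp [hPb]
            have e4 : ((b :: l).filter P).head? = (b :: l).head? := by rw [e3]; rfl
            rw [e4]
            omega
          | false =>
            have := ih1 b rfl hPb
            omega
    | false =>
      have e1 : (a :: l).filter P = l.filter P := by simp [hP]
      have e2 : (a :: l).filter (fun a => !P a) = a :: l.filter fun a => !P a := by simp [hP]
      rw [e1, e2, lc_cons, List.length_cons]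
      exact ⟨fun _ _ _ => by omega, by omega⟩

lemma lc_le_of_adj {l : List V} (h : ∀ a ∈ l, ∀ b ∈ l, G.Adj a b → G'.Adj a b) :
    lc G l ≤ lc G' l := by
  induction l with
  | nil => exact le_rfl
  | cons a l ih =>
    rw [lc_cons, lc_cons]
    refine add_le_add ?_ (ih fun x hx y hy => h x (List.mem_cons_of_mem _ hx) y
      (List.mem_cons_of_mem _ hy))
    by_contra hcon
    push Not at hcon
    have h1 := jn_le_one (G := G) (some a) l.head?
    obtain ⟨a', b, e1, e2, e3⟩ := exists_of_jn (G := G) (x := some a) (y := l.head?) (by omega)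
    cases e1
    have hb : b ∈ l := List.mem_of_mem_head? (by rw [e2]; rfl)
    rw [e2, jn_some (h a (by simp) b (List.mem_cons_of_mem _ hb) e3), jn_some e3] at hcon
    omega

lemma lc_map (φ : V' ↪ V) (l : List V') : lc G (l.map φ) = lc (G.comap φ) l := by
  induction l with
  | nil => rfl
  | cons a l ih =>
    rw [List.map_cons, lc_cons, lc_cons, ih]
    congr 1
    rcases l with _ | ⟨b, l⟩
    · simp [jn_none_right]
    · simp only [List.map_cons, List.head?_cons]
      by_cases h : G.Adj (φ a) (φ b)
      · rw [jn_some h, jn_some (G := G.comap φ) (show (G.comap φ).Adj a b from h)]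
      · rw [jn_some_not h, jn_some_not (G := G.comap φ) (show ¬ (G.comap φ).Adj a b from h)]

lemma exists_list_map (φ : V' ↪ V) {l : List V} (h : ∀ x ∈ l, ∃ y, φ y = x) :
    ∃ l' : List V', l'.map φ = l := by
  induction l with
  | nil => exact ⟨[], rfl⟩
  | cons a l ih =>
    obtain ⟨y, hy⟩ := h a (by simp)
    obtain ⟨l', hl'⟩ := ih fun x hx => h x (List.mem_cons_of_mem _ hx)
    exact ⟨y :: l', by rw [List.map_cons, hy, hl']⟩

end lists

/-- the complete bipartite graph with parts `{x < d}` and `{x ≥ d}` -/
def Kbip (n d : ℕ) : SimpleGraph (Fin n) where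
  Adj x y := ((x : ℕ) < d ∧ d ≤ (y : ℕ)) ∨ ((y : ℕ) < d ∧ d ≤ (x : ℕ))
  symm := ⟨fun x y h => h.symm⟩
  loopless := ⟨fun x h => by omega⟩

lemma Kbip_minDegree {n d : ℕ} (h : 2 * d ≤ n) (v : Fin n) :
    d ≤ ((Kbip n d).neighborSet v).ncard := by
  rw [ncard_neighborSet]
  by_cases hv : (v : ℕ) < d
  · have h1 : (univ.filter fun y : Fin n => d ≤ (y : ℕ)) ⊆ nb (Kbip n d) v := by
      intro y hy
      rw [mem_filter] at hy
      rw [mem_nb]
      exact Or.inl ⟨hv, hy.2⟩
    refine le_trans ?_ (card_le_card h1)
    have h2 : (univ.filter fun y : Fin n => d ≤ (y : ℕ)).card +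
        (univ.filter fun y : Fin n => ¬ d ≤ (y : ℕ)).card = n := by
      rw [card_filter_add_card_filter_not, card_univ, Fintype.card_fin]
    have h3 : (univ.filter fun y : Fin n => ¬ d ≤ (y : ℕ)).card ≤ d := by
      have : (univ.filter fun y : Fin n => ¬ d ≤ (y : ℕ)).card =
          ((univ.filter fun y : Fin n => ¬ d ≤ (y : ℕ)).map Fin.valEmbedding).card :=
        (card_map _).symm
      rw [this]
      refine (card_le_card (t := range d) ?_).trans (by simp)
      intro x hx
      rw [mem_map] at hx
      obtain ⟨y, hy, rfl⟩ := hx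
      rw [mem_filter] at hy
      rw [mem_range]
      exact not_le.1 hy.2
    omega
  · have h1 : (range d).attachFin (fun x hx => by rw [mem_range] at hx; omega) ⊆
        nb (Kbip n d) v := by
      intro y hy
      rw [mem_attachFin, mem_range] at hy
      rw [mem_nb]
      exact Or.inr ⟨hy, by omega⟩
    have h2 := card_le_card h1
    rw [card_attachFin, card_range] at h2
    exact h2

/-- the vertices of the large part -/
def phi (n d : ℕ) : Fin (n - d) ↪ Fin n :=
  ⟨fun i => ⟨i + d, by omega⟩, fun i j h => by
    simp only [Fin.mk.injEq] at h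
    exact Fin.ext (by omega)⟩

/-- A Hamilton cycle of `K ∪ G` gives a linear forest with `n - 2 d` edges in the large part. -/
lemma lower {n d : ℕ} (hd : 0 < d) (hdn : 2 * d ≤ n) {G : SimpleGraph (Fin n)}
    (h : HamL (Kbip n d ⊔ G)) : n - 2 * d ≤ L (G.comap (phi n d)) := by
  obtain ⟨l, hl, hlc, hj⟩ := h
  have hlen := hl.length
  rw [Fintype.card_fin] at hlc hlen
  set K := Kbip n d ⊔ G with hK
  -- start in the small part
  obtain ⟨l', hl', hlc', hhead⟩ : ∃ l' : List (Fin n), IsOrd l' ∧ n - 1 ≤ lc K l' ∧
      ∃ a, l'.head? = some a ∧ (a : ℕ) < d := by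
    obtain ⟨z, hz⟩ : ∃ z : Fin n, (z : ℕ) < d := ⟨⟨0, by omega⟩, hd⟩
    obtain ⟨P, Q, e⟩ := List.append_of_mem (hl.2 z)
    rcases P with _ | ⟨p, P⟩
    · refine ⟨l, hl, hlc.ge, z, ?_, hz⟩
      rw [e]; rfl
    · refine ⟨(z :: Q) ++ (p :: P), ?_, ?_, z, rfl, hz⟩
      · rw [e] at hl
        exact hl.perm List.perm_append_comm
      · rw [lc_append]
        rw [e, lc_append] at hlc
        have h1 : l.getLast? = (z :: Q).getLast? := by
          rw [e, List.getLast?_append_of_ne_nil _ (by simp)]
        have h2 : l.head? = (p :: P).head? := by rw [e]; rfl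
        rw [h1, h2] at hj
        have h3 := jn_le_one (G := K) (p :: P).getLast? (z :: Q).head?
        rw [hj]
        omega
  obtain ⟨a, ha, had⟩ := hhead
  set Pr : Fin n → Bool := fun x => decide (d ≤ (x : ℕ)) with hPr
  have h1 := (lc_filter (G := K) Pr l').1 a ha (by simp [hPr, had])
  have h2 : (l'.filter fun a => !Pr a).length ≤ d := by
    have hnd : (l'.filter fun a => !Pr a).Nodup := hl'.1.filter _
    rw [← List.toFinset_card_of_nodup hnd, ← card_map Fin.valEmbedding]
    refine (card_le_card (t := range d) ?_).trans (by simp)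
    intro x hx
    rw [mem_map] at hx
    obtain ⟨y, hy, rfl⟩ := hx
    rw [List.mem_toFinset, List.mem_filter] at hy
    rw [mem_range]
    have := hy.2
    simpa [hPr] using this
  have h3 : n - 2 * d ≤ lc K (l'.filter Pr) := by omega
  have h4 : lc K (l'.filter Pr) ≤ lc G (l'.filter Pr) := by
    refine lc_le_of_adj fun x hx y hy hxy => ?_
    rw [List.mem_filter] at hx hy
    have hx' : d ≤ (x : ℕ) := by simpa [hPr] using hx.2
    have hy' : d ≤ (y : ℕ) := by simpa [hPr] using hy.2
    rw [hK, SimpleGraph.sup_adj] at hxy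
    rcases hxy with hxy | hxy
    · exfalso
      rcases hxy with hxy | hxy <;> omega
    · exact hxy
  obtain ⟨m, hm⟩ := exists_list_map (phi n d) (l := l'.filter Pr) (by
    intro x hx
    rw [List.mem_filter] at hx
    have hx' : d ≤ (x : ℕ) := by simpa [hPr] using hx.2
    refine ⟨⟨(x : ℕ) - d, by omega⟩, ?_⟩
    apply Fin.ext
    change (x : ℕ) - d + d = x
    omega)
  have h5 : lc G (l'.filter Pr) = lc (G.comap (phi n d)) m := by rw [← hm, lc_map]
  have hord : IsOrd m := by
    constructor
    · refine List.Nodup.of_map (phi n d) ?_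
      rw [hm]
      exact hl'.1.filter _
    · intro v
      have h5 : phi n d v ∈ l'.filter Pr := by
        rw [List.mem_filter]
        refine ⟨hl'.2 _, ?_⟩
        simp only [hPr, decide_eq_true_eq]
        change d ≤ (v : ℕ) + d
        omega
      rw [← hm, List.mem_map] at h5
      obtain ⟨w, hw, hwv⟩ := h5
      have := (phi n d).injective hwv
      rwa [← this]
  exact h3.trans (h4.trans (h5.le.trans (lc_le_L hord)))

end Pool.Agent.Helper98.Ham
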