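import Mathlib
import Pool.Agent.Helper98.HamProb

/-!
# Two properties of sparse random graphs
-/

set_option linter.unusedSectionVars false
set_option linter.unusedSimpArgs false

open Finset

namespace Pool.Agent.Helper98.Ham

variable {V : Type*} [Fintype V] [DecidableEq V]

/-! ### Sparsification preserves dense pairs -/

/-- the edges of `H` from `W` to the complement of `U` -/
noncomputable def edgesFrom (H : SimpleGraph V) (W U : Finset V) : Finset (Sym2 V) :=
  (W.sigma fun v => nb H v \ U).image fun z => s(z.1, z.2)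

lemma edgesFrom_subset (H : SimpleGraph V) (W U : Finset V) : edgesFrom H W U ⊆ EV V := by
  intro e he
  unfold edgesFrom at he
  rw [mem_image] at he
  obtain ⟨z, hz, rfl⟩ := he
  rw [mem_sigma, mem_sdiff, mem_nb] at hz
  exact mk_mem_EV.2 hz.2.1.ne

lemma sum_le_two_mul_edgesFrom (H : SimpleGraph V) (W U : Finset V) :
    ∑ v ∈ W, (nb H v \ U).card ≤ 2 * (edgesFrom H W U).card := by
  rw [← card_sigma]
  unfold edgesFrom
  refine card_le_mul_card_image _ 2 fun e _ => ?_
  induction e with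
  | _ x y =>
    refine (card_le_card (t := {⟨x, y⟩, ⟨y, x⟩}) ?_).trans card_le_two
    rintro ⟨a, b⟩ hz
    rw [mem_filter] at hz
    have := hz.2
    rw [Sym2.eq_iff] at this
    rw [mem_insert, mem_singleton]
    rcases this with ⟨h1, h2⟩ | ⟨h1, h2⟩
    · left; simp only at h1 h2; rw [h1, h2]
    · right; simp only at h1 h2; rw [h1, h2]

lemma card_inter_edgesFrom (H : SimpleGraph V) (W U : Finset V) (S : Finset (Sym2 V)) :
    (S ∩ edgesFrom H W U).card ≤ ∑ v ∈ W, (nb (H ⊓ gr S) v \ U).card := by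
  rw [← card_sigma]
  refine le_trans (card_le_card ?_) (card_image_le (f := fun z => s(z.1, z.2)))
  intro e he
  rw [mem_inter] at he
  obtain ⟨h1, h2⟩ := he
  unfold edgesFrom at h2
  rw [mem_image] at h2
  obtain ⟨⟨v, x⟩, hz, rfl⟩ := h2
  rw [mem_sigma, mem_sdiff, mem_nb] at hz
  rw [mem_image]
  refine ⟨⟨v, x⟩, ?_, rfl⟩
  rw [mem_sigma, mem_sdiff, mem_nb, SimpleGraph.inf_adj, gr_adj]
  exact ⟨hz.1, ⟨hz.2.1, h1, hz.2.1.ne⟩, hz.2.2⟩

/-- lower tail of the number of chosen elements -/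
lemma Pr_card_inter_le {ι : Type*} [DecidableEq ι] {A B : Finset ι} (hB : B ⊆ A) {q : ℝ}
    (h0 : 0 ≤ q) (h1 : q ≤ 1) (t : ℕ) :
    Pr A q (fun S => (S ∩ B).card ≤ t) ≤ 2 ^ t * Real.exp (-(q * B.card / 2)) := by
  have h2 : Pr A q (fun S => (S ∩ B).card ≤ t) ≤
      Ex A q (fun S => 2 ^ t * (1 / 2 : ℝ) ^ (S ∩ B).card) := by
    refine Ex_mono h0 h1 fun S _ => ?_
    split_ifs with h
    · rw [one_div, inv_pow, ← div_eq_mul_inv, one_le_div (by positivity)]
      exact pow_le_pow_right₀ (by norm_num) h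
    · positivity
  refine h2.trans ?_
  rw [Ex_mul, Ex_pow_card_inter, inter_eq_right.2 hB]
  refine mul_le_mul_of_nonneg_left ?_ (by positivity)
  have h3 : 1 - q + q * (1 / 2) = 1 - q / 2 := by ring
  rw [h3]
  have h4 : 1 - q / 2 ≤ Real.exp (-(q / 2)) := by
    have := Real.add_one_le_exp (-(q / 2))
    linarith
  calc (1 - q / 2) ^ B.card ≤ Real.exp (-(q / 2)) ^ B.card :=
        pow_le_pow_left₀ (by linarith) h4 _
    _ = Real.exp (-(q * B.card / 2)) := by
        rw [← Real.exp_nat_mul]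
        congr 1
        ring

/-- Dense pairs remain dense in the sparsified graph. -/
lemma sparsify (H : SimpleGraph V) {q γ : ℝ} (h0 : 0 ≤ q) (h1 : q ≤ 1) :
    Pr (EV V) q (fun S => ∃ W U : Finset V,
      γ * (Fintype.card V : ℝ) ^ 2 ≤ ((∑ v ∈ W, (nb H v \ U).card : ℕ) : ℝ) ∧
      ∑ v ∈ W, (nb (H ⊓ gr S) v \ U).card ≤ 6 * Fintype.card V) ≤
    2 ^ (8 * Fintype.card V) * Real.exp (-(q * γ * (Fintype.card V : ℝ) ^ 2 / 4)) := by
  classical
  set n := Fintype.card V with hn
  set K : Finset (Finset V × Finset V) := univ.filter fun z =>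
    γ * (n : ℝ) ^ 2 ≤ ((∑ v ∈ z.1, (nb H v \ z.2).card : ℕ) : ℝ) with hK
  have h2 : Pr (EV V) q (fun S => ∃ W U : Finset V,
      γ * (n : ℝ) ^ 2 ≤ ((∑ v ∈ W, (nb H v \ U).card : ℕ) : ℝ) ∧
      ∑ v ∈ W, (nb (H ⊓ gr S) v \ U).card ≤ 6 * n) ≤
      Pr (EV V) q (fun S => ∃ z ∈ K, (S ∩ edgesFrom H z.1 z.2).card ≤ 6 * n) := by
    refine Pr_mono h0 h1 fun S _ => ?_
    rintro ⟨W, U, h3, h4⟩
    refine ⟨(W, U), ?_, (card_inter_edgesFrom H W U S).trans h4⟩
    rw [hK, mem_filter]
    exact ⟨mem_univ _, h3⟩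
  refine h2.trans ((Pr_exists_le h0 h1 K _).trans ?_)
  have h3 : ∀ z ∈ K, Pr (EV V) q (fun S => (S ∩ edgesFrom H z.1 z.2).card ≤ 6 * n) ≤
      2 ^ (6 * n) * Real.exp (-(q * γ * (n : ℝ) ^ 2 / 4)) := by
    intro z hz
    refine (Pr_card_inter_le (edgesFrom_subset H z.1 z.2) h0 h1 (6 * n)).trans ?_
    refine mul_le_mul_of_nonneg_left ?_ (by positivity)
    rw [Real.exp_le_exp, neg_le_neg_iff]
    rw [hK, mem_filter] at hz
    have h4 : ((∑ v ∈ z.1, (nb H v \ z.2).card : ℕ) : ℝ) ≤ 2 * (edgesFrom H z.1 z.2).card := by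
      exact_mod_cast sum_le_two_mul_edgesFrom H z.1 z.2
    have h5 : γ * (n : ℝ) ^ 2 ≤ 2 * (edgesFrom H z.1 z.2).card := hz.2.trans h4
    have h6 := mul_le_mul_of_nonneg_left h5 h0
    linarith
  refine (sum_le_sum h3).trans ?_
  rw [sum_const, nsmul_eq_mul]
  have h4 : (K.card : ℝ) ≤ 2 ^ (2 * n) := by
    have h5 : K.card ≤ Fintype.card (Finset V × Finset V) := card_le_univ _
    rw [Fintype.card_prod, Fintype.card_finset, ← hn, ← pow_add] at h5
    have h6 : n + n = 2 * n := by ring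
    rw [h6] at h5
    exact_mod_cast h5
  have h5 : (2 : ℝ) ^ (8 * n) = 2 ^ (2 * n) * 2 ^ (6 * n) := by
    rw [← pow_add]; congr 1; ring
  rw [h5]
  calc (K.card : ℝ) * (2 ^ (6 * n) * Real.exp (-(q * γ * (n : ℝ) ^ 2 / 4)))
      ≤ 2 ^ (2 * n) * (2 ^ (6 * n) * Real.exp (-(q * γ * (n : ℝ) ^ 2 / 4))) :=
        mul_le_mul_of_nonneg_right h4 (by positivity)
    _ = 2 ^ (2 * n) * 2 ^ (6 * n) * Real.exp (-(q * γ * (n : ℝ) ^ 2 / 4)) := by ring

/-! ### Few short cycles -/

/-- edges of a closed sequence -/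
def cycE {k : ℕ} (w : Fin (k + 3) → V) : Finset (Sym2 V) := univ.image fun i => s(w i, w (i + 1))

lemma card_cycE {k : ℕ} {w : Fin (k + 3) → V} (hw : Function.Injective w) :
    (cycE w).card = k + 3 := by
  unfold cycE
  rw [card_image_of_injective, card_univ, Fintype.card_fin]
  intro i j hij
  simp only at hij
  rw [Sym2.eq_iff] at hij
  rcases hij with ⟨h1, -⟩ | ⟨h1, h2⟩
  · exact hw h1
  · exfalso
    have e1 := hw h1
    have e2 := hw h2
    rw [e1] at e2
    have e3 : j + 1 + 1 = j + 2 := by rw [add_assoc]; rfl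
    rw [e3] at e2
    have e4 : (2 : Fin (k + 3)) = 0 := by
      have : j + 2 = j + 0 := by rw [e2, add_zero]
      exact add_left_cancel this
    have e5 := congrArg Fin.val e4
    have e6 : ((2 : Fin (k + 3)) : ℕ) = 2 := by
      change 2 % (k + 3) = 2
      exact Nat.mod_eq_of_lt (by omega)
    rw [e6] at e5
    simp at e5

lemma cycE_subset_EV {k : ℕ} {w : Fin (k + 3) → V} (hw : Function.Injective w) :
    cycE w ⊆ EV V := by
  intro e he
  unfold cycE at he
  rw [mem_image] at he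
  obtain ⟨i, -, rfl⟩ := he
  rw [mk_mem_EV]
  intro h
  have h1 := hw h
  have h2 : (1 : Fin (k + 3)) = 0 := by
    have : i + 1 = i + 0 := by rw [← h1, add_zero]
    exact add_left_cancel this
  have h3 := congrArg Fin.val h2
  simp at h3

/-- closed sequences in the random graph -/
noncomputable def cycSet (S : Finset (Sym2 V)) (k : ℕ) : Finset (Fin (k + 3) → V) := by
  classical exact univ.filter fun w => Function.Injective w ∧ cycE w ⊆ S

/-- number of short cycles -/
noncomputable def numCyc (g : ℕ) (S : Finset (Sym2 V)) : ℝ := ∑ k ∈ range g, ((cycSet S k).card : ℝ)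

/-- one edge of each short cycle -/
noncomputable def cutSet (g : ℕ) (S : Finset (Sym2 V)) : Finset (Sym2 V) :=
  (range g).biUnion fun k => (cycSet S k).image fun w => s(w 0, w 1)

lemma card_cutSet_le (g : ℕ) (S : Finset (Sym2 V)) : ((cutSet g S).card : ℝ) ≤ numCyc g S := by
  unfold cutSet numCyc
  have h1 := card_biUnion_le (s := range g) (t := fun k => (cycSet S k).image fun w => s(w 0, w 1))
  have h2 : ∑ k ∈ range g, ((cycSet S k).image fun w => s(w 0, w 1)).card ≤
      ∑ k ∈ range g, (cycSet S k).card := sum_le_sum fun k _ => card_image_le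
  exact_mod_cast h1.trans h2

lemma noCyc_cut (g : ℕ) (S : Finset (Sym2 V)) :
    NoCyc ((gr S).deleteEdges (cutSet g S : Set (Sym2 V))) g := by
  intro l hc
  by_contra hcon
  push Not at hcon
  obtain ⟨h1, h2, h3, h4⟩ := hc
  obtain ⟨k, hk⟩ : ∃ k, l.length = k + 3 := ⟨l.length - 3, by omega⟩
  have hne : l ≠ [] := by rintro rfl; simp at h2
  set G := (gr S).deleteEdges (cutSet g S : Set (Sym2 V)) with hG
  set w : Fin (k + 3) → V := fun i => l[(i : ℕ)]'(by rw [hk]; exact i.2) with hw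
  have hinj : Function.Injective w := by
    intro i j hij
    have := (h1.getElem_inj_iff).1 hij
    exact Fin.ext this
  have hadj : ∀ i, G.Adj (w i) (w (i + 1)) := by
    intro i
    by_cases hi : (i : ℕ) + 1 < k + 3
    · have e : ((i + 1 : Fin (k + 3)) : ℕ) = i + 1 := Fin.val_add_one_of_lt' hi
      have h5 := (List.isChain_iff_getElem.1 h3) i (by rw [hk]; exact hi)
      simp only [hw, e]
      exact h5
    · have hi' : i = Fin.last (k + 2) := by
        apply Fin.ext
        rw [Fin.val_last]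
        omega
      subst hi'
      have e : (Fin.last (k + 2) + 1 : Fin (k + 3)) = 0 := Fin.last_add_one (k + 2)
      rw [e]
      rw [List.getLast?_eq_some_getLast hne, List.head?_eq_some_head hne] at h4
      have h5 := adj_of_jn h4
      have e1 : l.getLast hne = w (Fin.last (k + 2)) := by
        simp only [hw, List.getLast_eq_getElem, Fin.val_last]
        congr 1
        omega
      have e2 : l.head hne = w 0 := by
        simp [hw, List.head_eq_getElem]
      rw [← e1, ← e2]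
      exact h5
  have hsub : cycE w ⊆ S := by
    intro e he
    unfold cycE at he
    rw [mem_image] at he
    obtain ⟨i, -, rfl⟩ := he
    have := hadj i
    rw [hG, SimpleGraph.deleteEdges_adj, gr_adj] at this
    exact this.1.1
  have h0 := hadj 0
  rw [hG, SimpleGraph.deleteEdges_adj] at h0
  apply h0.2
  rw [mem_coe]
  unfold cutSet
  rw [mem_biUnion]
  refine ⟨k, mem_range.2 (by omega), ?_⟩
  rw [mem_image]
  refine ⟨w, ?_, by rw [zero_add]⟩
  unfold cycSet
  rw [mem_filter]
  exact ⟨mem_univ _, hinj, hsub⟩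

lemma Ex_numCyc_le (g : ℕ) {q : ℝ} (h0 : 0 ≤ q) (h1 : q ≤ 1) :
    Ex (EV V) q (numCyc g) ≤ ∑ k ∈ range g, ((Fintype.card V : ℝ) * q) ^ (k + 3) := by
  unfold numCyc
  rw [Ex_sum]
  refine sum_le_sum fun k _ => ?_
  classical
  have h2 : Ex (EV V) q (fun S => ((cycSet S k).card : ℝ)) ≤
      Ex (EV V) q (fun S => ∑ w ∈ univ.filter (fun w : Fin (k + 3) → V => Function.Injective w),
        if cycE w ⊆ S then (1 : ℝ) else 0) := by
    refine Ex_mono h0 h1 fun S _ => ?_
    rw [← Finset.sum_filter, sum_const, nsmul_eq_mul, mul_one, filter_filter]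
    unfold cycSet
    exact le_of_eq (by congr!)
  refine h2.trans ?_
  rw [Ex_sum]
  have h3 : ∀ w ∈ univ.filter (fun w : Fin (k + 3) → V => Function.Injective w),
      Ex (EV V) q (fun S => if cycE w ⊆ S then (1 : ℝ) else 0) = q ^ (k + 3) := by
    intro w hw
    rw [mem_filter] at hw
    have h4 := Pr_subset (cycE_subset_EV hw.2) q
    rw [card_cycE hw.2] at h4
    unfold Pr at h4
    rw [← h4]
    exact Ex_congr fun S _ => by congr
  rw [sum_congr rfl h3, sum_const, nsmul_eq_mul, mul_pow]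
  refine mul_le_mul_of_nonneg_right ?_ (by positivity)
  have h5 : (univ.filter (fun w : Fin (k + 3) → V => Function.Injective w)).card ≤
      Fintype.card (Fin (k + 3) → V) := card_le_univ _
  rw [Fintype.card_fun, Fintype.card_fin] at h5
  exact_mod_cast h5

/-- few short cycles -/
lemma few_cycles (g : ℕ) {q C : ℝ} (h0 : 0 ≤ q) (h1 : q ≤ 1)
    (hC : (Fintype.card V : ℝ) * q ≤ C) {t : ℝ} (ht : 0 < t) :
    Pr (EV V) q (fun S => t ≤ numCyc g S) ≤ (∑ k ∈ range g, C ^ (k + 3)) / t := by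
  refine (Pr_markov h0 h1 (fun S _ => ?_) ht).trans ?_
  · unfold numCyc
    exact sum_nonneg fun k _ => by positivity
  · refine div_le_div_of_nonneg_right ((Ex_numCyc_le g h0 h1).trans ?_) ht.le
    exact sum_le_sum fun k _ => pow_le_pow_left₀ (by positivity) hC _

end Pool.Agent.Helper98.Ham
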