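import Mathlib
import Pool.Agent.Helper98.HamProb

/-!
# Sprinkling
-/

set_option linter.unusedSectionVars false
set_option linter.unusedSimpArgs false

open Finset

namespace Pool.Agent.Helper98.Ham

variable {V : Type*} [Fintype V] [DecidableEq V]

open Classical in
/-- the potential -/
noncomputable def pot (Γ : SimpleGraph V) (S : Finset (Sym2 V)) : ℝ :=
  if HamL (Γ ⊔ gr S) then 0 else Real.exp (Fintype.card V - L (Γ ⊔ gr S))

lemma pot_nonneg (Γ : SimpleGraph V) (S : Finset (Sym2 V)) : 0 ≤ pot Γ S := by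
  unfold pot
  split_ifs
  · exact le_rfl
  · exact (Real.exp_pos _).le

lemma pot_anti (Γ : SimpleGraph V) {S T : Finset (Sym2 V)} (h : S ⊆ T) : pot Γ T ≤ pot Γ S := by
  have hle : Γ ⊔ gr S ≤ Γ ⊔ gr T := sup_le_sup_left (gr_mono h) _
  unfold pot
  split_ifs with h1 h2 h2
  · exact le_rfl
  · exact (Real.exp_pos _).le
  · exact absurd (h2.mono hle) h1
  · rw [Real.exp_le_exp]
    have : (L (Γ ⊔ gr S) : ℝ) ≤ L (Γ ⊔ gr T) := by exact_mod_cast L_mono hle
    linarith

lemma pot_booster (Γ : SimpleGraph V) {S : Finset (Sym2 V)} {x y : V}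
    (h : HamL (Γ ⊔ gr S ⊔ SimpleGraph.edge x y) ∨
      L (Γ ⊔ gr S) + 1 ≤ L (Γ ⊔ gr S ⊔ SimpleGraph.edge x y)) :
    pot Γ (insert s(x, y) S) ≤ pot Γ S / 2 := by
  have e : Γ ⊔ gr (insert s(x, y) S) = Γ ⊔ gr S ⊔ SimpleGraph.edge x y := by
    rw [gr_insert, sup_assoc]
  unfold pot
  rw [e]
  by_cases h1 : HamL (Γ ⊔ gr S)
  · rw [if_pos h1, if_pos (h1.mono le_sup_left)]
    simp
  · rw [if_neg h1]
    split_ifs with h2
    · positivity
    · rcases h with h | h
      · exact absurd h h2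
      · have h3 : (L (Γ ⊔ gr S) : ℝ) + 1 ≤ L (Γ ⊔ gr S ⊔ SimpleGraph.edge x y) := by
          exact_mod_cast h
        have h4 : Real.exp (Fintype.card V - L (Γ ⊔ gr S ⊔ SimpleGraph.edge x y)) ≤
            Real.exp ((Fintype.card V - L (Γ ⊔ gr S)) - 1) := by
          rw [Real.exp_le_exp]; linarith
        refine h4.trans ?_
        rw [Real.exp_sub]
        refine div_le_div_of_nonneg_left (Real.exp_pos _).le (by norm_num) ?_
        have := Real.add_one_le_exp (1 : ℝ)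
        linarith

lemma pot_russo (hn : 2 ≤ Fintype.card V) {H Γ : SimpleGraph V} (hΓ : H ≤ Γ) {d : ℕ}
    (hd : ∀ v, d ≤ (nb H v).card) {q : ℝ} (h0 : 0 ≤ q) (h1 : q ≤ 1) :
    ∑ a ∈ EV V, Ex (EV V) q (fun S => pot Γ (insert a S) - pot Γ (S.erase a)) ≤
      -((d : ℝ) ^ 2 / 4) * Ex (EV V) q (pot Γ) := by
  rw [← Ex_sum, ← Ex_mul]
  refine Ex_mono h0 h1 fun S _ => ?_
  obtain ⟨Z, hZ1, hZ2⟩ := exists_boosters (G := Γ ⊔ gr S) hn (d := d) (N := nb H)
    (fun v w hw => (le_sup_of_le_left hΓ : H ≤ Γ ⊔ gr S) (mem_nb.1 hw)) hd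
  set Bo := Z.image fun z => s(z.1, z.2) with hBo
  have hBoE : Bo ⊆ EV V := by
    intro e he
    rw [hBo, mem_image] at he
    obtain ⟨z, hz, rfl⟩ := he
    exact mk_mem_EV.2 (hZ2 z hz).1
  have hcard : d ^ 2 ≤ 2 * Bo.card := by
    refine hZ1.trans ?_
    rw [hBo]
    refine card_le_mul_card_image _ 2 fun e _ => ?_
    induction e with
    | _ x y =>
      refine (card_le_card (t := {(x, y), (y, x)}) ?_).trans card_le_two
      rintro ⟨a, b⟩ hz
      rw [mem_filter] at hz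
      have := hz.2
      rw [Sym2.eq_iff] at this
      rw [mem_insert, mem_singleton, Prod.mk.injEq, Prod.mk.injEq]
      exact this
  have hcard' : (d : ℝ) ^ 2 ≤ 2 * Bo.card := by exact_mod_cast hcard
  have h2 : ∀ a ∈ EV V, pot Γ (insert a S) - pot Γ (S.erase a) ≤ 0 := fun a _ =>
    sub_nonpos.2 (pot_anti Γ ((erase_subset a S).trans (subset_insert a S)))
  have h3 : ∑ a ∈ EV V, (pot Γ (insert a S) - pot Γ (S.erase a)) ≤
      ∑ a ∈ Bo, (pot Γ (insert a S) - pot Γ (S.erase a)) := by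
    have h4 := sum_le_sum_of_subset_of_nonneg (f := fun a =>
      -(pot Γ (insert a S) - pot Γ (S.erase a))) hBoE (fun a ha _ => by
        have := h2 a ha
        linarith)
    rw [sum_neg_distrib, sum_neg_distrib] at h4
    linarith
  have h5 : ∑ a ∈ Bo, (pot Γ (insert a S) - pot Γ (S.erase a)) ≤ ∑ a ∈ Bo, (-(pot Γ S / 2)) := by
    refine sum_le_sum fun a ha => ?_
    rw [hBo, mem_image] at ha
    obtain ⟨z, hz, rfl⟩ := ha
    have h6 := pot_booster Γ (hZ2 z hz).2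
    have h7 := pot_anti Γ (erase_subset s(z.1, z.2) S)
    linarith
  rw [sum_const, nsmul_eq_mul] at h5
  have h8 := pot_nonneg Γ S
  have h9 : (d : ℝ) ^ 2 * pot Γ S ≤ 2 * Bo.card * pot Γ S := mul_le_mul_of_nonneg_right hcard' h8
  linarith

/-- Sprinkling: the probability that the graph does not become Hamiltonian. -/
lemma sprinkle (hn : 2 ≤ Fintype.card V) {H Γ : SimpleGraph V} (hΓ : H ≤ Γ) {d : ℕ}
    (hd : ∀ v, d ≤ (nb H v).card) {q : ℝ} (h0 : 0 ≤ q) (h1 : q ≤ 1) :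
    Pr (EV V) q (fun S => ¬ HamL (Γ ⊔ gr S)) ≤
      Real.exp (Fintype.card V - L Γ - (d : ℝ) ^ 2 / 4 * q) := by
  have h2 : Pr (EV V) q (fun S => ¬ HamL (Γ ⊔ gr S)) ≤ Ex (EV V) q (pot Γ) := by
    refine Ex_mono h0 h1 fun S _ => ?_
    unfold pot
    by_cases h3 : HamL (Γ ⊔ gr S)
    · rw [if_neg (not_not.2 h3), if_pos h3]
    · rw [if_pos h3, if_neg h3]
      apply Real.one_le_exp
      have := L_le (Γ ⊔ gr S)
      have h5 : (L (Γ ⊔ gr S) : ℝ) ≤ Fintype.card V := by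
        exact_mod_cast this.trans (Nat.sub_le _ _)
      linarith
  refine h2.trans ?_
  set κ := (d : ℝ) ^ 2 / 4 with hκ
  -- `exp (κ q) * Ex q pot` is nonincreasing
  have hder : ∀ q, HasDerivAt (fun q => Real.exp (κ * q) * Ex (EV V) q (pot Γ))
      (Real.exp (κ * q) * κ * Ex (EV V) q (pot Γ) + Real.exp (κ * q) *
        ∑ a ∈ EV V, Ex (EV V) q (fun S => pot Γ (insert a S) - pot Γ (S.erase a))) q := by
    intro q
    have k1 : HasDerivAt (fun q : ℝ => Real.exp (κ * q)) (Real.exp (κ * q) * κ) q := by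
      have := (hasDerivAt_id q).const_mul κ
      simpa using this.exp
    exact k1.mul (hasDerivAt_Ex (EV V) (pot Γ) q)
  have hanti : AntitoneOn (fun q => Real.exp (κ * q) * Ex (EV V) q (pot Γ)) (Set.Icc 0 1) := by
    refine antitoneOn_of_deriv_nonpos (convex_Icc 0 1)
      (fun q _ => (hder q).continuousAt.continuousWithinAt)
      (fun q _ => (hder q).differentiableAt.differentiableWithinAt) ?_
    intro q hq
    rw [interior_Icc] at hq
    rw [(hder q).deriv]
    have h3 := pot_russo hn hΓ hd hq.1.le hq.2.le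
    have h4 := mul_le_mul_of_nonneg_left h3 (Real.exp_pos (κ * q)).le
    have h5 : Real.exp (κ * q) * (-((d : ℝ) ^ 2 / 4) * Ex (EV V) q (pot Γ)) =
        -(Real.exp (κ * q) * κ * Ex (EV V) q (pot Γ)) := by rw [hκ]; ring
    linarith
  have h3 := hanti (Set.left_mem_Icc.2 zero_le_one) ⟨h0, h1⟩ h0
  simp only [mul_zero, Real.exp_zero, one_mul] at h3
  have h4 : Ex (EV V) 0 (pot Γ) ≤ Real.exp (Fintype.card V - L Γ) := by
    refine Ex_le_of_le le_rfl zero_le_one fun S _ => ?_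
    refine (pot_anti Γ (empty_subset S)).trans ?_
    have e : Γ ⊔ gr (∅ : Finset (Sym2 V)) = Γ := by
      ext x y
      rw [SimpleGraph.sup_adj, gr_adj]
      simp
    unfold pot
    rw [e]
    split_ifs
    · exact (Real.exp_pos _).le
    · exact le_rfl
  have h5 : Real.exp (κ * q) * Ex (EV V) q (pot Γ) ≤ Real.exp (Fintype.card V - L Γ) := h3.trans h4
  rw [Real.exp_sub, le_div_iff₀ (Real.exp_pos _)]
  linarith

end Pool.Agent.Helper98.Ham
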