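import Mathlib
import Pool.Agent.Helper98.HamProb

/-!
# The sharp threshold for linear forests, quantitative version
-/

set_option linter.unusedSectionVars false
set_option linter.unusedSimpArgs false

open Finset

namespace Pool.Agent.Helper98.Ham

variable {V : Type*} [Fintype V] [DecidableEq V]

/-- size of the largest linear forest, as a function of the set of edges -/
noncomputable def ell (S : Finset (Sym2 V)) : ℝ := (L (gr S) : ℝ)

lemma ell_nonneg (S : Finset (Sym2 V)) : 0 ≤ ell S := by unfold ell; positivity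

lemma ell_mono {S T : Finset (Sym2 V)} (h : S ⊆ T) : ell S ≤ ell T := by
  unfold ell
  exact_mod_cast L_mono (gr_mono h)

lemma ell_le_card (S : Finset (Sym2 V)) : ell S ≤ Fintype.card V := by
  unfold ell
  exact_mod_cast (L_le (gr S)).trans (Nat.sub_le _ _)

lemma ell_insert_le (a : Sym2 V) (S : Finset (Sym2 V)) : ell (insert a S) ≤ ell S + 1 := by
  induction a with
  | _ x y =>
    unfold ell
    rw [gr_insert]
    exact_mod_cast L_sup_edge_le (gr S) x y

lemma ell_lipschitz : ∀ a ∈ EV V, ∀ S ⊆ EV V, |ell (insert a S) - ell S| ≤ 1 := by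
  intro a _ S _
  have h1 := ell_mono (subset_insert a S)
  have h2 := ell_insert_le a S
  rw [abs_of_nonneg (by linarith)]
  linarith

lemma ell_empty : ell (∅ : Finset (Sym2 V)) = 0 := by
  unfold ell
  obtain ⟨l, hl, hopt⟩ := exists_opt (gr (∅ : Finset (Sym2 V)))
  rw [← hopt]
  have : ∀ l : List V, lc (gr (∅ : Finset (Sym2 V))) l = 0 := by
    intro l
    induction l with
    | nil => rfl
    | cons a l ih =>
      rw [lc_cons, ih]
      have : jn (gr (∅ : Finset (Sym2 V))) (some a) l.head? = 0 := by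
        by_contra hne
        have h1 := jn_le_one (G := gr (∅ : Finset (Sym2 V))) (some a) l.head?
        obtain ⟨a, b, -, -, h⟩ := exists_of_jn (G := gr (∅ : Finset (Sym2 V)))
          (x := some a) (y := l.head?) (by omega)
        rw [gr_adj] at h
        simp at h
      rw [this]
  rw [this]
  simp

lemma ell_le_card_edges (S : Finset (Sym2 V)) : ell S ≤ S.card := by
  induction S using Finset.induction_on with
  | empty => rw [ell_empty]; simp
  | insert a S ha ih =>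
    have := ell_insert_le a S
    rw [card_insert_of_notMem ha]
    push_cast
    linarith

lemma ell_EV (h : 0 < Fintype.card V) : ell (EV V) = Fintype.card V - 1 := by
  unfold ell
  have h1 := L_le (gr (EV V))
  obtain ⟨l, hl⟩ := exists_isOrd V
  have hlen := hl.length
  have hne : l ≠ [] := by rintro rfl; simp at hlen; omega
  have hc : l.IsChain (gr (EV V)).Adj := by
    rw [List.isChain_iff_getElem]
    intro i hi
    rw [gr_adj]
    have : l[i] ≠ l[i + 1] := by
      intro h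
      have := (hl.1.getElem_inj_iff).1 h
      omega
    exact ⟨mk_mem_EV.2 this, this⟩
  have h2 := (isChain_iff_lc hne).1 hc
  have h3 := lc_le_L (G := gr (EV V)) hl
  have h4 : L (gr (EV V)) = Fintype.card V - 1 := by omega
  rw [h4, Nat.cast_sub (by omega)]
  simp

/-- The mean increases quickly as long as `ell` is small. -/
lemma russo_lower {δ : ℝ} (hδN : 2 ≤ δ * Fintype.card V) {p : ℝ} (h0 : 0 ≤ p) (h1 : p ≤ 1) :
    δ ^ 2 * (Fintype.card V : ℝ) ^ 2 / 4 *
      Pr (EV V) p (fun S => ell S ≤ (1 - δ) * Fintype.card V) ≤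
      ∑ a ∈ EV V, Ex (EV V) p (fun S => ell (insert a S) - ell (S.erase a)) := by
  rw [← Ex_sum]
  unfold Pr
  rw [← Ex_mul]
  refine Ex_mono h0 h1 fun S _ => ?_
  have hnn : ∀ a ∈ EV V, 0 ≤ ell (insert a S) - ell (S.erase a) := fun a _ =>
    sub_nonneg.2 (ell_mono ((erase_subset a S).trans (subset_insert a S)))
  split_ifs with hS
  · obtain ⟨X, hX, hXb⟩ := exists_ends_finset (gr S)
    set Bo := X.offDiag.image Sym2.mk.uncurry with hBo
    have hBoE : Bo ⊆ EV V := by
      intro e he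
      rw [hBo, mem_image] at he
      obtain ⟨⟨x, y⟩, hxy, rfl⟩ := he
      rw [mem_offDiag] at hxy
      exact mk_mem_EV.2 hxy.2.2
    have hcard : (Bo.card : ℝ) = X.card * (X.card - 1) / 2 := by
      have : Bo.card = X.card.choose 2 := by
        rw [hBo]
        exact Sym2.card_image_offDiag X
      rw [this, Nat.cast_choose_two]
    have hbig : δ * Fintype.card V ≤ X.card := by
      have h2 : (X.card : ℝ) + L (gr S) = Fintype.card V := by exact_mod_cast hX
      unfold ell at hS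
      linarith
    have h3 : (Bo.card : ℝ) ≤ ∑ a ∈ EV V, (ell (insert a S) - ell (S.erase a)) := by
      calc (Bo.card : ℝ) = ∑ a ∈ Bo, (1 : ℝ) := by simp
        _ ≤ ∑ a ∈ Bo, (ell (insert a S) - ell (S.erase a)) := by
          refine sum_le_sum fun a ha => ?_
          rw [hBo, mem_image] at ha
          obtain ⟨⟨x, y⟩, hxy, rfl⟩ := ha
          rw [mem_offDiag] at hxy
          have h4 := hXb x hxy.1 y hxy.2.1 hxy.2.2
          have h5 : ell S + 1 ≤ ell (insert s(x, y) S) := by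
            unfold ell
            rw [gr_insert]
            exact_mod_cast h4
          have h6 := ell_mono (erase_subset s(x, y) S)
          have e : Function.uncurry Sym2.mk (x, y) = s(x, y) := rfl
          rw [e]
          linarith
        _ ≤ ∑ a ∈ EV V, (ell (insert a S) - ell (S.erase a)) :=
          sum_le_sum_of_subset_of_nonneg hBoE fun a ha _ => hnn a ha
    have h7 : δ ^ 2 * (Fintype.card V : ℝ) ^ 2 / 4 ≤ Bo.card := by
      rw [hcard]
      have h8 : (δ * Fintype.card V) * (δ * Fintype.card V) ≤ X.card * X.card :=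
        mul_le_mul hbig hbig (by linarith) (by positivity)
      nlinarith
    linarith
  · rw [mul_zero]
    exact sum_nonneg hnn

/-- the mean -/
noncomputable def mean (V : Type*) [Fintype V] [DecidableEq V] (p : ℝ) : ℝ := Ex (EV V) p ell

lemma mean_mono {p q : ℝ} (h0 : 0 ≤ p) (hpq : p ≤ q) (h1 : q ≤ 1) : mean V p ≤ mean V q :=
  Ex_mono_p h0 hpq h1 fun _ _ hST _ => ell_mono hST

lemma mean_nonneg {p : ℝ} (h0 : 0 ≤ p) (h1 : p ≤ 1) : 0 ≤ mean V p :=
  Ex_nonneg h0 h1 fun S _ => ell_nonneg S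

lemma mean_le {p : ℝ} (h0 : 0 ≤ p) (h1 : p ≤ 1) : mean V p ≤ Fintype.card V :=
  Ex_le_of_le h0 h1 fun S _ => ell_le_card S

lemma card_EV_le : ((EV V).card : ℝ) ≤ (Fintype.card V : ℝ) ^ 2 / 2 := by
  rw [card_EV, Nat.cast_choose_two]
  have : (0 : ℝ) ≤ Fintype.card V := by positivity
  nlinarith

lemma mean_le_mul {p : ℝ} (h0 : 0 ≤ p) (h1 : p ≤ 1) :
    mean V p ≤ (Fintype.card V : ℝ) ^ 2 / 2 * p := by
  have h2 : mean V p ≤ Ex (EV V) p (fun S => (S.card : ℝ)) :=
    Ex_mono h0 h1 fun S _ => ell_le_card_edges S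
  rw [Ex_card] at h2
  exact h2.trans (mul_le_mul_of_nonneg_right card_EV_le h0)

/-- concentration -/
lemma ell_conc {p : ℝ} (h0 : 0 ≤ p) (h1 : p ≤ 1) {t : ℝ} (ht : 0 < t) :
    Pr (EV V) p (fun S => t ≤ |ell S - mean V p|) ≤ (Fintype.card V : ℝ) ^ 2 / 2 * p / t ^ 2 := by
  refine (Pr_chebyshev h0 h1 ell_lipschitz ht).trans ?_
  exact div_le_div_of_nonneg_right (mul_le_mul_of_nonneg_right card_EV_le h0) (by positivity)

/-- The median is of order at most `1 / N`. -/
lemma median_upper {δ p₀ : ℝ} {m : ℕ} (hN : 0 < Fintype.card V)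
    (hδ : 0 < δ) (hδN : 2 ≤ δ * Fintype.card V)
    (hmN : (m : ℝ) ≤ (1 - 3 * δ) * Fintype.card V)
    (hp0 : 0 ≤ p₀) (hp01 : p₀ ≤ 1)
    (hmed : Pr (EV V) p₀ (fun S => (m : ℝ) ≤ ell S) = 1 / 2) :
    p₀ ≤ 8 / (δ ^ 2 * Fintype.card V) := by
  set N := (Fintype.card V : ℝ) with hNdef
  have hN' : 0 < N := by rw [hNdef]; exact_mod_cast hN
  -- the derivative is large up to `p₀`
  have hder : ∀ p ∈ Set.Icc 0 p₀, δ ^ 2 * N ^ 2 / 8 ≤
      ∑ a ∈ EV V, Ex (EV V) p (fun S => ell (insert a S) - ell (S.erase a)) := by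
    intro p hp
    have hp' : p ≤ 1 := hp.2.trans hp01
    have h1 : Pr (EV V) p (fun S => (m : ℝ) ≤ ell S) ≤ 1 / 2 := by
      rw [← hmed]
      refine Ex_mono_p hp.1 hp.2 hp01 fun S T hST _ => ?_
      by_cases h : (m : ℝ) ≤ ell S
      · rw [if_pos h, if_pos (h.trans (ell_mono hST))]
      · rw [if_neg h]; split_ifs <;> norm_num
    have h2 : 1 / 2 ≤ Pr (EV V) p (fun S => ell S ≤ (1 - δ) * N) := by
      have h3 : Pr (EV V) p (fun S => ¬ (m : ℝ) ≤ ell S) ≤
          Pr (EV V) p (fun S => ell S ≤ (1 - δ) * N) := by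
        refine Pr_mono hp.1 hp' fun S _ h => ?_
        push Not at h
        nlinarith
      rw [Pr_not] at h3
      linarith
    have h3 := russo_lower (V := V) hδN hp.1 hp'
    have h4 : 0 ≤ δ ^ 2 * N ^ 2 / 4 := by positivity
    have h5 := mul_le_mul_of_nonneg_left h2 h4
    linarith
  have h1 : δ ^ 2 * N ^ 2 / 8 * (p₀ - 0) ≤ mean V p₀ - mean V 0 :=
    Ex_increase hp0 fun q hq => hder q hq
  have h2 := mean_le (V := V) hp0 hp01
  have h3 := mean_nonneg (V := V) (p := 0) le_rfl zero_le_one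
  rw [le_div_iff₀ (by positivity)]
  have h4 : δ ^ 2 * N ^ 2 / 8 * p₀ ≤ N := by rw [sub_zero] at h1; linarith
  have h5 : N * (δ ^ 2 * N * p₀ / 8) ≤ N * 1 := by
    have : N * (δ ^ 2 * N * p₀ / 8) = δ ^ 2 * N ^ 2 / 8 * p₀ := by ring
    linarith
  have h6 := le_of_mul_le_mul_left h5 hN'
  linarith

/-- The quantitative threshold. -/
lemma threshold {δ η ε p₀ : ℝ} {m : ℕ} (hN : 0 < Fintype.card V)
    (hδ : 0 < δ) (hη : 0 < η) (hηδ : η ≤ δ) (hε : 0 < ε) (hε1 : ε ≤ 1)
    (hδN : 2 ≤ δ * Fintype.card V) (hm : 0 < m) (hmN : (m : ℝ) ≤ (1 - 3 * δ) * Fintype.card V)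
    (hηε : 2 * η * Fintype.card V ≤ ε * δ ^ 2 * m / 8)
    (hlarge : 8 / (δ ^ 2 * η ^ 2 * Fintype.card V) < 1 / 2)
    (hp0 : 0 ≤ p₀) (hp1 : (1 + ε) * p₀ ≤ 1)
    (hmed : Pr (EV V) p₀ (fun S => (m : ℝ) ≤ ell S) = 1 / 2) :
    (m : ℝ) / (Fintype.card V : ℝ) ^ 2 ≤ p₀ ∧ p₀ ≤ 8 / (δ ^ 2 * Fintype.card V) ∧
    Pr (EV V) ((1 - ε) * p₀) (fun S => (m : ℝ) ≤ ell S) ≤
      8 / (δ ^ 2 * η ^ 2 * Fintype.card V) ∧
    Pr (EV V) ((1 + ε) * p₀) (fun S => ¬ (m : ℝ) ≤ ell S) ≤
      8 / (δ ^ 2 * η ^ 2 * Fintype.card V) := by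
  set N := (Fintype.card V : ℝ) with hNdef
  have hN' : 0 < N := by rw [hNdef]; exact_mod_cast hN
  have hm' : (0 : ℝ) < m := by exact_mod_cast hm
  have hp01 : p₀ ≤ 1 := by nlinarith
  -- the derivative is large up to `p₀`
  have hder : ∀ p ∈ Set.Icc 0 p₀, δ ^ 2 * N ^ 2 / 8 ≤
      ∑ a ∈ EV V, Ex (EV V) p (fun S => ell (insert a S) - ell (S.erase a)) := by
    intro p hp
    have hp' : p ≤ 1 := hp.2.trans hp01
    have h1 : Pr (EV V) p (fun S => (m : ℝ) ≤ ell S) ≤ 1 / 2 := by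
      rw [← hmed]
      refine Ex_mono_p hp.1 hp.2 hp01 fun S T hST _ => ?_
      by_cases h : (m : ℝ) ≤ ell S
      · rw [if_pos h, if_pos (h.trans (ell_mono hST))]
      · rw [if_neg h]; split_ifs <;> norm_num
    have h2 : 1 / 2 ≤ Pr (EV V) p (fun S => ell S ≤ (1 - δ) * N) := by
      have h3 : Pr (EV V) p (fun S => ¬ (m : ℝ) ≤ ell S) ≤
          Pr (EV V) p (fun S => ell S ≤ (1 - δ) * N) := by
        refine Pr_mono hp.1 hp' fun S _ h => ?_
        push Not at h
        nlinarith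
      rw [Pr_not] at h3
      linarith
    have h3 := russo_lower (V := V) hδN hp.1 hp'
    have h4 : 0 ≤ δ ^ 2 * N ^ 2 / 4 := by positivity
    have h5 := mul_le_mul_of_nonneg_left h2 h4
    linarith
  have hinc : ∀ p ∈ Set.Icc 0 p₀, δ ^ 2 * N ^ 2 / 8 * (p₀ - p) ≤ mean V p₀ - mean V p := by
    intro p hp
    exact Ex_increase hp.2 fun q hq => hder q ⟨hp.1.trans hq.1, hq.2⟩
  -- upper bound for `p₀`
  have hup : p₀ ≤ 8 / (δ ^ 2 * N) := by
    have h1 := hinc 0 ⟨le_rfl, hp0⟩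
    have h2 := mean_le (V := V) hp0 hp01
    have h3 := mean_nonneg (V := V) (p := 0) le_rfl zero_le_one
    rw [le_div_iff₀ (by positivity)]
    have h4 : δ ^ 2 * N ^ 2 / 8 * p₀ ≤ N := by rw [sub_zero] at h1; linarith
    have h5 : N * (δ ^ 2 * N * p₀ / 8) ≤ N * 1 := by
      have : N * (δ ^ 2 * N * p₀ / 8) = δ ^ 2 * N ^ 2 / 8 * p₀ := by ring
      linarith
    have h6 := le_of_mul_le_mul_left h5 hN'
    linarith
  -- lower bound for `p₀`
  have hlow : (m : ℝ) / N ^ 2 ≤ p₀ := by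
    have h1 := Pr_markov (A := EV V) hp0 hp01 (fun S _ => ell_nonneg S) hm'
    rw [hmed] at h1
    have h2 := mean_le_mul (V := V) hp0 hp01
    have h3 : Ex (EV V) p₀ ell = mean V p₀ := rfl
    rw [h3, le_div_iff₀ hm'] at h1
    rw [div_le_iff₀ (by positivity)]
    rw [← hNdef] at h2
    linarith
  -- concentration up to `2 p₀`
  have hconc : ∀ p, 0 ≤ p → p ≤ 1 → p ≤ 2 * p₀ →
      Pr (EV V) p (fun S => η * N ≤ |ell S - mean V p|) ≤ 8 / (δ ^ 2 * η ^ 2 * N) := by
    intro p h0 h1 h2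
    refine (ell_conc h0 h1 (by positivity)).trans ?_
    rw [div_le_div_iff₀ (by positivity) (by positivity)]
    rw [le_div_iff₀ (by positivity)] at hup
    have h3 : p * (δ ^ 2 * N) ≤ 16 := by
      have : p * (δ ^ 2 * N) ≤ 2 * p₀ * (δ ^ 2 * N) := mul_le_mul_of_nonneg_right h2 (by positivity)
      linarith
    rw [← hNdef]
    have h4 : N ^ 2 / 2 * p * (δ ^ 2 * η ^ 2 * N) = (p * (δ ^ 2 * N)) * (N ^ 2 * η ^ 2 / 2) := by
      ring
    have h5 : (p * (δ ^ 2 * N)) * (N ^ 2 * η ^ 2 / 2) ≤ 16 * (N ^ 2 * η ^ 2 / 2) :=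
      mul_le_mul_of_nonneg_right h3 (by positivity)
    rw [h4]
    linarith
  have hηN : 0 < η * N := by positivity
  -- the mean at `p₀`
  have hmed_up : mean V p₀ ≤ m + η * N := by
    by_contra hcon
    push Not at hcon
    have h1 : Pr (EV V) p₀ (fun S => ¬ (m : ℝ) ≤ ell S) ≤
        Pr (EV V) p₀ (fun S => η * N ≤ |ell S - mean V p₀|) := by
      refine Pr_mono hp0 hp01 fun S _ h => ?_
      push Not at h
      rw [abs_sub_comm]
      exact le_trans (by linarith) (le_abs_self _)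
    have h2 := hconc p₀ hp0 hp01 (by linarith)
    rw [Pr_not, hmed] at h1
    linarith
  have hmed_low : m - η * N ≤ mean V p₀ := by
    by_contra hcon
    push Not at hcon
    have h1 : Pr (EV V) p₀ (fun S => (m : ℝ) ≤ ell S) ≤
        Pr (EV V) p₀ (fun S => η * N ≤ |ell S - mean V p₀|) := by
      refine Pr_mono hp0 hp01 fun S _ h => ?_
      exact le_trans (by linarith) (le_abs_self _)
    have h2 := hconc p₀ hp0 hp01 (by linarith)
    rw [hmed] at h1
    linarith
  have hgain : 2 * η * N ≤ δ ^ 2 * N ^ 2 / 8 * (ε * p₀) := by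
    have h1 : δ ^ 2 * N ^ 2 / 8 * (ε * (m / N ^ 2)) ≤ δ ^ 2 * N ^ 2 / 8 * (ε * p₀) :=
      mul_le_mul_of_nonneg_left (mul_le_mul_of_nonneg_left hlow hε.le) (by positivity)
    have h2 : δ ^ 2 * N ^ 2 / 8 * (ε * (m / N ^ 2)) = ε * δ ^ 2 * m / 8 := by
      field_simp
    linarith
  refine ⟨hlow, hup, ?_, ?_⟩
  · -- below the threshold
    have hq0 : 0 ≤ (1 - ε) * p₀ := mul_nonneg (by linarith) hp0
    have hq1 : (1 - ε) * p₀ ≤ p₀ := by nlinarith
    have h1 := hinc ((1 - ε) * p₀) ⟨hq0, hq1⟩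
    have h2 : p₀ - (1 - ε) * p₀ = ε * p₀ := by ring
    rw [h2] at h1
    refine le_trans ?_ (hconc _ hq0 (hq1.trans hp01) (by linarith))
    refine Pr_mono hq0 (hq1.trans hp01) fun S _ h => ?_
    exact le_trans (by linarith) (le_abs_self _)
  · -- above the threshold
    have hq0 : 0 ≤ (1 + ε) * p₀ := by positivity
    have hq1 : p₀ ≤ (1 + ε) * p₀ := by nlinarith
    have hq2 : (1 + ε) * p₀ ≤ 2 * p₀ := by nlinarith
    have hbig : m + η * N ≤ mean V ((1 + ε) * p₀) := by
      by_contra hcon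
      push Not at hcon
      have h1 : δ ^ 2 * N ^ 2 / 8 * ((1 + ε) * p₀ - p₀) ≤ mean V ((1 + ε) * p₀) - mean V p₀ := by
        refine Ex_increase hq1 fun p hp => ?_
        have hpp0 : 0 ≤ p := hp0.trans hp.1
        have hpp1 : p ≤ 1 := hp.2.trans hp1
        have h2 := mean_mono (V := V) hpp0 hp.2 hp1
        have h3 : Pr (EV V) p (fun S => ¬ ell S ≤ (1 - δ) * N) ≤
            Pr (EV V) p (fun S => η * N ≤ |ell S - mean V p|) := by
          refine Pr_mono hpp0 hpp1 fun S _ h => ?_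
          push Not at h
          refine le_trans ?_ (le_abs_self _)
          have : η * N ≤ δ * N := mul_le_mul_of_nonneg_right hηδ hN'.le
          nlinarith
        have h4 := hconc p hpp0 hpp1 (hp.2.trans hq2)
        rw [Pr_not] at h3
        have h5 : 1 / 2 ≤ Pr (EV V) p (fun S => ell S ≤ (1 - δ) * N) := by linarith
        have h6 := russo_lower (V := V) hδN hpp0 hpp1
        have h7 : 0 ≤ δ ^ 2 * N ^ 2 / 4 := by positivity
        have h8 := mul_le_mul_of_nonneg_left h5 h7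
        linarith
      have h2 : (1 + ε) * p₀ - p₀ = ε * p₀ := by ring
      rw [h2] at h1
      linarith
    refine le_trans ?_ (hconc _ hq0 hp1 hq2)
    refine Pr_mono hq0 hp1 fun S _ h => ?_
    push Not at h
    rw [abs_sub_comm]
    exact le_trans (by linarith) (le_abs_self _)

end Pool.Agent.Helper98.Ham
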