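import Mathlib
import Pool.Agent.Helper98.HamMarginal
import Pool.Agent.Helper98.HamSparse
import Pool.Agent.Helper98.HamSprinkle
import Pool.Agent.Helper98.HamThreshold

/-!
# The upper bound for a fixed number of vertices
-/

set_option linter.unusedSectionVars false
set_option linter.unusedSimpArgs false

open Finset

namespace Pool.Agent.Helper98.Ham

section general

variable {ι : Type*} [DecidableEq ι] {A : Finset ι}

open Classical in
/-- indicator of a proposition -/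
noncomputable def ind (P : Prop) : ℝ := if P then 1 else 0

lemma ind_of {P : Prop} (h : P) : ind P = 1 := if_pos h

lemma ind_of_not {P : Prop} (h : ¬ P) : ind P = 0 := if_neg h

lemma ind_nonneg (P : Prop) : 0 ≤ ind P := by
  unfold ind; split_ifs <;> norm_num

lemma ind_le_one (P : Prop) : ind P ≤ 1 := by
  unfold ind; split_ifs <;> norm_num

lemma Pr_eq_ind (p : ℝ) (P : Finset ι → Prop) : Pr A p P = Ex A p fun S => ind (P S) := rfl

lemma Pr_mono_p {p q : ℝ} (h0 : 0 ≤ p) (hpq : p ≤ q) (h1 : q ≤ 1) {P : Finset ι → Prop}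
    (hP : ∀ S T, S ⊆ T → P S → P T) : Pr A p P ≤ Pr A q P := by
  refine Ex_mono_p h0 hpq h1 fun S T hST _ => ?_
  by_cases h : P S
  · rw [if_pos h, if_pos (hP S T hST h)]
  · rw [if_neg h]; split_ifs <;> norm_num

lemma Ex_zero (f : Finset ι → ℝ) : Ex A 0 f = f ∅ := by
  induction A using Finset.induction_on with
  | empty => exact Ex_empty 0 f
  | insert a A ha ih => rw [Ex_insert ha, ih]; ring

lemma Ex_one (f : Finset ι → ℝ) : Ex A 1 f = f A := by
  induction A using Finset.induction_on generalizing f with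
  | empty => exact Ex_empty 1 f
  | insert a A ha ih => rw [Ex_insert ha, ih (fun S => f (insert a S))]; ring

end general

variable {V : Type*} [Fintype V] [DecidableEq V]

lemma NoCyc.anti {F F' : SimpleGraph V} (h : F ≤ F') {g : ℕ} (hF : NoCyc F' g) : NoCyc F g := by
  intro c hc
  refine hF c ⟨hc.1, hc.2.1, hc.2.2.1.imp fun a b hab => h hab, ?_⟩
  have h2 := jn_mono h c.getLast? c.head?
  have h3 := jn_le_one (G := F') c.getLast? c.head?
  have h4 := hc.2.2.2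
  omega

/-- An almost spanning linear forest in `H ∪ G₁` with high probability. -/
lemma almost (H : SimpleGraph V) {d N : ℕ} (hn : 0 < Fintype.card V) (hd : 2 * d ≤ Fintype.card V)
    (hN : N + d = Fintype.card V) (hdeg : ∀ v, d ≤ (nb H v).card)
    {δ : ℝ} (hδ0 : 0 < δ) (hδ1 : δ ≤ 1) {J : ℕ} (hJ : 16 / δ ≤ J)
    {p q C : ℝ} (hp0 : 0 ≤ p) (hp1 : p ≤ 1) (hq0 : 0 ≤ q) (hq1 : q ≤ 1)
    (hC : (Fintype.card V : ℝ) * (p + q - p * q) ≤ C) :
    Pr (EV V) p (fun S => ¬ (1 - δ) * Fintype.card V ≤ L (H ⊔ gr S)) ≤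
      4 / δ * Pr (EV (Fin N)) p (fun S => ¬ (Fintype.card V - 2 * d) ≤ L (gr S)) +
      2 ^ (8 * Fintype.card V) *
        Real.exp (-(q * (δ ^ 2 / 32) * (Fintype.card V : ℝ) ^ 2 / 4)) +
      (∑ k ∈ range (4 * J + 1), C ^ (k + 3)) / (δ * Fintype.card V / 8) := by
  classical
  set n := Fintype.card V with hndef
  have hn' : (0 : ℝ) < n := by exact_mod_cast hn
  have hA : ∀ v, ∃ A : Finset V, A ⊆ nb H v ∧ A.card = d := fun v => exists_subset_card_eq (hdeg v)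
  choose A hA1 hA2 using hA
  set E1 : Finset (Sym2 V) → Prop := fun S => ∃ B : Finset V, (B.card : ℝ) ≤ δ * n / 4 ∧
      ∀ v, v ∉ B → GoodV (gr S) (A v) (n - 2 * d) with hE1
  set E2 : Finset (Sym2 V) → Prop := fun S => ∃ W U : Finset V,
      δ ^ 2 / 32 * (n : ℝ) ^ 2 ≤ ((∑ v ∈ W, (nb H v \ U).card : ℕ) : ℝ) ∧
      ∑ v ∈ W, (nb (H ⊓ gr S) v \ U).card ≤ 6 * n with hE2
  set E3 : Finset (Sym2 V) → Prop := fun S => δ * n / 8 ≤ numCyc (4 * J + 1) S with hE3
  have hr0 : 0 ≤ p + q - p * q := by nlinarith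
  have hr1 : p + q - p * q ≤ 1 := by nlinarith
  have key : ∀ S T : Finset (Sym2 V), ¬ (1 - δ) * n ≤ L (H ⊔ gr S) →
      ¬ E1 S ∨ E2 T ∨ E3 (S ∪ T) := by
    intro S T hbad
    by_contra hcon
    push Not at hcon
    obtain ⟨h1, h2, h3⟩ := hcon
    apply hbad
    obtain ⟨B, hB1, hB2⟩ := h1
    have h3' : numCyc (4 * J + 1) (S ∪ T) < δ * n / 8 := by
      simpa [hE3] using h3
    refine core H (gr S) (gr T) hA1 hA2 hd hn hδ0 hδ1 hJ (cutSet (4 * J + 1) (S ∪ T))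
      ((card_cutSet_le _ _).trans h3'.le) ?_ ?_ hB1 hB2
    · refine (noCyc_cut (4 * J + 1) (S ∪ T)).anti ?_
      refine SimpleGraph.deleteEdges_mono ?_
      rw [gr_union, sup_comm]
      exact sup_le_sup_left inf_le_right _
    · intro W U hWU
      by_contra hc
      push Not at hc
      exact h2 ⟨W, U, hWU, hc⟩
  have h1 : Pr (EV V) p (fun S => ¬ (1 - δ) * n ≤ L (H ⊔ gr S)) ≤
      Pr (EV V) p (fun S => ¬ E1 S) + Pr (EV V) q E2 + Pr (EV V) (p + q - p * q) E3 := by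
    have h2 : Pr (EV V) (p + q - p * q) E3 =
        Ex (EV V) p (fun S => Ex (EV V) q (fun T => ind (E3 (S ∪ T)))) := by
      rw [Pr_eq_ind, ← Ex_union]
    have h3 : Pr (EV V) q E2 = Ex (EV V) p (fun _ => Ex (EV V) q fun T => ind (E2 T)) := by
      rw [Ex_const, Pr_eq_ind]
    rw [h2, h3, Pr_eq_ind, Pr_eq_ind, ← Ex_add, ← Ex_add]
    refine Ex_mono hp0 hp1 fun S _ => ?_
    rw [← Ex_const (EV V) q (ind (¬ (1 - δ) * n ≤ L (H ⊔ gr S))),
      ← Ex_const (EV V) q (ind (¬ E1 S)), ← Ex_add, ← Ex_add]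
    refine Ex_mono hq0 hq1 fun T _ => ?_
    have a0 := ind_nonneg (¬ E1 S)
    have a1 := ind_nonneg (E2 T)
    have a2 := ind_nonneg (E3 (S ∪ T))
    by_cases hb : (1 - δ) * n ≤ L (H ⊔ gr S)
    · rw [ind_of_not (not_not.2 hb)]
      positivity
    · rw [ind_of hb]
      rcases key S T hb with h | h | h
      · rw [ind_of h]
        linarith
      · rw [ind_of h]
        linarith
      · rw [ind_of h]
        linarith
  refine h1.trans ?_
  have b1 := few_bad (V := V) (m := n - 2 * d) hN hA2 hp0 hp1 (t := δ * n / 4) (by positivity)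
  have b1' : (n : ℝ) * Pr (EV (Fin N)) p (fun S => ¬ (n - 2 * d) ≤ L (gr S)) / (δ * n / 4) =
      4 / δ * Pr (EV (Fin N)) p (fun S => ¬ (n - 2 * d) ≤ L (gr S)) := by
    field_simp
  rw [← hndef, b1'] at b1
  have b2 := sparsify H (γ := δ ^ 2 / 32) hq0 hq1
  rw [← hndef] at b2
  have b3 := few_cycles (V := V) (4 * J + 1) hr0 hr1 hC (t := δ * n / 8) (by positivity)
  exact add_le_add (add_le_add b1 b2) b3

/-- The probability that `H ∪ G(n, p)` is not Hamiltonian. -/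
lemma upper (H : SimpleGraph V) {d N : ℕ} (hn : 2 ≤ Fintype.card V)
    (hd : 2 * d ≤ Fintype.card V) (hN : N + d = Fintype.card V) (hdeg : ∀ v, d ≤ (nb H v).card)
    {δ : ℝ} (hδ0 : 0 < δ) (hδ1 : δ ≤ 1) {J : ℕ} (hJ : 16 / δ ≤ J)
    {p q r s C : ℝ} (hp0 : 0 ≤ p) (hp1 : p ≤ 1) (hq0 : 0 ≤ q) (hq1 : q ≤ 1)
    (hC : (Fintype.card V : ℝ) * (p + q - p * q) ≤ C) (hr0 : 0 ≤ r) (hr1 : r ≤ 1)
    (hs : p + r ≤ s) (hs1 : s ≤ 1) :
    Pr (EV V) s (fun S => ¬ HamL (H ⊔ gr S)) ≤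
      Real.exp (δ * Fintype.card V - (d : ℝ) ^ 2 / 4 * r) +
      (4 / δ * Pr (EV (Fin N)) p (fun S => ¬ (Fintype.card V - 2 * d) ≤ L (gr S)) +
      2 ^ (8 * Fintype.card V) *
        Real.exp (-(q * (δ ^ 2 / 32) * (Fintype.card V : ℝ) ^ 2 / 4)) +
      (∑ k ∈ range (4 * J + 1), C ^ (k + 3)) / (δ * Fintype.card V / 8)) := by
  classical
  have halm := almost H (by omega) hd hN hdeg hδ0 hδ1 hJ hp0 hp1 hq0 hq1 hC
  refine le_trans ?_ (add_le_add_right halm _)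
  have hu0 : 0 ≤ p + r - p * r := by nlinarith
  have hu1 : p + r - p * r ≤ s := by nlinarith [mul_nonneg hp0 hr0]
  have hmono : ∀ S T : Finset (Sym2 V), S ⊆ T → HamL (H ⊔ gr S) → HamL (H ⊔ gr T) :=
    fun S T hST h => h.mono (sup_le_sup_left (gr_mono hST) _)
  have h1 : Pr (EV V) s (fun S => ¬ HamL (H ⊔ gr S)) ≤
      Pr (EV V) (p + r - p * r) (fun S => ¬ HamL (H ⊔ gr S)) := by
    rw [Pr_not, Pr_not]
    have := Pr_mono_p (A := EV V) hu0 hu1 hs1 (P := fun S => HamL (H ⊔ gr S)) hmono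
    linarith
  refine h1.trans ?_
  rw [Pr_eq_ind, Pr_eq_ind, ← Ex_union,
    ← Ex_const (EV V) p (Real.exp (δ * Fintype.card V - (d : ℝ) ^ 2 / 4 * r)), ← Ex_add]
  refine Ex_mono hp0 hp1 fun S _ => ?_
  have h2 : ∀ T, gr (S ∪ T) = gr S ⊔ gr T := fun T => gr_union S T
  by_cases hb : (1 - δ) * Fintype.card V ≤ L (H ⊔ gr S)
  · rw [ind_of_not (not_not.2 hb), add_zero]
    have h3 := sprinkle (V := V) hn (H := H) (Γ := H ⊔ gr S) le_sup_left hdeg hr0 hr1
    rw [Pr_eq_ind] at h3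
    simp only [h2, ← sup_assoc]
    refine h3.trans ?_
    rw [Real.exp_le_exp]
    linarith
  · rw [ind_of hb]
    have h3 : Ex (EV V) r (fun T => ind (¬ HamL (H ⊔ gr (S ∪ T)))) ≤ 1 :=
      Ex_le_of_le hr0 hr1 fun T _ => ind_le_one _
    have h4 := Real.exp_pos (δ * Fintype.card V - (d : ℝ) ^ 2 / 4 * r)
    linarith

end Pool.Agent.Helper98.Ham
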