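import Mathlib
import Pool.Agent.Helper98.HamDefs
import Pool.Agent.Helper98.HamUpper
import Pool.Agent.Helper98.HamLower

/-!
# The sharp perturbed Hamiltonicity threshold
-/

set_option linter.unusedSectionVars false
set_option linter.unusedSimpArgs false

open Finset Filter Topology MeasureTheory

namespace Pool.Agent.Helper98.Ham

/-- `p` is a median of the threshold of the linear forest -/
def IsMedian (d : ℕ → ℕ) (n : ℕ) (p : ℝ) : Prop :=
  (0 ≤ p ∧ p ≤ 1) ∧
    Pr (EV (Fin (n - d n))) p (fun S => ((n - 2 * d n : ℕ) : ℝ) ≤ ell S) = 1 / 2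

open Classical in
/-- a median of the threshold of the linear forest -/
noncomputable def pstar (d : ℕ → ℕ) (n : ℕ) : ℝ :=
  if h : ∃ p, IsMedian d n p then h.choose else 0

lemma exists_median {N m : ℕ} (hm : 0 < m) (hmN : m + 1 ≤ N) :
    ∃ p : ℝ, (0 ≤ p ∧ p ≤ 1) ∧ Pr (EV (Fin N)) p (fun S => (m : ℝ) ≤ ell S) = 1 / 2 := by
  have hm' : (0 : ℝ) < m := by exact_mod_cast hm
  have h0 : Pr (EV (Fin N)) 0 (fun S => (m : ℝ) ≤ ell S) = 0 := by
    rw [Pr_eq_ind, Ex_zero]
    refine ind_of_not ?_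
    rw [ell_empty]
    linarith
  have h1 : Pr (EV (Fin N)) 1 (fun S => (m : ℝ) ≤ ell S) = 1 := by
    rw [Pr_eq_ind, Ex_one]
    refine ind_of ?_
    rw [ell_EV (by rw [Fintype.card_fin]; omega), Fintype.card_fin]
    have : ((m + 1 : ℕ) : ℝ) ≤ N := by exact_mod_cast hmN
    push_cast at this
    linarith
  have hcont : ContinuousOn (fun p => Pr (EV (Fin N)) p (fun S => (m : ℝ) ≤ ell S))
      (Set.Icc 0 1) := (continuous_Ex _ _).continuousOn
  have := intermediate_value_Icc (zero_le_one' ℝ) hcont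
  rw [h0, h1] at this
  obtain ⟨p, hp, he⟩ := this (show (1 / 2 : ℝ) ∈ Set.Icc (0 : ℝ) 1 by constructor <;> norm_num)
  exact ⟨p, hp, he⟩

lemma pstar_spec {d : ℕ → ℕ} {n : ℕ} (h1 : 0 < n - 2 * d n) (h2 : n - 2 * d n + 1 ≤ n - d n) :
    (0 ≤ pstar d n ∧ pstar d n ≤ 1) ∧
      Pr (EV (Fin (n - d n))) (pstar d n) (fun S => ((n - 2 * d n : ℕ) : ℝ) ≤ ell S) = 1 / 2 := by
  have h : ∃ p, IsMedian d n p := exists_median h1 h2
  unfold pstar
  rw [dif_pos h]
  exact h.choose_spec

lemma pstar_nonneg (d : ℕ → ℕ) (n : ℕ) : 0 ≤ pstar d n := by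
  unfold pstar
  split_ifs with h
  · exact h.choose_spec.1.1
  · exact le_rfl

section

variable {α : ℝ} {d : ℕ → ℕ}

/-- elementary facts on the sizes -/
lemma sizes (h0 : 0 < α) (h1 : α < 1 / 2) (hd : Tendsto (fun n => (d n : ℝ) / n) atTop (𝓝 α)) :
    ∀ᶠ n : ℕ in atTop, 0 < n ∧ α / 2 * n ≤ d n ∧ (1 - 2 * α) / 2 * n ≤ (n : ℝ) - 2 * d n ∧
      2 * d n < n ∧ 0 < d n := by
  have e1 : ∀ᶠ n : ℕ in atTop, α / 2 < (d n : ℝ) / n := hd.eventually (lt_mem_nhds (by linarith))
  have e2 : ∀ᶠ n : ℕ in atTop, (d n : ℝ) / n < (1 + 2 * α) / 4 :=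
    hd.eventually (gt_mem_nhds (by linarith))
  filter_upwards [e1, e2, eventually_gt_atTop 0] with n h3 h4 h5
  have hn : (0 : ℝ) < n := by exact_mod_cast h5
  rw [lt_div_iff₀ hn] at h3
  rw [div_lt_iff₀ hn] at h4
  have h6 : (0 : ℝ) < d n := by nlinarith
  have h7 : (2 : ℝ) * d n < n := by nlinarith
  refine ⟨h5, h3.le, by linarith, by exact_mod_cast h7, by exact_mod_cast h6⟩

/-- the threshold, for all large `n` -/
lemma threshold_eventually (h0 : 0 < α) (h1 : α < 1 / 2)
    (hd : Tendsto (fun n => (d n : ℝ) / n) atTop (𝓝 α)) {ε : ℝ} (hε : 0 < ε) (hε1 : ε ≤ 1) :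
    ∃ K : ℝ, 0 ≤ K ∧ ∀ᶠ n : ℕ in atTop,
      (1 - 2 * α) / 2 / n ≤ pstar d n ∧ pstar d n ≤ 16 * 36 / (α ^ 2 * n) ∧
      (1 + ε) * pstar d n ≤ 1 ∧
      Pr (EV (Fin (n - d n))) ((1 - ε) * pstar d n)
        (fun S => ((n - 2 * d n : ℕ) : ℝ) ≤ ell S) ≤ K / n ∧
      Pr (EV (Fin (n - d n))) ((1 + ε) * pstar d n)
        (fun S => ¬ ((n - 2 * d n : ℕ) : ℝ) ≤ ell S) ≤ K / n := by
  set δ : ℝ := α / 6 with hδ
  set c : ℝ := (1 - 2 * α) / 2 with hc
  set η : ℝ := min δ (ε * δ ^ 2 * c / 16) with hη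
  have hδ0 : 0 < δ := by positivity
  have hc0 : 0 < c := by rw [hc]; linarith
  have hη0 : 0 < η := by rw [hη]; exact lt_min hδ0 (by positivity)
  have hηδ : η ≤ δ := min_le_left _ _
  have hη2 : η ≤ ε * δ ^ 2 * c / 16 := min_le_right _ _
  refine ⟨16 / (δ ^ 2 * η ^ 2), by positivity, ?_⟩
  have l1 : ∀ᶠ n : ℕ in atTop, 4 / δ ≤ (n : ℝ) :=
    tendsto_natCast_atTop_atTop.eventually_ge_atTop _
  have l2 : ∀ᶠ n : ℕ in atTop, 64 / (δ ^ 2 * η ^ 2) ≤ (n : ℝ) :=
    tendsto_natCast_atTop_atTop.eventually_ge_atTop _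
  have l3 : ∀ᶠ n : ℕ in atTop, 32 / δ ^ 2 ≤ (n : ℝ) :=
    tendsto_natCast_atTop_atTop.eventually_ge_atTop _
  filter_upwards [sizes h0 h1 hd, l1, l2, l3] with n hn k1 k2 k3
  obtain ⟨n0, n1, n2, n3, n4⟩ := hn
  have hn' : (0 : ℝ) < n := by exact_mod_cast n0
  set N := n - d n with hN
  set m := n - 2 * d n with hm
  have hNr : (N : ℝ) = n - d n := by rw [hN, Nat.cast_sub (by omega)]
  have hmr : (m : ℝ) = n - 2 * d n := by
    rw [hm, Nat.cast_sub (by omega)]; push_cast; ring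
  have hm0 : 0 < m := by omega
  have hmN : m + 1 ≤ N := by omega
  obtain ⟨⟨q0, q1⟩, q2⟩ := pstar_spec (d := d) (n := n) hm0 hmN
  rw [← hN, ← hm] at q2
  have hNn : (N : ℝ) ≤ n := by rw [hNr]; linarith [(Nat.cast_nonneg (d n) : (0 : ℝ) ≤ d n)]
  have hNn2 : (n : ℝ) / 2 ≤ N := by
    rw [hNr]
    have : (2 : ℝ) * d n < n := by exact_mod_cast n3
    linarith
  have hN0 : (0 : ℝ) < N := by linarith
  have hcard : (Fintype.card (Fin N) : ℝ) = N := by rw [Fintype.card_fin]
  have hδN : 2 ≤ δ * (Fintype.card (Fin N) : ℝ) := by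
    rw [hcard]
    rw [div_le_iff₀ hδ0] at k1
    nlinarith
  have hmN' : (m : ℝ) ≤ (1 - 3 * δ) * (Fintype.card (Fin N) : ℝ) := by
    rw [hcard, hmr, hNr, hδ]
    have : α / 2 * (n - d n : ℝ) ≤ α / 2 * n := by
      refine mul_le_mul_of_nonneg_left ?_ (by positivity)
      linarith [(Nat.cast_nonneg (d n) : (0 : ℝ) ≤ d n)]
    linarith
  have hN0' : 0 < Fintype.card (Fin N) := by rw [Fintype.card_fin]; omega
  have hup := median_upper (V := Fin N) hN0' hδ0 hδN hmN' q0 q1 q2
  rw [hcard] at hup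
  have hp1 : (1 + ε) * pstar d n ≤ 1 := by
    have h5 : pstar d n ≤ 1 / 2 := by
      refine hup.trans ?_
      rw [div_le_div_iff₀ (by positivity) (by norm_num)]
      rw [div_le_iff₀ (by positivity)] at k3
      nlinarith
    nlinarith
  have hηε : 2 * η * (Fintype.card (Fin N) : ℝ) ≤ ε * δ ^ 2 * m / 8 := by
    rw [hcard]
    have h5 : 2 * η * N ≤ 2 * (ε * δ ^ 2 * c / 16) * n :=
      mul_le_mul (by linarith) hNn hN0.le (by positivity)
    have h6 : ε * δ ^ 2 / 8 * (c * n) ≤ ε * δ ^ 2 / 8 * m := by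
      refine mul_le_mul_of_nonneg_left ?_ (by positivity)
      rw [hmr]; exact n2
    linarith
  have hlarge : 8 / (δ ^ 2 * η ^ 2 * (Fintype.card (Fin N) : ℝ)) < 1 / 2 := by
    rw [hcard, div_lt_div_iff₀ (by positivity) (by norm_num)]
    rw [div_le_iff₀ (by positivity)] at k2
    have h5 : δ ^ 2 * η ^ 2 * (n / 2) ≤ δ ^ 2 * η ^ 2 * N :=
      mul_le_mul_of_nonneg_left hNn2 (by positivity)
    linarith
  obtain ⟨r1, r2, r3, r4⟩ := threshold (V := Fin N) hN0' hδ0 hη0 hηδ hε hε1 hδN hm0 hmN' hηε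
    hlarge q0 hp1 q2
  rw [hcard] at r1 r2 r3 r4
  have hK : 8 / (δ ^ 2 * η ^ 2 * N) ≤ 16 / (δ ^ 2 * η ^ 2) / n := by
    rw [div_div, div_le_div_iff₀ (by positivity) (by positivity)]
    have h5 : δ ^ 2 * η ^ 2 * (n / 2) ≤ δ ^ 2 * η ^ 2 * N :=
      mul_le_mul_of_nonneg_left hNn2 (by positivity)
    linarith
  refine ⟨?_, ?_, hp1, r3.trans hK, r4.trans hK⟩
  · refine le_trans ?_ r1
    rw [div_le_div_iff₀ hn' (by positivity)]
    have h5 : c * n ≤ m := by rw [hmr]; exact n2
    have h6 : (N : ℝ) ^ 2 ≤ n * n := by nlinarith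
    calc c * (N : ℝ) ^ 2 ≤ c * (n * n) := mul_le_mul_of_nonneg_left h6 hc0.le
      _ = c * n * n := by ring
      _ ≤ m * n := mul_le_mul_of_nonneg_right h5 hn'.le
  · refine r2.trans ?_
    rw [div_le_div_iff₀ (by positivity) (by positivity)]
    have h5 : α ^ 2 * n ≤ 72 * (δ ^ 2 * N) := by
      have e : α ^ 2 = 36 * δ ^ 2 := by rw [hδ]; ring
      rw [e]
      have : δ ^ 2 * (n / 2) ≤ δ ^ 2 * N := mul_le_mul_of_nonneg_left hNn2 (by positivity)
      linarith
    linarith

lemma tendsto_one_of {f g : ℕ → ℝ} (hg : Tendsto g atTop (𝓝 0)) (h1 : ∀ n, f n ≤ 1)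
    (h2 : ∀ᶠ n in atTop, 1 - g n ≤ f n) : Tendsto f atTop (𝓝 1) := by
  refine tendsto_of_tendsto_of_tendsto_of_le_of_le' (g := fun n => 1 - g n) (h := fun _ => 1) ?_
    tendsto_const_nhds h2 (Eventually.of_forall h1)
  simpa using hg.const_sub 1

lemma tendsto_const_div_nat (K : ℝ) : Tendsto (fun n : ℕ => K / n) atTop (𝓝 0) :=
  tendsto_const_div_atTop_nhds_zero_nat K

lemma hasLinearForest_ell {N m : ℕ} (S : Finset (Sym2 (Fin N))) :
    HasLinearForest (gr S) m ↔ (m : ℝ) ≤ ell S := by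
  rw [hasLinearForest_iff]
  unfold ell
  exact Nat.cast_le.symm

/-- the sharp threshold of the linear forest -/
lemma sharp_linear (h0 : 0 < α) (h1 : α < 1 / 2)
    (hd : Tendsto (fun n => (d n : ℝ) / n) atTop (𝓝 α)) :
    IsSharpThreshold (fun n => n - d n) (fun n => {G | HasLinearForest G (n - 2 * d n)})
      (pstar d) := by
  intro ε' hε'
  set ε := min ε' 1 with hε
  have he0 : 0 < ε := lt_min hε' one_pos
  have he1 : ε ≤ 1 := min_le_right _ _
  have he2 : ε ≤ ε' := min_le_left _ _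
  obtain ⟨K, hK0, hK⟩ := threshold_eventually h0 h1 hd he0 he1
  constructor
  · intro p hp
    refine squeeze_zero' (Eventually.of_forall fun n => measureReal_nonneg) ?_
      (tendsto_const_div_nat K)
    filter_upwards [hp, hK] with n hn hk
    rw [binomialRandom_real]
    obtain ⟨-, -, k3, k4, -⟩ := hk
    have hps := pstar_nonneg d n
    refine le_trans ?_ k4
    have e : PrG (Fin (n - d n)) (p n) (fun G => G ∈ {G | HasLinearForest G (n - 2 * d n)}) =
        Pr (EV (Fin (n - d n))) (p n) (fun S => ((n - 2 * d n : ℕ) : ℝ) ≤ ell S) := by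
      unfold PrG
      congr 1
      funext S
      exact propext (hasLinearForest_ell S)
    rw [e]
    refine Pr_mono_p (p n).2.1 (hn.trans ?_) ?_ fun S T hST h => h.trans (ell_mono hST)
    · exact mul_le_mul_of_nonneg_right (by linarith) hps
    · nlinarith
  · intro p hp
    refine tendsto_one_of (tendsto_const_div_nat K) (fun _ => measureReal_le_one) ?_
    filter_upwards [hp, hK] with n hn hk
    rw [binomialRandom_real]
    obtain ⟨-, -, k3, -, k5⟩ := hk
    have hps := pstar_nonneg d n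
    have e : PrG (Fin (n - d n)) (p n) (fun G => G ∈ {G | HasLinearForest G (n - 2 * d n)}) =
        Pr (EV (Fin (n - d n))) (p n) (fun S => ((n - 2 * d n : ℕ) : ℝ) ≤ ell S) := by
      unfold PrG
      congr 1
      funext S
      exact propext (hasLinearForest_ell S)
    rw [e]
    rw [Pr_not] at k5
    have h2 : Pr (EV (Fin (n - d n))) ((1 + ε) * pstar d n)
        (fun S => ((n - 2 * d n : ℕ) : ℝ) ≤ ell S) ≤
        Pr (EV (Fin (n - d n))) (p n) (fun S => ((n - 2 * d n : ℕ) : ℝ) ≤ ell S) := by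
      refine Pr_mono_p (by positivity) (le_trans ?_ hn) (p n).2.2
        fun S T hST h => h.trans (ell_mono hST)
      exact mul_le_mul_of_nonneg_right (by linarith) hps
    linarith

lemma card_fin_ge (n : ℕ) (h : 3 ≤ n) : 3 ≤ Fintype.card (Fin n) := by
  rw [Fintype.card_fin]; exact h

/-- the sharp `d`-threshold for Hamiltonicity -/
lemma sharp_ham (h0 : 0 < α) (h1 : α < 1 / 2)
    (hd : Tendsto (fun n => (d n : ℝ) / n) atTop (𝓝 α)) :
    IsSharpDThreshold d (fun n => {G | G.IsHamiltonian}) (pstar d) := by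
  intro ε' hε'
  set ε := min ε' 1 with hε
  have he0 : 0 < ε := lt_min hε' one_pos
  have he1 : ε ≤ 1 := min_le_right _ _
  have he2 : ε ≤ ε' := min_le_left _ _
  constructor
  · -- below the threshold
    obtain ⟨K, hK0, hK⟩ := threshold_eventually h0 h1 hd he0 he1
    refine ⟨fun n => Kbip n (d n), ?_, ?_⟩
    · filter_upwards [sizes h0 h1 hd] with n hn v
      exact Kbip_minDegree hn.2.2.2.1.le v
    · intro p hp
      refine squeeze_zero' (Eventually.of_forall fun n => measureReal_nonneg) ?_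
        (tendsto_const_div_nat K)
      filter_upwards [hp, hK, sizes h0 h1 hd, eventually_ge_atTop 3] with n hn hk hs h3
      unfold perturbedProb
      rw [binomialRandom_real]
      obtain ⟨-, -, k3, k4, -⟩ := hk
      obtain ⟨-, -, -, s4, s5⟩ := hs
      have hps := pstar_nonneg d n
      refine le_trans ?_ k4
      have hp1 : (p n : ℝ) ≤ (1 - ε) * pstar d n :=
        hn.trans (mul_le_mul_of_nonneg_right (by linarith) hps)
      have hp2 : (1 - ε) * pstar d n ≤ 1 := by nlinarith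
      refine le_trans ?_ (Pr_mono_p (p n).2.1 hp1 hp2 fun S T hST h => h.trans (ell_mono hST))
      unfold PrG
      have e2 := Pr_comap (phi n (d n)) (p n) fun G => (n - 2 * d n) ≤ L G
      have e3 : Pr (EV (Fin (n - d n))) (p n) (fun S => ((n - 2 * d n : ℕ) : ℝ) ≤ ell S) =
          Pr (EV (Fin (n - d n))) (p n) (fun S => (n - 2 * d n) ≤ L (gr S)) := by
        congr 1
        funext S
        unfold ell
        exact propext Nat.cast_le
      rw [e3, ← e2]
      refine Pr_mono (p n).2.1 (p n).2.2 fun S _ h => ?_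
      have h' : (Kbip n (d n) ⊔ gr S).IsHamiltonian := h
      exact lower s5 s4.le (hamL_of_isHamiltonian (card_fin_ge n h3) h')
  · -- above the threshold
    intro H hH p hp
    obtain ⟨K, hK0, hK⟩ := threshold_eventually h0 h1 hd (ε := ε / 2) (by positivity) (by linarith)
    obtain ⟨K', -, hK'⟩ := threshold_eventually h0 h1 hd he0 he1
    set c : ℝ := (1 - 2 * α) / 2 with hc
    have hc0 : 0 < c := by rw [hc]; linarith
    have hc1 : c ≤ 1 := by rw [hc]; linarith
    set δ : ℝ := α ^ 2 * c * ε / 64 with hδ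
    have hδ0 : 0 < δ := by positivity
    have hδ1 : δ ≤ 1 := by
      rw [hδ]
      have h2 : α ^ 2 ≤ 1 := by nlinarith
      have h3 : α ^ 2 * c ≤ 1 := by nlinarith [sq_nonneg α]
      have h4 : α ^ 2 * c * ε ≤ 1 := by nlinarith [mul_nonneg (sq_nonneg α) hc0.le]
      linarith
    set J : ℕ := ⌈16 / δ⌉₊ with hJ
    have hJ' : 16 / δ ≤ J := Nat.le_ceil _
    set C₁ : ℝ := 1024 / δ ^ 2 with hC₁
    have hC₁0 : 0 < C₁ := by positivity
    set C : ℝ := 2 * (16 * 36 / α ^ 2) + C₁ with hC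
    set Sg : ℝ := ∑ k ∈ range (4 * J + 1), C ^ (k + 3) with hSg
    set g : ℕ → ℝ := fun n => Real.exp (-δ * n) + (4 / δ * (K / n) +
      (2 ^ 8 * Real.exp (-8)) ^ n + Sg / (δ * n / 8)) with hg
    have hg0 : Tendsto g atTop (𝓝 0) := by
      have g1 : Tendsto (fun n : ℕ => Real.exp (-δ * n)) atTop (𝓝 0) := by
        refine Real.tendsto_exp_atBot.comp ?_
        have : Tendsto (fun n : ℕ => δ * (n : ℝ)) atTop atTop :=
          tendsto_natCast_atTop_atTop.const_mul_atTop hδ0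
        have h2 := tendsto_neg_atTop_atBot.comp this
        refine h2.congr fun n => ?_
        simp
      have g2 : Tendsto (fun n : ℕ => 4 / δ * (K / n)) atTop (𝓝 0) := by
        simpa using (tendsto_const_div_nat K).const_mul (4 / δ)
      have g3 : Tendsto (fun n : ℕ => (2 ^ 8 * Real.exp (-8)) ^ n) atTop (𝓝 0) := by
        refine tendsto_pow_atTop_nhds_zero_of_lt_one (by positivity) ?_
        rw [Real.exp_neg, ← div_eq_mul_inv, div_lt_one (Real.exp_pos _)]
        have h2 : Real.exp 8 = Real.exp 1 ^ 8 := by rw [← Real.exp_nat_mul]; norm_num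
        rw [h2]
        have h3 : (2 : ℝ) < Real.exp 1 := by
          have := Real.exp_one_gt_d9
          linarith
        exact pow_lt_pow_left₀ h3 (by norm_num) (by norm_num)
      have g4 : Tendsto (fun n : ℕ => Sg / (δ * n / 8)) atTop (𝓝 0) := by
        have h2 := tendsto_const_div_nat (8 * Sg / δ)
        refine h2.congr fun n => ?_
        rcases Nat.eq_zero_or_pos n with h | h
        · subst h; simp
        · have : (0 : ℝ) < n := by exact_mod_cast h
          field_simp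
      have g5 := g1.add ((g2.add g3).add g4)
      have e : (0 : ℝ) = 0 + (0 + 0 + 0) := by simp
      rw [e]
      exact g5
    refine tendsto_one_of hg0 (fun _ => measureReal_le_one) ?_
    have l1 : ∀ᶠ n : ℕ in atTop, C₁ ≤ (n : ℝ) :=
      tendsto_natCast_atTop_atTop.eventually_ge_atTop _
    filter_upwards [hp, hK, hK', sizes h0 h1 hd, eventually_ge_atTop 3, hH, l1]
      with n hn hk hk' hs h3 hHn hl1
    obtain ⟨k1, k2, k3, -, k5⟩ := hk
    obtain ⟨-, -, k6, -, -⟩ := hk'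
    obtain ⟨s1, s2, s3, s4, s5⟩ := hs
    have hn' : (0 : ℝ) < n := by exact_mod_cast s1
    have hps := pstar_nonneg d n
    unfold perturbedProb
    rw [binomialRandom_real]
    have hcard : (Fintype.card (Fin n) : ℝ) = n := by rw [Fintype.card_fin]
    have hdeg : ∀ v, d n ≤ (nb (H n) v).card := fun v => by
      rw [← ncard_neighborSet]; exact hHn v
    set p₁ : ℝ := (1 + ε / 2) * pstar d n with hp₁
    set q : ℝ := C₁ / n with hq
    set r : ℝ := ε / 2 * pstar d n with hr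
    have hp₁0 : 0 ≤ p₁ := by positivity
    have hq0 : 0 ≤ q := by positivity
    have hq1 : q ≤ 1 := by rw [hq, div_le_one hn']; exact hl1
    have hr0 : 0 ≤ r := by positivity
    have hs : p₁ + r ≤ (p n : ℝ) := by
      have e : p₁ + r = (1 + ε) * pstar d n := by rw [hp₁, hr]; ring
      rw [e]
      refine le_trans ?_ hn
      exact mul_le_mul_of_nonneg_right (by linarith) hps
    have hs1 : (p n : ℝ) ≤ 1 := (p n).2.2
    have hr1 : r ≤ 1 := by linarith
    have hCn : (Fintype.card (Fin n) : ℝ) * (p₁ + q - p₁ * q) ≤ C := by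
      rw [hcard]
      have a1 : n * q = C₁ := by rw [hq]; field_simp
      have a2 : (n : ℝ) * p₁ ≤ 2 * (16 * 36 / α ^ 2) := by
        have a3 : p₁ ≤ 2 * pstar d n := by
          rw [hp₁]; exact mul_le_mul_of_nonneg_right (by linarith) hps
        have a4 : (n : ℝ) * pstar d n ≤ 16 * 36 / α ^ 2 := by
          have a5 := mul_le_mul_of_nonneg_left k2 hn'.le
          refine a5.trans (le_of_eq ?_)
          field_simp
        have a6 := mul_le_mul_of_nonneg_left a3 hn'.le
        linarith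
      have a7 : 0 ≤ n * (p₁ * q) := by positivity
      have a8 : (n : ℝ) * (p₁ + q - p₁ * q) = n * p₁ + n * q - n * (p₁ * q) := by ring
      rw [a8, a1, hC]
      linarith
    have hmain := upper (V := Fin n) (H n) (d := d n) (N := n - d n)
      (by rw [Fintype.card_fin]; omega) (by rw [Fintype.card_fin]; omega)
      (by rw [Fintype.card_fin]; omega) hdeg hδ0 hδ1 hJ' hp₁0 k3 hq0 hq1 hCn hr0 hr1 hs hs1
    rw [hcard, Fintype.card_fin] at hmain
    -- the four terms
    have t1 : Real.exp (δ * n - (d n : ℝ) ^ 2 / 4 * r) ≤ Real.exp (-δ * n) := by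
      rw [Real.exp_le_exp]
      have b1 : c / n ≤ pstar d n := k1
      have b2 : (α / 2 * n) ^ 2 ≤ (d n : ℝ) ^ 2 := pow_le_pow_left₀ (by positivity) s2 2
      have b3 : ε / 2 * (c / n) ≤ r := by
        rw [hr]; exact mul_le_mul_of_nonneg_left b1 (by positivity)
      have b4 : (α / 2 * n) ^ 2 / 4 * (ε / 2 * (c / n)) ≤ (d n : ℝ) ^ 2 / 4 * r :=
        mul_le_mul (by linarith) b3 (by positivity) (by positivity)
      have b5 : (α / 2 * n) ^ 2 / 4 * (ε / 2 * (c / n)) = 2 * δ * n := by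
        rw [hδ]; field_simp; ring
      linarith
    have t2 : Pr (EV (Fin (n - d n))) p₁ (fun S => ¬ (n - 2 * d n) ≤ L (gr S)) ≤ K / n := by
      refine le_trans (le_of_eq ?_) k5
      congr 1
      funext S
      unfold ell
      rw [Nat.cast_le]
    have t3 : 2 ^ (8 * n) * Real.exp (-(q * (δ ^ 2 / 32) * (n : ℝ) ^ 2 / 4)) =
        (2 ^ 8 * Real.exp (-8)) ^ n := by
      rw [mul_pow, ← pow_mul, ← Real.exp_nat_mul]
      congr 2
      rw [hq, hC₁]
      field_simp
      norm_num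
    rw [t3] at hmain
    have t4 : 4 / δ * Pr (EV (Fin (n - d n))) p₁ (fun S => ¬ (n - 2 * d n) ≤ L (gr S)) ≤
        4 / δ * (K / n) := mul_le_mul_of_nonneg_left t2 (by positivity)
    have hfin : PrG (Fin n) (p n) (fun G => G ∈ {G | H n ⊔ G ∈ {G | G.IsHamiltonian}}) =
        Pr (EV (Fin n)) (p n) (fun S => HamL (H n ⊔ gr S)) := by
      unfold PrG
      congr 1
      funext S
      refine propext ⟨fun h => ?_, fun h => ?_⟩
      · have h' : (H n ⊔ gr S).IsHamiltonian := h
        exact hamL_of_isHamiltonian (card_fin_ge n h3) h'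
      · change (H n ⊔ gr S).IsHamiltonian
        exact h.isHamiltonian (card_fin_ge n h3)
    rw [hfin]
    rw [Pr_not] at hmain
    simp only [hg]
    linarith

/-- **Main theorem.** -/
lemma main {α : ℝ} {d : ℕ → ℕ} (h0 : 0 < α) (h1 : α < 1 / 2)
    (hd : Tendsto (fun n => (d n : ℝ) / n) atTop (𝓝 α)) :
    ∃ p : ℕ → ℝ, IsSharpDThreshold d (fun n => {G | G.IsHamiltonian}) p ∧
      IsSharpThreshold (fun n => n - d n) (fun n => {G | HasLinearForest G (n - 2 * d n)}) p :=
  ⟨pstar d, sharp_ham h0 h1 hd, sharp_linear h0 h1 hd⟩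

end

end Pool.Agent.Helper98.Ham
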