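import Mathlib

/-!
# Random walks on discrete point processes: definitions
-/

open MeasureTheory ProbabilityTheory Filter
open scoped ENNReal

namespace Pool.Agent.Helper98.PointWalk

/-- the points of `ℤ^d` -/
abbrev Site (d : ℕ) := Fin d → ℤ

/-- configurations `{0,1}^{ℤ^d}`, with the product `σ`-algebra -/
abbrev Config (d : ℕ) := Site d → Bool

/-- the shift `(θ_x ω)(y) = ω(x + y)` -/
def shift {d : ℕ} (x : Site d) (ω : Config d) : Config d := fun y => ω (x + y)

/-- A discrete point process: a probability measure on `{0,1}^{ℤ^d}` which is stationary and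
ergodic with respect to each single shift `θ_{e_i}` and is not the law of the empty set.
(`Ergodic f Q` says that `f` preserves `Q` and that invariant measurable sets are trivial.) -/
structure IsDiscretePointProcess {d : ℕ} (Q : Measure (Config d)) : Prop where
  isProbabilityMeasure : IsProbabilityMeasure Q
  ergodic : ∀ i : Fin d, Ergodic (shift (Pi.single i (1 : ℤ))) Q
  nonempty : Q {ω | ∀ x, ω x = false} < 1

/-- the `2 d` directions `± e_i` -/
def dir {d : ℕ} (e : Fin d × Bool) : Site d :=
  if e.2 then Pi.single e.1 1 else - Pi.single e.1 1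

/-- `f_e(ω) = min {k > 0 : ω(k e) = 1}` -/
noncomputable def gap {d : ℕ} (ω : Config d) (e : Fin d × Bool) : ℕ :=
  sInf {k : ℕ | 0 < k ∧ ω (k • dir e) = true}

/-- `N_v(ω) = {v + f_e(θ_v ω) e : e ∈ {± e_i}}` -/
def neighbors {d : ℕ} (ω : Config d) (v : Site d) : Set (Site d) :=
  Set.range fun e : Fin d × Bool => v + gap (shift v ω) e • dir e

open Classical in
/-- The quenched law `P_ω`: the law on paths of the Markov chain started at `0` whose transition
probability from `v` to `u` is `1/(2d)` if `u ∈ N_v(ω)` and `0` otherwise. -/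
structure IsQuenchedLaw {d : ℕ} (ω : Config d) (μ : Measure (ℕ → Site d)) : Prop where
  isProbabilityMeasure : IsProbabilityMeasure μ
  start : ∀ᵐ X ∂μ, X 0 = 0
  markov : ∀ (n : ℕ) (x : ℕ → Site d),
    μ {X | ∀ i ≤ n + 1, X i = x i} =
      μ {X | ∀ i ≤ n, X i = x i} *
        (if x (n + 1) ∈ neighbors ω (x n) then ((2 * d : ℕ) : ℝ≥0∞)⁻¹ else 0)

/-- `P = Q(· | ω(0) = 1)` -/
noncomputable def palm {d : ℕ} (Q : Measure (Config d)) : Measure (Config d) :=
  ProbabilityTheory.cond Q {ω | ω 0 = true}

/-- The random walk on the discrete point process `Q` is almost surely transient: the quenched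
laws `P_ω` exist for `P`-almost every `ω` and form a kernel `κ`, and under the annealed law
`∫ P_ω(·) P(dω)` (which is `P.bind κ`) the probability of infinitely many visits to `0` is `0`. -/
def AlmostSurelyTransient {d : ℕ} (Q : Measure (Config d)) : Prop :=
  (∃ κ : Kernel (Config d) (ℕ → Site d), ∀ᵐ ω ∂(palm Q), IsQuenchedLaw ω (κ ω)) ∧
    ∀ κ : Kernel (Config d) (ℕ → Site d), (∀ᵐ ω ∂(palm Q), IsQuenchedLaw ω (κ ω)) →
      ((palm Q).bind κ) {X | ∃ᶠ n in atTop, X n = 0} = 0

end Pool.Agent.Helper98.PointWalk
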