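import Mathlib

/-!
# The scales `q_m` and `G_m` and an integrable bound for the Green function
-/

open Finset MeasureTheory Set

open scoped ENNReal

namespace Pool.Agent.Helper98.PointWalk

/-- the periods -/
def q (m : ℕ) : ℕ := 2 ^ (m * (m + 2))

/-- the gaps `G_m = 1 + ∑_{l < m} q_l` -/
def G (m : ℕ) : ℕ := 1 + ∑ l ∈ range m, q l

lemma q_pos (m : ℕ) : 0 < q m := by unfold q; positivity

lemma q_zero : q 0 = 1 := by simp [q]

lemma q_succ (m : ℕ) : q (m + 1) = 2 ^ (2 * m + 3) * q m := by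
  unfold q
  rw [← pow_add]
  congr 1
  ring

lemma eight_mul_q_le (m : ℕ) : 8 * q m ≤ q (m + 1) := by
  rw [q_succ]
  refine Nat.mul_le_mul_right _ ?_
  calc 8 = 2 ^ 3 := by norm_num
    _ ≤ 2 ^ (2 * m + 3) := Nat.pow_le_pow_right (by norm_num) (by omega)

lemma G_zero : G 0 = 1 := by simp [G]

lemma G_succ (m : ℕ) : G (m + 1) = G m + q m := by
  unfold G
  rw [sum_range_succ]
  ring

lemma G_le (m : ℕ) : G m ≤ q m := by
  induction m with
  | zero => simp [G, q]
  | succ m ih =>
    rw [G_succ]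
    have := eight_mul_q_le m
    omega

lemma q_lt_G_succ (m : ℕ) : q m < G (m + 1) := by
  rw [G_succ]
  have : 0 < G m := by unfold G; omega
  omega

lemma G_pos (m : ℕ) : 0 < G m := by unfold G; omega

/-- the lower end of the `m`-th range of frequencies -/
noncomputable def al (m : ℕ) : ℝ := 1 / 2 ^ (m * (m + 3))

/-- the upper end of the `m`-th range of frequencies -/
noncomputable def up (m : ℕ) : ℝ := if m = 0 then Real.pi else al m

/-- the bound of the Green function on the `m`-th range -/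
noncomputable def Cm (m : ℕ) : ℝ := 4 * (2 * q m + 2 * Real.pi ^ 2 / (al (m + 1) * G m) ^ 2)

lemma al_pos (m : ℕ) : 0 < al m := by unfold al; positivity

lemma up_pos (m : ℕ) : 0 < up m := by
  unfold up
  split_ifs
  · exact Real.pi_pos
  · exact al_pos m

lemma al_zero : al 0 = 1 := by simp [al]

lemma al_tendsto : Filter.Tendsto al Filter.atTop (nhds 0) := by
  have h : ∀ m : ℕ, al m ≤ (1 / 2) ^ m := by
    intro m
    unfold al
    rw [one_div_pow]
    refine one_div_le_one_div_of_le (by positivity) ?_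
    refine pow_le_pow_right₀ (by norm_num) ?_
    nlinarith
  refine squeeze_zero (fun m => (al_pos m).le) h ?_
  exact tendsto_pow_atTop_nhds_zero_of_lt_one (by norm_num) (by norm_num)

/-- every frequency belongs to one of the ranges -/
lemma exists_range {t : ℝ} (h0 : 0 < t) (h1 : t ≤ Real.pi) : ∃ m, t ∈ Ioc (al (m + 1)) (up m) := by
  have hex : ∃ m, al (m + 1) < t := by
    have := (al_tendsto.comp (Filter.tendsto_add_atTop_nat 1)).eventually (gt_mem_nhds h0)
    obtain ⟨m, hm⟩ := this.exists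
    exact ⟨m, hm⟩
  classical
  refine ⟨Nat.find hex, Nat.find_spec hex, ?_⟩
  unfold up
  split_ifs with h
  · exact h1
  · obtain ⟨k, hk⟩ := Nat.exists_eq_succ_of_ne_zero h
    have := Nat.find_min hex (m := k) (by omega)
    rw [hk]
    exact not_lt.1 this

/-- lower bound for `1 - |cos|` on the `m`-th range -/
lemma cos_bound {t : ℝ} {m : ℕ} (ht : t ∈ Ioc (al (m + 1)) (up m)) :
    |Real.cos (t * G m / 2)| < 1 ∧
      1 / (1 - |Real.cos (t * G m / 2)|) ≤ 2 * Real.pi ^ 2 / (al (m + 1) * G m) ^ 2 := by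
  have hpi := Real.pi_pos
  have hG : (0 : ℝ) < G m := by exact_mod_cast G_pos m
  have ha := al_pos (m + 1)
  have ht0 : 0 < t := ha.trans ht.1
  set y := t * G m / 2 with hy
  have hy0 : 0 < y := by positivity
  have hy1 : y ≤ Real.pi / 2 := by
    rcases Nat.eq_zero_or_pos m with h | h
    · subst h
      have h2 : t ≤ Real.pi := by simpa [up] using ht.2
      rw [hy, G_zero]
      push_cast
      linarith
    · obtain ⟨k, rfl⟩ := Nat.exists_eq_succ_of_ne_zero h.ne'
      have h2 : t ≤ al (k + 1) := by simpa [up] using ht.2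
      have h3 : (G (k + 1) : ℝ) ≤ 2 * q k := by
        have := G_le k
        rw [G_succ]
        push_cast
        have : (G k : ℝ) ≤ q k := by exact_mod_cast this
        linarith
      have h4 : al (k + 1) * q k ≤ 1 := by
        unfold al q
        push_cast
        rw [one_div, inv_mul_le_iff₀ (by positivity), mul_one]
        refine pow_le_pow_right₀ (by norm_num) ?_
        nlinarith
      have h5 : t * G (k + 1) ≤ al (k + 1) * (2 * q k) :=
        mul_le_mul h2 h3 hG.le (al_pos _).le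
      have h6 := Real.pi_gt_three
      have h7 : y ≤ 1 := by
        rw [hy]
        have : al (k + 1) * (2 * (q k : ℝ)) = 2 * (al (k + 1) * q k) := by ring
        simp only [Nat.succ_eq_add_one] at *
        linarith
      linarith
  have hcos0 : 0 ≤ Real.cos y := Real.cos_nonneg_of_neg_pi_div_two_le_of_le (by linarith) hy1
  have hcos1 : Real.cos y ≤ 1 - 2 / Real.pi ^ 2 * y ^ 2 :=
    Real.cos_le_one_sub_mul_cos_sq (by rw [abs_of_pos hy0]; linarith)
  rw [abs_of_nonneg hcos0]
  have hpos : 0 < 2 / Real.pi ^ 2 * y ^ 2 := by positivity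
  refine ⟨by linarith, ?_⟩
  have h1 : 2 / Real.pi ^ 2 * y ^ 2 ≤ 1 - Real.cos y := by linarith
  calc 1 / (1 - Real.cos y) ≤ 1 / (2 / Real.pi ^ 2 * y ^ 2) := one_div_le_one_div_of_le hpos h1
    _ = 2 * Real.pi ^ 2 / (t * G m) ^ 2 := by
        rw [hy]
        field_simp
    _ ≤ 2 * Real.pi ^ 2 / (al (m + 1) * G m) ^ 2 := by
        refine div_le_div_of_nonneg_left (by positivity) (by positivity) ?_
        refine pow_le_pow_left₀ (by positivity) ?_ 2
        exact mul_le_mul_of_nonneg_right ht.1.le hG.le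

/-- the bounding function -/
noncomputable def Rbar (t : ℝ) : ℝ≥0∞ :=
  ∑' m : ℕ, (Ioc (al (m + 1)) (up m)).indicator (fun _ => ENNReal.ofReal (Cm m)) t

lemma Cm_le_Rbar {t : ℝ} {m : ℕ} (ht : t ∈ Ioc (al (m + 1)) (up m)) :
    ENNReal.ofReal (Cm m) ≤ Rbar t := by
  unfold Rbar
  refine le_trans (le_of_eq ?_) (ENNReal.le_tsum m)
  rw [indicator_of_mem ht]

lemma two_G (m : ℕ) : (2 : ℝ) ^ (m ^ 2) ≤ 2 * G m := by
  rcases Nat.eq_zero_or_pos m with h | h
  · subst h
    rw [G_zero]
    norm_num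
  · obtain ⟨k, rfl⟩ := Nat.exists_eq_succ_of_ne_zero h.ne'
    have h1 : (q k : ℝ) ≤ G (k + 1) := by exact_mod_cast (q_lt_G_succ k).le
    have h2 : (2 : ℝ) ^ ((k + 1) ^ 2) = 2 * q k := by
      unfold q
      push_cast
      rw [← pow_succ']
      congr 1
      ring
    simp only [Nat.succ_eq_add_one]
    rw [h2]
    linarith

lemma Cm_bound (m : ℕ) : up m * Cm m ≤ (32 + 16 * (2 * Real.pi ^ 2) * (4 * 2 ^ 24)) / 2 ^ m := by
  have hpi0 := Real.pi_pos
  have hpi4 := Real.pi_le_four
  have hup : up m ≤ 4 * al m := by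
    unfold up
    split_ifs with h
    · rw [h, al_zero]; linarith
    · have := al_pos m
      linarith
  have hGpos : (0 : ℝ) < G m := by exact_mod_cast G_pos m
  have hqpos : (0 : ℝ) < q m := by exact_mod_cast q_pos m
  have hapos := al_pos m
  have hapos1 := al_pos (m + 1)
  have hCm : 0 ≤ Cm m := by unfold Cm; positivity
  -- the two terms
  have t1 : al m * q m = 1 / 2 ^ m := by
    unfold al q
    push_cast
    rw [one_div_mul_eq_div, div_eq_div_iff (by positivity) (by positivity), ← pow_add, one_mul,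
      show m * (m + 2) + m = m * (m + 3) by ring]
  have t2 : al m * (1 / (al (m + 1) * G m) ^ 2) ≤ 4 * 2 ^ 24 / 2 ^ m := by
    have h1 : al (m + 1) * (2 ^ (m ^ 2) / 2) ≤ al (m + 1) * G m :=
      mul_le_mul_of_nonneg_left (by linarith [two_G m]) hapos1.le
    have h2 : 0 < al (m + 1) * ((2 : ℝ) ^ (m ^ 2) / 2) := by positivity
    calc al m * (1 / (al (m + 1) * G m) ^ 2)
        ≤ al m * (1 / (al (m + 1) * (2 ^ (m ^ 2) / 2)) ^ 2) := by
          refine mul_le_mul_of_nonneg_left ?_ hapos.le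
          exact one_div_le_one_div_of_le (by positivity) (pow_le_pow_left₀ h2.le h1 2)
      _ = 4 * (2 ^ (7 * m + 8) / 2 ^ (m ^ 2)) := by
          unfold al
          have e : (2 : ℝ) ^ (2 * ((m + 1) * (m + 1 + 3))) * 2 ^ (m ^ 2)
              = 2 ^ (7 * m + 8) * (2 ^ (m * (m + 3)) * 2 ^ (2 * m ^ 2)) := by
            rw [← pow_add, ← pow_add, ← pow_add]
            congr 1
            ring
          have e2 : (2 : ℝ) ^ (2 * m ^ 2) = (2 ^ (m ^ 2)) ^ 2 := by rw [← pow_mul]; congr 1; ring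
          have e3 : (2 : ℝ) ^ (2 * ((m + 1) * (m + 1 + 3))) = (2 ^ ((m + 1) * (m + 1 + 3))) ^ 2 := by
            rw [← pow_mul]; congr 1; ring
          rw [e2, e3] at e
          have p1 : (0 : ℝ) < 2 ^ (m ^ 2) := by positivity
          have p2 : (0 : ℝ) < 2 ^ ((m + 1) * (m + 1 + 3)) := by positivity
          have p3 : (0 : ℝ) < 2 ^ (m * (m + 3)) := by positivity
          have e4 : ((2 : ℝ) ^ ((m + 1) * (m + 1 + 3))) ^ 2
              = 2 ^ (7 * m + 8) * (2 ^ (m * (m + 3)) * 2 ^ (m ^ 2)) :=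
            mul_right_cancel₀ p1.ne' (by rw [e]; ring)
          have e5 : (1 : ℝ) / 2 ^ (m * (m + 3)) * (1 / (1 / 2 ^ ((m + 1) * (m + 1 + 3)) *
              (2 ^ (m ^ 2) / 2)) ^ 2) = 4 * (2 ^ ((m + 1) * (m + 1 + 3))) ^ 2 /
              (2 ^ (m * (m + 3)) * (2 ^ (m ^ 2)) ^ 2) := by
            field_simp
            norm_num
          rw [e5, e4]
          field_simp
      _ ≤ 4 * (2 ^ 24 / 2 ^ m) := by
          refine mul_le_mul_of_nonneg_left ?_ (by norm_num)
          rw [div_le_div_iff₀ (by positivity) (by positivity), ← pow_add, ← pow_add]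
          refine pow_le_pow_right₀ (by norm_num) ?_
          nlinarith [sq_nonneg ((m : ℤ) - 4)]
      _ = 4 * 2 ^ 24 / 2 ^ m := by ring
  calc up m * Cm m ≤ 4 * al m * Cm m := mul_le_mul_of_nonneg_right hup hCm
    _ = 32 * (al m * q m) + 16 * (2 * Real.pi ^ 2) * (al m * (1 / (al (m + 1) * G m) ^ 2)) := by
        unfold Cm; ring
    _ ≤ 32 * (1 / 2 ^ m) + 16 * (2 * Real.pi ^ 2) * (4 * 2 ^ 24 / 2 ^ m) := by
        rw [t1]
        have := mul_le_mul_of_nonneg_left t2 (show 0 ≤ 16 * (2 * Real.pi ^ 2) by positivity)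
        linarith
    _ = (32 + 16 * (2 * Real.pi ^ 2) * (4 * 2 ^ 24)) / 2 ^ m := by ring

lemma lintegral_Rbar : ∫⁻ t in Ioc 0 Real.pi, Rbar t ≠ ⊤ := by
  have h1 : ∫⁻ t in Ioc 0 Real.pi, Rbar t ≤ ∫⁻ t, Rbar t := setLIntegral_le_lintegral _ _
  refine ne_top_of_le_ne_top ?_ h1
  unfold Rbar
  rw [lintegral_tsum (fun m => (measurable_const.indicator measurableSet_Ioc).aemeasurable)]
  have h2 : ∀ m, ∫⁻ t, (Ioc (al (m + 1)) (up m)).indicator (fun _ => ENNReal.ofReal (Cm m)) t
      ≤ ENNReal.ofReal ((32 + 16 * (2 * Real.pi ^ 2) * (4 * 2 ^ 24)) / 2 ^ m) := by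
    intro m
    rw [lintegral_indicator_const measurableSet_Ioc, Real.volume_Ioc]
    have hCm : 0 ≤ Cm m := by unfold Cm; positivity
    rw [← ENNReal.ofReal_mul hCm]
    refine ENNReal.ofReal_le_ofReal (le_trans ?_ (Cm_bound m))
    rw [mul_comm]
    exact mul_le_mul_of_nonneg_right (by linarith [al_pos (m + 1)]) hCm
  refine ne_top_of_le_ne_top ?_ (ENNReal.tsum_le_tsum h2)
  have h3 : Summable fun m : ℕ => (32 + 16 * (2 * Real.pi ^ 2) * (4 * 2 ^ 24)) / (2 : ℝ) ^ m := by
    have : Summable fun m : ℕ => ((1 : ℝ) / 2) ^ m :=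
      summable_geometric_of_lt_one (by norm_num) (by norm_num)
    refine (this.mul_left (32 + 16 * (2 * Real.pi ^ 2) * (4 * 2 ^ 24))).congr fun m => ?_
    rw [one_div_pow]
    ring
  rw [← ENNReal.ofReal_tsum_of_nonneg (fun m => by positivity) h3]
  exact ENNReal.ofReal_ne_top

end Pool.Agent.Helper98.PointWalk
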