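import Mathlib
import Pool.Agent.Helper98.PointWalkScales

/-!
# Gaps of the Toeplitz set: integer arithmetic
-/

open Finset

namespace Pool.Agent.Helper98.PointWalk

lemma q_dvd {l m : ℕ} (h : l ≤ m) : (q l : ℤ) ∣ q m := by
  unfold q
  push_cast
  exact pow_dvd_pow _ (Nat.mul_le_mul h (by omega))

lemma G_sub_dvd {l m : ℕ} (h : l ≤ m) : (q l : ℤ) ∣ (G m : ℤ) - G l := by
  induction m, h using Nat.le_induction with
  | base => simp
  | succ m hm ih =>
    rw [G_succ]
    push_cast
    have : ((G m : ℤ) + q m - G l) = (G m - G l) + q m := by ring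
    rw [this]
    exact dvd_add ih (q_dvd hm)

/-- the bad residues: the last block of length `q k` in each period `q (k+1)` -/
def Ok (k : ℕ) (x : ℤ) : Prop := x % q (k + 1) < q (k + 1) - q k

lemma ok_congr {k : ℕ} {x y : ℤ} (h : (q (k + 1) : ℤ) ∣ x - y) : Ok k x ↔ Ok k y := by
  have e : x % (q (k + 1) : ℤ) = y % (q (k + 1) : ℤ) :=
    Int.emod_eq_emod_iff_emod_sub_eq_zero.2 (Int.emod_eq_zero_of_dvd h)
  unfold Ok
  rw [e]

lemma not_ok_neg {m : ℕ} {j : ℤ} (h0 : 0 < j) (h1 : j < G m) : ∃ k < m, ¬ Ok k (-j) := by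
  induction m generalizing j with
  | zero => rw [G_zero] at h1; push_cast at h1; omega
  | succ m ih =>
    rw [G_succ] at h1
    push_cast at h1
    by_cases hj : j ≤ q m
    · refine ⟨m, by omega, ?_⟩
      unfold Ok
      have h8 := eight_mul_q_le m
      have hq := q_pos m
      have : (-j) % (q (m + 1) : ℤ) = q (m + 1) - j := by
        rw [← Int.add_emod_right, Int.emod_eq_of_lt] <;> omega
      rw [this]
      omega
    · obtain ⟨k, hk, hk'⟩ := ih (j := j - q m) (by omega) (by omega)
      refine ⟨k, by omega, ?_⟩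
      rw [ok_congr (y := -(j - q m))]
      · exact hk'
      · have : -j - -(j - (q m : ℤ)) = - (q m : ℤ) := by ring
        rw [this]
        exact (q_dvd (by omega)).neg_right

/-- **The gap lemma.** -/
lemma gap_lemma {r : ℕ → ℤ} (hr0 : ∀ m, 0 ≤ r m) (hr1 : ∀ m, r m < q m)
    (hcompat : ∀ l m, l ≤ m → (q l : ℤ) ∣ r m - r l) (hA : ∀ k, Ok k (r (k + 1))) (m : ℕ) :
    ∃ s : ℤ, |s| ≤ 2 * q m ∧ (∀ k, Ok k (r (k + 1) + s)) ∧ (∀ k, Ok k (r (k + 1) + (s + G m))) ∧
      ∀ j : ℤ, 0 < j → j < G m → ∃ k, ¬ Ok k (r (k + 1) + (s + j)) := by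
  have hqm := q_pos m
  have hGm := G_pos m
  have hGq := G_le m
  have h0 := hr0 m
  have h1 := hr1 m
  -- a common description
  have main : ∀ s : ℤ, (q m : ℤ) ∣ r m + s + G m → |s| ≤ 2 * q m →
      (∀ k, m ≤ k → Ok k (r (k + 1) + s)) → (∀ k, m ≤ k → Ok k (r (k + 1) + (s + G m))) →
      ∃ s : ℤ, |s| ≤ 2 * q m ∧ (∀ k, Ok k (r (k + 1) + s)) ∧
        (∀ k, Ok k (r (k + 1) + (s + G m))) ∧
        ∀ j : ℤ, 0 < j → j < G m → ∃ k, ¬ Ok k (r (k + 1) + (s + j)) := by
    intro s hs habs h2 h3
    have hdvd : ∀ k < m, (q (k + 1) : ℤ) ∣ r (k + 1) + s + G m := by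
      intro k hk
      have e1 : (q (k + 1) : ℤ) ∣ r m - r (k + 1) := hcompat _ _ hk
      have e2 : (q (k + 1) : ℤ) ∣ r m + s + G m := (q_dvd hk).trans hs
      have e3 : r (k + 1) + s + G m = (r m + s + G m) - (r m - r (k + 1)) := by ring
      rw [e3]
      exact dvd_sub e2 e1
    refine ⟨s, habs, ?_, ?_, ?_⟩
    · intro k
      rcases le_or_gt m k with hk | hk
      · exact h2 k hk
      · have h8 := eight_mul_q_le k
        have hq := q_pos k
        have hG := G_le k
        have hG' := G_succ k
        have hGp := G_pos k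
        rw [ok_congr (y := -(G (k + 1) : ℤ))]
        · unfold Ok
          have : (-(G (k + 1) : ℤ)) % (q (k + 1) : ℤ) = q (k + 1) - G (k + 1) := by
            rw [← Int.add_emod_right, Int.emod_eq_of_lt] <;> omega
          rw [this]
          omega
        · have e1 := hdvd k hk
          have e2 := G_sub_dvd (show k + 1 ≤ m from hk)
          have e3 : r (k + 1) + s - -(G (k + 1) : ℤ)
              = (r (k + 1) + s + G m) - (G m - G (k + 1)) := by ring
          rw [e3]
          exact dvd_sub e1 e2
    · intro k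
      rcases le_or_gt m k with hk | hk
      · exact h3 k hk
      · have h8 := eight_mul_q_le k
        have hq := q_pos k
        rw [ok_congr (y := 0)]
        · unfold Ok
          rw [Int.zero_emod]
          omega
        · rw [sub_zero, ← add_assoc]
          exact hdvd k hk
    · intro j hj0 hj1
      obtain ⟨k, hk, hk'⟩ := not_ok_neg (m := m) (j := G m - j) (by omega) (by omega)
      refine ⟨k, ?_⟩
      rw [ok_congr (y := -((G m : ℤ) - j))]
      · exact hk'
      · have e1 := hdvd k hk
        have e3 : r (k + 1) + (s + j) - -((G m : ℤ) - j) = r (k + 1) + s + G m := by ring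
        rw [e3]
        exact e1
  -- properties of the residues at higher levels
  have hhigh : ∀ k, m ≤ k → ∃ a : ℤ, 0 ≤ a ∧ r (k + 1) = r m + q m * a ∧
      q m * a + q m ≤ q (k + 1) - q k := by
    intro k hk
    obtain ⟨a, ha⟩ := hcompat m (k + 1) (by omega)
    have e1 := hA k
    unfold Ok at e1
    rw [Int.emod_eq_of_lt (hr0 _) (hr1 _)] at e1
    have e2 := hr0 (k + 1)
    obtain ⟨b, hb⟩ := q_dvd (show m ≤ k + 1 by omega)
    obtain ⟨c, hc⟩ := q_dvd hk
    refine ⟨a, ?_, by linarith, ?_⟩
    · by_contra h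
      push Not at h
      have : (q m : ℤ) * a ≤ q m * (-1) := mul_le_mul_of_nonneg_left (by omega) (by positivity)
      linarith
    · have e3 : (q m : ℤ) * a < q m * (b - c) := by rw [mul_sub, ← hb, ← hc]; linarith
      have e4 : a < b - c := lt_of_mul_lt_mul_left e3 (by positivity)
      have e5 : (q m : ℤ) * (a + 1) ≤ q m * (b - c) :=
        mul_le_mul_of_nonneg_left (by omega) (by positivity)
      rw [mul_sub, ← hb, ← hc] at e5
      linarith
  have hok : ∀ k (x : ℤ), 0 ≤ x → x < q (k + 1) - q k → Ok k x := by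
    intro k x hx0 hx1
    unfold Ok
    rw [Int.emod_eq_of_lt hx0 (by have := q_pos k; omega)]
    exact hx1
  have h8m := eight_mul_q_le m
  by_cases hcase : r (m + 1) < q (m + 1) - 2 * q m
  · -- forward gap
    refine main (q m - G m - r m) ⟨1, by ring⟩ (by rw [abs_le]; constructor <;> omega) ?_ ?_
    · intro k hk
      obtain ⟨a, ha0, ha1, ha2⟩ := hhigh k hk
      have hqa : 0 ≤ (q m : ℤ) * a := by positivity
      apply hok
      · rw [ha1]; omega
      · rw [ha1]; omega
    · intro k hk
      obtain ⟨a, ha0, ha1, ha2⟩ := hhigh k hk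
      have hqa : 0 ≤ (q m : ℤ) * a := by positivity
      have e : r (k + 1) + (q m - G m - r m + G m) = q m * a + q m := by rw [ha1]; ring
      rw [e]
      apply hok
      · omega
      · rcases Nat.lt_or_ge m k with hk' | hk'
        · -- k > m : strict inequality by divisibility
          obtain ⟨b, hb⟩ := hcompat (m + 1) (k + 1) (by omega)
          have e1 := hA k
          unfold Ok at e1
          rw [Int.emod_eq_of_lt (hr0 _) (hr1 _)] at e1
          obtain ⟨c, hc⟩ := q_dvd (show m + 1 ≤ k + 1 by omega)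
          obtain ⟨d, hd⟩ := q_dvd (show m + 1 ≤ k by omega)
          have e2 : (q (m + 1) : ℤ) * b < q (m + 1) * (c - d) := by
            rw [mul_sub, ← hc, ← hd]
            linarith [hr0 (m + 1)]
          have e3 : b < c - d := lt_of_mul_lt_mul_left e2 (by positivity)
          have e4 : (q (m + 1) : ℤ) * (b + 1) ≤ q (m + 1) * (c - d) :=
            mul_le_mul_of_nonneg_left (by omega) (by positivity)
          rw [mul_sub, ← hc, ← hd] at e4
          have e5 : (q m : ℤ) * a = r (k + 1) - r m := by linarith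
          have e6 : (q (m + 1) : ℤ) * (b + 1) = q (m + 1) * b + q (m + 1) := by ring
          omega
        · have hkm : k = m := by omega
          subst hkm
          omega
  · -- backward gap
    refine main (- G m - r m) ⟨0, by ring⟩ (by rw [abs_le]; constructor <;> omega) ?_ ?_
    · intro k hk
      obtain ⟨a, ha0, ha1, ha2⟩ := hhigh k hk
      have hrk : r (m + 1) ≤ r (k + 1) := by
        obtain ⟨b, hb⟩ := hcompat (m + 1) (k + 1) (by omega)
        by_contra h
        push Not at h
        have hb0 : b < 0 := by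
          by_contra hb0
          push Not at hb0
          have : 0 ≤ (q (m + 1) : ℤ) * b := by positivity
          omega
        have : (q (m + 1) : ℤ) * b ≤ q (m + 1) * (-1) :=
          mul_le_mul_of_nonneg_left (by omega) (by positivity)
        have := hr0 (k + 1)
        have := hr1 (m + 1)
        omega
      apply hok
      · omega
      · omega
    · intro k hk
      obtain ⟨a, ha0, ha1, ha2⟩ := hhigh k hk
      have hqa : 0 ≤ (q m : ℤ) * a := by positivity
      apply hok
      · omega
      · omega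

end Pool.Agent.Helper98.PointWalk
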