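import Mathlib
import Pool.Agent.Helper98.PointWalkDefs
import Pool.Agent.Helper98.PointWalkGaps

/-!
# The 2-adic odometer and the point process
-/

open MeasureTheory ProbabilityTheory Filter Topology Set
open scoped ENNReal

namespace Pool.Agent.Helper98.PointWalk

noncomputable section

local instance : MeasurableSpace ℤ_[2] := borel ℤ_[2]
local instance : BorelSpace ℤ_[2] := ⟨rfl⟩

/-- the exponent of `q m` -/
def ex (m : ℕ) : ℕ := m * (m + 2)

lemma q_eq (m : ℕ) : q m = 2 ^ ex m := rfl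

/-- the residue modulo `q m` as an integer -/
def rr (m : ℕ) (z : ℤ_[2]) : ℤ := ((PadicInt.toZModPow (ex m) z).val : ℤ)

lemma rr_nonneg (m : ℕ) (z : ℤ_[2]) : 0 ≤ rr m z := by unfold rr; positivity

lemma rr_lt (m : ℕ) (z : ℤ_[2]) : rr m z < q m := by
  unfold rr
  have : NeZero (2 ^ ex m) := ⟨by positivity⟩
  have := ZMod.val_lt (PadicInt.toZModPow (p := 2) (ex m) z)
  rw [q_eq]
  exact_mod_cast this

lemma rr_add (m : ℕ) (z : ℤ_[2]) (n : ℤ) : rr m (z + n) = (rr m z + n) % q m := by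
  unfold rr
  have : NeZero (2 ^ ex m) := ⟨by positivity⟩
  rw [map_add, map_intCast]
  set x := PadicInt.toZModPow (p := 2) (ex m) z
  have h1 : x + (n : ZMod (2 ^ ex m)) = (((x.val : ℤ) + n : ℤ) : ZMod (2 ^ ex m)) := by
    push_cast
    rw [ZMod.natCast_zmod_val]
  rw [h1, ZMod.val_intCast, q_eq]

lemma rr_compat (z : ℤ_[2]) (l m : ℕ) (h : l ≤ m) : (q l : ℤ) ∣ rr m z - rr l z := by
  have hex : ex l ≤ ex m := Nat.mul_le_mul h (by omega)
  have h1 := PadicInt.cast_toZModPow (p := 2) (ex l) (ex m) hex z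
  have : NeZero (2 ^ ex m) := ⟨by positivity⟩
  have : NeZero (2 ^ ex l) := ⟨by positivity⟩
  have h2 : ((rr m z : ℤ) : ZMod (2 ^ ex l)) = ((rr l z : ℤ) : ZMod (2 ^ ex l)) := by
    unfold rr
    rw [← h1]
    push_cast
    rw [ZMod.natCast_zmod_val, ← ZMod.cast_eq_val]
  rw [← sub_eq_zero, ← Int.cast_sub, ZMod.intCast_zmod_eq_zero_iff_dvd] at h2
  rw [q_eq]
  exact_mod_cast h2

/-- the Toeplitz set -/
def A : Set ℤ_[2] := {z | ∀ k, Ok k (rr (k + 1) z)}

lemma add_mem_A (z : ℤ_[2]) (n : ℤ) : z + n ∈ A ↔ ∀ k, Ok k (rr (k + 1) z + n) := by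
  unfold A
  rw [mem_ofPred_eq]
  refine forall_congr' fun k => ?_
  rw [rr_add]
  refine ok_congr ⟨-((rr (k + 1) z + n) / q (k + 1)), ?_⟩
  have := Int.emod_add_mul_ediv (rr (k + 1) z + n) (q (k + 1))
  linarith

/-- The gap property: near every point of the set there is a gap of length exactly `G m`. -/
lemma exists_gap {z : ℤ_[2]} (hz : z ∈ A) (m : ℕ) :
    ∃ s : ℤ, |s| ≤ 2 * q m ∧ z + s ∈ A ∧ z + (s + G m : ℤ) ∈ A ∧
      ∀ j : ℤ, 0 < j → j < G m → z + (s + j : ℤ) ∉ A := by
  obtain ⟨s, h1, h2, h3, h4⟩ := gap_lemma (r := fun m => rr m z) (fun m => rr_nonneg m z)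
    (fun m => rr_lt m z) (fun l m h => rr_compat z l m h) hz m
  refine ⟨s, h1, ?_, ?_, ?_⟩
  · rw [add_mem_A]; exact h2
  · rw [add_mem_A]; exact h3
  · intro j hj0 hj1
    rw [add_mem_A]
    push Not
    exact h4 j hj0 hj1

/-- the kernel of reduction modulo `2^e` -/
def ker (e : ℕ) : AddSubgroup ℤ_[2] :=
  (PadicInt.toZModPow (p := 2) e).toAddMonoidHom.ker

lemma mem_ker (e : ℕ) (z : ℤ_[2]) : z ∈ ker e ↔ PadicInt.toZModPow e z = 0 := Iff.rfl

lemma measurableSet_ker (e : ℕ) : MeasurableSet (ker e : Set ℤ_[2]) := by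
  have h : (ker e : Set ℤ_[2]) = {z | ‖z‖ ≤ (2 : ℝ) ^ (-(e : ℤ))} := by
    ext z
    have h1 := PadicInt.norm_le_pow_iff_mem_span_pow (p := 2) z e
    have h2 : z ∈ ker e ↔ z ∈ Ideal.span {(2 : ℤ_[2]) ^ e} := by
      rw [mem_ker, ← RingHom.mem_ker, PadicInt.ker_toZModPow]
      rfl
    rw [SetLike.mem_coe, h2, mem_ofPred_eq]
    exact h1.symm
  rw [h]
  exact (isClosed_le continuous_norm continuous_const).measurableSet

/-- normalized Haar measure -/
def haar2 : Measure ℤ_[2] := Measure.addHaarMeasure ⊤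

instance : IsProbabilityMeasure haar2 :=
  ⟨by
    have := Measure.addHaarMeasure_self (K₀ := (⊤ : TopologicalSpace.PositiveCompacts ℤ_[2]))
    simpa [haar2] using this⟩

instance : haar2.IsAddHaarMeasure := by unfold haar2; infer_instance

lemma surj (e : ℕ) : Function.Surjective (PadicInt.toZModPow (p := 2) e) := ZMod.ringHom_surjective _

lemma haar_ker (e : ℕ) : haar2 (ker e) = ((2 ^ e : ℕ) : ℝ≥0∞)⁻¹ := by
  have hidx : (ker e).index = 2 ^ e := by
    have h1 := AddSubgroup.index_ker (PadicInt.toZModPow (p := 2) e).toAddMonoidHom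
    have h2 : ((PadicInt.toZModPow (p := 2) e).toAddMonoidHom).range = ⊤ :=
      AddMonoidHom.range_eq_top.2 (surj e)
    unfold ker
    rw [h1, h2]
    simp
  have hf : (ker e).FiniteIndex := ⟨by rw [hidx]; positivity⟩
  have h := AddSubgroup.index_mul_measure (ker e) (measurableSet_ker e) haar2
  rw [hidx, measure_univ] at h
  exact ENNReal.eq_inv_of_mul_eq_one_left (by rw [mul_comm]; exact h)

lemma fiber_eq (e : ℕ) (c : ℤ_[2]) :
    {z : ℤ_[2] | PadicInt.toZModPow e z = PadicInt.toZModPow e c} = (fun z => -c + z) ⁻¹' ker e := by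
  ext z
  rw [mem_preimage, SetLike.mem_coe, mem_ker, map_add, map_neg, mem_ofPred_eq]
  constructor
  · intro h; rw [h]; ring
  · intro h
    have : PadicInt.toZModPow (p := 2) e z - PadicInt.toZModPow e c = 0 := by rw [← h]; ring
    exact sub_eq_zero.1 this

lemma measurableSet_rr (m : ℕ) (v : ℤ) : MeasurableSet {z | rr m z = v} := by
  by_cases h : ∃ c, rr m c = v
  · obtain ⟨c, hc⟩ := h
    have : {z | rr m z = v} = {z : ℤ_[2] | PadicInt.toZModPow (ex m) z = PadicInt.toZModPow (ex m) c} := by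
      ext z
      simp only [mem_ofPred_eq, ← hc]
      unfold rr
      rw [Nat.cast_inj]
      have : NeZero (2 ^ ex m) := ⟨by positivity⟩
      exact (ZMod.val_injective _).eq_iff
    rw [this, fiber_eq]
    exact (measurable_const_add (-c)) (measurableSet_ker _)
  · push Not at h
    have : {z | rr m z = v} = ∅ := by
      ext z
      simp [h z]
    rw [this]
    exact MeasurableSet.empty

lemma measurable_rr (m : ℕ) : Measurable (rr m) :=
  measurable_to_countable' fun v => measurableSet_rr m v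

lemma haar_rr_le (m : ℕ) (v : ℤ) : haar2 {z | rr m z = v} ≤ (q m : ℝ≥0∞)⁻¹ := by
  by_cases h : ∃ c, rr m c = v
  · obtain ⟨c, hc⟩ := h
    have : {z | rr m z = v} = {z : ℤ_[2] | PadicInt.toZModPow (ex m) z = PadicInt.toZModPow (ex m) c} := by
      ext z
      simp only [mem_ofPred_eq, ← hc]
      unfold rr
      rw [Nat.cast_inj]
      have : NeZero (2 ^ ex m) := ⟨by positivity⟩
      exact (ZMod.val_injective _).eq_iff
    rw [this, fiber_eq, measure_preimage_add, haar_ker, q_eq]
  · push Not at h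
    have : {z | rr m z = v} = ∅ := by
      ext z
      simp [h z]
    rw [this, measure_empty]
    exact zero_le

lemma measurableSet_A : MeasurableSet A := by
  have : A = ⋂ k, (rr (k + 1)) ⁻¹' {x | Ok k x} := by
    ext z
    simp [A]
  rw [this]
  refine MeasurableSet.iInter fun k => ?_
  exact measurable_rr (k + 1) (MeasurableSet.of_discrete)

lemma haar_bad (m : ℕ) : haar2 {z | ¬ Ok m (rr (m + 1) z)} ≤ (2 ^ (2 * m + 3) : ℝ≥0∞)⁻¹ := by
  have hsub : {z | ¬ Ok m (rr (m + 1) z)}
      ⊆ ⋃ i ∈ Finset.range (q m), {z | rr (m + 1) z = q (m + 1) - q m + i} := by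
    intro z hz
    rw [mem_ofPred_eq] at hz
    unfold Ok at hz
    rw [Int.emod_eq_of_lt (rr_nonneg _ _) (rr_lt _ _)] at hz
    push Not at hz
    have h1 := rr_lt (m + 1) z
    simp only [mem_iUnion, Finset.mem_range, mem_ofPred_eq, exists_prop]
    refine ⟨(rr (m + 1) z - (q (m + 1) - q m)).toNat, ?_, ?_⟩
    · omega
    · omega
  refine (measure_mono hsub).trans ((measure_biUnion_finset_le _ _).trans ?_)
  refine (Finset.sum_le_sum fun i _ => haar_rr_le (m + 1) _).trans ?_
  rw [Finset.sum_const, Finset.card_range, nsmul_eq_mul, q_succ]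
  have hq : (q m : ℝ≥0∞) ≠ 0 := by exact_mod_cast (q_pos m).ne'
  push_cast
  rw [ENNReal.mul_inv (Or.inr (ENNReal.natCast_ne_top _)) (Or.inr hq), mul_comm, mul_assoc,
    ENNReal.inv_mul_cancel hq (ENNReal.natCast_ne_top _), mul_one]

lemma haar_compl_A : haar2 Aᶜ < 1 := by
  have hsub : Aᶜ ⊆ ⋃ m, {z | ¬ Ok m (rr (m + 1) z)} := by
    intro z hz
    simp only [A, mem_compl_iff, mem_ofPred_eq, not_forall] at hz
    simpa using hz
  refine lt_of_le_of_lt ((measure_mono hsub).trans (measure_iUnion_le _)) ?_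
  have h1 : ∀ m : ℕ, haar2 {z | ¬ Ok m (rr (m + 1) z)} ≤ ENNReal.ofReal ((1 / 4) * (1 / 2) ^ m) := by
    intro m
    refine (haar_bad m).trans ?_
    have : (2 ^ (2 * m + 3) : ℝ≥0∞)⁻¹ = ENNReal.ofReal ((2 ^ (2 * m + 3))⁻¹) := by
      rw [ENNReal.ofReal_inv_of_pos (by positivity), ENNReal.ofReal_pow (by norm_num)]
      norm_num
    rw [this]
    refine ENNReal.ofReal_le_ofReal ?_
    have e : (1 : ℝ) / 4 * (1 / 2) ^ m = (2 ^ (m + 2))⁻¹ := by
      rw [one_div_pow, pow_add]
      field_simp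
      norm_num
    rw [e]
    refine inv_anti₀ (by positivity) ?_
    exact pow_le_pow_right₀ (by norm_num) (by omega)
  refine lt_of_le_of_lt (ENNReal.tsum_le_tsum h1) ?_
  have hs : Summable fun m : ℕ => (1 : ℝ) / 4 * (1 / 2) ^ m :=
    (summable_geometric_of_lt_one (by norm_num) (by norm_num)).mul_left _
  rw [← ENNReal.ofReal_tsum_of_nonneg (fun m => by positivity) hs, tsum_mul_left,
    tsum_geometric_of_lt_one (by norm_num) (by norm_num)]
  rw [ENNReal.ofReal_lt_one]
  norm_num

/-! ### the point process -/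

open Classical in
/-- the configuration attached to `z` -/
def Psi (z : ℤ_[2]) : Config 2 := fun x => decide (z + ((x 0 + x 1 : ℤ) : ℤ_[2]) ∈ A)

lemma Psi_apply (z : ℤ_[2]) (x : Site 2) :
    Psi z x = true ↔ z + ((x 0 + x 1 : ℤ) : ℤ_[2]) ∈ A := by simp [Psi]

lemma measurable_Psi : Measurable Psi := by
  rw [measurable_pi_iff]
  intro x
  refine measurable_to_bool ?_
  have : (fun z => Psi z x) ⁻¹' {true} = (fun z : ℤ_[2] => z + ((x 0 + x 1 : ℤ) : ℤ_[2])) ⁻¹' A := by
    ext z
    rw [mem_preimage, mem_singleton_iff, Psi_apply]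
    rfl
  rw [this]
  exact (measurable_add_const _) measurableSet_A

/-- the law of the point process -/
def Q : Measure (Config 2) := haar2.map Psi

lemma shift_Psi (i : Fin 2) (z : ℤ_[2]) : shift (Pi.single i 1) (Psi z) = Psi (1 + z) := by
  ext x
  rw [Bool.eq_iff_iff, Psi_apply]
  unfold shift
  rw [Psi_apply]
  have : z + ((((Pi.single i 1 : Site 2) + x) 0 + ((Pi.single i 1 : Site 2) + x) 1 : ℤ) : ℤ_[2])
      = 1 + z + ((x 0 + x 1 : ℤ) : ℤ_[2]) := by
    fin_cases i <;> simp <;> ring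
  rw [this]

lemma measurable_shift (x : Site 2) : Measurable (shift x) := by
  rw [measurable_pi_iff]
  intro y
  exact measurable_pi_apply _

lemma ergodic_one : Ergodic (fun z : ℤ_[2] => 1 + z) haar2 := by
  refine ergodic_add_left_of_denseRange_zsmul ?_ haar2
  have : (fun n : ℤ => n • (1 : ℤ_[2])) = (Int.cast : ℤ → ℤ_[2]) := by
    ext n
    simp
  rw [this]
  exact PadicInt.denseRange_intCast

lemma isDiscretePointProcess_Q : IsDiscretePointProcess Q where
  isProbabilityMeasure := Measure.isProbabilityMeasure_map measurable_Psi.aemeasurable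
  ergodic i := by
    have hmp : MeasurePreserving Psi haar2 Q := ⟨measurable_Psi, rfl⟩
    refine hmp.ergodic_of_ergodic_semiconj ergodic_one (measurable_shift _) ?_
    intro z
    exact (shift_Psi i z).symm
  nonempty := by
    have hm : MeasurableSet {ω : Config 2 | ∀ x, ω x = false} := by
      have : {ω : Config 2 | ∀ x, ω x = false} = ⋂ x, (fun ω : Config 2 => ω x) ⁻¹' {false} := by
        ext ω; simp
      rw [this]
      exact MeasurableSet.iInter fun x => (measurable_pi_apply x) (measurableSet_singleton _)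
    rw [Q, Measure.map_apply measurable_Psi hm]
    refine lt_of_le_of_lt (measure_mono ?_) haar_compl_A
    intro z hz hzA
    rw [mem_preimage, mem_ofPred_eq] at hz
    have h1 := hz 0
    have h2 := (Psi_apply z 0).2 (by simpa using hzA)
    rw [h1] at h2
    exact Bool.false_ne_true h2

end

end Pool.Agent.Helper98.PointWalk
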