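import Mathlib
import Pool.Agent.Helper98.PointWalkOdometer

/-!
# Good configurations
-/

open MeasureTheory ProbabilityTheory Filter Topology Set
open scoped ENNReal

namespace Pool.Agent.Helper98.PointWalk

/-- the point `(n, 0)` -/
def pt (n : ℤ) : Site 2 := ![n, 0]

/-- the properties of the configurations used below -/
structure Good (ω : Config 2) : Prop where
  diag : ∀ x y : Site 2, x 0 + x 1 = y 0 + y 1 → ω x = ω y
  zero : ω 0 = true
  up : ∀ k : ℕ, ∃ n : ℤ, k ≤ n ∧ ω (pt n) = true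
  down : ∀ k : ℕ, ∃ n : ℤ, n ≤ -k ∧ ω (pt n) = true
  gaps : ∀ m : ℕ, ∃ s : ℤ, |s| ≤ 2 * q m ∧ ω (pt s) = true ∧ ω (pt (s + G m)) = true ∧
    ∀ j : ℤ, 0 < j → j < G m → ω (pt (s + j)) = false

lemma measurable_coord (x : Site 2) (b : Bool) : Measurable fun ω : Config 2 => ω x = b := by
  have : (fun ω : Config 2 => ω x = b) = (fun c : Bool => c = b) ∘ (fun ω => ω x) := rfl
  rw [this]
  exact (measurable_of_countable _).comp (measurable_pi_apply x)

lemma measurableSet_good : MeasurableSet {ω : Config 2 | Good ω} := by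
  have : {ω : Config 2 | Good ω} = {ω | (∀ x y : Site 2, x 0 + x 1 = y 0 + y 1 → ω x = ω y) ∧
      ω 0 = true ∧ (∀ k : ℕ, ∃ n : ℤ, k ≤ n ∧ ω (pt n) = true) ∧
      (∀ k : ℕ, ∃ n : ℤ, n ≤ -k ∧ ω (pt n) = true) ∧
      ∀ m : ℕ, ∃ s : ℤ, |s| ≤ 2 * q m ∧ ω (pt s) = true ∧ ω (pt (s + G m)) = true ∧
        ∀ j : ℤ, 0 < j → j < G m → ω (pt (s + j)) = false} := by
    ext ω
    exact ⟨fun h => ⟨h.1, h.2, h.3, h.4, h.5⟩, fun h => ⟨h.1, h.2.1, h.2.2.1, h.2.2.2.1, h.2.2.2.2⟩⟩
  rw [this]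
  refine MeasurableSet.inter ?_ (MeasurableSet.inter ?_ (MeasurableSet.inter ?_
    (MeasurableSet.inter ?_ ?_)))
  · have : {ω : Config 2 | ∀ x y : Site 2, x 0 + x 1 = y 0 + y 1 → ω x = ω y}
        = ⋂ x, ⋂ y, {ω : Config 2 | x 0 + x 1 = y 0 + y 1 → ω x = ω y} := by
      ext ω; simp
    change MeasurableSet {ω : Config 2 | ∀ x y : Site 2, x 0 + x 1 = y 0 + y 1 → ω x = ω y}
    rw [this]
    refine MeasurableSet.iInter fun x => MeasurableSet.iInter fun y => ?_
    by_cases h : x 0 + x 1 = y 0 + y 1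
    · simp only [h, true_implies]
      exact measurableSet_eq_fun (measurable_pi_apply x) (measurable_pi_apply y)
    · simp only [h, false_implies]
      exact MeasurableSet.univ
  · exact measurableSet_setOfPred.2 (measurable_coord 0 true)
  · refine measurableSet_setOfPred.2 (Measurable.forall fun k => Measurable.exists fun n => ?_)
    exact measurable_const.and (measurable_coord _ _)
  · refine measurableSet_setOfPred.2 (Measurable.forall fun k => Measurable.exists fun n => ?_)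
    exact measurable_const.and (measurable_coord _ _)
  · refine measurableSet_setOfPred.2 (Measurable.forall fun k => Measurable.exists fun n => ?_)
    refine measurable_const.and ((measurable_coord _ _).and ((measurable_coord _ _).and ?_))
    refine Measurable.forall fun j => ?_
    exact measurable_const.imp (measurable_const.imp (measurable_coord _ _))

section

noncomputable local instance : MeasurableSpace ℤ_[2] := borel ℤ_[2]
local instance : BorelSpace ℤ_[2] := ⟨rfl⟩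

lemma Psi_pt (z : ℤ_[2]) (n : ℤ) : Psi z (pt n) = true ↔ z + (n : ℤ_[2]) ∈ A := by
  rw [Psi_apply]
  simp [pt]

lemma ae_recur (σ : ℤ) : ∀ᵐ z ∂haar2, z ∈ A → ∃ᶠ n : ℕ in atTop, z + ((σ * n : ℤ) : ℤ_[2]) ∈ A := by
  have hmp : MeasurePreserving (fun z : ℤ_[2] => (σ : ℤ_[2]) + z) haar2 haar2 :=
    measurePreserving_add_left haar2 _
  have h := hmp.conservative.ae_mem_imp_frequently_image_mem measurableSet_A.nullMeasurableSet
  filter_upwards [h] with z hz hzA
  refine (hz hzA).mono fun n hn => ?_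
  have e : (fun z : ℤ_[2] => (σ : ℤ_[2]) + z)^[n] z = z + ((σ * n : ℤ) : ℤ_[2]) := by
    rw [add_left_iterate]
    push_cast
    rw [nsmul_eq_mul]
    ring
  rwa [e] at hn

lemma ae_good_haar : ∀ᵐ z ∂haar2, Psi z 0 = true → Good (Psi z) := by
  filter_upwards [ae_recur 1, ae_recur (-1)] with z h1 h2 h0
  have hzA : z ∈ A := by
    have := (Psi_apply z 0).1 h0
    simpa using this
  have h1' := h1 hzA
  have h2' := h2 hzA
  refine ⟨?_, h0, ?_, ?_, ?_⟩
  · intro x y hxy
    rw [Bool.eq_iff_iff, Psi_apply, Psi_apply, hxy]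
  · intro k
    obtain ⟨n, hn1, hn2⟩ := (frequently_atTop.1 h1') k
    refine ⟨n, by exact_mod_cast hn1, ?_⟩
    rw [Psi_pt]
    simpa using hn2
  · intro k
    obtain ⟨n, hn1, hn2⟩ := (frequently_atTop.1 h2') k
    refine ⟨-n, by omega, ?_⟩
    rw [Psi_pt]
    simpa using hn2
  · intro m
    obtain ⟨s, hs1, hs2, hs3, hs4⟩ := exists_gap hzA m
    refine ⟨s, hs1, (Psi_pt z s).2 hs2, (Psi_pt z _).2 hs3, fun j hj0 hj1 => ?_⟩
    rw [Bool.eq_false_iff]
    intro h
    exact hs4 j hj0 hj1 ((Psi_pt z _).1 h)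

lemma ae_good : ∀ᵐ ω ∂(palm Q), Good ω := by
  have hms : MeasurableSet {ω : Config 2 | ω 0 = true} :=
    measurableSet_setOfPred.2 (measurable_coord 0 true)
  have h1 : ∀ᵐ ω ∂Q, ω 0 = true → Good ω := by
    rw [Q, ae_map_iff measurable_Psi.aemeasurable]
    · exact ae_good_haar
    · exact measurableSet_setOfPred.2 ((measurable_coord 0 true).imp
        (measurableSet_setOfPred.1 measurableSet_good))
  have h2 : ∀ᵐ ω ∂(palm Q), ω 0 = true → Good ω := cond_absolutelyContinuous.ae_le h1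
  have h3 : ∀ᵐ ω ∂(palm Q), ω ∈ {ω : Config 2 | ω 0 = true} := ae_cond_mem hms
  filter_upwards [h2, h3] with ω h h' using h h'

end

/-- enumeration of an unbounded set of integers -/
lemma exists_enum {S : Set ℤ} (h0 : (0 : ℤ) ∈ S) (hup : ∀ k : ℕ, ∃ n : ℤ, k ≤ n ∧ n ∈ S)
    (hdown : ∀ k : ℕ, ∃ n : ℤ, n ≤ -k ∧ n ∈ S) :
    ∃ t : ℤ → ℤ, StrictMono t ∧ t 0 = 0 ∧ range t = S := by
  classical
  have : Nonempty S := ⟨⟨0, h0⟩⟩
  have : NoMaxOrder S := ⟨fun a => by
    obtain ⟨n, hn, hnS⟩ := hup ((a : ℤ).toNat + 1)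
    refine ⟨⟨n, hnS⟩, ?_⟩
    rw [← Subtype.coe_lt_coe]
    simp only
    omega⟩
  have : NoMinOrder S := ⟨fun a => by
    obtain ⟨n, hn, hnS⟩ := hdown ((-(a : ℤ)).toNat + 1)
    refine ⟨⟨n, hnS⟩, ?_⟩
    rw [← Subtype.coe_lt_coe]
    simp only
    omega⟩
  let _ : SuccOrder S := LinearLocallyFiniteOrder.succOrder S
  let _ : PredOrder S := LinearLocallyFiniteOrder.predOrder S
  let e : S ≃o ℤ := orderIsoIntOfLinearSuccPredArch
  refine ⟨fun i => (e.symm (i + e ⟨0, h0⟩) : ℤ), ?_, ?_, ?_⟩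
  · intro i j hij
    rw [Subtype.coe_lt_coe]
    exact e.symm.strictMono (by linarith)
  · simp
  · ext n
    constructor
    · rintro ⟨i, rfl⟩
      exact (e.symm _).2
    · intro hn
      refine ⟨e ⟨n, hn⟩ - e ⟨0, h0⟩, ?_⟩
      simp

end Pool.Agent.Helper98.PointWalk
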