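import Mathlib
import Pool.Agent.Helper98.PointWalkDefs

/-!
# One step of the quenched chain
-/

open MeasureTheory ProbabilityTheory Filter Topology Set
open scoped ENNReal

namespace Pool.Agent.Helper98.PointWalk

/-- the point reached from `v` in direction `e` -/
noncomputable def step {d : ℕ} (ω : Config d) (e : Fin d × Bool) (v : Site d) : Site d :=
  v + gap (shift v ω) e • dir e

lemma neighbors_eq {d : ℕ} (ω : Config d) (v : Site d) :
    neighbors ω v = range fun e => step ω e v := rfl

section

variable {d : ℕ} {ω : Config d} {μ : Measure (ℕ → Site d)}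

lemma measurable_eval (n : ℕ) : Measurable fun X : ℕ → Site d => X n :=
  measurable_pi_apply n

lemma measurableSet_eval (n : ℕ) (v : Site d) : MeasurableSet {X : ℕ → Site d | X n = v} :=
  measurable_eval n (measurableSet_singleton v)

lemma measure_eq_tsum_fiber {α β : Type*} [MeasurableSpace α] [Countable β]
    (μ : Measure α) (f : α → β) (hf : ∀ b, MeasurableSet (f ⁻¹' {b})) {S : Set α}
    (hS : MeasurableSet S) : μ S = ∑' b, μ (f ⁻¹' {b} ∩ S) := by
  have h : S = ⋃ b, f ⁻¹' {b} ∩ S := by
    ext x; simp
  conv_lhs => rw [h]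
  refine measure_iUnion ?_ fun b => (hf b).inter hS
  intro b c hbc
  refine Set.disjoint_left.2 fun x hx hx' => hbc ?_
  have h1 : f x = b := hx.1
  have h2 : f x = c := hx'.1
  rw [← h1, ← h2]

open Classical in
/-- the two-point transition identity -/
lemma two_point (h : IsQuenchedLaw ω μ) (n : ℕ) (v u : Site d) :
    μ {X | X n = v ∧ X (n + 1) = u} =
      μ {X | X n = v} * (if u ∈ neighbors ω v then ((2 * d : ℕ) : ℝ≥0∞)⁻¹ else 0) := by
  set f : (ℕ → Site d) → (Fin n → Site d) := fun X i => X i with hf
  have hfm : ∀ b, MeasurableSet (f ⁻¹' {b}) := by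
    intro b
    have : Measurable f := measurable_pi_lambda _ fun i => measurable_eval _
    exact this (measurableSet_singleton b)
  have hS : MeasurableSet {X : ℕ → Site d | X n = v} := measurableSet_eval n v
  have hT : MeasurableSet {X : ℕ → Site d | X n = v ∧ X (n + 1) = u} :=
    (measurableSet_eval n v).inter (measurableSet_eval (n + 1) u)
  rw [measure_eq_tsum_fiber μ f hfm hT, measure_eq_tsum_fiber μ f hfm hS, ← ENNReal.tsum_mul_right]
  refine tsum_congr fun b => ?_
  set x : ℕ → Site d := fun i => if hi : i < n then b ⟨i, hi⟩ else if i = n then v else u with hx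
  have hxn : x n = v := by simp [hx]
  have hxn1 : x (n + 1) = u := by simp [hx]
  have hxi : ∀ (i : ℕ) (hi : i < n), x i = b ⟨i, hi⟩ := fun i hi => by simp [hx, hi]
  have e1 : f ⁻¹' {b} ∩ {X | X n = v ∧ X (n + 1) = u} = {X | ∀ i ≤ n + 1, X i = x i} := by
    ext X
    simp only [mem_inter_iff, mem_preimage, mem_singleton_iff, mem_ofPred_eq]
    constructor
    · rintro ⟨h1, h2, h3⟩ i hi
      rcases lt_trichotomy i n with h4 | h4 | h4
      · rw [hxi i h4, ← h1]
      · rw [h4, h2, hxn]
      · have : i = n + 1 := by omega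
        rw [this, h3, hxn1]
    · intro h1
      refine ⟨?_, ?_, ?_⟩
      · ext1 i
        have := h1 i (by omega)
        rw [hxi i i.2] at this
        exact this
      · rw [h1 n (by omega), hxn]
      · rw [h1 (n + 1) le_rfl, hxn1]
  have e2 : f ⁻¹' {b} ∩ {X | X n = v} = {X | ∀ i ≤ n, X i = x i} := by
    ext X
    simp only [mem_inter_iff, mem_preimage, mem_singleton_iff, mem_ofPred_eq]
    constructor
    · rintro ⟨h1, h2⟩ i hi
      rcases hi.lt_or_eq with h4 | h4
      · rw [hxi i h4, ← h1]
      · rw [h4, h2, hxn]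
    · intro h1
      refine ⟨?_, ?_⟩
      · ext1 i
        have := h1 i (by omega)
        rw [hxi i i.2] at this
        exact this
      · rw [h1 n le_rfl, hxn]
  rw [e1, e2, h.markov n x, hxn, hxn1]

/-- a set of sites closed under the steps, on which the steps are pairwise different -/
structure Closed (ω : Config d) (P : Set (Site d)) : Prop where
  zero : (0 : Site d) ∈ P
  step_mem : ∀ v ∈ P, ∀ e, step ω e v ∈ P
  inj : ∀ v ∈ P, Function.Injective fun e => step ω e v

variable {P : Set (Site d)}

lemma map_null (h : IsQuenchedLaw ω μ) (hP : Closed ω P) (n : ℕ) {v : Site d} (hv : v ∉ P) :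
    μ {X | X n = v} = 0 := by
  induction n generalizing v with
  | zero =>
    have h1 := h.start
    rw [ae_iff] at h1
    refine measure_mono_null ?_ h1
    intro X hX h2
    apply hv
    have hX' : X 0 = v := hX
    rw [← hX', h2]
    exact hP.zero
  | succ n ih =>
    rw [measure_eq_tsum_fiber μ (fun X : ℕ → Site d => X n)
      (fun b => measurableSet_eval n b) (measurableSet_eval (n + 1) v)]
    rw [ENNReal.tsum_eq_zero]
    intro b
    have e0 : (fun X : ℕ → Site d => X n) ⁻¹' {b} ∩ {X | X (n + 1) = v}
        = {X | X n = b ∧ X (n + 1) = v} := rfl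
    rw [e0, two_point h]
    by_cases hb : b ∈ P
    · rw [if_neg, mul_zero]
      rw [neighbors_eq]
      rintro ⟨e', he'⟩
      rw [← he'] at hv
      exact hv (hP.step_mem b hb e')
    · rw [ih hb, zero_mul]

/-- the law at time `n + 1` -/
lemma map_succ (h : IsQuenchedLaw ω μ) (hP : Closed ω P) (n : ℕ) :
    μ.map (fun X : ℕ → Site d => X (n + 1)) =
      ((2 * d : ℕ) : ℝ≥0∞)⁻¹ • ∑ e : Fin d × Bool,
        (μ.map (fun X : ℕ → Site d => X n)).map (step ω e) := by
  classical
  have hms : ∀ e, Measurable (step ω e) := fun e => measurable_of_countable _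
  refine Measure.ext_of_singleton fun u => ?_
  rw [Measure.map_apply (measurable_eval _) (measurableSet_singleton u), Measure.smul_apply,
    Measure.finsetSum_apply, smul_eq_mul]
  have e0 : (fun X : ℕ → Site d => X (n + 1)) ⁻¹' {u} = {X | X (n + 1) = u} := rfl
  rw [e0, measure_eq_tsum_fiber μ (fun X : ℕ → Site d => X n)
      (fun b => measurableSet_eval n b) (measurableSet_eval (n + 1) u)]
  have e1 : ∀ e : Fin d × Bool, ((μ.map (fun X : ℕ → Site d => X n)).map (step ω e)) {u}
      = ∑' b, μ {X | X n = b} * (if step ω e b = u then 1 else 0) := by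
    intro e
    rw [Measure.map_apply (hms e) (measurableSet_singleton u),
      Measure.map_apply (measurable_eval _) ((hms e) (measurableSet_singleton u))]
    rw [measure_eq_tsum_fiber μ (fun X : ℕ → Site d => X n)
      (fun b => measurableSet_eval n b)
      ((measurable_eval _) ((hms e) (measurableSet_singleton u)))]
    refine tsum_congr fun b => ?_
    by_cases hb : step ω e b = u
    · rw [if_pos hb, mul_one]
      congr 1
      ext X
      simp only [mem_inter_iff, mem_preimage, mem_singleton_iff, mem_ofPred_eq]
      constructor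
      · exact fun h => h.1
      · exact fun h => ⟨h, by rw [h, hb]⟩
    · rw [if_neg hb, mul_zero]
      have : (fun X : ℕ → Site d => X n) ⁻¹' {b} ∩
          (fun X : ℕ → Site d => X n) ⁻¹' (step ω e ⁻¹' {u}) = ∅ := by
        ext X
        simp only [mem_inter_iff, mem_preimage, mem_singleton_iff, mem_empty_iff_false, iff_false]
        rintro ⟨h1, h2⟩
        rw [h1] at h2
        exact hb h2
      rw [this, measure_empty]
  simp_rw [e1]
  rw [← Summable.tsum_finsetSum fun _ _ => ENNReal.summable, ← ENNReal.tsum_mul_left]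
  refine tsum_congr fun b => ?_
  have e2 : (fun X : ℕ → Site d => X n) ⁻¹' {b} ∩ {X | X (n + 1) = u}
      = {X | X n = b ∧ X (n + 1) = u} := rfl
  rw [e2, two_point h]
  by_cases hb : b ∈ P
  · rw [← Finset.mul_sum]
    rw [mul_comm, mul_left_comm, mul_comm (μ _)]
    congr 1
    have hinj := hP.inj b hb
    by_cases hu : u ∈ neighbors ω b
    · rw [if_pos hu]
      obtain ⟨e, he⟩ := hu
      have he' : step ω e b = u := he
      rw [Finset.sum_eq_single e]
      · rw [if_pos he', mul_one]
      · intro e' _ hne
        rw [if_neg]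
        intro h'
        exact hne (hinj (by simp only; rw [h', he']))
      · intro h'
        exact absurd (Finset.mem_univ e) h'
    · rw [if_neg hu, Finset.sum_eq_zero, mul_zero]
      intro e _
      rw [if_neg]
      intro h'
      exact hu ⟨e, h'⟩
  · rw [map_null h hP n hb]
    simp

/-- the transition identity for bounded functions -/
lemma integral_succ (h : IsQuenchedLaw ω μ) (hP : Closed ω P) (n : ℕ) {f : Site d → ℂ}
    (hf : ∃ C, ∀ v, ‖f v‖ ≤ C) :
    ∫ X, f (X (n + 1)) ∂μ = ((2 * d : ℕ) : ℂ)⁻¹ * ∑ e : Fin d × Bool, ∫ X, f (step ω e (X n)) ∂μ := by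
  have := h.isProbabilityMeasure
  obtain ⟨C, hC⟩ := hf
  have hms : ∀ e, Measurable (step ω e) := fun e => measurable_of_countable _
  have hfm : Measurable f := measurable_of_countable _
  have e1 : ∫ X, f (X (n + 1)) ∂μ = ∫ v, f v ∂(μ.map (fun X : ℕ → Site d => X (n + 1))) := by
    rw [integral_map (measurable_eval _).aemeasurable hfm.aestronglyMeasurable]
  rw [e1, map_succ h hP n, integral_smul_measure]
  have hint : ∀ e : Fin d × Bool, Integrable f ((μ.map (fun X : ℕ → Site d => X n)).map (step ω e)) := by
    intro e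
    have : IsProbabilityMeasure (μ.map (fun X : ℕ → Site d => X n)) :=
      Measure.isProbabilityMeasure_map (measurable_eval _).aemeasurable
    have : IsProbabilityMeasure ((μ.map (fun X : ℕ → Site d => X n)).map (step ω e)) :=
      Measure.isProbabilityMeasure_map (hms e).aemeasurable
    exact Integrable.of_bound hfm.aestronglyMeasurable C (ae_of_all _ hC)
  rw [integral_finsetSum_measure fun e _ => hint e]
  have e2 : ∀ e : Fin d × Bool, ∫ v, f v ∂((μ.map (fun X : ℕ → Site d => X n)).map (step ω e))
      = ∫ X, f (step ω e (X n)) ∂μ := by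
    intro e
    rw [integral_map (hms e).aemeasurable hfm.aestronglyMeasurable,
      integral_map (measurable_eval _).aemeasurable
        (f := fun v => f (step ω e v)) (hfm.comp (hms e)).aestronglyMeasurable]
  simp_rw [e2]
  rw [ENNReal.toReal_inv, ENNReal.toReal_natCast, RCLike.real_smul_eq_coe_mul]
  push_cast
  rfl

end

end Pool.Agent.Helper98.PointWalk
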