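import Mathlib
import Pool.Agent.Helper98.PointWalkMarkov
import Pool.Agent.Helper98.PointWalkGood

/-!
# The steps of the walk in a configuration that is constant along antidiagonals
-/

open MeasureTheory ProbabilityTheory Filter Topology Set
open scoped ENNReal

namespace Pool.Agent.Helper98.PointWalk

/-- `t` enumerates the values of `x 0 + x 1` at which `ω` has points -/
structure IsEnum (ω : Config 2) (t : ℤ → ℤ) : Prop where
  mono : StrictMono t
  zero : t 0 = 0
  mem : ∀ v : Site 2, ω v = true ↔ ∃ i, t i = v 0 + v 1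

lemma Good.exists_isEnum {ω : Config 2} (h : Good ω) : ∃ t, IsEnum ω t := by
  have h0 : (0 : ℤ) ∈ {n : ℤ | ω (pt n) = true} := by
    have e : ω (pt 0) = ω 0 := h.diag _ _ (by simp [pt])
    change ω (pt 0) = true
    rw [e, h.zero]
  obtain ⟨t, h1, h2, h3⟩ := exists_enum (S := {n : ℤ | ω (pt n) = true}) h0 h.up h.down
  · refine ⟨t, h1, h2, fun v => ?_⟩
    have e : ω v = ω (pt (v 0 + v 1)) := h.diag _ _ (by simp [pt])
    rw [e]
    have : ω (pt (v 0 + v 1)) = true ↔ v 0 + v 1 ∈ {n : ℤ | ω (pt n) = true} := Iff.rfl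
    rw [this, ← h3]
    rfl

variable {ω : Config 2} {t : ℤ → ℤ}

lemma IsEnum.natAbs_le (h : IsEnum ω t) (j : ℤ) : (j.natAbs : ℤ) ≤ |t j| := by
  have key : ∀ n : ℕ, (n : ℤ) ≤ t n ∧ t (-n) ≤ -n := by
    intro n
    induction n with
    | zero => simp [h.zero]
    | succ n ih =>
      have h1 : t n < t (n + 1) := h.mono (by omega)
      have h2 : t (-(n + 1)) < t (-n) := h.mono (by omega)
      push_cast
      constructor <;> omega
  rcases le_or_gt 0 j with hj | hj
  · obtain ⟨n, rfl⟩ := Int.eq_ofNat_of_zero_le hj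
    have := (key n).1
    rw [abs_of_nonneg (by omega)]
    simpa using this
  · obtain ⟨n, hn⟩ : ∃ n : ℕ, j = -(n : ℤ) := ⟨(-j).toNat, by omega⟩
    subst hn
    have := (key n).2
    rw [abs_of_nonpos (by omega)]
    have h3 : ((-(n : ℤ)).natAbs : ℤ) = n := by omega
    rw [h3]
    omega

lemma dir_sum (e : Fin 2 × Bool) : (dir e : Site 2) 0 + (dir e : Site 2) 1 = if e.2 then 1 else -1 := by
  obtain ⟨a, b⟩ := e
  unfold dir
  fin_cases a <;> cases b <;> simp

lemma gap_true (h : IsEnum ω t) {v : Site 2} {i : ℤ} (hv : v 0 + v 1 = t i) (a : Fin 2) :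
    (gap (shift v ω) (a, true) : ℤ) = t (i + 1) - t i := by
  have hlt : t i < t (i + 1) := h.mono (by omega)
  have hset : ∀ k : ℕ, (0 < k ∧ shift v ω (k • dir (a, true)) = true) ↔
      0 < k ∧ ∃ l, t l = t i + k := by
    intro k
    refine and_congr_right fun _ => ?_
    unfold shift
    rw [h.mem]
    have e : (v + k • dir (a, true)) 0 + (v + k • dir (a, true)) 1 = t i + k := by
      have := dir_sum (a, true)
      simp only [if_true] at this
      rw [Pi.add_apply, Pi.add_apply, Pi.smul_apply, Pi.smul_apply, nsmul_eq_mul, nsmul_eq_mul]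
      linear_combination hv + k * this
    rw [e]
  unfold gap
  have h1 : {k : ℕ | 0 < k ∧ shift v ω (k • dir (a, true)) = true} =
      {k : ℕ | 0 < k ∧ ∃ l, t l = t i + k} := by
    ext k; exact hset k
  rw [h1]
  have h2 : (t (i + 1) - t i).toNat ∈ {k : ℕ | 0 < k ∧ ∃ l, t l = t i + k} := by
    refine ⟨by omega, i + 1, ?_⟩
    omega
  have h3 := Nat.sInf_mem (⟨_, h2⟩ : {k : ℕ | 0 < k ∧ ∃ l, t l = t i + k}.Nonempty)
  have h4 := Nat.sInf_le h2
  obtain ⟨h5, l, hl⟩ := h3
  have h6 : i < l := h.mono.lt_iff_lt.1 (by omega)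
  have h7 : t (i + 1) ≤ t l := h.mono.monotone (by omega)
  omega

lemma gap_false (h : IsEnum ω t) {v : Site 2} {i : ℤ} (hv : v 0 + v 1 = t i) (a : Fin 2) :
    (gap (shift v ω) (a, false) : ℤ) = t i - t (i - 1) := by
  have hlt : t (i - 1) < t i := h.mono (by omega)
  have hset : ∀ k : ℕ, (0 < k ∧ shift v ω (k • dir (a, false)) = true) ↔
      0 < k ∧ ∃ l, t l = t i - k := by
    intro k
    refine and_congr_right fun _ => ?_
    unfold shift
    rw [h.mem]
    have e : (v + k • dir (a, false)) 0 + (v + k • dir (a, false)) 1 = t i - k := by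
      have := dir_sum (a, false)
      simp only [Bool.false_eq_true, if_false] at this
      rw [Pi.add_apply, Pi.add_apply, Pi.smul_apply, Pi.smul_apply, nsmul_eq_mul, nsmul_eq_mul]
      linear_combination hv + k * this
    rw [e]
  unfold gap
  have h1 : {k : ℕ | 0 < k ∧ shift v ω (k • dir (a, false)) = true} =
      {k : ℕ | 0 < k ∧ ∃ l, t l = t i - k} := by
    ext k; exact hset k
  rw [h1]
  have h2 : (t i - t (i - 1)).toNat ∈ {k : ℕ | 0 < k ∧ ∃ l, t l = t i - k} := by
    refine ⟨by omega, i - 1, ?_⟩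
    omega
  have h3 := Nat.sInf_mem (⟨_, h2⟩ : {k : ℕ | 0 < k ∧ ∃ l, t l = t i - k}.Nonempty)
  have h4 := Nat.sInf_le h2
  obtain ⟨h5, l, hl⟩ := h3
  have h6 : l < i := h.mono.lt_iff_lt.1 (by omega)
  have h7 : t l ≤ t (i - 1) := h.mono.monotone (by omega)
  omega

lemma step_true (h : IsEnum ω t) {v : Site 2} {i : ℤ} (hv : v 0 + v 1 = t i) (a b : Fin 2) :
    step ω (a, true) v b = v b + if b = a then t (i + 1) - t i else 0 := by
  unfold step
  rw [Pi.add_apply, Pi.smul_apply, nsmul_eq_mul, gap_true h hv]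
  unfold dir
  simp only [if_true]
  rw [Pi.single_apply]
  split_ifs <;> ring

lemma step_false (h : IsEnum ω t) {v : Site 2} {i : ℤ} (hv : v 0 + v 1 = t i) (a b : Fin 2) :
    step ω (a, false) v b = v b - if b = a then t i - t (i - 1) else 0 := by
  unfold step
  rw [Pi.add_apply, Pi.smul_apply, nsmul_eq_mul, gap_false h hv]
  unfold dir
  simp only [Bool.false_eq_true, if_false]
  rw [Pi.neg_apply, Pi.single_apply]
  split_ifs <;> ring

lemma step_true_sum (h : IsEnum ω t) {v : Site 2} {i : ℤ} (hv : v 0 + v 1 = t i) (a : Fin 2) :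
    step ω (a, true) v 0 + step ω (a, true) v 1 = t (i + 1) := by
  rw [step_true h hv, step_true h hv]
  fin_cases a <;> simp <;> linarith

lemma step_false_sum (h : IsEnum ω t) {v : Site 2} {i : ℤ} (hv : v 0 + v 1 = t i) (a : Fin 2) :
    step ω (a, false) v 0 + step ω (a, false) v 1 = t (i - 1) := by
  rw [step_false h hv, step_false h hv]
  fin_cases a <;> simp <;> linarith

lemma IsEnum.closed (h : IsEnum ω t) : Closed ω {v | ω v = true} where
  zero := by
    change ω 0 = true
    rw [h.mem]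
    exact ⟨0, by simp [h.zero]⟩
  step_mem := by
    intro v hv e
    have hv' : ω v = true := hv
    obtain ⟨i, hi⟩ := (h.mem v).1 hv'
    change ω (step ω e v) = true
    rw [h.mem]
    obtain ⟨a, b⟩ := e
    cases b
    · exact ⟨i - 1, (step_false_sum h hi.symm a).symm⟩
    · exact ⟨i + 1, (step_true_sum h hi.symm a).symm⟩
  inj := by
    intro v hv e e' hee
    have hv' : ω v = true := hv
    obtain ⟨i, hi⟩ := (h.mem v).1 hv'
    have h1 : t i < t (i + 1) := h.mono (by omega)
    have h2 : t (i - 1) < t i := h.mono (by omega)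
    have h0 : ∀ b, step ω e v b = step ω e' v b := fun b => congrFun hee b
    obtain ⟨a, b⟩ := e
    obtain ⟨a', b'⟩ := e'
    have h3 := h0 a
    have h4 := h0 a'
    cases b <;> cases b'
    · rw [step_false h hi.symm, step_false h hi.symm] at h3
      by_cases haa : a = a'
      · rw [haa]
      · rw [if_pos rfl, if_neg haa] at h3; omega
    · rw [step_false h hi.symm, step_true h hi.symm] at h3
      exfalso
      by_cases haa : a = a'
      · rw [if_pos rfl, if_pos haa] at h3; omega
      · rw [if_pos rfl, if_neg haa] at h3; omega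
    · rw [step_false h hi.symm, step_true h hi.symm] at h3
      exfalso
      by_cases haa : a = a'
      · rw [if_pos rfl, if_pos haa] at h3; omega
      · rw [if_pos rfl, if_neg haa] at h3; omega
    · rw [step_true h hi.symm, step_true h hi.symm] at h3
      by_cases haa : a = a'
      · rw [haa]
      · rw [if_pos rfl, if_neg haa] at h3; omega

/-- the gap `G m` is seen at an index of absolute value at most `2 q m` -/
lemma Good.exists_index (hG : Good ω) (h : IsEnum ω t) (m : ℕ) :
    ∃ j : ℤ, j.natAbs ≤ 2 * q m ∧ t (j + 1) - t j = G m := by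
  obtain ⟨s, hs1, hs2, hs3, hs4⟩ := hG.gaps m
  obtain ⟨j, hj⟩ := (h.mem _).1 hs2
  obtain ⟨j', hj'⟩ := (h.mem _).1 hs3
  have e1 : pt s 0 + pt s 1 = s := by simp [pt]
  have e2 : pt (s + G m) 0 + pt (s + G m) 1 = s + G m := by simp [pt]
  rw [e1] at hj
  rw [e2] at hj'
  have hGp := G_pos m
  refine ⟨j, ?_, ?_⟩
  · have := h.natAbs_le j
    rw [hj] at this
    have h1 : (j.natAbs : ℤ) ≤ 2 * q m := this.trans hs1
    exact_mod_cast h1
  · have h1 : j < j' := h.mono.lt_iff_lt.1 (by omega)
    have h2 : t (j + 1) ≤ t j' := h.mono.monotone (by omega)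
    have h3 : t j < t (j + 1) := h.mono (by omega)
    by_contra hne
    have h4 := hs4 (t (j + 1) - t j) (by omega) (by omega)
    have h5 : ω (pt (s + (t (j + 1) - t j))) = true := by
      rw [h.mem]
      refine ⟨j + 1, ?_⟩
      simp [pt]
      omega
    rw [h4] at h5
    exact Bool.false_ne_true h5

end Pool.Agent.Helper98.PointWalk
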