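import Mathlib

/-!
# A one-dimensional Green function estimate
-/

open Finset

namespace Pool.Agent.Helper98.PointWalk

section Green

variable {u c : ℤ → ℝ}

lemma summable_of_support {f : ℤ → ℝ} {M : ℕ} (hf : ∀ i : ℤ, M < i.natAbs → f i = 0) :
    Summable f := by
  refine summable_of_ne_finset_zero (s := Finset.Icc (-(M : ℤ)) M) ?_
  intro i hi
  apply hf
  rw [Finset.mem_Icc] at hi
  omega

/-- the energy inequality -/
lemma energy_sum (M : ℕ) (hu0 : ∀ i, 0 ≤ u i)
    (hsupp : ∀ i : ℤ, M < i.natAbs → u i = 0)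
    (hrec : ∀ i, u i ≤ (if i = 0 then 1 else 0) + (1 / 2 * c (i - 1) * u (i - 1)
      + 1 / 2 * c i * u (i + 1))) :
    ∑' i : ℤ, ((u i ^ 2 + u (i + 1) ^ 2) / 2 - c i * u i * u (i + 1)) ≤ u 0 := by
  have hs1 : Summable fun i : ℤ => u i ^ 2 :=
    summable_of_support (M := M) fun i hi => by rw [hsupp i hi]; ring
  have hs2 : Summable fun i : ℤ => u (i + 1) ^ 2 :=
    summable_of_support (M := M + 1) fun i hi => by rw [hsupp (i + 1) (by omega)]; ring
  have hs3 : Summable fun i : ℤ => c i * u i * u (i + 1) :=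
    summable_of_support (M := M) fun i hi => by rw [hsupp i hi]; ring
  have hs4 : Summable fun i : ℤ => c (i - 1) * u (i - 1) * u i :=
    summable_of_support (M := M) fun i hi => by rw [hsupp i hi]; ring
  have hs5 : Summable fun i : ℤ => (if i = 0 then u 0 else 0) :=
    summable_of_support (M := 0) fun i hi => by rw [if_neg (by omega)]
  have e1 : ∑' i : ℤ, u (i + 1) ^ 2 = ∑' i : ℤ, u i ^ 2 :=
    (Equiv.addRight (1 : ℤ)).tsum_eq (fun i => u i ^ 2)
  have e2 : ∑' i : ℤ, c (i - 1) * u (i - 1) * u i = ∑' i : ℤ, c i * u i * u (i + 1) := by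
    rw [← (Equiv.addRight (1 : ℤ)).tsum_eq (fun i => c (i - 1) * u (i - 1) * u i)]
    refine tsum_congr fun i => ?_
    simp only [Equiv.coe_addRight, add_sub_cancel_right]
  have e3 : ∑' i : ℤ, (if i = 0 then u 0 else 0) = u 0 := tsum_ite_eq 0 _
  have key : ∑' i : ℤ, u i ^ 2 ≤ ∑' i : ℤ, ((if i = 0 then u 0 else 0)
      + (1 / 2 * (c (i - 1) * u (i - 1) * u i) + 1 / 2 * (c i * u i * u (i + 1)))) := by
    refine hs1.tsum_le_tsum ?_ (hs5.add ((hs4.mul_left _).add (hs3.mul_left _)))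
    intro i
    have h := mul_le_mul_of_nonneg_left (hrec i) (hu0 i)
    by_cases hi : i = 0
    · subst hi
      simp only [if_true] at h ⊢
      nlinarith
    · simp only [if_neg hi] at h ⊢
      nlinarith
  rw [hs5.tsum_add ((hs4.mul_left _).add (hs3.mul_left _)),
    (hs4.mul_left _).tsum_add (hs3.mul_left _), tsum_mul_left, tsum_mul_left, e2, e3] at key
  have e4 : ∑' i : ℤ, ((u i ^ 2 + u (i + 1) ^ 2) / 2 - c i * u i * u (i + 1))
      = ∑' i : ℤ, u i ^ 2 - ∑' i : ℤ, c i * u i * u (i + 1) := by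
    have e5 : ∀ i : ℤ, (u i ^ 2 + u (i + 1) ^ 2) / 2 - c i * u i * u (i + 1)
        = (1 / 2 * u i ^ 2 + 1 / 2 * u (i + 1) ^ 2) - c i * u i * u (i + 1) := fun i => by ring
    rw [tsum_congr e5, ((hs1.mul_left _).add (hs2.mul_left _)).tsum_sub hs3,
      (hs1.mul_left _).tsum_add (hs2.mul_left _), tsum_mul_left, tsum_mul_left, e1]
    ring
  rw [e4]
  linarith

/-- the bound for the Green function, edge to the right of the origin -/
lemma green_nat (M : ℕ) (hu0 : ∀ i, 0 ≤ u i) (hc0 : ∀ i, 0 ≤ c i) (hc1 : ∀ i, c i ≤ 1)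
    (hsupp : ∀ i : ℤ, M < i.natAbs → u i = 0)
    (hrec : ∀ i, u i ≤ (if i = 0 then 1 else 0) + (1 / 2 * c (i - 1) * u (i - 1)
      + 1 / 2 * c i * u (i + 1)))
    (j : ℕ) (hj : c j < 1) : u 0 ≤ 4 * (j + 1 / (1 - c j)) := by
  have hE := energy_sum M hu0 hsupp hrec
  set E : ℤ → ℝ := fun i => (u i ^ 2 + u (i + 1) ^ 2) / 2 - c i * u i * u (i + 1) with hEdef
  have hE1 : ∀ i, (u i - u (i + 1)) ^ 2 / 2 ≤ E i := by
    intro i
    simp only [hEdef]
    have h1 := mul_nonneg (hu0 i) (hu0 (i + 1))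
    nlinarith [mul_nonneg (sub_nonneg.2 (hc1 i)) h1]
  have hE0 : ∀ i, 0 ≤ E i := fun i => le_trans (by positivity) (hE1 i)
  have hEj : (1 - c j) / 2 * u j ^ 2 ≤ E j := by
    simp only [hEdef]
    nlinarith [mul_nonneg (hc0 j) (sq_nonneg (u j - u (j + 1))),
      mul_nonneg (sub_nonneg.2 (hc1 j)) (sq_nonneg (u (j + 1)))]
  have hEs : Summable E := by
    refine summable_of_support (M := M + 1) fun i hi => ?_
    simp only [hEdef]
    rw [hsupp i (by omega), hsupp (i + 1) (by omega)]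
    ring
  have hpart : ∑ i ∈ range j, E i ≤ u 0 ∧ E j ≤ u 0 := by
    constructor
    · refine le_trans ?_ hE
      have : ∑ i ∈ range j, E (i : ℤ) = ∑ i ∈ (range j).map Nat.castEmbedding, E i := by
        rw [sum_map]; rfl
      rw [this]
      exact hEs.sum_le_tsum _ fun i _ => hE0 i
    · exact le_trans (hEs.le_tsum (j : ℤ) fun i _ => hE0 i) hE
  -- telescoping
  have htel : u 0 ≤ u j + ∑ i ∈ range j, |u i - u (i + 1)| := by
    have h1 : u j - u 0 = ∑ i ∈ range j, (u (i + 1) - u i) := by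
      have := Finset.sum_range_sub (fun i : ℕ => u (i : ℤ)) j
      push_cast at this
      rw [this]
    have h2 : |∑ i ∈ range j, (u ((i : ℤ) + 1) - u i)|
        ≤ ∑ i ∈ range j, |u ((i : ℤ) + 1) - u i| := abs_sum_le_sum_abs _ _
    rw [← h1] at h2
    have h3 : ∑ i ∈ range j, |u ((i : ℤ) + 1) - u i| = ∑ i ∈ range j, |u i - u (i + 1)| :=
      sum_congr rfl fun i _ => abs_sub_comm _ _
    rw [h3] at h2
    have := neg_le_of_abs_le h2
    linarith
  have hcs : (∑ i ∈ range j, |u i - u (i + 1)|) ^ 2 ≤ j * (2 * u 0) := by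
    have h1 := sq_sum_le_card_mul_sum_sq (s := range j) (f := fun i => |u (i : ℤ) - u (i + 1)|)
    rw [card_range] at h1
    refine h1.trans (mul_le_mul_of_nonneg_left ?_ (by positivity))
    calc ∑ i ∈ range j, |u (i : ℤ) - u (i + 1)| ^ 2
        ≤ ∑ i ∈ range j, 2 * E i := by
          refine sum_le_sum fun i _ => ?_
          rw [sq_abs]
          linarith [hE1 i]
      _ = 2 * ∑ i ∈ range j, E i := by rw [mul_sum]
      _ ≤ 2 * u 0 := by linarith [hpart.1]
  have hd : 0 < 1 - c j := by linarith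
  have huj : u j ^ 2 ≤ 2 * u 0 / (1 - c j) := by
    rw [le_div_iff₀ hd]
    have := hpart.2
    nlinarith
  have hsq : u 0 ^ 2 ≤ 4 * (j + 1 / (1 - c j)) * u 0 := by
    have h1 : u 0 ^ 2 ≤ (u j + ∑ i ∈ range j, |u i - u (i + 1)|) ^ 2 :=
      pow_le_pow_left₀ (hu0 0) htel 2
    have h2 : (u j + ∑ i ∈ range j, |u i - u (i + 1)|) ^ 2
        ≤ 2 * u j ^ 2 + 2 * (∑ i ∈ range j, |u i - u (i + 1)|) ^ 2 := by
      nlinarith [sq_nonneg (u j - ∑ i ∈ range j, |u i - u (i + 1)|)]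
    have h3 : 2 * u 0 / (1 - c j) = 2 * (1 / (1 - c j)) * u 0 := by ring
    rw [h3] at huj
    nlinarith
  rcases (hu0 0).eq_or_lt with h | h
  · rw [← h]
    positivity
  · nlinarith

/-- the bound for the Green function, any edge -/
lemma green_int (M : ℕ) (hu0 : ∀ i, 0 ≤ u i) (hc0 : ∀ i, 0 ≤ c i) (hc1 : ∀ i, c i ≤ 1)
    (hsupp : ∀ i : ℤ, M < i.natAbs → u i = 0)
    (hrec : ∀ i, u i ≤ (if i = 0 then 1 else 0) + (1 / 2 * c (i - 1) * u (i - 1)
      + 1 / 2 * c i * u (i + 1)))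
    (j : ℤ) (hj : c j < 1) : u 0 ≤ 4 * (j.natAbs + 1 / (1 - c j)) := by
  rcases le_or_gt 0 j with h | h
  · obtain ⟨k, rfl⟩ := Int.eq_ofNat_of_zero_le h
    simpa using green_nat M hu0 hc0 hc1 hsupp hrec k hj
  · obtain ⟨k, hk⟩ : ∃ k : ℕ, j = -1 - (k : ℤ) := ⟨(-1 - j).toNat, by omega⟩
    have h1 := green_nat (u := fun i => u (-i)) (c := fun i => c (-1 - i)) M
      (fun i => hu0 _) (fun i => hc0 _) (fun i => hc1 _)
      (fun i hi => hsupp _ (by omega)) ?_ k (by rw [← hk]; exact hj)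
    · simp only [neg_zero] at h1
      refine h1.trans ?_
      rw [← hk]
      have : (k : ℝ) ≤ j.natAbs := by
        have : k ≤ j.natAbs := by omega
        exact_mod_cast this
      linarith
    · intro i
      have h2 := hrec (-i)
      have e1 : -i - 1 = -(i + 1) := by ring
      have e2 : -i + 1 = -(i - 1) := by ring
      have e3 : (-1 : ℤ) - (i - 1) = -i := by ring
      have e4 : (-1 : ℤ) - i = -(i + 1) := by ring
      have e5 : (if -i = 0 then (1 : ℝ) else 0) = if i = 0 then 1 else 0 := by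
        simp
      simp only [e1, e2, e5] at h2
      simp only [e3, e4]
      linarith

/-- The sum over time of a nonnegative sequence satisfying the recursion of a killed nearest
neighbour walk is bounded by `4 (|j| + 1 / (1 - c_j))`. -/
lemma sum_time_le {b : ℕ → ℤ → ℝ} (hb0 : ∀ n i, 0 ≤ b n i) (hc0 : ∀ i, 0 ≤ c i)
    (hc1 : ∀ i, c i ≤ 1) (hsupp : ∀ n (i : ℤ), n < i.natAbs → b n i = 0)
    (hinit : b 0 0 ≤ 1)
    (hrec : ∀ n i, b (n + 1) i ≤ 1 / 2 * c (i - 1) * b n (i - 1)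
      + 1 / 2 * c i * b n (i + 1))
    (N : ℕ) (j : ℤ) (hj : c j < 1) : ∑ n ∈ range N, b n 0 ≤ 4 * (j.natAbs + 1 / (1 - c j)) := by
  refine green_int (u := fun i => ∑ n ∈ range N, b n i) N (fun i => sum_nonneg fun n _ => hb0 n i)
    hc0 hc1 ?_ ?_ j hj
  · intro i hi
    refine sum_eq_zero fun n hn => hsupp n i ?_
    rw [mem_range] at hn
    omega
  · intro i
    rcases N with _ | N
    · simp only [range_zero, sum_empty, mul_zero, add_zero]
      split_ifs <;> norm_num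
    · have h1 : ∀ k, ∑ n ∈ range N, b n k ≤ ∑ n ∈ range (N + 1), b n k := fun k => by
        rw [sum_range_succ]
        linarith [hb0 N k]
      rw [sum_range_succ' (fun n => b n i)]
      have h2 : ∑ n ∈ range N, b (n + 1) i ≤ 1 / 2 * c (i - 1) * ∑ n ∈ range N, b n (i - 1)
          + 1 / 2 * c i * ∑ n ∈ range N, b n (i + 1) := by
        rw [mul_sum, mul_sum, ← sum_add_distrib]
        exact sum_le_sum fun n _ => hrec n i
      have h3 : b 0 i ≤ if i = 0 then 1 else 0 := by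
        split_ifs with h
        · rw [h]; exact hinit
        · rw [hsupp 0 i (by omega)]
      have h4 := mul_le_mul_of_nonneg_left (h1 (i - 1)) (mul_nonneg (by norm_num : (0:ℝ) ≤ 1 / 2)
        (hc0 (i - 1)))
      have h5 := mul_le_mul_of_nonneg_left (h1 (i + 1)) (mul_nonneg (by norm_num : (0:ℝ) ≤ 1 / 2)
        (hc0 i))
      linarith

end Green

end Pool.Agent.Helper98.PointWalk
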