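import Mathlib
import Pool.Agent.Helper98.PointWalkEnum
import Pool.Agent.Helper98.PointWalkScales
import Pool.Agent.Helper98.PointWalkGreen

/-!
# The Fourier transform in the first coordinate and the expected number of returns
-/

open MeasureTheory ProbabilityTheory Filter Topology Set
open scoped ENNReal

namespace Pool.Agent.Helper98.PointWalk

/-- the test function -/
noncomputable def F (t : ℤ → ℤ) (i : ℤ) (θ : ℝ) (v : Site 2) : ℂ :=
  if v 0 + v 1 = t i then Complex.exp ((θ * (v 0 : ℤ) : ℝ) * Complex.I) else 0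

lemma norm_F_le (t : ℤ → ℤ) (i : ℤ) (θ : ℝ) (v : Site 2) : ‖F t i θ v‖ ≤ 1 := by
  unfold F
  split_ifs
  · rw [Complex.norm_exp_ofReal_mul_I]
  · simp

variable {ω : Config 2} {t : ℤ → ℤ}

/-- the Fourier transform -/
noncomputable def phi (μ : Measure (ℕ → Site 2)) (t : ℤ → ℤ) (θ : ℝ) (n : ℕ) (i : ℤ) : ℂ :=
  ∫ X, F t i θ (X n) ∂μ

lemma sum_F_step (h : IsEnum ω t) (θ : ℝ) (i : ℤ) {v : Site 2} (hv : ω v = true) :
    ∑ e : Fin 2 × Bool, F t i θ (step ω e v) =
      (1 + Complex.exp ((θ * (t i - t (i - 1) : ℤ) : ℝ) * Complex.I)) * F t (i - 1) θ v +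
      (1 + Complex.exp ((-(θ * (t (i + 1) - t i : ℤ)) : ℝ) * Complex.I)) * F t (i + 1) θ v := by
  obtain ⟨k, hk⟩ := (h.mem v).1 hv
  rw [Fintype.sum_prod_type]
  simp only [Fintype.sum_bool, Fin.sum_univ_two]
  have hT : ∀ a, F t i θ (step ω (a, true) v) =
      if k = i - 1 then Complex.exp ((θ * (v 0 + (if (0 : Fin 2) = a then t i - t (i - 1) else 0) : ℤ)
        : ℝ) * Complex.I) else 0 := by
    intro a
    unfold F
    rw [step_true_sum h hk.symm, step_true h hk.symm]
    by_cases hki : k = i - 1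
    · have : k + 1 = i := by omega
      rw [if_pos (by rw [this]), if_pos hki, this, hki]
    · rw [if_neg (fun h' => hki (by have := h.mono.injective h'; omega)), if_neg hki]
  have hF : ∀ a, F t i θ (step ω (a, false) v) =
      if k = i + 1 then Complex.exp ((θ * (v 0 - (if (0 : Fin 2) = a then t (i + 1) - t i else 0) : ℤ)
        : ℝ) * Complex.I) else 0 := by
    intro a
    unfold F
    rw [step_false_sum h hk.symm, step_false h hk.symm]
    by_cases hki : k = i + 1
    · have : k - 1 = i := by omega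
      rw [if_pos (by rw [this]), if_pos hki, this, hki]
    · rw [if_neg (fun h' => hki (by have := h.mono.injective h'; omega)), if_neg hki]
  have hR1 : F t (i - 1) θ v = if k = i - 1 then Complex.exp ((θ * (v 0 : ℤ) : ℝ) * Complex.I)
      else 0 := by
    unfold F
    rw [← hk]
    simp only [h.mono.injective.eq_iff]
  have hR2 : F t (i + 1) θ v = if k = i + 1 then Complex.exp ((θ * (v 0 : ℤ) : ℝ) * Complex.I)
      else 0 := by
    unfold F
    rw [← hk]
    simp only [h.mono.injective.eq_iff]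
  rw [hT, hF, hT, hF, hR1, hR2]
  have n01 : ¬ (0 : Fin 2) = 1 := by decide
  simp only [if_true, if_neg n01]
  by_cases h1 : k = i - 1
  · have h2 : ¬ k = i + 1 := by omega
    simp only [if_pos h1, if_neg h2]
    rw [add_mul, ← Complex.exp_add]
    push_cast
    ring_nf
  · by_cases h2 : k = i + 1
    · simp only [if_pos h2, if_neg h1, mul_zero, zero_add]
      rw [add_mul, ← Complex.exp_add]
      push_cast
      ring_nf
    · simp only [if_neg h1, if_neg h2]
      ring

lemma norm_one_add_exp (x : ℝ) : ‖1 + Complex.exp ((x : ℝ) * Complex.I)‖ = 2 * |Real.cos (x / 2)| := by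
  have h : 1 + Complex.exp ((x : ℝ) * Complex.I) =
      (2 * Real.cos (x / 2) : ℝ) * Complex.exp ((x / 2 : ℝ) * Complex.I) := by
    push_cast
    rw [Complex.cos]
    have e1 : Complex.exp ((x : ℂ) * Complex.I) = Complex.exp (x / 2 * Complex.I) *
        Complex.exp (x / 2 * Complex.I) := by
      rw [← Complex.exp_add]; ring_nf
    have e2 : Complex.exp (-((x : ℂ) / 2) * Complex.I) * Complex.exp (x / 2 * Complex.I) = 1 := by
      rw [← Complex.exp_add]
      ring_nf
      simp
    rw [e1]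
    linear_combination -e2
  rw [h, norm_mul, Complex.norm_exp_ofReal_mul_I, mul_one, Complex.norm_real, Real.norm_eq_abs,
    abs_mul, abs_of_pos (by norm_num : (0:ℝ) < 2)]

/-- `c_i` -/
noncomputable def cc (t : ℤ → ℤ) (θ : ℝ) (i : ℤ) : ℝ := |Real.cos (θ * (t (i + 1) - t i : ℤ) / 2)|

variable {μ : Measure (ℕ → Site 2)}

lemma integrable_F (hμ : IsProbabilityMeasure μ) (i : ℤ) (θ : ℝ) (n : ℕ) :
    Integrable (fun X : ℕ → Site 2 => F t i θ (X n)) μ := by
  refine Integrable.of_bound ?_ 1 (ae_of_all _ fun X => norm_F_le _ _ _ _)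
  exact ((measurable_of_countable (F t i θ)).comp (measurable_eval n)).aestronglyMeasurable

lemma ae_mem (hq : IsQuenchedLaw ω μ) (h : IsEnum ω t) (n : ℕ) : ∀ᵐ X ∂μ, ω (X n) = true := by
  rw [ae_iff]
  have : {X : ℕ → Site 2 | ¬ ω (X n) = true} = ⋃ v ∈ {v : Site 2 | ¬ ω v = true}, {X | X n = v} := by
    ext X
    simp
  rw [this]
  refine (measure_biUnion_null_iff (Set.to_countable _)).2 fun v hv => ?_
  exact map_null hq h.closed n hv

lemma phi_succ (hq : IsQuenchedLaw ω μ) (h : IsEnum ω t) (θ : ℝ) (n : ℕ) (i : ℤ) :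
    phi μ t θ (n + 1) i = 4⁻¹ *
      ((1 + Complex.exp ((θ * (t i - t (i - 1) : ℤ) : ℝ) * Complex.I)) * phi μ t θ n (i - 1) +
      (1 + Complex.exp ((-(θ * (t (i + 1) - t i : ℤ)) : ℝ) * Complex.I)) * phi μ t θ n (i + 1)) := by
  have hμ := hq.isProbabilityMeasure
  unfold phi
  rw [integral_succ hq h.closed n ⟨1, norm_F_le t i θ⟩]
  have hint : ∀ e : Fin 2 × Bool, Integrable (fun X : ℕ → Site 2 => F t i θ (step ω e (X n))) μ := by
    intro e
    refine Integrable.of_bound ?_ 1 (ae_of_all _ fun X => norm_F_le _ _ _ _)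
    exact ((measurable_of_countable fun v => F t i θ (step ω e v)).comp
      (measurable_eval n)).aestronglyMeasurable
  rw [← integral_finsetSum _ fun e _ => hint e]
  have e1 : ∫ X, ∑ e : Fin 2 × Bool, F t i θ (step ω e (X n)) ∂μ =
      ∫ X, ((1 + Complex.exp ((θ * (t i - t (i - 1) : ℤ) : ℝ) * Complex.I)) * F t (i - 1) θ (X n) +
      (1 + Complex.exp ((-(θ * (t (i + 1) - t i : ℤ)) : ℝ) * Complex.I)) * F t (i + 1) θ (X n)) ∂μ := by
    refine integral_congr_ae ?_
    filter_upwards [ae_mem hq h n] with X hX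
    exact sum_F_step h θ i hX
  rw [e1, integral_add ((integrable_F hμ _ _ _).const_mul _) ((integrable_F hμ _ _ _).const_mul _),
    integral_const_mul, integral_const_mul]
  norm_num

lemma norm_phi_succ (hq : IsQuenchedLaw ω μ) (h : IsEnum ω t) (θ : ℝ) (n : ℕ) (i : ℤ) :
    ‖phi μ t θ (n + 1) i‖ ≤ 1 / 2 * cc t θ (i - 1) * ‖phi μ t θ n (i - 1)‖ +
      1 / 2 * cc t θ i * ‖phi μ t θ n (i + 1)‖ := by
  rw [phi_succ hq h, norm_mul]
  have h4 : ‖(4⁻¹ : ℂ)‖ = 1 / 4 := by norm_num
  rw [h4]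
  have e1 : cc t θ (i - 1) = |Real.cos (θ * (t i - t (i - 1) : ℤ) / 2)| := by
    unfold cc
    rw [sub_add_cancel]
  have e2 : cc t θ i = |Real.cos (-(θ * (t (i + 1) - t i : ℤ)) / 2)| := by
    unfold cc
    rw [neg_div, Real.cos_neg]
  calc 1 / 4 * ‖(1 + Complex.exp ((θ * (t i - t (i - 1) : ℤ) : ℝ) * Complex.I)) *
          phi μ t θ n (i - 1) +
        (1 + Complex.exp ((-(θ * (t (i + 1) - t i : ℤ)) : ℝ) * Complex.I)) *
          phi μ t θ n (i + 1)‖
      ≤ 1 / 4 * (‖(1 + Complex.exp ((θ * (t i - t (i - 1) : ℤ) : ℝ) * Complex.I)) *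
          phi μ t θ n (i - 1)‖ +
        ‖(1 + Complex.exp ((-(θ * (t (i + 1) - t i : ℤ)) : ℝ) * Complex.I)) *
          phi μ t θ n (i + 1)‖) :=
        mul_le_mul_of_nonneg_left (norm_add_le _ _) (by norm_num)
    _ = 1 / 2 * cc t θ (i - 1) * ‖phi μ t θ n (i - 1)‖ +
      1 / 2 * cc t θ i * ‖phi μ t θ n (i + 1)‖ := by
        rw [norm_mul, norm_mul, norm_one_add_exp, norm_one_add_exp, e1, e2]
        ring

lemma phi_zero (hq : IsQuenchedLaw ω μ) (h : IsEnum ω t) (θ : ℝ) (i : ℤ) (hi : i ≠ 0) :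
    phi μ t θ 0 i = 0 := by
  unfold phi
  have : ∫ X, F t i θ (X 0) ∂μ = ∫ X : ℕ → Site 2, (0 : ℂ) ∂μ := by
    refine integral_congr_ae ?_
    filter_upwards [hq.start] with X hX
    rw [hX]
    unfold F
    rw [if_neg]
    intro h1
    apply hi
    have h2 : t 0 = t i := by
      rw [h.zero, ← h1]
      simp
    exact (h.mono.injective h2).symm
  rw [this]
  simp

lemma phi_support (hq : IsQuenchedLaw ω μ) (h : IsEnum ω t) (θ : ℝ) (n : ℕ) :
    ∀ i : ℤ, n < i.natAbs → ‖phi μ t θ n i‖ = 0 := by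
  induction n with
  | zero =>
    intro i hi
    rw [phi_zero hq h θ i (by omega), norm_zero]
  | succ n ih =>
    intro i hi
    refine le_antisymm ?_ (norm_nonneg _)
    refine (norm_phi_succ hq h θ n i).trans ?_
    rw [ih (i - 1) (by omega), ih (i + 1) (by omega)]
    simp

lemma norm_phi_le_one (hμ : IsProbabilityMeasure μ) (θ : ℝ) (n : ℕ) (i : ℤ) :
    ‖phi μ t θ n i‖ ≤ 1 := by
  unfold phi
  refine (norm_integral_le_of_norm_le_const (C := 1) (ae_of_all _ fun X => norm_F_le _ _ _ _)).trans ?_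
  simp

lemma sum_phi_le (hG : Good ω) (hq : IsQuenchedLaw ω μ) (h : IsEnum ω t) (N m : ℕ) {θ : ℝ}
    (hθ : θ ∈ Ioc (al (m + 1)) (up m)) :
    ∑ n ∈ Finset.range N, ‖phi μ t θ n 0‖ ≤ Cm m := by
  obtain ⟨j, hj1, hj2⟩ := hG.exists_index h m
  obtain ⟨hc1, hc2⟩ := cos_bound hθ
  have hcj : cc t θ j = |Real.cos (θ * G m / 2)| := by
    unfold cc
    rw [hj2]
    push_cast
    rfl
  have h1 := sum_time_le (b := fun n i => ‖phi μ t θ n i‖) (c := cc t θ)
    (fun n i => norm_nonneg _) (fun i => abs_nonneg _) (fun i => Real.abs_cos_le_one _)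
    (phi_support hq h θ) (norm_phi_le_one hq.isProbabilityMeasure θ 0 0)
    (fun n i => norm_phi_succ hq h θ n i) N j (by rw [hcj]; exact hc1)
  refine h1.trans ?_
  unfold Cm
  rw [hcj]
  have h2 : (j.natAbs : ℝ) ≤ 2 * q m := by exact_mod_cast hj1
  linarith

/-- the real part of `F t 0 θ` -/
noncomputable def hh (v : Site 2) (θ : ℝ) : ℝ :=
  if v 0 + v 1 = 0 then Real.cos (θ * (v 0 : ℤ)) else 0

lemma abs_hh_le (v : Site 2) (θ : ℝ) : |hh v θ| ≤ 1 := by
  unfold hh
  split_ifs
  · exact Real.abs_cos_le_one _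
  · simp

lemma re_F (h : IsEnum ω t) (v : Site 2) (θ : ℝ) : (F t 0 θ v).re = hh v θ := by
  unfold F hh
  rw [h.zero]
  split_ifs
  · rw [Complex.exp_ofReal_mul_I_re]
  · simp

lemma measurable_hh (n : ℕ) : Measurable fun p : (ℕ → Site 2) × ℝ => hh (p.1 n) p.2 := by
  have h1 : Measurable fun p : Site 2 × ℝ => hh p.1 p.2 := by
    refine measurable_from_prod_countable_right fun v => ?_
    unfold hh
    by_cases hv : v 0 + v 1 = 0
    · simp only [if_pos hv]
      fun_prop
    · simp only [if_neg hv]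
      fun_prop
  exact h1.comp (((measurable_eval n).comp measurable_fst).prodMk measurable_snd)

lemma integral_cos_int (k : ℤ) :
    ∫ θ in Ioc 0 Real.pi, Real.cos (θ * (k : ℤ)) = if k = 0 then Real.pi else 0 := by
  rw [← intervalIntegral.integral_of_le Real.pi_pos.le]
  split_ifs with hk
  · subst hk
    simp
  · have hk' : (k : ℝ) ≠ 0 := by exact_mod_cast hk
    rw [intervalIntegral.integral_comp_mul_right (fun x => Real.cos x) hk', integral_cos]
    simp [Real.sin_int_mul_pi, mul_comm Real.pi]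

lemma integral_hh (v : Site 2) :
    ∫ θ in Ioc 0 Real.pi, hh v θ = if v = 0 then Real.pi else 0 := by
  unfold hh
  by_cases h1 : v 0 + v 1 = 0
  · simp only [if_pos h1]
    rw [integral_cos_int]
    have : v 0 = 0 ↔ v = 0 := by
      constructor
      · intro h2
        ext i
        fin_cases i
        · exact h2
        · simp only [Fin.mk_one, Fin.isValue, Pi.zero_apply]
          omega
      · intro h2; rw [h2]; rfl
    simp only [this]
  · simp only [if_neg h1]
    rw [if_neg]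
    · simp
    · intro h2
      apply h1
      rw [h2]
      simp

lemma measure_eq_integral (hq : IsQuenchedLaw ω μ) (h : IsEnum ω t) (n : ℕ) :
    Real.pi * μ.real {X | X n = 0} = ∫ θ in Ioc 0 Real.pi, (phi μ t θ n 0).re := by
  have hμ := hq.isProbabilityMeasure
  have hint : Integrable (fun p : (ℕ → Site 2) × ℝ => hh (p.1 n) p.2)
      (μ.prod (volume.restrict (Ioc 0 Real.pi))) := by
    refine Integrable.of_bound (measurable_hh n).aestronglyMeasurable 1
      (ae_of_all _ fun p => ?_)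
    rw [Real.norm_eq_abs]
    exact abs_hh_le _ _
  have h1 : ∫ X, (∫ θ in Ioc 0 Real.pi, hh (X n) θ) ∂μ = Real.pi * μ.real {X | X n = 0} := by
    simp_rw [integral_hh]
    have : (fun X : ℕ → Site 2 => if X n = 0 then Real.pi else 0) =
        {X : ℕ → Site 2 | X n = 0}.indicator fun _ => Real.pi := by
      ext X
      simp [indicator]
    rw [this, integral_indicator_const _ (measurableSet_eval n 0), smul_eq_mul, mul_comm]
  rw [← h1, integral_integral_swap hint]
  refine integral_congr_ae (ae_of_all _ fun θ => ?_)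
  simp only
  have h2 := Complex.reCLM.integral_comp_comm (integrable_F (t := t) hμ 0 θ n)
  have h3 : ∀ z : ℂ, Complex.reCLM z = z.re := fun z => rfl
  simp only [h3] at h2
  unfold phi
  rw [← h2]
  exact integral_congr_ae (ae_of_all _ fun X => (re_F h _ _).symm)

end Pool.Agent.Helper98.PointWalk
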