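import Mathlib
import Pool.Agent.Helper98.PointWalkMarkov

/-!
# Existence of the quenched laws as a kernel
-/

open MeasureTheory ProbabilityTheory Filter Topology Set
open scoped ENNReal

namespace Pool.Agent.Helper98.PointWalk

section

variable {d : ℕ}

/-- the walk driven by a sequence of directions -/
noncomputable def walk (ω : Config d) (D : ℕ → Fin d × Bool) : ℕ → Site d
  | 0 => 0
  | n + 1 => step ω (D n) (walk ω D n)

lemma walk_congr (ω : Config d) {D D' : ℕ → Fin d × Bool} {n : ℕ} (h : ∀ i < n, D i = D' i) :
    ∀ i ≤ n, walk ω D i = walk ω D' i := by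
  intro i
  induction i with
  | zero => intro _; rfl
  | succ i ih =>
    intro hi
    simp only [walk]
    rw [ih (by omega), h i (by omega)]

lemma walk_mem {ω : Config d} {P : Set (Site d)} (hP : Closed ω P) (D : ℕ → Fin d × Bool) (n : ℕ) :
    walk ω D n ∈ P := by
  induction n with
  | zero => exact hP.zero
  | succ n ih => exact hP.step_mem _ ih _

lemma measurableSet_coord (x : Site d) (b : Bool) : MeasurableSet {ω : Config d | ω x = b} :=
  (measurable_pi_apply x : Measurable fun ω : Config d => ω x) (measurableSet_singleton b)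

lemma measurable_gap (e : Fin d × Bool) (v : Site d) :
    Measurable fun ω : Config d => gap (shift v ω) e := by
  refine measurable_to_countable' fun n => ?_
  have hms : ∀ (k : ℕ) (b : Bool), MeasurableSet {ω : Config d | shift v ω (k • dir e) = b} :=
    fun k b => measurableSet_coord _ _
  by_cases hn : n = 0
  · have : (fun ω : Config d => gap (shift v ω) e) ⁻¹' {n} =
        ⋂ k : ℕ, ⋂ _ : 0 < k, {ω : Config d | shift v ω (k • dir e) = false} := by
      ext ω
      simp only [mem_preimage, mem_singleton_iff, mem_iInter, mem_ofPred_eq, hn]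
      unfold gap
      rw [Nat.sInf_eq_zero]
      constructor
      · rintro (h | h)
        · exact absurd h.1 (lt_irrefl 0)
        · intro k hk
          have h1 : k ∉ {k : ℕ | 0 < k ∧ shift v ω (k • dir e) = true} := by
            rw [h]; exact notMem_empty _
          rw [mem_ofPred_eq] at h1
          rw [Bool.eq_false_iff]
          exact fun h2 => h1 ⟨hk, h2⟩
      · intro h
        right
        rw [eq_empty_iff_forall_notMem]
        rintro k ⟨hk, h2⟩
        rw [h k hk] at h2
        exact Bool.false_ne_true h2
    rw [this]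
    exact MeasurableSet.iInter fun k => MeasurableSet.iInter fun _ => hms k false
  · have : (fun ω : Config d => gap (shift v ω) e) ⁻¹' {n} =
        {ω : Config d | shift v ω (n • dir e) = true} ∩
        ⋂ k : ℕ, ⋂ _ : 0 < k ∧ k < n, {ω : Config d | shift v ω (k • dir e) = false} := by
      ext ω
      simp only [mem_preimage, mem_singleton_iff, mem_inter_iff, mem_iInter, mem_ofPred_eq]
      unfold gap
      constructor
      · intro h
        have hne : {k : ℕ | 0 < k ∧ shift v ω (k • dir e) = true}.Nonempty :=
          Nat.nonempty_of_pos_sInf (by omega)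
        have h1 := Nat.sInf_mem hne
        rw [h] at h1
        refine ⟨h1.2, fun k hk => ?_⟩
        rw [Bool.eq_false_iff]
        intro h2
        have h3 : k ∈ {k : ℕ | 0 < k ∧ shift v ω (k • dir e) = true} := ⟨hk.1, h2⟩
        have := Nat.sInf_le h3
        omega
      · rintro ⟨h1, h2⟩
        have h3 : n ∈ {k : ℕ | 0 < k ∧ shift v ω (k • dir e) = true} := ⟨by omega, h1⟩
        refine le_antisymm (Nat.sInf_le h3) ?_
        refine le_csInf ⟨n, h3⟩ ?_
        rintro k ⟨hk, h4⟩
        by_contra h5
        rw [h2 k ⟨hk, by omega⟩] at h4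
        exact Bool.false_ne_true h4
    rw [this]
    exact (hms n true).inter (MeasurableSet.iInter fun k => MeasurableSet.iInter fun _ =>
      hms k false)

lemma measurable_step :
    Measurable fun p : Config d × ((Fin d × Bool) × Site d) => step p.1 p.2.1 p.2.2 := by
  refine measurable_from_prod_countable_left fun q => ?_
  have : (fun ω : Config d => step (ω, q).1 (ω, q).2.1 (ω, q).2.2) =
      (fun k : ℕ => q.2 + k • dir q.1) ∘ fun ω : Config d => gap (shift q.2 ω) q.1 := rfl
  rw [this]
  exact (measurable_of_countable _).comp (measurable_gap q.1 q.2)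

lemma measurable_walk (n : ℕ) :
    Measurable fun p : Config d × (ℕ → Fin d × Bool) => walk p.1 p.2 n := by
  induction n with
  | zero => exact measurable_const
  | succ n ih =>
    have h1 : Measurable fun p : Config d × (ℕ → Fin d × Bool) => p.2 n :=
      (measurable_pi_apply n : Measurable fun D : ℕ → Fin d × Bool => D n).comp measurable_snd
    exact measurable_step.comp (measurable_fst.prodMk (h1.prodMk ih))

lemma measurable_walk' :
    Measurable fun p : Config d × (ℕ → Fin d × Bool) => walk p.1 p.2 :=
  measurable_pi_lambda _ fun n => measurable_walk n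

end

/-- the law of the directions -/
noncomputable def dirLaw : Measure (ℕ → Fin 2 × Bool) :=
  Measure.infinitePi fun _ => (PMF.uniformOfFintype (Fin 2 × Bool)).toMeasure

instance : IsProbabilityMeasure dirLaw := by unfold dirLaw; infer_instance

lemma dirLaw_singleton (n : ℕ) (e : Fin 2 × Bool) :
    dirLaw {D | D n = e} = ((2 * 2 : ℕ) : ℝ≥0∞)⁻¹ := by
  have h1 : dirLaw.map (fun D => D n) = (PMF.uniformOfFintype (Fin 2 × Bool)).toMeasure :=
    Measure.infinitePi_map_eval _ n
  have h2 : {D : ℕ → Fin 2 × Bool | D n = e} = (fun D => D n) ⁻¹' {e} := rfl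
  rw [h2, ← Measure.map_apply (measurable_pi_apply n) (measurableSet_singleton e), h1,
    PMF.toMeasure_apply_singleton _ _ (measurableSet_singleton e), PMF.uniformOfFintype_apply]
  simp

lemma indep_prefix (n : ℕ) (A : Set (ℕ → Fin 2 × Bool)) (E : Set (Fin 2 × Bool))
    (hA : ∀ D D' : ℕ → Fin 2 × Bool, (∀ i < n, D i = D' i) → (D ∈ A ↔ D' ∈ A)) :
    dirLaw (A ∩ {D | D n ∈ E}) = dirLaw A * dirLaw {D | D n ∈ E} := by
  have hind : iIndepFun (fun (i : ℕ) (D : ℕ → Fin 2 × Bool) => D i) dirLaw :=
    iIndepFun_infinitePi (X := fun _ e => e) (fun _ => measurable_id)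
  have h1 := hind.indepFun_finset (Finset.range n) {n} (by simp) (fun i => measurable_pi_apply i)
  have h2 : A = (fun (D : ℕ → Fin 2 × Bool) (i : Finset.range n) => D i) ⁻¹'
      {g | ∃ D ∈ A, ∀ i : Finset.range n, D i = g i} := by
    ext D
    simp only [mem_preimage, mem_ofPred_eq]
    constructor
    · exact fun h => ⟨D, h, fun i => rfl⟩
    · rintro ⟨D', h, h'⟩
      exact (hA D D' fun i hi => (h' ⟨i, Finset.mem_range.2 hi⟩).symm).2 h
  have h3 : {D : ℕ → Fin 2 × Bool | D n ∈ E} =
      (fun (D : ℕ → Fin 2 × Bool) (i : ({n} : Finset ℕ)) => D i) ⁻¹'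
        {g | g ⟨n, Finset.mem_singleton_self n⟩ ∈ E} := rfl
  rw [h3]
  conv_lhs => rw [h2]
  conv_rhs => rw [h2]
  exact h1.measure_inter_preimage_eq_mul _ _ (Set.to_countable _).measurableSet
    (Set.to_countable _).measurableSet

lemma isQuenchedLaw_map {ω : Config 2} {P : Set (Site 2)} (hP : Closed ω P) :
    IsQuenchedLaw ω (dirLaw.map (walk ω)) := by
  have hm : Measurable (walk ω : (ℕ → Fin 2 × Bool) → ℕ → Site 2) :=
    measurable_walk'.comp (measurable_const.prodMk measurable_id)
  refine ⟨Measure.isProbabilityMeasure_map hm.aemeasurable, ?_, ?_⟩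
  · rw [ae_map_iff hm.aemeasurable (measurableSet_eval 0 0)]
    exact ae_of_all _ fun D => rfl
  · intro n x
    classical
    have hms : ∀ m, MeasurableSet {X : ℕ → Site 2 | ∀ i ≤ m, X i = x i} := by
      intro m
      have : {X : ℕ → Site 2 | ∀ i ≤ m, X i = x i} = ⋂ i : ℕ, ⋂ _ : i ≤ m, {X | X i = x i} := by
        ext X; simp
      rw [this]
      exact MeasurableSet.iInter fun i => MeasurableSet.iInter fun _ => measurableSet_eval i _
    rw [Measure.map_apply hm (hms _), Measure.map_apply hm (hms _)]
    set A : Set (ℕ → Fin 2 × Bool) := walk ω ⁻¹' {X | ∀ i ≤ n, X i = x i} with hAdef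
    set E : Set (Fin 2 × Bool) := {e | step ω e (x n) = x (n + 1)} with hEdef
    have h1 : walk ω ⁻¹' {X | ∀ i ≤ n + 1, X i = x i} = A ∩ {D | D n ∈ E} := by
      ext D
      simp only [hAdef, hEdef, mem_preimage, mem_inter_iff, mem_ofPred_eq]
      constructor
      · intro h
        refine ⟨fun i hi => h i (by omega), ?_⟩
        rw [← h n (by omega), ← h (n + 1) le_rfl]
        rfl
      · rintro ⟨h2, h3⟩ i hi
        rcases hi.lt_or_eq with h4 | h4
        · exact h2 i (by omega)
        · rw [h4, ← h3, ← h2 n le_rfl]
          rfl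
    have hA : ∀ D D' : ℕ → Fin 2 × Bool, (∀ i < n, D i = D' i) → (D ∈ A ↔ D' ∈ A) := by
      intro D D' h
      have h2 := walk_congr ω h
      simp only [hAdef, mem_preimage, mem_ofPred_eq]
      exact forall₂_congr fun i hi => by rw [h2 i hi]
    rw [h1, indep_prefix n A E hA]
    by_cases hx : x n ∈ P
    · congr 1
      by_cases hu : x (n + 1) ∈ neighbors ω (x n)
      · rw [if_pos hu]
        obtain ⟨e, he⟩ := hu
        have he' : step ω e (x n) = x (n + 1) := he
        have : {D : ℕ → Fin 2 × Bool | D n ∈ E} = {D | D n = e} := by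
          ext D
          simp only [hEdef, mem_ofPred_eq]
          constructor
          · intro h2
            exact hP.inj (x n) hx (h2.trans he'.symm)
          · intro h2
            rw [h2, he']
        rw [this, dirLaw_singleton]
      · rw [if_neg hu]
        have : {D : ℕ → Fin 2 × Bool | D n ∈ E} = ∅ := by
          ext D
          simp only [hEdef, mem_ofPred_eq, mem_empty_iff_false, iff_false]
          intro h2
          exact hu ⟨D n, h2⟩
        rw [this, measure_empty]
    · have : A = ∅ := by
        ext D
        simp only [hAdef, mem_preimage, mem_ofPred_eq, mem_empty_iff_false, iff_false]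
        intro h2
        apply hx
        rw [← h2 n le_rfl]
        exact walk_mem hP D n
      rw [this, measure_empty, zero_mul, zero_mul]

/-- the kernel of the quenched laws -/
noncomputable def quenched : Kernel (Config 2) (ℕ → Site 2) :=
  Kernel.map (Kernel.id ×ₖ Kernel.const (Config 2) dirLaw) fun p => walk p.1 p.2

lemma quenched_apply (ω : Config 2) : quenched ω = dirLaw.map (walk ω) := by
  unfold quenched
  rw [Kernel.map_apply _ measurable_walk', Kernel.prod_apply, Kernel.id_apply, Kernel.const_apply,
    Measure.dirac_prod, Measure.map_map measurable_walk' measurable_prodMk_left]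
  rfl

end Pool.Agent.Helper98.PointWalk
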