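import Mathlib
import Pool.Agent.Helper98.PointWalkFourier

/-!
# Transience of the quenched walk in a good configuration
-/

open MeasureTheory ProbabilityTheory Filter Topology Set
open scoped ENNReal

namespace Pool.Agent.Helper98.PointWalk

variable {ω : Config 2} {t : ℤ → ℤ} {μ : Measure (ℕ → Site 2)}

lemma integrable_re_phi (hq : IsQuenchedLaw ω μ) (h : IsEnum ω t) (n : ℕ) :
    Integrable (fun θ => (phi μ t θ n 0).re) (volume.restrict (Ioc 0 Real.pi)) := by
  have hμ := hq.isProbabilityMeasure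
  have hint : Integrable (fun p : (ℕ → Site 2) × ℝ => hh (p.1 n) p.2)
      (μ.prod (volume.restrict (Ioc 0 Real.pi))) := by
    refine Integrable.of_bound (measurable_hh n).aestronglyMeasurable 1
      (ae_of_all _ fun p => ?_)
    rw [Real.norm_eq_abs]
    exact abs_hh_le _ _
  have h1 := hint.integral_prod_right
  refine h1.congr (ae_of_all _ fun θ => ?_)
  simp only
  have h2 := Complex.reCLM.integral_comp_comm (integrable_F (t := t) hμ 0 θ n)
  have h3 : ∀ z : ℂ, Complex.reCLM z = z.re := fun z => rfl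
  simp only [h3] at h2
  unfold phi
  rw [← h2]
  exact integral_congr_ae (ae_of_all _ fun X => (re_F h _ _).symm)

lemma sum_measure_le (hG : Good ω) (hq : IsQuenchedLaw ω μ) (h : IsEnum ω t) (N : ℕ) :
    Real.pi * ∑ n ∈ Finset.range N, μ.real {X | X n = 0} ≤
      (∫⁻ θ in Ioc 0 Real.pi, Rbar θ).toReal := by
  rw [Finset.mul_sum]
  rw [Finset.sum_congr rfl fun n _ => measure_eq_integral hq h n]
  rw [← integral_finsetSum _ fun n _ => integrable_re_phi hq h n]
  have hI : Integrable (fun θ => ∑ n ∈ Finset.range N, (phi μ t θ n 0).re)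
      (volume.restrict (Ioc 0 Real.pi)) := integrable_finsetSum _ fun n _ => integrable_re_phi hq h n
  rw [integral_eq_lintegral_pos_part_sub_lintegral_neg_part hI]
  have h1 : (∫⁻ θ in Ioc 0 Real.pi, ENNReal.ofReal (∑ n ∈ Finset.range N, (phi μ t θ n 0).re)).toReal
      ≤ (∫⁻ θ in Ioc 0 Real.pi, Rbar θ).toReal := by
    refine ENNReal.toReal_mono lintegral_Rbar ?_
    refine setLIntegral_mono' measurableSet_Ioc fun θ hθ => ?_
    obtain ⟨m, hm⟩ := exists_range hθ.1 hθ.2
    refine le_trans (ENNReal.ofReal_le_ofReal ?_) (Cm_le_Rbar hm)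
    refine le_trans (Finset.sum_le_sum fun n _ => ?_) (sum_phi_le hG hq h N m hm)
    exact Complex.re_le_norm _
  have h2 : 0 ≤ (∫⁻ θ in Ioc 0 Real.pi,
    ENNReal.ofReal (-∑ n ∈ Finset.range N, (phi μ t θ n 0).re)).toReal := ENNReal.toReal_nonneg
  linarith

/-- the quenched walk visits the origin finitely often -/
lemma quenched_transient (hG : Good ω) (hq : IsQuenchedLaw ω μ) :
    μ {X | ∃ᶠ n in atTop, X n = 0} = 0 := by
  have hμ := hq.isProbabilityMeasure
  obtain ⟨t, h⟩ := hG.exists_isEnum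
  refine measure_setOfPred_frequently_eq_zero ?_
  have hb : ∀ N, ∑ n ∈ Finset.range N, μ {X | X n = 0} ≤
      ENNReal.ofReal ((∫⁻ θ in Ioc 0 Real.pi, Rbar θ).toReal / Real.pi) := by
    intro N
    have h1 := sum_measure_le hG hq h N
    have h2 : ∑ n ∈ Finset.range N, μ {X | X n = 0} =
        ENNReal.ofReal (∑ n ∈ Finset.range N, μ.real {X | X n = 0}) := by
      rw [ENNReal.ofReal_sum_of_nonneg fun _ _ => measureReal_nonneg]
      refine Finset.sum_congr rfl fun n _ => ?_
      rw [ofReal_measureReal]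
    rw [h2]
    refine ENNReal.ofReal_le_ofReal ?_
    rw [le_div_iff₀ Real.pi_pos]
    linarith
  refine ne_top_of_le_ne_top (b := ENNReal.ofReal ((∫⁻ θ in Ioc 0 Real.pi, Rbar θ).toReal / Real.pi))
    ENNReal.ofReal_ne_top ?_
  rw [ENNReal.tsum_eq_iSup_nat]
  exact iSup_le hb

lemma measurableSet_io : MeasurableSet {X : ℕ → Site 2 | ∃ᶠ n in atTop, X n = 0} := by
  have : {X : ℕ → Site 2 | ∃ᶠ n in atTop, X n = 0} = ⋂ a : ℕ, ⋃ b : ℕ, ⋃ _ : a ≤ b,
      {X | X b = 0} := by
    ext X
    simp only [mem_ofPred_eq, frequently_atTop, mem_iInter, mem_iUnion, exists_prop]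
  rw [this]
  exact MeasurableSet.iInter fun a => MeasurableSet.iUnion fun b => MeasurableSet.iUnion fun _ =>
    measurableSet_eval b 0

lemma annealed_transient (κ : Kernel (Config 2) (ℕ → Site 2))
    (hκ : ∀ᵐ ω ∂(palm Q), IsQuenchedLaw ω (κ ω)) :
    ((palm Q).bind κ) {X | ∃ᶠ n in atTop, X n = 0} = 0 := by
  rw [Measure.bind_apply measurableSet_io κ.measurable.aemeasurable]
  have : ∫⁻ ω, κ ω {X | ∃ᶠ n in atTop, X n = 0} ∂(palm Q) = ∫⁻ ω, 0 ∂(palm Q) := by
    refine lintegral_congr_ae ?_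
    filter_upwards [hκ, ae_good] with ω h1 h2
    exact quenched_transient h2 h1
  rw [this, lintegral_zero]

end Pool.Agent.Helper98.PointWalk
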