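import Mathlib
import Pool.Agent.Helper98.PointWalkTransient
import Pool.Agent.Helper98.PointWalkKernel

/-!
# A transient random walk on a planar discrete point process
-/

open MeasureTheory ProbabilityTheory Filter Topology Set
open scoped ENNReal

namespace Pool.Agent.Helper98.PointWalk

lemma main : ∃ Q : Measure (Config 2), IsDiscretePointProcess Q ∧ AlmostSurelyTransient Q := by
  refine ⟨Q, isDiscretePointProcess_Q, ⟨quenched, ?_⟩, annealed_transient⟩
  filter_upwards [ae_good] with ω hω
  obtain ⟨t, ht⟩ := hω.exists_isEnum
  rw [quenched_apply]
  exact isQuenchedLaw_map ht.closed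

end Pool.Agent.Helper98.PointWalk
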